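import Pool.Agent.H89.Kac.Fourier

set_option autoImplicit false

open MeasureTheory Filter Topology ProbabilityTheory

namespace Pool.Agent.H89.Kac

/-! ### elementary bounds for `exp (i z)` -/

lemma ne1 (z : ℝ) : ‖Complex.exp (Complex.I * z) - 1‖ ≤ |z| := by
  simpa using Real.norm_exp_I_mul_ofReal_sub_one_le (x := z)

lemma ne1' (z : ℝ) : ‖Complex.exp (Complex.I * z) - 1‖ ≤ 2 := by
  calc ‖Complex.exp (Complex.I * z) - 1‖ ≤ ‖Complex.exp (Complex.I * z)‖ + ‖(1 : ℂ)‖ := norm_sub_le _ _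
    _ = 2 := by rw [Complex.norm_exp_I_mul_ofReal]; norm_num

lemma ne2 (z : ℝ) : ‖Complex.exp (Complex.I * z) - 1 - Complex.I * z‖ ≤ 3 * z ^ 2 := by
  have hn : ‖Complex.I * (z : ℂ)‖ = |z| := by simp
  by_cases h : |z| ≤ 1
  · have := Complex.norm_exp_sub_one_sub_id_le (x := Complex.I * z) (by rw [hn]; exact h)
    rw [hn, sq_abs] at this
    nlinarith [sq_nonneg z]
  · push Not at h
    have h1 := ne1' z
    have h2 : ‖Complex.exp (Complex.I * z) - 1 - Complex.I * z‖ ≤ 2 + |z| := by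
      refine (norm_sub_le _ _).trans ?_
      rw [hn]; linarith
    have h3 : |z| ≤ z ^ 2 := by rw [← sq_abs]; nlinarith
    nlinarith

lemma ne2' (z : ℝ) : ‖Complex.exp (Complex.I * z) - 1 - Complex.I * z‖ ≤ 2 * |z| := by
  have hn : ‖Complex.I * (z : ℂ)‖ = |z| := by simp
  refine (norm_sub_le _ _).trans ?_
  rw [hn]
  linarith [ne1 z]

lemma ne3 (z : ℝ) :
    ‖Complex.exp (Complex.I * z) - 1 - Complex.I * z + (z : ℂ) ^ 2 / 2‖ ≤ 4 * |z| ^ 3 := by
  have hn : ‖Complex.I * (z : ℂ)‖ = |z| := by simp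
  by_cases h : |z| ≤ 1
  · have := Complex.exp_bound (x := Complex.I * z) (by rw [hn]; exact h) (n := 3) (by norm_num)
    rw [hn] at this
    have e : Complex.exp (Complex.I * z) - ∑ m ∈ Finset.range 3, (Complex.I * z) ^ m / (m.factorial : ℂ)
        = Complex.exp (Complex.I * z) - 1 - Complex.I * z + (z : ℂ) ^ 2 / 2 := by
      simp only [Finset.sum_range_succ, Finset.sum_range_zero]
      simp only [pow_zero, Nat.factorial, Nat.cast_one, div_one, pow_one, zero_add,
        mul_pow, Complex.I_sq]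
      push_cast
      ring
    rw [e] at this
    refine this.trans ?_
    have h3 : 0 ≤ |z| ^ 3 := by positivity
    simp only [Nat.factorial]
    norm_num
    nlinarith
  · push Not at h
    have h1 := ne1' z
    have h2 : ‖Complex.exp (Complex.I * z) - 1 - Complex.I * z + (z : ℂ) ^ 2 / 2‖
        ≤ 2 + |z| + z ^ 2 / 2 := by
      refine (norm_add_le _ _).trans ?_
      have e : ‖(z : ℂ) ^ 2 / 2‖ = z ^ 2 / 2 := by
        rw [norm_div, norm_pow, Complex.norm_real, Real.norm_eq_abs, sq_abs]; norm_num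
      rw [e]
      gcongr
      refine (norm_sub_le _ _).trans ?_
      rw [hn]; linarith
    have h3 : z ^ 2 = |z| ^ 2 := (sq_abs z).symm
    rw [h3] at h2
    have h4 : 1 ≤ |z| ^ 3 := one_le_pow₀ h.le
    have h5 : |z| ≤ |z| ^ 3 := by nlinarith [abs_nonneg z, sq_nonneg (|z|)]
    have h6 : |z| ^ 2 ≤ |z| ^ 3 := by
      have : |z| ^ 3 = |z| ^ 2 * |z| := by ring
      rw [this]; nlinarith [sq_nonneg (|z|)]
    linarith

lemma cos_eq_re (z : ℝ) : Real.cos z = (Complex.exp (Complex.I * z)).re := by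
  rw [mul_comm, Complex.exp_ofReal_mul_I_re]

lemma sin_eq_im (z : ℝ) : Real.sin z = (Complex.exp (Complex.I * z)).im := by
  rw [mul_comm, Complex.exp_ofReal_mul_I_im]

lemma abs_one_sub_cos_sub (z : ℝ) : |1 - Real.cos z - z ^ 2 / 2| ≤ 4 * |z| ^ 3 := by
  have h := (Complex.abs_re_le_norm _).trans (ne3 z)
  have e : (Complex.exp (Complex.I * z) - 1 - Complex.I * z + (z : ℂ) ^ 2 / 2).re
      = -(1 - Real.cos z - z ^ 2 / 2) := by
    rw [cos_eq_re]
    have : ((z : ℂ) ^ 2 / 2).re = z ^ 2 / 2 := by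
      rw [show ((z : ℂ) ^ 2 / 2) = ((z ^ 2 / 2 : ℝ) : ℂ) by push_cast; ring, Complex.ofReal_re]
    simp only [Complex.add_re, Complex.sub_re, this, Complex.one_re, Complex.mul_re, Complex.I_re,
      Complex.ofReal_re, Complex.I_im, Complex.ofReal_im]
    ring
  rw [e, abs_neg] at h
  exact h

lemma abs_sin_sub (z : ℝ) : |Real.sin z - z| ≤ 4 * |z| ^ 3 := by
  have h := (Complex.abs_im_le_norm _).trans (ne3 z)
  have e : (Complex.exp (Complex.I * z) - 1 - Complex.I * z + (z : ℂ) ^ 2 / 2).im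
      = Real.sin z - z := by
    rw [sin_eq_im]
    have : ((z : ℂ) ^ 2 / 2).im = 0 := by
      rw [show ((z : ℂ) ^ 2 / 2) = ((z ^ 2 / 2 : ℝ) : ℂ) by push_cast; ring, Complex.ofReal_im]
    simp only [Complex.add_im, Complex.sub_im, this, Complex.one_im, Complex.mul_im, Complex.I_re,
      Complex.ofReal_re, Complex.I_im, Complex.ofReal_im]
    ring
  rw [e] at h
  exact h

lemma abs_sin_sub' (z : ℝ) : |Real.sin z - z| ≤ 3 * z ^ 2 := by
  have h := (Complex.abs_im_le_norm _).trans (ne2 z)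
  have e : (Complex.exp (Complex.I * z) - 1 - Complex.I * z).im = Real.sin z - z := by
    rw [sin_eq_im]
    simp only [Complex.sub_im, Complex.one_im, Complex.mul_im, Complex.I_re,
      Complex.ofReal_re, Complex.I_im, Complex.ofReal_im]
    ring
  rw [e] at h
  exact h

lemma one_sub_cos_le_sq (z : ℝ) : 1 - Real.cos z ≤ z ^ 2 / 2 := by
  linarith [Real.one_sub_sq_div_two_le_cos (x := z)]

/-- `|z|^{3/2}`. -/
noncomputable def pw (z : ℝ) : ℝ := |z| * Real.sqrt |z|

lemma pw_nonneg (z : ℝ) : 0 ≤ pw z := by unfold pw; positivity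

lemma pw_mul (y z : ℝ) : pw (y * z) = pw y * pw z := by
  unfold pw
  rw [abs_mul, Real.sqrt_mul (abs_nonneg y)]
  ring

lemma pw_mono {y z : ℝ} (h : |y| ≤ |z|) : pw y ≤ pw z := by
  unfold pw
  gcongr

lemma one_sub_cos_le_pw (z : ℝ) : 1 - Real.cos z ≤ 2 * pw z := by
  unfold pw
  by_cases h : |z| ≤ 1
  · have h1 := one_sub_cos_le_sq z
    have h2 : |z| ≤ Real.sqrt |z| := by
      rw [show |z| = Real.sqrt (|z| * |z|) by rw [Real.sqrt_mul_self (abs_nonneg z)]]
      apply Real.sqrt_le_sqrt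
      rw [Real.sqrt_mul_self (abs_nonneg z)]
      nlinarith [abs_nonneg z]
    have h3 : z ^ 2 = |z| * |z| := by rw [← sq_abs]; ring
    have h4 : |z| * |z| ≤ |z| * Real.sqrt |z| := mul_le_mul_of_nonneg_left h2 (abs_nonneg z)
    nlinarith [abs_nonneg z]
  · push Not at h
    have h1 : 1 ≤ Real.sqrt |z| := by
      rw [show (1 : ℝ) = Real.sqrt 1 by simp]
      exact Real.sqrt_le_sqrt h.le
    have h2 : 1 ≤ |z| * Real.sqrt |z| := by nlinarith
    linarith [Real.neg_one_le_cos z]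

end Pool.Agent.H89.Kac
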