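import Pool.Agent.H89.Kac.CharBound

set_option autoImplicit false

open MeasureTheory Filter Topology ProbabilityTheory

namespace Pool.Agent.H89.Kac

/-- truncated variance -/
noncomputable def vT (μ : Measure ℝ) (T : ℝ) : NNReal :=
  Real.toNNReal (∫ x in {x : ℝ | |x| ≤ T}, x ^ 2 ∂μ)

/-- truncated third absolute moment -/
noncomputable def m3 (μ : Measure ℝ) (T : ℝ) : ℝ := ∫ x in {x : ℝ | |x| ≤ T}, |x| ^ 3 ∂μ

/-- tail first absolute moment -/
noncomputable def m1 (μ : Measure ℝ) (T : ℝ) : ℝ := ∫ x in {x : ℝ | |x| ≤ T}ᶜ, |x| ∂μ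

/-- tail `3/2` absolute moment -/
noncomputable def m32 (μ : Measure ℝ) (T : ℝ) : ℝ := ∫ x in {x : ℝ | |x| ≤ T}ᶜ, pw x ∂μ

/-- third absolute moment of a standard Gaussian -/
noncomputable def cG : ℝ := ∫ x : ℝ, |x| ^ 3 ∂(gaussianReal 0 1)

lemma cG_nonneg : 0 ≤ cG := integral_nonneg fun x => by positivity

lemma measurableSet_T (T : ℝ) : MeasurableSet {x : ℝ | |x| ≤ T} :=
  measurableSet_le (by fun_prop) (by fun_prop)

lemma vT_coe (μ : Measure ℝ) (T : ℝ) :
    ((vT μ T : NNReal) : ℝ) = ∫ x in {x : ℝ | |x| ≤ T}, x ^ 2 ∂μ := by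
  unfold vT
  rw [Real.coe_toNNReal]
  exact integral_nonneg fun x => by positivity

lemma vT_le_one (μ : Measure ℝ) [IsProbabilityMeasure μ] (h2 : Integrable (fun x : ℝ => x ^ 2) μ)
    (h21 : ∫ x, x ^ 2 ∂μ = 1) (T : ℝ) : ((vT μ T : NNReal) : ℝ) ≤ 1 := by
  rw [vT_coe, ← h21]
  exact setIntegral_le_integral h2 (ae_of_all _ fun x => by positivity)

lemma integrable_abs_pow_gaussian (v : NNReal) (k : ℕ) :
    Integrable (fun x : ℝ => |x| ^ k) (gaussianReal 0 v) := by
  have h := (memLp_id_gaussianReal (μ := 0) (v := v) (k : NNReal))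
  have h2 : MemLp id (k : ℕ) (gaussianReal 0 v) := by
    convert! h
  have := h2.integrable_norm_pow' (p := k)
  simpa using this

lemma integral_abs3_gaussian (v : NNReal) (hv : (v : ℝ) ≤ 1) :
    ∫ x : ℝ, |x| ^ 3 ∂(gaussianReal 0 v) ≤ cG := by
  have hmap : gaussianReal 0 v = (gaussianReal 0 1).map (fun x => Real.sqrt v * x) := by
    rw [gaussianReal_map_const_mul]
    congr 1
    · simp
    · ext
      simp
  rw [hmap, integral_map (by fun_prop) (by fun_prop)]
  unfold cG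
  have hs : Real.sqrt v ≤ 1 := by
    exact Real.sqrt_le_one.2 hv
  refine integral_mono_of_nonneg (ae_of_all _ fun x => by positivity)
    (integrable_abs_pow_gaussian 1 3) (ae_of_all _ fun x => ?_)
  simp only [abs_mul, mul_pow, abs_of_nonneg (Real.sqrt_nonneg _)]
  calc Real.sqrt v ^ 3 * |x| ^ 3 ≤ 1 * |x| ^ 3 := by
        gcongr
        exact pow_le_one₀ (Real.sqrt_nonneg _) hs
    _ = _ := one_mul _

lemma integrable_pow_gaussian (v : NNReal) (k : ℕ) :
    Integrable (fun x : ℝ => x ^ k) (gaussianReal 0 v) := by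
  refine (integrable_abs_pow_gaussian v k).mono' (by fun_prop) (ae_of_all _ fun x => ?_)
  simp

lemma integral_sq_gaussian (v : NNReal) : ∫ x : ℝ, x ^ 2 ∂(gaussianReal 0 v) = v := by
  have h := variance_fun_id_gaussianReal (μ := 0) (v := v)
  rw [variance_eq_integral (by fun_prop)] at h
  simpa using h

/-- General comparison of `E F` under `μ` (mean zero) and under the Gaussian law with the
truncated variance. -/
lemma cmp_gauss (μ : Measure ℝ) [IsProbabilityMeasure μ] (h2 : Integrable (fun x : ℝ => x ^ 2) μ)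
    (hm : ∫ x, x ∂μ = 0) (h21 : ∫ x, x ^ 2 ∂μ = 1) (T : ℝ) (F : ℝ → ℂ) (hF : Continuous F)
    (F0 F1 F2 : ℂ) (A : ℝ) (hA : 0 ≤ A) (B : ℝ → ℝ) (hB : Integrable B μ)
    (hF3 : ∀ y : ℝ, ‖F y - F0 - F1 * y - F2 * (y : ℂ) ^ 2‖ ≤ A * |y| ^ 3)
    (hFB : ∀ y : ℝ, ‖F y - F0 - F1 * y‖ ≤ B y) :
    ‖(∫ y, F y ∂μ) - ∫ y, F y ∂(gaussianReal 0 (vT μ T))‖
      ≤ A * (m3 μ T + cG) + ∫ y in {x : ℝ | |x| ≤ T}ᶜ, B y ∂μ := by
  have hx1 : Integrable (fun x : ℝ => x) μ := by
    have : MemLp (fun x : ℝ => x) 2 μ := (memLp_two_iff_integrable_sq (by fun_prop)).2 h2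
    exact this.integrable (by norm_num)
  set S : Set ℝ := {x : ℝ | |x| ≤ T} with hS
  have hSm : MeasurableSet S := measurableSet_T T
  -- integrability under μ
  have hint1 : Integrable (fun y : ℝ => F y - F0 - F1 * y) μ :=
    hB.mono' (by fun_prop) (ae_of_all _ hFB)
  have hc1 : Integrable (fun y : ℝ => (y : ℂ)) μ := hx1.ofReal
  have hc2 : Integrable (fun y : ℝ => (y : ℂ) ^ 2) μ := by
    have := h2.ofReal (𝕜 := ℂ)
    simpa using this
  have hlin : Integrable (fun y : ℝ => F0 + F1 * y) μ := (integrable_const _).add (hc1.const_mul _)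
  have e1 : ∫ y, F y ∂μ = F0 + ∫ y, (F y - F0 - F1 * y) ∂μ := by
    have : ∫ y, F y ∂μ = ∫ y, ((F0 + F1 * (y : ℂ)) + (F y - F0 - F1 * y)) ∂μ := by
      congr 1; ext y; ring
    rw [this, integral_add hlin hint1, integral_add (integrable_const _) (hc1.const_mul _),
      integral_const_mul, integral_complex_ofReal, hm]
    simp
  have e2 : ∫ y, (F y - F0 - F1 * y) ∂μ = (∫ y in S, (F y - F0 - F1 * y) ∂μ)
      + ∫ y in Sᶜ, (F y - F0 - F1 * y) ∂μ := (integral_add_compl hSm hint1).symm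
  have hrem : IntegrableOn (fun y : ℝ => F y - F0 - F1 * y - F2 * (y : ℂ) ^ 2) S μ :=
    (hint1.sub (hc2.const_mul _)).integrableOn
  have e3 : ∫ y in S, (F y - F0 - F1 * y) ∂μ = F2 * ((vT μ T : NNReal) : ℝ)
      + ∫ y in S, (F y - F0 - F1 * y - F2 * (y : ℂ) ^ 2) ∂μ := by
    have : ∫ y in S, (F y - F0 - F1 * y) ∂μ
        = ∫ y in S, (F2 * (y : ℂ) ^ 2 + (F y - F0 - F1 * y - F2 * (y : ℂ) ^ 2)) ∂μ := by
      congr 1; ext y; ring
    rw [this, integral_add (hc2.const_mul _).integrableOn hrem, integral_const_mul, vT_coe]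
    congr 2
    rw [← integral_complex_ofReal]
    congr 1; ext y; push_cast; rfl
  have hμ : ‖(∫ y, F y ∂μ) - (F0 + F2 * ((vT μ T : NNReal) : ℝ))‖
      ≤ A * m3 μ T + ∫ y in Sᶜ, B y ∂μ := by
    have : (∫ y, F y ∂μ) - (F0 + F2 * ((vT μ T : NNReal) : ℝ))
        = (∫ y in S, (F y - F0 - F1 * y - F2 * (y : ℂ) ^ 2) ∂μ)
          + ∫ y in Sᶜ, (F y - F0 - F1 * y) ∂μ := by
      rw [e1, e2, e3]; ring
    rw [this]
    refine (norm_add_le _ _).trans (add_le_add ?_ ?_)
    · unfold m3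
      rw [← integral_const_mul]
      refine norm_integral_le_of_norm_le ?_ (ae_of_all _ fun y => hF3 y)
      refine Integrable.const_mul ?_ _
      -- |y|^3 integrable on S
      have : IntegrableOn (fun y : ℝ => max T 0 * y ^ 2) S μ := (h2.const_mul _).integrableOn
      refine this.mono' (by fun_prop) ?_
      rw [ae_restrict_iff' hSm]
      refine ae_of_all _ fun y hy => ?_
      have hy : |y| ≤ T := hy
      rw [Real.norm_of_nonneg (by positivity)]
      have : |y| ^ 3 = |y| * y ^ 2 := by rw [← sq_abs y]; ring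
      rw [this]
      exact mul_le_mul_of_nonneg_right (hy.trans (le_max_left _ _)) (sq_nonneg y)
    · exact norm_integral_le_of_norm_le hB.integrableOn (ae_of_all _ fun y => hFB y)
  -- Gaussian side
  set G := gaussianReal 0 (vT μ T) with hG
  have hg3 : Integrable (fun y : ℝ => A * |y| ^ 3) G := (integrable_abs_pow_gaussian _ 3).const_mul _
  have hgr : Integrable (fun y : ℝ => F y - F0 - F1 * y - F2 * (y : ℂ) ^ 2) G :=
    hg3.mono' (by fun_prop) (ae_of_all _ hF3)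
  have hg1 : Integrable (fun y : ℝ => (y : ℂ)) G := by
    have := (integrable_pow_gaussian (vT μ T) 1).ofReal (𝕜 := ℂ)
    simpa using this
  have hg2 : Integrable (fun y : ℝ => (y : ℂ) ^ 2) G := by
    have := (integrable_pow_gaussian (vT μ T) 2).ofReal (𝕜 := ℂ)
    simpa using this
  have e4 : ∫ y, F y ∂G = F0 + F2 * ((vT μ T : NNReal) : ℝ)
      + ∫ y, (F y - F0 - F1 * y - F2 * (y : ℂ) ^ 2) ∂G := by
    have : ∫ y, F y ∂G = ∫ y, (((F0 + F1 * (y : ℂ)) + F2 * (y : ℂ) ^ 2)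
        + (F y - F0 - F1 * y - F2 * (y : ℂ) ^ 2)) ∂G := by
      congr 1; ext y; ring
    have hl1 : Integrable (fun y : ℝ => F0 + F1 * (y : ℂ)) G :=
      (integrable_const _).add (hg1.const_mul _)
    have hl2 : Integrable (fun y : ℝ => (F0 + F1 * (y : ℂ)) + F2 * (y : ℂ) ^ 2) G :=
      hl1.add (hg2.const_mul _)
    rw [this, integral_add hl2 hgr, integral_add hl1 (hg2.const_mul _),
      integral_add (integrable_const _) (hg1.const_mul _),
      integral_const_mul, integral_const_mul, integral_complex_ofReal]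
    have h0 : ∫ y : ℝ, y ∂G = 0 := by rw [hG]; exact integral_id_gaussianReal
    have h00 : ∫ y : ℝ, (y : ℂ) ^ 2 ∂G = ((vT μ T : NNReal) : ℝ) := by
      rw [← integral_sq_gaussian (vT μ T), ← integral_complex_ofReal]
      congr 1; ext y; push_cast; rfl
    rw [h0, h00]
    simp
  have hGb : ‖(∫ y, F y ∂G) - (F0 + F2 * ((vT μ T : NNReal) : ℝ))‖ ≤ A * cG := by
    rw [e4, add_sub_cancel_left]
    refine (norm_integral_le_of_norm_le hg3 (ae_of_all _ hF3)).trans ?_
    rw [integral_const_mul]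
    exact mul_le_mul_of_nonneg_left (integral_abs3_gaussian _ (vT_le_one μ h2 h21 T)) hA
  calc ‖(∫ y, F y ∂μ) - ∫ y, F y ∂G‖
      = ‖((∫ y, F y ∂μ) - (F0 + F2 * ((vT μ T : NNReal) : ℝ)))
          - ((∫ y, F y ∂G) - (F0 + F2 * ((vT μ T : NNReal) : ℝ)))‖ := by congr 1; ring
    _ ≤ (A * m3 μ T + ∫ y in Sᶜ, B y ∂μ) + A * cG := (norm_sub_le _ _).trans (add_le_add hμ hGb)
    _ = _ := by ring

end Pool.Agent.H89.Kac
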