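import Pool.Agent.H89.Kac.Tele

set_option autoImplicit false
set_option linter.unusedSectionVars false

open MeasureTheory Filter Topology ProbabilityTheory

namespace Pool.Agent.H89.Kac

section core

variable (μ : Measure ℝ) [IsProbabilityMeasure μ] (h2 : Integrable (fun x : ℝ => x ^ 2) μ)
    (hm : ∫ x, x ∂μ = 0) (h21 : ∫ x, x ^ 2 ∂μ = 1) (T : ℝ)

lemma pw_pow4 (t : ℝ) : pw t ^ 4 = |t| ^ 6 := by
  unfold pw
  rw [mul_pow]
  have : Real.sqrt |t| ^ 4 = |t| ^ 2 := by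
    rw [show (4 : ℕ) = 2 * 2 by norm_num, pow_mul, Real.sq_sqrt (abs_nonneg t)]
  rw [this]; ring

/-- if `x ≤ t²C/2` and `x ≤ 2e` then `x ≤ (1+C) |t|^{3/2} e^{1/4}`. -/
lemma interp_q {x t C c s : ℝ} (hx : 0 ≤ x) (hC : 0 ≤ C) (h1 : x ≤ t ^ 2 / 2 * C)
    (h2 : x ≤ 2 * Real.exp (-(c * s ^ 2))) :
    x ≤ (1 + C) * pw t * Real.exp (-(c * s ^ 2) / 4) := by
  have hR : 0 ≤ (1 + C) * pw t * Real.exp (-(c * s ^ 2) / 4) := by
    have := pw_nonneg t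
    positivity
  refine le_of_pow_le_pow_left₀ (n := 4) (by norm_num) hR ?_
  have e1 : ((1 + C) * pw t * Real.exp (-(c * s ^ 2) / 4)) ^ 4
      = (1 + C) ^ 4 * |t| ^ 6 * Real.exp (-(c * s ^ 2)) := by
    rw [mul_pow, mul_pow, pw_pow4, ← Real.exp_nat_mul]
    congr 2
    push_cast; ring
  rw [e1]
  have e2 : x ^ 4 = x ^ 3 * x := by ring
  rw [e2]
  have h3 : x ^ 3 ≤ (t ^ 2 / 2 * C) ^ 3 := by gcongr
  have h4 : (t ^ 2 / 2 * C) ^ 3 = |t| ^ 6 * C ^ 3 / 8 := by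
    rw [← sq_abs t]; ring
  calc x ^ 3 * x ≤ (|t| ^ 6 * C ^ 3 / 8) * (2 * Real.exp (-(c * s ^ 2))) := by
        rw [← h4]; gcongr
    _ = C ^ 3 / 4 * |t| ^ 6 * Real.exp (-(c * s ^ 2)) := by ring
    _ ≤ _ := by
        gcongr
        nlinarith [pow_nonneg hC 2, pow_nonneg hC 3, pow_nonneg hC 4]

lemma interp_s {x t C c s : ℝ} (hx : 0 ≤ x) (hC : 0 ≤ C) (h1 : x ≤ |t| * Real.sqrt C)
    (h2 : x ≤ Real.exp (-(c * s ^ 2))) (hc : 0 ≤ c) :
    x ≤ (1 + C) * Real.sqrt |t| * Real.exp (-(c * s ^ 2) / 4) := by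
  have hR : 0 ≤ (1 + C) * Real.sqrt |t| * Real.exp (-(c * s ^ 2) / 4) := by positivity
  refine le_of_pow_le_pow_left₀ (n := 2) (by norm_num) hR ?_
  have e1 : ((1 + C) * Real.sqrt |t| * Real.exp (-(c * s ^ 2) / 4)) ^ 2
      = (1 + C) ^ 2 * |t| * Real.exp (-(c * s ^ 2) / 2) := by
    rw [mul_pow, mul_pow, Real.sq_sqrt (abs_nonneg t), ← Real.exp_nat_mul]
    congr 2
    push_cast; ring
  rw [e1, sq]
  have hs : Real.sqrt C ≤ (1 + C) ^ 2 := by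
    rw [Real.sqrt_le_left (by positivity)]
    have : C ≤ (1 + C) := by linarith
    have h5 : 1 ≤ (1 + C) ^ 3 := one_le_pow₀ (by linarith)
    nlinarith
  have h6 : Real.exp (-(c * s ^ 2)) ≤ Real.exp (-(c * s ^ 2) / 2) := by
    apply Real.exp_le_exp.2
    nlinarith [mul_nonneg hc (sq_nonneg s)]
  calc x * x ≤ (|t| * Real.sqrt C) * Real.exp (-(c * s ^ 2)) := by gcongr
    _ ≤ (|t| * (1 + C) ^ 2) * Real.exp (-(c * s ^ 2) / 2) := by gcongr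
    _ = _ := by ring

include h2 hm h21 in
/-- one term of the telescoping sum, `|t| ≤ 1`. -/
lemma term_small {n m : ℕ} (hmn : m < n) (u w : ℕ → ℝ) (ω C c s t : ℝ) (hc : 0 ≤ c)
    (hu : |u m| ≤ ω) (hw : |w m| ≤ ω) (hC : ∑ k ∈ Finset.range n, w k ^ 2 ≤ C) (ht : |t| ≤ 1)
    (hd : ∀ τ : ℝ, |τ| ≤ |t| →
      ‖Psi μ T n m (fun k => s * u k + τ * w k)‖ ≤ Real.exp (-(c * s ^ 2))) :
    ‖Psi μ T n m (fun k => s * u k) * bet μ T (s * u m)
          - (Psi μ T n m (fun k => s * u k + t * w k) * bet μ T (s * u m + t * w m)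
            + Psi μ T n m (fun k => s * u k - t * w k) * bet μ T (s * u m - t * w m)) / 2‖
      ≤ 40 * (1 + C) * (1 + |s|) ^ 3 * pw t * Real.exp (-(c * s ^ 2) / 4) * Ek μ T ω := by
  have hω : 0 ≤ ω := (abs_nonneg _).trans hu
  have hE := Ek_nonneg μ T hω
  have hC0 : 0 ≤ C := (Finset.sum_nonneg fun k _ => sq_nonneg _).trans hC
  set ψ0 := Psi μ T n m (fun k => s * u k) with hψ0
  set ψp := Psi μ T n m (fun k => s * u k + t * w k) with hψp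
  set ψm := Psi μ T n m (fun k => s * u k - t * w k) with hψm
  set b0 := bet μ T (s * u m) with hb0
  set bp := bet μ T (s * u m + t * w m) with hbp
  set bm := bet μ T (s * u m - t * w m) with hbm
  have d0 : ‖ψ0‖ ≤ Real.exp (-(c * s ^ 2)) := by
    have := hd 0 (by simp)
    simpa using this
  have dp : ‖ψp‖ ≤ Real.exp (-(c * s ^ 2)) := hd t le_rfl
  have dm : ‖ψm‖ ≤ Real.exp (-(c * s ^ 2)) := by
    have := hd (-t) (by simp)
    have e : (fun k => s * u k + -t * w k) = fun k => s * u k - t * w k := by ext k; ring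
    rwa [e] at this
  have hid : ψ0 * b0 - (ψp * bp + ψm * bm) / 2
      = ψ0 * (b0 - (bp + bm) / 2) + (ψ0 - (ψp + ψm) / 2) * ((bp + bm) / 2)
        - ((ψp - ψm) / 2) * ((bp - bm) / 2) := by ring
  rw [hid]
  have hq1 : ‖b0 - (bp + bm) / 2‖ ≤ 4 * (1 + |s|) * pw t * Ek μ T ω :=
    bet_q_bound' μ h2 hm h21 T hu hw s t ht
  have hs1 : ‖(bp - bm) / 2‖ ≤ 4 * (1 + |s|) ^ 2 * |t| * Ek μ T ω :=
    bet_s_bound' μ h2 hm h21 T hu hw s t ht
  have hc1 : ‖(bp + bm) / 2‖ ≤ 32 * (1 + |s|) ^ 3 * Ek μ T ω := by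
    have h1 : ‖bp‖ ≤ 4 * (1 + |s| + |t|) ^ 3 * Ek μ T ω := bet_bound' μ h2 hm h21 T hu hw s t
    have h2' : ‖bm‖ ≤ 4 * (1 + |s| + |-t|) ^ 3 * Ek μ T ω := by
      have := bet_bound' μ h2 hm h21 T hu hw s (-t)
      have e : s * u m + -t * w m = s * u m - t * w m := by ring
      rwa [e] at this
    rw [abs_neg] at h2'
    have h3 : (1 + |s| + |t|) ^ 3 ≤ (2 * (1 + |s|)) ^ 3 := by
      gcongr
      linarith [abs_nonneg s]
    calc ‖(bp + bm) / 2‖ = ‖bp + bm‖ / 2 := by rw [norm_div]; norm_num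
      _ ≤ (‖bp‖ + ‖bm‖) / 2 := by gcongr; exact norm_add_le _ _
      _ ≤ 4 * (1 + |s| + |t|) ^ 3 * Ek μ T ω := by linarith
      _ ≤ 4 * (2 * (1 + |s|)) ^ 3 * Ek μ T ω := by gcongr
      _ = _ := by ring
  have hq2 : ‖ψ0 - (ψp + ψm) / 2‖ ≤ (1 + C) * pw t * Real.exp (-(c * s ^ 2) / 4) := by
    refine interp_q (norm_nonneg _) hC0 ?_ ?_
    · refine (Psi_q_bound μ h2 hm h21 T hmn u w s t).trans ?_
      gcongr
    · calc ‖ψ0 - (ψp + ψm) / 2‖ ≤ ‖ψ0‖ + ‖(ψp + ψm) / 2‖ := norm_sub_le _ _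
        _ = ‖ψ0‖ + ‖ψp + ψm‖ / 2 := by rw [norm_div]; norm_num
        _ ≤ ‖ψ0‖ + (‖ψp‖ + ‖ψm‖) / 2 := by gcongr; exact norm_add_le _ _
        _ ≤ _ := by linarith
  have hs2 : ‖(ψp - ψm) / 2‖ ≤ (1 + C) * Real.sqrt |t| * Real.exp (-(c * s ^ 2) / 4) := by
    refine interp_s (norm_nonneg _) hC0 ?_ ?_ hc
    · refine (Psi_s_bound μ h2 hm h21 T hmn u w s t).trans ?_
      gcongr
    · calc ‖(ψp - ψm) / 2‖ = ‖ψp - ψm‖ / 2 := by rw [norm_div]; norm_num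
        _ ≤ (‖ψp‖ + ‖ψm‖) / 2 := by gcongr; exact norm_sub_le _ _
        _ ≤ _ := by linarith
  have hexp : Real.exp (-(c * s ^ 2)) ≤ Real.exp (-(c * s ^ 2) / 4) := by
    apply Real.exp_le_exp.2
    nlinarith [mul_nonneg hc (sq_nonneg s)]
  have hpt := pw_nonneg t
  have hpt' : Real.sqrt |t| * |t| = pw t := by unfold pw; ring
  have hs0 : 0 ≤ |s| := abs_nonneg s
  set e4 := Real.exp (-(c * s ^ 2) / 4) with he4
  have he40 : 0 ≤ e4 := (Real.exp_pos _).le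
  have hX : 0 ≤ pw t * e4 * Ek μ T ω := by positivity
  calc ‖ψ0 * (b0 - (bp + bm) / 2) + (ψ0 - (ψp + ψm) / 2) * ((bp + bm) / 2)
        - ((ψp - ψm) / 2) * ((bp - bm) / 2)‖
      ≤ ‖ψ0‖ * ‖b0 - (bp + bm) / 2‖ + ‖ψ0 - (ψp + ψm) / 2‖ * ‖(bp + bm) / 2‖
          + ‖(ψp - ψm) / 2‖ * ‖(bp - bm) / 2‖ := by
        refine (norm_sub_le _ _).trans ?_
        rw [norm_mul ((ψp - ψm) / 2)]
        gcongr
        refine (norm_add_le _ _).trans ?_
        rw [norm_mul, norm_mul]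
    _ ≤ e4 * (4 * (1 + |s|) * pw t * Ek μ T ω)
          + ((1 + C) * pw t * e4) * (32 * (1 + |s|) ^ 3 * Ek μ T ω)
          + ((1 + C) * Real.sqrt |t| * e4) * (4 * (1 + |s|) ^ 2 * |t| * Ek μ T ω) := by
        have := d0.trans hexp
        gcongr
    _ = (4 * (1 + |s|) + 32 * (1 + C) * (1 + |s|) ^ 3 + 4 * (1 + C) * (1 + |s|) ^ 2)
          * (pw t * e4 * Ek μ T ω) := by
        rw [← hpt']; ring
    _ ≤ (40 * (1 + C) * (1 + |s|) ^ 3) * (pw t * e4 * Ek μ T ω) := by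
        gcongr
        have h1 : (1 + |s|) ≤ (1 + |s|) ^ 3 := by
          have : 1 ≤ (1 + |s|) ^ 2 := one_le_pow₀ (by linarith)
          nlinarith
        have h2 : (1 + |s|) ^ 2 ≤ (1 + |s|) ^ 3 := by
          have : (1 + |s|) ^ 3 = (1 + |s|) ^ 2 * (1 + |s|) := by ring
          rw [this]
          nlinarith [sq_nonneg (1 + |s|)]
        have h3 : 0 ≤ C * (1 + |s|) ^ 3 := by positivity
        have h4 : C * (1 + |s|) ^ 2 ≤ C * (1 + |s|) ^ 3 := by gcongr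
        nlinarith
    _ = _ := by ring

include h2 hm h21 in
/-- one term of the telescoping sum, any `t`. -/
lemma term_large {n m : ℕ} (u w : ℕ → ℝ) (ω c s t : ℝ) (hc : 0 ≤ c)
    (hu : |u m| ≤ ω) (hw : |w m| ≤ ω)
    (hd : ∀ τ : ℝ, |τ| ≤ |t| →
      ‖Psi μ T n m (fun k => s * u k + τ * w k)‖ ≤ Real.exp (-(c * (s ^ 2 + τ ^ 2)))) :
    ‖Psi μ T n m (fun k => s * u k) * bet μ T (s * u m)
          - (Psi μ T n m (fun k => s * u k + t * w k) * bet μ T (s * u m + t * w m)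
            + Psi μ T n m (fun k => s * u k - t * w k) * bet μ T (s * u m - t * w m)) / 2‖
      ≤ 4 * (1 + (1 + |t|) ^ 3 * Real.exp (-(c * t ^ 2))) * (1 + |s|) ^ 3
          * Real.exp (-(c * s ^ 2)) * Ek μ T ω := by
  have hω : 0 ≤ ω := (abs_nonneg _).trans hu
  have hE := Ek_nonneg μ T hω
  set ψ0 := Psi μ T n m (fun k => s * u k) with hψ0
  set ψp := Psi μ T n m (fun k => s * u k + t * w k) with hψp
  set ψm := Psi μ T n m (fun k => s * u k - t * w k) with hψm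
  set b0 := bet μ T (s * u m) with hb0
  set bp := bet μ T (s * u m + t * w m) with hbp
  set bm := bet μ T (s * u m - t * w m) with hbm
  have d0 : ‖ψ0‖ ≤ Real.exp (-(c * s ^ 2)) := by
    have := hd 0 (by simp)
    simpa using this
  have eadd : Real.exp (-(c * (s ^ 2 + t ^ 2))) = Real.exp (-(c * s ^ 2)) * Real.exp (-(c * t ^ 2)) := by
    rw [← Real.exp_add]; congr 1; ring
  have dp : ‖ψp‖ ≤ Real.exp (-(c * s ^ 2)) * Real.exp (-(c * t ^ 2)) := by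
    rw [← eadd]; exact hd t le_rfl
  have dm : ‖ψm‖ ≤ Real.exp (-(c * s ^ 2)) * Real.exp (-(c * t ^ 2)) := by
    rw [← eadd]
    have := hd (-t) (by simp)
    have e : (fun k => s * u k + -t * w k) = fun k => s * u k - t * w k := by ext k; ring
    rwa [e, neg_sq] at this
  have h0 : ‖b0‖ ≤ 4 * (1 + |s|) ^ 3 * Ek μ T ω := by
    have := bet_bound' μ h2 hm h21 T hu hw s 0
    simpa using this
  have hprod : (1 + |s| + |t|) ^ 3 ≤ ((1 + |s|) * (1 + |t|)) ^ 3 := by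
    gcongr
    nlinarith [abs_nonneg s, abs_nonneg t, mul_nonneg (abs_nonneg s) (abs_nonneg t)]
  have h1 : ‖bp‖ ≤ 4 * ((1 + |s|) * (1 + |t|)) ^ 3 * Ek μ T ω := by
    refine (bet_bound' μ h2 hm h21 T hu hw s t).trans ?_
    gcongr
  have h2' : ‖bm‖ ≤ 4 * ((1 + |s|) * (1 + |t|)) ^ 3 * Ek μ T ω := by
    have := bet_bound' μ h2 hm h21 T hu hw s (-t)
    have e : s * u m + -t * w m = s * u m - t * w m := by ring
    rw [e, abs_neg] at this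
    refine this.trans ?_
    gcongr
  calc ‖ψ0 * b0 - (ψp * bp + ψm * bm) / 2‖
      ≤ ‖ψ0 * b0‖ + ‖(ψp * bp + ψm * bm) / 2‖ := norm_sub_le _ _
    _ = ‖ψ0‖ * ‖b0‖ + ‖ψp * bp + ψm * bm‖ / 2 := by rw [norm_mul, norm_div]; norm_num
    _ ≤ ‖ψ0‖ * ‖b0‖ + (‖ψp‖ * ‖bp‖ + ‖ψm‖ * ‖bm‖) / 2 := by
        gcongr
        refine (norm_add_le _ _).trans ?_
        rw [norm_mul, norm_mul]
    _ ≤ Real.exp (-(c * s ^ 2)) * (4 * (1 + |s|) ^ 3 * Ek μ T ω)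
        + ((Real.exp (-(c * s ^ 2)) * Real.exp (-(c * t ^ 2))) * (4 * ((1 + |s|) * (1 + |t|)) ^ 3 * Ek μ T ω)
          + (Real.exp (-(c * s ^ 2)) * Real.exp (-(c * t ^ 2))) * (4 * ((1 + |s|) * (1 + |t|)) ^ 3 * Ek μ T ω)) / 2 := by
        gcongr
    _ = _ := by ring

end core

end Pool.Agent.H89.Kac
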