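import Pool.Agent.H89.Kac.ExpDiff

set_option autoImplicit false
set_option linter.unusedSectionVars false

open MeasureTheory Filter Topology ProbabilityTheory

namespace Pool.Agent.H89.Kac

section decay

variable (μ : Measure ℝ) [IsProbabilityMeasure μ] (h2 : Integrable (fun x : ℝ => x ^ 2) μ)
    (hm : ∫ x, x ∂μ = 0) (h21 : ∫ x, x ^ 2 ∂μ = 1) (T : ℝ)

include h2 hm h21 in
lemma exists_theta0 : ∃ θ0 : ℝ, 0 < θ0 ∧ θ0 ≤ 1 ∧
    ∀ θ : ℝ, |θ| ≤ θ0 → ‖charFun μ θ‖ ≤ Real.exp (-(θ ^ 2 / 4)) := by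
  have h := taylor_charFun_two (P := μ) (X := id) aemeasurable_id (by simpa using hm)
    (by simpa using h21)
  rw [Measure.map_id] at h
  have h' := h.bound (c := 1 / 4) (by norm_num)
  rw [Metric.eventually_nhds_iff] at h'
  obtain ⟨ε, hε, hb⟩ := h'
  refine ⟨min (ε / 2) 1, by positivity, min_le_right _ _, fun θ hθ => ?_⟩
  have hθ1 : |θ| ≤ 1 := hθ.trans (min_le_right _ _)
  have hθε : |θ| < ε := lt_of_le_of_lt (hθ.trans (min_le_left _ _)) (by linarith)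
  have hbθ := hb (y := θ) (by simpa [Real.dist_eq] using hθε)
  have hsq : θ ^ 2 ≤ 1 := by rw [← sq_abs]; exact pow_le_one₀ (abs_nonneg _) hθ1
  have e1 : ‖(1 : ℂ) - (θ : ℂ) ^ 2 / 2‖ = 1 - θ ^ 2 / 2 := by
    have : (1 : ℂ) - (θ : ℂ) ^ 2 / 2 = ((1 - θ ^ 2 / 2 : ℝ) : ℂ) := by push_cast; ring
    rw [this, Complex.norm_real, Real.norm_eq_abs, abs_of_nonneg (by linarith)]
  have e2 : ‖θ ^ 2‖ = θ ^ 2 := by rw [Real.norm_eq_abs, abs_of_nonneg (sq_nonneg θ)]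
  have h3 : ‖charFun μ θ‖ ≤ 1 - θ ^ 2 / 4 := by
    calc ‖charFun μ θ‖ = ‖(charFun μ θ - (1 - (θ : ℂ) ^ 2 / 2)) + (1 - (θ : ℂ) ^ 2 / 2)‖ := by
          congr 1; ring
      _ ≤ ‖charFun μ θ - (1 - (θ : ℂ) ^ 2 / 2)‖ + ‖(1 : ℂ) - (θ : ℂ) ^ 2 / 2‖ := norm_add_le _ _
      _ ≤ 1 / 4 * ‖θ ^ 2‖ + (1 - θ ^ 2 / 2) := by rw [e1]; gcongr
      _ = 1 - θ ^ 2 / 4 := by rw [e2]; ring
  refine h3.trans ?_
  have := Real.add_one_le_exp (-(θ ^ 2 / 4))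
  linarith

lemma norm_charFun_gaussian_le (v : NNReal) (hv : 1 / 2 ≤ (v : ℝ)) (θ : ℝ) :
    ‖charFun (gaussianReal 0 v) θ‖ ≤ Real.exp (-(θ ^ 2 / 4)) := by
  rw [charFun_gaussianReal, Complex.norm_exp]
  apply Real.exp_le_exp.2
  have : ((θ : ℂ) * ((0 : ℝ) : ℂ) * Complex.I - (v : ℂ) * (θ : ℂ) ^ 2 / 2).re = -((v : ℝ) * θ ^ 2 / 2) := by
    have e : ((θ : ℂ) * ((0 : ℝ) : ℂ) * Complex.I - (v : ℂ) * (θ : ℂ) ^ 2 / 2)
        = ((-((v : ℝ) * θ ^ 2 / 2) : ℝ) : ℂ) := by push_cast; ring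
    rw [e, Complex.ofReal_re]
  rw [this]
  nlinarith [sq_nonneg θ]

lemma Psi_decay {θ0 : ℝ} (hθ : ∀ θ : ℝ, |θ| ≤ θ0 → ‖charFun μ θ‖ ≤ Real.exp (-(θ ^ 2 / 4)))
    (hv : 1 / 2 ≤ ((vT μ T : NNReal) : ℝ)) (n m : ℕ) (a : ℕ → ℝ) (ha : ∀ k < n, |a k| ≤ θ0) :
    ‖Psi μ T n m a‖ ≤ Real.exp (-((∑ k ∈ (Finset.range n).erase m, a k ^ 2) / 4)) := by
  unfold Psi
  rw [norm_prod, Finset.sum_div, ← Finset.sum_neg_distrib, Real.exp_sum]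
  refine Finset.prod_le_prod (fun _ _ => norm_nonneg _) fun k hk => ?_
  have hk' : k < n := Finset.mem_range.1 (Finset.mem_of_mem_erase hk)
  unfold mix
  split_ifs
  · exact hθ _ (ha k hk')
  · exact norm_charFun_gaussian_le _ hv _

lemma Phi_decay {θ0 : ℝ} (hθ : ∀ θ : ℝ, |θ| ≤ θ0 → ‖charFun μ θ‖ ≤ Real.exp (-(θ ^ 2 / 4)))
    (n : ℕ) (a : ℕ → ℝ) (ha : ∀ k < n, |a k| ≤ θ0) :
    ‖Phi (fun _ => μ) n a‖ ≤ Real.exp (-((∑ k ∈ Finset.range n, a k ^ 2) / 4)) := by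
  unfold Phi
  rw [norm_prod, Finset.sum_div, ← Finset.sum_neg_distrib, Real.exp_sum]
  exact Finset.prod_le_prod (fun _ _ => norm_nonneg _) fun k hk => hθ _ (ha k (Finset.mem_range.1 hk))

include h2 h21 in
lemma exists_vT_half : ∃ T0 : ℝ, ∀ T : ℝ, T0 ≤ T → 1 / 2 ≤ ((vT μ T : NNReal) : ℝ) := by
  have hmono : Monotone (fun k : ℕ => {x : ℝ | |x| ≤ (k : ℝ)}) := by
    intro i j hij x hx
    have hx' : |x| ≤ (i : ℝ) := hx
    have : (i : ℝ) ≤ j := by exact_mod_cast hij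
    exact hx'.trans this
  have hU : (⋃ k : ℕ, {x : ℝ | |x| ≤ (k : ℝ)}) = Set.univ := by
    ext x
    simp only [Set.mem_iUnion, Set.mem_univ, iff_true]
    exact exists_nat_ge |x|
  have h := tendsto_setIntegral_of_monotone (μ := μ) (f := fun x : ℝ => x ^ 2)
    (fun k : ℕ => measurableSet_T (k : ℝ)) hmono (by rw [hU]; exact h2.integrableOn)
  rw [hU, setIntegral_univ, h21] at h
  have h1 := (tendsto_order.1 h).1 (1 / 2) (by norm_num)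
  obtain ⟨K, hK⟩ := h1.exists
  refine ⟨K, fun T hT => ?_⟩
  rw [vT_coe]
  refine hK.le.trans ?_
  refine setIntegral_mono_set h2.integrableOn (ae_of_all _ fun x => by positivity) ?_
  refine (LE.le.eventuallyLE ?_)
  intro x hx
  have hx' : |x| ≤ (K : ℝ) := hx
  exact hx'.trans hT

end decay

end Pool.Agent.H89.Kac
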