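import Mathlib

/-!
Common definitions for the proof of the convergence of the expected number of real roots of
Kac polynomials minus (2/π) log n.
-/

set_option autoImplicit false

open MeasureTheory Filter Topology Polynomial

namespace Pool.Agent.H89.Kac

/-- Number of distinct real roots of `p` in the half-open interval `(a, b]`. -/
noncomputable def Z (p : ℝ[X]) (a b : ℝ) : ℕ :=
  (p.roots.toFinset.filter (fun x => a < x ∧ x ≤ b)).card

/-- The tent function of half-width `η` (not normalized; its integral is `η ^ 2`). -/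
noncomputable def tri (η u : ℝ) : ℝ := max (η - |u|) 0

/-- The polynomial `∑ ε^k c_k X^k`, `k ≤ n` (used with `ε = 1` and `ε = -1`). -/
noncomputable def kac (ε : ℝ) (n : ℕ) (c : ℕ → ℝ) : ℝ[X] :=
  ∑ k ∈ Finset.range (n + 1), C (ε ^ k * c k) * X ^ k

/-- Law of the iid sequence of coefficients. -/
noncomputable def Pm (μ : Measure ℝ) : Measure (ℕ → ℝ) := Measure.infinitePi (fun _ : ℕ => μ)

/-- `∑ x^(2k)`. -/
noncomputable def An (n : ℕ) (x : ℝ) : ℝ := ∑ k ∈ Finset.range (n + 1), x ^ (2 * k)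

/-- `∑ k x^(2k-1)`. -/
noncomputable def Bn (n : ℕ) (x : ℝ) : ℝ := ∑ k ∈ Finset.range (n + 1), (k : ℝ) * x ^ (2 * k - 1)

/-- `∑ k^2 x^(2k-2)`. -/
noncomputable def Cn (n : ℕ) (x : ℝ) : ℝ :=
  ∑ k ∈ Finset.range (n + 1), (k : ℝ) ^ 2 * x ^ (2 * k - 2)

/-- Kac density of the Gaussian polynomial of degree `n`. -/
noncomputable def rho (n : ℕ) (x : ℝ) : ℝ :=
  Real.sqrt (An n x * Cn n x - Bn n x ^ 2) / (Real.pi * An n x)

end Pool.Agent.H89.Kac
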