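import Pool.Agent.H89.Kac.JBound

set_option autoImplicit false
set_option linter.unusedSectionVars false

open MeasureTheory Filter Topology ProbabilityTheory

namespace Pool.Agent.H89.Kac

section expdiff

variable (μ : Measure ℝ) [IsProbabilityMeasure μ] (h2 : Integrable (fun x : ℝ => x ^ 2) μ)
    (hm : ∫ x, x ∂μ = 0) (h21 : ∫ x, x ^ 2 ∂μ = 1) (T : ℝ)

include h2 hm h21 in
lemma J_diff (n : ℕ) (u w ω : ℕ → ℝ) (C c s τ0 : ℝ) (hc : 0 < c) (hτ0 : 0 < τ0)
    (hu : ∀ k < n, |u k| ≤ ω k) (hw : ∀ k < n, |w k| ≤ ω k)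
    (hC : ∑ k ∈ Finset.range n, w k ^ 2 ≤ C)
    (hd : ∀ m < n, ∀ τ : ℝ, |τ| ≤ τ0 →
      ‖Psi μ T n m (fun k => s * u k + τ * w k)‖ ≤ Real.exp (-(c * (s ^ 2 + τ ^ 2)))) :
    |Jn (fun _ => μ) n u w s - Jn (fun _ => gaussianReal 0 (vT μ T)) n u w s|
      ≤ Kc C c * hs c s * (∑ k ∈ Finset.range n, Ek μ T (ω k)) * I0 + 8 / τ0 := by
  have hC0 : 0 ≤ C := (Finset.sum_nonneg fun k _ => sq_nonneg _).trans hC
  have hK0 : 0 ≤ Kc C c := by unfold Kc; positivity
  have hE : 0 ≤ ∑ k ∈ Finset.range n, Ek μ T (ω k) :=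
    Finset.sum_nonneg fun k hk => Ek_nonneg μ T ((abs_nonneg _).trans (hu k (Finset.mem_range.1 hk)))
  have hμi := Jn_integrable (fun _ => μ) (fun _ => h2) n u w s
  have hGi := Jn_integrable (fun _ => gaussianReal 0 (vT μ T)) (fun _ => integrable_pow_gaussian _ 2) n u w s
  unfold Jn
  rw [← integral_sub hμi hGi]
  set A := Kc C c * hs c s * (∑ k ∈ Finset.range n, Ek μ T (ω k)) with hA
  have hA0 : 0 ≤ A := by have := hs_nonneg c s; positivity
  have hSm : MeasurableSet {t : ℝ | τ0 < |t|} := measurableSet_lt (by fun_prop) (by fun_prop)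
  have hb1 : Integrable (fun t : ℝ => A * gt t) := gt_integrable.const_mul _
  have hb2 : Integrable (Set.indicator {t : ℝ | τ0 < |t|} (fun t : ℝ => 4 * (1 / t ^ 2))) := by
    rw [integrable_indicator_iff hSm]
    exact (integrableOn_inv_sq_tail hτ0).const_mul 4
  rw [← Real.norm_eq_abs]
  refine (norm_integral_le_of_norm_le (hb1.add hb2) (ae_of_all _ fun t => ?_)).trans ?_
  · simp only [Pi.add_apply]
    rw [← sub_div, norm_div, Real.norm_eq_abs, Real.norm_eq_abs, abs_of_nonneg (sq_nonneg t)]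
    by_cases ht : |t| ≤ τ0
    · have hmem : t ∉ {t : ℝ | τ0 < |t|} := by
        simp only [Set.mem_ofPred_eq, not_lt]; exact ht
      rw [Set.indicator_of_notMem hmem, add_zero]
      have h := D_bound μ h2 hm h21 T n u w ω C c s t hc hu hw hC
        (fun m hmn τ hτ => hd m hmn τ (hτ.trans ht))
      have h' : |(D2 (fun _ => μ) n u w s t).re - (D2 (fun _ => gaussianReal 0 (vT μ T)) n u w s t).re|
          ≤ A * min (pw t) 1 := by
        rw [← Complex.sub_re]
        refine (Complex.abs_re_le_norm _).trans (h.trans (le_of_eq ?_))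
        rw [hA]; unfold hs; ring
      unfold gt
      rw [← mul_div_assoc]
      gcongr
    · push Not at ht
      have hmem : t ∈ {t : ℝ | τ0 < |t|} := ht
      rw [Set.indicator_of_mem hmem]
      have h1 := norm_D2_le_two (fun _ => μ) n u w s t
      have h2' := norm_D2_le_two (fun _ => gaussianReal 0 (vT μ T)) n u w s t
      have h3 : |(D2 (fun _ => μ) n u w s t).re - (D2 (fun _ => gaussianReal 0 (vT μ T)) n u w s t).re|
          ≤ 4 := (abs_sub _ _).trans (by linarith)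
      have h4 : 0 ≤ A * gt t := mul_nonneg hA0 (gt_nonneg t)
      calc _ ≤ 4 / t ^ 2 := by gcongr
        _ = 4 * (1 / t ^ 2) := by ring
        _ ≤ _ := by linarith
  · simp only [Pi.add_apply]
    rw [integral_add hb1 hb2, integral_const_mul, integral_indicator hSm, integral_const_mul,
      integral_inv_sq_tail hτ0]
    apply le_of_eq
    unfold I0
    ring

include h2 hm h21 in
theorem expect_diff (n : ℕ) (u w ω : ℕ → ℝ) (C c τ0 η : ℝ) (hc : 0 < c) (hτ0 : 0 < τ0) (hη : 0 < η)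
    (hu : ∀ k < n, |u k| ≤ ω k) (hw : ∀ k < n, |w k| ≤ ω k)
    (hC : ∑ k ∈ Finset.range n, w k ^ 2 ≤ C)
    (hd : ∀ m < n, ∀ s τ : ℝ, |s| ≤ τ0 → |τ| ≤ τ0 →
      ‖Psi μ T n m (fun k => s * u k + τ * w k)‖ ≤ Real.exp (-(c * (s ^ 2 + τ ^ 2)))) :
    |(∫ ω', tri η (lin u n ω') * |lin w n ω'| ∂(Measure.infinitePi fun _ : ℕ => μ))
      - ∫ ω', tri η (lin u n ω') * |lin w n ω'| ∂(Measure.infinitePi fun _ : ℕ => gaussianReal 0 (vT μ T))|
      ≤ c0⁻¹ ^ 2 * (η ^ 2 / 2 * (Kc C c * (∑ k ∈ Finset.range n, Ek μ T (ω k)) * I0 * H0 c)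
        + 8 / τ0 * (c0 * η) + 8 * (c0 * Real.sqrt C) / τ0) := by
  have hC0 : 0 ≤ C := (Finset.sum_nonneg fun k _ => sq_nonneg _).trans hC
  have hK0 : 0 ≤ Kc C c := by unfold Kc; positivity
  have hE : 0 ≤ ∑ k ∈ Finset.range n, Ek μ T (ω k) :=
    Finset.sum_nonneg fun k hk => Ek_nonneg μ T ((abs_nonneg _).trans (hu k (Finset.mem_range.1 hk)))
  have hc0 := c0_pos
  rw [expect_eq_Jn (fun _ => μ) (fun _ => h2) n u w η hη.le,
    expect_eq_Jn (fun _ => gaussianReal 0 (vT μ T)) (fun _ => integrable_pow_gaussian _ 2) n u w η hη.le,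
    ← mul_sub, abs_mul, abs_of_nonneg (by positivity : 0 ≤ c0⁻¹ ^ 2)]
  gcongr
  -- measurability and integrability of the two integrands
  have hbJ : ∀ (ν : ℕ → Measure ℝ) [∀ k, IsProbabilityMeasure (ν k)]
      (_ : ∀ k, Integrable (fun x : ℝ => x ^ 2) (ν k)) (_ : ∀ k, ∫ x, x ∂(ν k) = 0)
      (_ : ∀ k, ∫ x, x ^ 2 ∂(ν k) ≤ 1) (s : ℝ), |Jn ν n u w s| ≤ c0 * Real.sqrt C := by
    intro ν _ a1 a2 a3 s
    refine (abs_Jn_le ν a1 a2 a3 n u w s).trans ?_
    gcongr
  have hmeasJ : ∀ (ν : ℕ → Measure ℝ) [∀ k, IsProbabilityMeasure (ν k)]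
      (_ : ∀ k, Integrable (fun x : ℝ => x ^ 2) (ν k)), AEStronglyMeasurable (Jn ν n u w) volume := by
    intro ν _ a1
    have e : Jn ν n u w = fun s => c0 * ∫ ω', Real.cos (s * lin u n ω') * |lin w n ω'|
        ∂(Measure.infinitePi ν) := by
      ext s
      unfold Jn
      simp_rw [D2_re]
      exact J_eq (Measure.infinitePi ν) (lin u n) (lin w n) (measurable_lin u n)
        (measurable_lin w n) ((memLp_lin ν a1 w n).integrable (by norm_num)) s
    rw [e]
    have hmu := measurable_lin u n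
    have hmw := measurable_lin w n
    have hmm : Measurable (Function.uncurry fun (s : ℝ) (ω' : ℕ → ℝ) =>
        Real.cos (s * lin u n ω') * |lin w n ω'|) := by fun_prop
    exact ((hmm.stronglyMeasurable.integral_prod_right).const_mul c0).aestronglyMeasurable
  have hintJ : ∀ (ν : ℕ → Measure ℝ) [∀ k, IsProbabilityMeasure (ν k)]
      (_ : ∀ k, Integrable (fun x : ℝ => x ^ 2) (ν k)) (_ : ∀ k, ∫ x, x ∂(ν k) = 0)
      (_ : ∀ k, ∫ x, x ^ 2 ∂(ν k) ≤ 1),
      Integrable (fun s : ℝ => (1 - Real.cos (s * η)) / s ^ 2 * Jn ν n u w s) := by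
    intro ν _ a1 a2 a3
    refine ((integrable_one_sub_cos η).mul_const (c0 * Real.sqrt C)).mono' ?_ (ae_of_all _ fun s => ?_)
    · exact (by fun_prop : Measurable fun s : ℝ => (1 - Real.cos (s * η)) / s ^ 2).aestronglyMeasurable.mul
        (hmeasJ ν a1)
    · rw [norm_mul, Real.norm_eq_abs, Real.norm_eq_abs, abs_of_nonneg (one_sub_cos_nonneg s η)]
      exact mul_le_mul_of_nonneg_left (hbJ ν a1 a2 a3 s) (one_sub_cos_nonneg s η)
  have g2 : ∀ k : ℕ, Integrable (fun x : ℝ => x ^ 2) (gaussianReal 0 (vT μ T)) :=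
    fun _ => integrable_pow_gaussian _ 2
  have g1 : ∀ k : ℕ, ∫ x, x ∂(gaussianReal 0 (vT μ T)) = 0 := fun _ => integral_id_gaussianReal
  have g3 : ∀ k : ℕ, ∫ x, x ^ 2 ∂(gaussianReal 0 (vT μ T)) ≤ 1 := fun _ => by
    rw [integral_sq_gaussian]; exact vT_le_one μ h2 h21 T
  have iμ := hintJ (fun _ => μ) (fun _ => h2) (fun _ => hm) (fun _ => h21.le)
  have iG := hintJ (fun _ => gaussianReal 0 (vT μ T)) g2 g1 g3
  rw [← integral_sub iμ iG]
  set A := Kc C c * (∑ k ∈ Finset.range n, Ek μ T (ω k)) * I0 with hA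
  have hA0 : 0 ≤ A := by have := I0_nonneg; positivity
  have hSm : MeasurableSet {t : ℝ | τ0 < |t|} := measurableSet_lt (by fun_prop) (by fun_prop)
  have hb1 : Integrable (fun s : ℝ => η ^ 2 / 2 * A * hs c s) := (hs_integrable hc).const_mul _
  have hb3 : Integrable (fun s : ℝ => 8 / τ0 * ((1 - Real.cos (s * η)) / s ^ 2)) :=
    (integrable_one_sub_cos η).const_mul _
  have hb2 : Integrable (Set.indicator {t : ℝ | τ0 < |t|}
      (fun t : ℝ => 4 * (c0 * Real.sqrt C) * (1 / t ^ 2))) := by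
    rw [integrable_indicator_iff hSm]
    exact (integrableOn_inv_sq_tail hτ0).const_mul _
  have hb13 : Integrable (fun s : ℝ => η ^ 2 / 2 * A * hs c s
      + 8 / τ0 * ((1 - Real.cos (s * η)) / s ^ 2)) := hb1.add hb3
  have hbtot : Integrable (fun s : ℝ => η ^ 2 / 2 * A * hs c s + 8 / τ0 * ((1 - Real.cos (s * η)) / s ^ 2)
      + Set.indicator {t : ℝ | τ0 < |t|} (fun t : ℝ => 4 * (c0 * Real.sqrt C) * (1 / t ^ 2)) s) :=
    hb13.add hb2
  rw [← Real.norm_eq_abs]
  refine (norm_integral_le_of_norm_le hbtot (ae_of_all _ fun s => ?_)).trans ?_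
  · rw [← mul_sub, norm_mul, Real.norm_eq_abs, Real.norm_eq_abs,
      abs_of_nonneg (one_sub_cos_nonneg s η)]
    have hind0 : 0 ≤ Set.indicator {t : ℝ | τ0 < |t|}
        (fun t : ℝ => 4 * (c0 * Real.sqrt C) * (1 / t ^ 2)) s := by
      apply Set.indicator_nonneg
      intro x _
      positivity
    by_cases hs' : |s| ≤ τ0
    · have h := J_diff μ h2 hm h21 T n u w ω C c s τ0 hc hτ0 hu hw hC
        (fun m hmn τ hτ => hd m hmn s τ hs' hτ)
      have hq : (1 - Real.cos (s * η)) / s ^ 2 ≤ η ^ 2 / 2 := by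
        rw [one_sub_cos_eq]
        have := gk_le_half (s * η)
        nlinarith [sq_nonneg η]
      have hsn := hs_nonneg c s
      calc (1 - Real.cos (s * η)) / s ^ 2 * |Jn (fun _ => μ) n u w s - Jn (fun _ => gaussianReal 0 (vT μ T)) n u w s|
          ≤ (1 - Real.cos (s * η)) / s ^ 2 * (Kc C c * hs c s * (∑ k ∈ Finset.range n, Ek μ T (ω k)) * I0 + 8 / τ0) := by
            apply mul_le_mul_of_nonneg_left h (one_sub_cos_nonneg s η)
        _ = (1 - Real.cos (s * η)) / s ^ 2 * (A * hs c s) + 8 / τ0 * ((1 - Real.cos (s * η)) / s ^ 2) := by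
            rw [hA]; ring
        _ ≤ η ^ 2 / 2 * (A * hs c s) + 8 / τ0 * ((1 - Real.cos (s * η)) / s ^ 2) := by gcongr
        _ ≤ _ := by linarith
    · push Not at hs'
      have hmem : s ∈ {t : ℝ | τ0 < |t|} := hs'
      rw [Set.indicator_of_mem hmem]
      have h1 := hbJ (fun _ => μ) (fun _ => h2) (fun _ => hm) (fun _ => h21.le) s
      have h2' := hbJ (fun _ => gaussianReal 0 (vT μ T)) g2 g1 g3 s
      have h3 : |Jn (fun _ => μ) n u w s - Jn (fun _ => gaussianReal 0 (vT μ T)) n u w s|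
          ≤ 2 * (c0 * Real.sqrt C) := (abs_sub _ _).trans (by linarith)
      have h4 : (1 - Real.cos (s * η)) / s ^ 2 ≤ 2 / s ^ 2 := by
        gcongr
        linarith [Real.neg_one_le_cos (s * η)]
      have h5 : 0 ≤ η ^ 2 / 2 * A * hs c s := by have := hs_nonneg c s; positivity
      have h6 : 0 ≤ 8 / τ0 * ((1 - Real.cos (s * η)) / s ^ 2) := by
        have := one_sub_cos_nonneg s η
        positivity
      calc (1 - Real.cos (s * η)) / s ^ 2 * |Jn (fun _ => μ) n u w s - Jn (fun _ => gaussianReal 0 (vT μ T)) n u w s|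
          ≤ 2 / s ^ 2 * (2 * (c0 * Real.sqrt C)) := by
            gcongr
        _ = 4 * (c0 * Real.sqrt C) * (1 / s ^ 2) := by ring
        _ ≤ _ := by linarith
  · rw [integral_add hb13 hb2, integral_add hb1 hb3, integral_const_mul, integral_const_mul,
      integral_indicator hSm, integral_const_mul, integral_inv_sq_tail hτ0, integral_one_sub_cos,
      abs_of_pos hη]
    apply le_of_eq
    unfold H0
    ring

end expdiff

end Pool.Agent.H89.Kac
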