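import Pool.Agent.H89.Kac.Defs

set_option autoImplicit false

open MeasureTheory Filter Topology

namespace Pool.Agent.H89.Kac

/-- the kernel `(1 - cos t)/t^2`. -/
noncomputable def gk (t : ℝ) : ℝ := (1 - Real.cos t) / t ^ 2

lemma gk_nonneg (t : ℝ) : 0 ≤ gk t := by
  unfold gk
  exact div_nonneg (by linarith [Real.cos_le_one t]) (sq_nonneg t)

lemma gk_le_half (t : ℝ) : gk t ≤ 1 / 2 := by
  unfold gk
  by_cases h : t = 0
  · simp [h]
  · have ht : 0 < t ^ 2 := by positivity
    rw [div_le_iff₀ ht]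
    have := Real.one_sub_sq_div_two_le_cos (x := t)
    linarith

lemma gk_le_two_div (t : ℝ) : gk t ≤ 2 / t ^ 2 := by
  unfold gk
  gcongr
  linarith [Real.neg_one_le_cos t]

lemma gk_le (t : ℝ) : gk t ≤ 4 * (1 + t ^ 2)⁻¹ := by
  have h1 := gk_le_half t
  have h2 := gk_le_two_div t
  rw [← div_eq_mul_inv]
  by_cases h : t ^ 2 ≤ 1
  · refine h1.trans ?_
    rw [div_le_div_iff₀ (by norm_num) (by positivity)]
    linarith
  · push Not at h
    refine h2.trans ?_
    rw [div_le_div_iff₀ (by positivity) (by positivity)]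
    linarith

lemma gk_measurable : Measurable gk := by
  unfold gk
  fun_prop

lemma gk_integrable : Integrable gk := by
  have := (integrable_inv_one_add_sq).const_mul 4
  refine this.mono' gk_measurable.aestronglyMeasurable (ae_of_all _ fun t => ?_)
  rw [Real.norm_of_nonneg (gk_nonneg t)]
  exact gk_le t

/-- the constant `∫ (1 - cos t)/t^2`  (its value is `π`, which we do not need). -/
noncomputable def c0 : ℝ := ∫ t : ℝ, gk t

lemma c0_pos : 0 < c0 := by
  unfold c0
  rw [integral_pos_iff_support_of_nonneg gk_nonneg gk_integrable]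
  have hsub : Set.Ioo (0 : ℝ) 1 ⊆ Function.support gk := by
    intro t ht
    rw [Function.mem_support]
    have hcos : Real.cos t < 1 := by
      have := Real.cos_lt_cos_of_nonneg_of_le_pi (x := 0) (y := t) le_rfl
        (by linarith [ht.2, Real.pi_gt_three]) ht.1
      simpa using this
    have : 0 < gk t := by
      unfold gk
      have := ht.1
      have h2 : 0 < t ^ 2 := by positivity
      exact div_pos (by linarith) h2
    exact this.ne'
  refine lt_of_lt_of_le ?_ (measure_mono hsub)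
  simp

/-- `(1 - cos (t w))/t^2` in terms of `gk`. -/
lemma one_sub_cos_eq (t w : ℝ) : (1 - Real.cos (t * w)) / t ^ 2 = w ^ 2 * gk (t * w) := by
  unfold gk
  by_cases ht : t = 0
  · simp [ht]
  by_cases hw : w = 0
  · simp [hw]
  field_simp

lemma integrable_one_sub_cos (w : ℝ) : Integrable (fun t : ℝ => (1 - Real.cos (t * w)) / t ^ 2) := by
  by_cases hw : w = 0
  · simp [hw]
  simp_rw [one_sub_cos_eq]
  exact (gk_integrable.comp_mul_right' hw).const_mul _

lemma integral_one_sub_cos (w : ℝ) : ∫ t : ℝ, (1 - Real.cos (t * w)) / t ^ 2 = c0 * |w| := by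
  by_cases hw : w = 0
  · simp [hw]
  simp_rw [one_sub_cos_eq]
  rw [integral_const_mul, Measure.integral_comp_mul_right, smul_eq_mul]
  unfold c0
  have : |w| ≠ 0 := abs_ne_zero.mpr hw
  rw [← sq_abs w, abs_inv]
  field_simp

lemma one_sub_cos_nonneg (t w : ℝ) : 0 ≤ (1 - Real.cos (t * w)) / t ^ 2 :=
  div_nonneg (by linarith [Real.cos_le_one (t * w)]) (sq_nonneg t)

lemma tri_eq_abs (η u : ℝ) (hη : 0 ≤ η) : tri η u = (|u + η| + |u - η| - 2 * |u|) / 2 := by
  unfold tri
  rcases le_total 0 u with hu | hu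
  · rw [abs_of_nonneg hu, abs_of_nonneg (by linarith : 0 ≤ u + η)]
    rcases le_total u η with h | h
    · rw [abs_of_nonpos (by linarith), max_eq_left (by linarith)]; ring
    · rw [abs_of_nonneg (by linarith), max_eq_right (by linarith)]; ring
  · rw [abs_of_nonpos hu, abs_of_nonpos (by linarith : u - η ≤ 0)]
    rcases le_total (-u) η with h | h
    · rw [abs_of_nonneg (by linarith), max_eq_left (by linarith)]; ring
    · rw [abs_of_nonpos (by linarith), max_eq_right (by linarith)]; ring

lemma tri_nn (η u : ℝ) : 0 ≤ tri η u := le_max_right _ _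

lemma tri_le (η u : ℝ) (hη : 0 ≤ η) : tri η u ≤ η :=
  max_le (by linarith [abs_nonneg u]) hη

lemma tri_continuous (η : ℝ) : Continuous (tri η) := by
  unfold tri; fun_prop

lemma tri_eq_integral (η u : ℝ) (hη : 0 ≤ η) :
    tri η u = c0⁻¹ * ∫ s : ℝ, (1 - Real.cos (s * η)) / s ^ 2 * Real.cos (s * u) := by
  have key : ∀ s : ℝ, (1 - Real.cos (s * η)) / s ^ 2 * Real.cos (s * u) =
      ((1 - Real.cos (s * (u + η))) / s ^ 2 + (1 - Real.cos (s * (u - η))) / s ^ 2
        - 2 * ((1 - Real.cos (s * u)) / s ^ 2)) / 2 := by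
    intro s
    have h1 : s * (u + η) = s * u + s * η := by ring
    have h2 : s * (u - η) = s * u - s * η := by ring
    rw [h1, h2, Real.cos_add, Real.cos_sub]
    ring
  simp_rw [key]
  have hsum : ∫ s : ℝ, ((1 - Real.cos (s * (u + η))) / s ^ 2 + (1 - Real.cos (s * (u - η))) / s ^ 2
        - 2 * ((1 - Real.cos (s * u)) / s ^ 2)) = c0 * |u + η| + c0 * |u - η| - 2 * (c0 * |u|) := by
    rw [← integral_one_sub_cos, ← integral_one_sub_cos, ← integral_one_sub_cos,
      ← integral_add (integrable_one_sub_cos _) (integrable_one_sub_cos _), ← integral_const_mul,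
      ← integral_sub]
    · exact (integrable_one_sub_cos _).add (integrable_one_sub_cos _)
    · exact (integrable_one_sub_cos _).const_mul 2
  rw [integral_div, hsum, tri_eq_abs η u hη]
  have := c0_pos.ne'
  field_simp

section expect

variable {Ω : Type*} [MeasurableSpace Ω] (P : Measure Ω) [IsProbabilityMeasure P]

lemma J_prod_integrable (U W : Ω → ℝ) (hU : Measurable U) (hW : Measurable W) (hWi : Integrable W P)
    (s : ℝ) : Integrable (Function.uncurry fun (ω : Ω) (t : ℝ) =>
      Real.cos (s * U ω) * ((1 - Real.cos (t * W ω)) / t ^ 2)) (P.prod volume) := by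
  have h1 : ∀ ω, Integrable (fun t : ℝ => Real.cos (s * U ω) * ((1 - Real.cos (t * W ω)) / t ^ 2)) :=
    fun ω => (integrable_one_sub_cos _).const_mul _
  rw [integrable_prod_iff]
  · refine ⟨ae_of_all _ fun ω => h1 ω, ?_⟩
    have hb : Integrable (fun ω => c0 * |W ω|) P := hWi.abs.const_mul _
    refine hb.mono' ?_ (ae_of_all _ fun ω => ?_)
    · have hm : Measurable (Function.uncurry fun (ω : Ω) (t : ℝ) =>
          ‖Real.cos (s * U ω) * ((1 - Real.cos (t * W ω)) / t ^ 2)‖) := by
        fun_prop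
      exact (hm.stronglyMeasurable.integral_prod_right).aestronglyMeasurable
    · rw [Real.norm_of_nonneg (integral_nonneg fun t => norm_nonneg _), ← integral_one_sub_cos]
      refine integral_mono (h1 ω).norm (integrable_one_sub_cos _) fun t => ?_
      simp only [Function.uncurry_apply_pair, norm_mul, Real.norm_eq_abs]
      rw [abs_of_nonneg (one_sub_cos_nonneg t (W ω))]
      calc |Real.cos (s * U ω)| * ((1 - Real.cos (t * W ω)) / t ^ 2)
          ≤ 1 * ((1 - Real.cos (t * W ω)) / t ^ 2) := by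
            gcongr
            · exact one_sub_cos_nonneg t (W ω)
            · exact Real.abs_cos_le_one _
        _ = _ := one_mul _
  · have hm : Measurable (Function.uncurry fun (ω : Ω) (t : ℝ) =>
          Real.cos (s * U ω) * ((1 - Real.cos (t * W ω)) / t ^ 2)) := by
        fun_prop
    exact hm.aestronglyMeasurable

lemma J_integrand_eq (U W : Ω → ℝ) (s t : ℝ) :
    (∫ ω, Real.cos (s * U ω) * (1 - Real.cos (t * W ω)) ∂P) / t ^ 2
      = ∫ ω, Real.cos (s * U ω) * ((1 - Real.cos (t * W ω)) / t ^ 2) ∂P := by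
  rw [← integral_div]
  refine integral_congr_ae (ae_of_all _ fun ω => ?_)
  simp only [mul_div_assoc]

lemma J_integrable (U W : Ω → ℝ) (hU : Measurable U) (hW : Measurable W) (hWi : Integrable W P)
    (s : ℝ) : Integrable (fun t : ℝ =>
      (∫ ω, Real.cos (s * U ω) * (1 - Real.cos (t * W ω)) ∂P) / t ^ 2) := by
  simp_rw [J_integrand_eq P U W]
  exact (J_prod_integrable P U W hU hW hWi s).integral_prod_right

lemma J_eq (U W : Ω → ℝ) (hU : Measurable U) (hW : Measurable W) (hWi : Integrable W P) (s : ℝ) :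
    ∫ t : ℝ, (∫ ω, Real.cos (s * U ω) * (1 - Real.cos (t * W ω)) ∂P) / t ^ 2
      = c0 * ∫ ω, Real.cos (s * U ω) * |W ω| ∂P := by
  have hswap := integral_integral_swap (J_prod_integrable P U W hU hW hWi s)
  simp_rw [J_integrand_eq P U W]
  rw [← hswap, ← integral_const_mul]
  refine integral_congr_ae (ae_of_all _ fun ω => ?_)
  simp only
  rw [integral_const_mul, integral_one_sub_cos]
  ring

lemma abs_J_le (U W : Ω → ℝ) (hU : Measurable U) (hW : Measurable W) (hWi : Integrable W P)
    (s : ℝ) :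
    |∫ t : ℝ, (∫ ω, Real.cos (s * U ω) * (1 - Real.cos (t * W ω)) ∂P) / t ^ 2|
      ≤ c0 * ∫ ω, |W ω| ∂P := by
  rw [J_eq P U W hU hW hWi s, abs_mul, abs_of_pos c0_pos]
  gcongr
  · exact c0_pos.le
  refine (abs_integral_le_integral_abs).trans ?_
  refine integral_mono_of_nonneg (ae_of_all _ fun ω => abs_nonneg _) hWi.abs
    (ae_of_all _ fun ω => ?_)
  simp only [abs_mul, abs_abs]
  calc |Real.cos (s * U ω)| * |W ω| ≤ 1 * |W ω| := by
        gcongr
        exact Real.abs_cos_le_one _
    _ = _ := one_mul _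

lemma expect_tri (U W : Ω → ℝ) (hU : Measurable U) (hW : Measurable W) (hWi : Integrable W P)
    (η : ℝ) (hη : 0 ≤ η) :
    ∫ ω, tri η (U ω) * |W ω| ∂P = c0⁻¹ ^ 2 * ∫ s : ℝ, (1 - Real.cos (s * η)) / s ^ 2 *
      ∫ t : ℝ, (∫ ω, Real.cos (s * U ω) * (1 - Real.cos (t * W ω)) ∂P) / t ^ 2 := by
  simp_rw [J_eq P U W hU hW hWi]
  have hint : Integrable (Function.uncurry fun (ω : Ω) (s : ℝ) =>
      (1 - Real.cos (s * η)) / s ^ 2 * (Real.cos (s * U ω) * |W ω|)) (P.prod volume) := by
    have hb : Integrable (fun z : Ω × ℝ => |W z.1| * ((1 - Real.cos (z.2 * η)) / z.2 ^ 2))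
        (P.prod volume) := hWi.abs.mul_prod (integrable_one_sub_cos η)
    refine hb.mono' ?_ (ae_of_all _ fun z => ?_)
    · have hm : Measurable (Function.uncurry fun (ω : Ω) (s : ℝ) =>
            (1 - Real.cos (s * η)) / s ^ 2 * (Real.cos (s * U ω) * |W ω|)) := by
          fun_prop
      exact hm.aestronglyMeasurable
    · simp only [Function.uncurry, norm_mul, Real.norm_eq_abs, abs_abs]
      rw [abs_of_nonneg (one_sub_cos_nonneg z.2 η)]
      have h1 : |Real.cos (z.2 * U z.1)| * |W z.1| ≤ 1 * |W z.1| := by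
        gcongr
        exact Real.abs_cos_le_one _
      calc (1 - Real.cos (z.2 * η)) / z.2 ^ 2 * (|Real.cos (z.2 * U z.1)| * |W z.1|)
          ≤ (1 - Real.cos (z.2 * η)) / z.2 ^ 2 * (1 * |W z.1|) := by
            gcongr
            exact one_sub_cos_nonneg z.2 η
        _ = _ := by ring
  have hswap := integral_integral_swap hint
  have e2 : ∀ s : ℝ, (1 - Real.cos (s * η)) / s ^ 2 * (c0 * ∫ ω, Real.cos (s * U ω) * |W ω| ∂P)
      = c0 * ∫ ω, (1 - Real.cos (s * η)) / s ^ 2 * (Real.cos (s * U ω) * |W ω|) ∂P := by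
    intro s
    rw [integral_const_mul]
    ring
  simp_rw [e2]
  rw [integral_const_mul, ← hswap, ← integral_const_mul, ← integral_const_mul]
  refine integral_congr_ae (ae_of_all _ fun ω => ?_)
  simp only
  rw [tri_eq_integral η (U ω) hη]
  have e3 : ∀ s : ℝ, (1 - Real.cos (s * η)) / s ^ 2 * (Real.cos (s * U ω) * |W ω|)
      = ((1 - Real.cos (s * η)) / s ^ 2 * Real.cos (s * U ω)) * |W ω| := by
    intro s; ring
  simp_rw [e3]
  rw [integral_mul_const]
  have := c0_pos.ne'
  generalize (∫ s : ℝ, (1 - Real.cos (s * η)) / s ^ 2 * Real.cos (s * U ω)) = I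
  field_simp

end expect

end Pool.Agent.H89.Kac
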