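import Pool.Agent.H89.Kac.Defs

set_option autoImplicit false

open MeasureTheory Filter Topology Polynomial

namespace Pool.Agent.H89.Kac

/-! ### Module A: calculus -/

theorem An_closed (n : ℕ) (x : ℝ) : An n x * (1 - x ^ 2) = 1 - (x ^ 2) ^ (n + 1) := by
  induction n with
  | zero => simp [An]
  | succ n ih =>
    have h : An (n + 1) x = An n x + x ^ (2 * (n + 1)) := by
      simp only [An]; rw [Finset.sum_range_succ]
    rw [h, add_mul, ih, pow_mul]; ring

theorem Bn_closed (n : ℕ) (x : ℝ) : (x * Bn n x) * (1 - x ^ 2) ^ 2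
    = x ^ 2 - (n + 1) * (x ^ 2) ^ (n + 1) + n * (x ^ 2) ^ (n + 2) := by
  induction n with
  | zero => simp [Bn]
  | succ n ih =>
    have h : Bn (n + 1) x = Bn n x + ((n + 1 : ℕ) : ℝ) * x ^ (2 * (n + 1) - 1) := by
      simp only [Bn]; rw [Finset.sum_range_succ]
    have h2 : x * x ^ (2 * (n + 1) - 1) = (x ^ 2) ^ (n + 1) := by
      rw [← pow_succ', ← pow_mul]; congr 1
    have h3 : x * Bn (n + 1) x = x * Bn n x + (n + 1) * (x ^ 2) ^ (n + 1) := by
      rw [h, ← h2]; push_cast; ring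
    rw [h3, add_mul, ih]; push_cast; ring

theorem Cn_closed (n : ℕ) (x : ℝ) : (x ^ 2 * Cn n x) * (1 - x ^ 2) ^ 3
    = x ^ 2 + (x ^ 2) ^ 2 - (n + 1) ^ 2 * (x ^ 2) ^ (n + 1)
      + (2 * n ^ 2 + 2 * n - 1) * (x ^ 2) ^ (n + 2) - n ^ 2 * (x ^ 2) ^ (n + 3) := by
  induction n with
  | zero => simp [Cn]
  | succ n ih =>
    have h : Cn (n + 1) x = Cn n x + ((n + 1 : ℕ) : ℝ) ^ 2 * x ^ (2 * (n + 1) - 2) := by
      simp only [Cn]; rw [Finset.sum_range_succ]
    have h2 : x ^ 2 * x ^ (2 * (n + 1) - 2) = (x ^ 2) ^ (n + 1) := by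
      rw [← pow_add, ← pow_mul]; congr 1; omega
    have h3 : x ^ 2 * Cn (n + 1) x = x ^ 2 * Cn n x + (n + 1) ^ 2 * (x ^ 2) ^ (n + 1) := by
      rw [h, ← h2]; push_cast; ring
    rw [h3, add_mul, ih]; push_cast; ring

theorem An_pos (n : ℕ) (x : ℝ) : 1 ≤ An n x := by
  unfold An
  rw [Finset.sum_range_succ']
  have : 0 ≤ ∑ k ∈ Finset.range n, x ^ (2 * (k + 1)) :=
    Finset.sum_nonneg fun k _ => by rw [pow_mul]; positivity
  simp only [mul_zero, pow_zero]
  linarith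

/-- Fundamental identity. -/
theorem key (n : ℕ) (x : ℝ) (hx0 : 0 < x) (hx1 : x < 1) :
    (An n x * Cn n x - Bn n x ^ 2) / An n x ^ 2
      = 1 / (1 - x ^ 2) ^ 2 - (n + 1) ^ 2 * (x ^ 2) ^ n / (1 - (x ^ 2) ^ (n + 1)) ^ 2 := by
  have hA := An_closed n x
  have hB := Bn_closed n x
  have hC := Cn_closed n x
  have hz0 : (0 : ℝ) < x ^ 2 := by positivity
  have hz1 : x ^ 2 < 1 := by nlinarith
  have hm : (x ^ 2) ^ (n + 1) < 1 := pow_lt_one₀ hz0.le hz1 (Nat.succ_ne_zero n)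
  set z := x ^ 2 with hz
  have h1 : (0 : ℝ) < 1 - z := by linarith
  have h2 : (0 : ℝ) < 1 - z ^ (n + 1) := by linarith
  have hAp : 0 < An n x := lt_of_lt_of_le one_pos (An_pos n x)
  -- z (A C - B^2) (1-z)^4 = (A (1-z)) (z C (1-z)^3) - (x B (1-z)^2)^2
  have h3 : z * ((An n x * Cn n x - Bn n x ^ 2) * (1 - z) ^ 4)
      = z * ((1 - z ^ (n + 1)) ^ 2 - (n + 1) ^ 2 * z ^ n * (1 - z) ^ 2) := by
    have e1 : z * ((An n x * Cn n x - Bn n x ^ 2) * (1 - z) ^ 4)
        = (An n x * (1 - z)) * ((z * Cn n x) * (1 - z) ^ 3) - ((x * Bn n x) * (1 - z) ^ 2) ^ 2 := by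
      rw [hz]; ring
    rw [e1, hA, hB, hC]; ring
  have h4 : (An n x * Cn n x - Bn n x ^ 2) * (1 - z) ^ 4
      = (1 - z ^ (n + 1)) ^ 2 - (n + 1) ^ 2 * z ^ n * (1 - z) ^ 2 :=
    mul_left_cancel₀ hz0.ne' h3
  have h5 : An n x = (1 - z ^ (n + 1)) / (1 - z) := by
    rw [eq_div_iff h1.ne']; exact hA
  have h6 : An n x * Cn n x - Bn n x ^ 2
      = ((1 - z ^ (n + 1)) ^ 2 - (n + 1) ^ 2 * z ^ n * (1 - z) ^ 2) / (1 - z) ^ 4 := by
    rw [eq_div_iff (by positivity)]; exact h4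
  rw [h6, h5]
  field_simp

theorem rho_eq (n : ℕ) (x : ℝ) (hx0 : 0 < x) (hx1 : x < 1) :
    rho n x = Real.sqrt (1 / (1 - x ^ 2) ^ 2
      - (n + 1) ^ 2 * (x ^ 2) ^ n / (1 - (x ^ 2) ^ (n + 1)) ^ 2) / Real.pi := by
  rw [← key n x hx0 hx1]
  have hAp : 0 < An n x := lt_of_lt_of_le one_pos (An_pos n x)
  rw [rho, Real.sqrt_div' _ (by positivity), Real.sqrt_sq hAp.le]
  field_simp

theorem rho_nonneg (n : ℕ) (x : ℝ) : 0 ≤ rho n x := by
  have hAp : 0 < An n x := lt_of_lt_of_le one_pos (An_pos n x)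
  unfold rho; positivity

theorem rho_le (n : ℕ) (x : ℝ) (hx0 : 0 < x) (hx1 : x < 1) :
    rho n x ≤ 1 / (1 - x ^ 2) / Real.pi := by
  rw [rho_eq n x hx0 hx1]
  have hz1 : x ^ 2 < 1 := by nlinarith
  have h1 : (0 : ℝ) < 1 - x ^ 2 := by linarith
  have : Real.sqrt (1 / (1 - x ^ 2) ^ 2
      - (n + 1) ^ 2 * (x ^ 2) ^ n / (1 - (x ^ 2) ^ (n + 1)) ^ 2) ≤ 1 / (1 - x ^ 2) := by
    apply Real.sqrt_le_iff.2
    refine ⟨by positivity, ?_⟩
    have : 0 ≤ (n + 1 : ℝ) ^ 2 * (x ^ 2) ^ n / (1 - (x ^ 2) ^ (n + 1)) ^ 2 := by positivity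
    rw [div_pow, one_pow]
    linarith
  gcongr

theorem continuous_rho (n : ℕ) : Continuous (rho n) := by
  have hA : Continuous (An n) := by unfold An; fun_prop
  have hB : Continuous (Bn n) := by unfold Bn; fun_prop
  have hC : Continuous (Cn n) := by unfold Cn; fun_prop
  have : Continuous fun x => Real.sqrt (An n x * Cn n x - Bn n x ^ 2) / (Real.pi * An n x) := by
    refine Continuous.div ?_ ?_ ?_
    · exact Real.continuous_sqrt.comp ((hA.mul hC).sub (hB.pow 2))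
    · exact continuous_const.mul hA
    · intro x
      have hAp : 0 < An n x := lt_of_lt_of_le one_pos (An_pos n x)
      positivity
  exact this

theorem tendsto_rho (x : ℝ) (hx0 : 0 < x) (hx1 : x < 1) :
    Tendsto (fun n => rho n x) atTop (𝓝 (1 / (1 - x ^ 2) / Real.pi)) := by
  have hz0 : (0 : ℝ) < x ^ 2 := by positivity
  have hz1 : x ^ 2 < 1 := by nlinarith
  have h1 : (0 : ℝ) < 1 - x ^ 2 := by linarith
  have e : (fun n => rho n x) = fun n : ℕ => Real.sqrt (1 / (1 - x ^ 2) ^ 2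
      - (n + 1) ^ 2 * (x ^ 2) ^ n / (1 - (x ^ 2) ^ (n + 1)) ^ 2) / Real.pi := by
    funext n; exact rho_eq n x hx0 hx1
  rw [e]
  have hp : Tendsto (fun n : ℕ => (x ^ 2) ^ (n + 1)) atTop (𝓝 0) :=
    (tendsto_pow_atTop_nhds_zero_of_lt_one hz0.le hz1).comp (tendsto_add_atTop_nat 1)
  have hq : Tendsto (fun n : ℕ => ((n + 1 : ℕ) : ℝ) ^ 2 * (x ^ 2) ^ (n + 1)) atTop (𝓝 0) :=
    (tendsto_pow_const_mul_const_pow_of_abs_lt_one 2 (r := x ^ 2)
      (by rw [abs_of_pos hz0]; exact hz1)).comp (tendsto_add_atTop_nat 1)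
  have hq2 : Tendsto (fun n : ℕ => ((n : ℝ) + 1) ^ 2 * (x ^ 2) ^ n) atTop (𝓝 0) := by
    have : (fun n : ℕ => ((n : ℝ) + 1) ^ 2 * (x ^ 2) ^ n)
        = fun n : ℕ => (((n + 1 : ℕ) : ℝ) ^ 2 * (x ^ 2) ^ (n + 1)) * (x ^ 2)⁻¹ := by
      funext n; push_cast; field_simp; ring
    rw [this]
    simpa using hq.mul_const (x ^ 2)⁻¹
  have hr : Tendsto (fun n : ℕ => (1 - (x ^ 2) ^ (n + 1)) ^ 2) atTop (𝓝 ((1 - 0) ^ 2)) :=
    (hp.const_sub 1).pow 2
  have hs : Tendsto (fun n : ℕ => 1 / (1 - x ^ 2) ^ 2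
      - ((n : ℝ) + 1) ^ 2 * (x ^ 2) ^ n / (1 - (x ^ 2) ^ (n + 1)) ^ 2) atTop
      (𝓝 (1 / (1 - x ^ 2) ^ 2 - 0 / (1 - 0) ^ 2)) :=
    (hq2.div hr (by norm_num)).const_sub _
  have ht := (Real.continuous_sqrt.tendsto _).comp hs
  have hu := ht.div_const Real.pi
  have e2 : Real.sqrt (1 / (1 - x ^ 2) ^ 2 - 0 / (1 - 0) ^ 2) = 1 / (1 - x ^ 2) := by
    rw [zero_div, sub_zero, Real.sqrt_div' _ (by positivity), Real.sqrt_one,
      Real.sqrt_sq h1.le]
  rw [e2] at hu
  exact hu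

theorem modA1 (b : ℝ) (hb0 : 0 < b) (hb1 : b < 1) :
    ∃ L : ℝ, Tendsto (fun n : ℕ => ∫ x in (0 : ℝ)..b, rho n x) atTop (𝓝 L) := by
  refine ⟨∫ x in (0 : ℝ)..b, 1 / (1 - x ^ 2) / Real.pi, ?_⟩
  apply intervalIntegral.tendsto_integral_filter_of_dominated_convergence
    (fun _ => 1 / (1 - b ^ 2) / Real.pi)
  · exact Eventually.of_forall fun n => (continuous_rho n).aestronglyMeasurable
  · refine Eventually.of_forall fun n => Eventually.of_forall fun x hx => ?_
    rw [Set.uIoc_of_le hb0.le] at hx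
    have hx1 : x < 1 := lt_of_le_of_lt hx.2 hb1
    rw [Real.norm_of_nonneg (rho_nonneg n x)]
    refine (rho_le n x hx.1 hx1).trans ?_
    have hxb : x ^ 2 ≤ b ^ 2 := pow_le_pow_left₀ hx.1.le hx.2 2
    have hb2 : b ^ 2 < 1 := by nlinarith
    have h0 : (0 : ℝ) < 1 - b ^ 2 := by linarith
    gcongr
  · exact intervalIntegrable_const
  · refine Eventually.of_forall fun x hx => ?_
    rw [Set.uIoc_of_le hb0.le] at hx
    exact tendsto_rho x hx.1 (lt_of_le_of_lt hx.2 hb1)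

/-! #### hyperbolic functions -/

/-- `s_n(v) = 1 / ((n+1) sinh (v/(n+1)))`. -/
noncomputable def sn (n : ℕ) (v : ℝ) : ℝ := 1 / ((n + 1) * Real.sinh (v / (n + 1)))

/-- `h(v) = 1 / sinh v`. -/
noncomputable def hh (v : ℝ) : ℝ := 1 / Real.sinh v

theorem nat_mul_sinh_le (t : ℝ) (ht : 0 ≤ t) (m : ℕ) :
    (m : ℝ) * Real.sinh t ≤ Real.sinh (m * t) := by
  induction m with
  | zero => simp
  | succ m ih =>
    have h1 : ((m + 1 : ℕ) : ℝ) * t = m * t + t := by push_cast; ring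
    rw [h1, Real.sinh_add]
    have h2 : 0 ≤ Real.sinh t := Real.sinh_nonneg_iff.2 ht
    have h3 : 0 ≤ Real.sinh (m * t) := Real.sinh_nonneg_iff.2 (by positivity)
    have h4 := Real.one_le_cosh t
    have h5 := Real.one_le_cosh (m * t)
    push_cast
    nlinarith [mul_nonneg h3 (sub_nonneg.2 h4), mul_nonneg h2 (sub_nonneg.2 h5)]

theorem hh_pos (v : ℝ) (hv : 0 < v) : 0 < hh v := by
  unfold hh
  have := Real.sinh_pos_iff.2 hv
  positivity

theorem sn_pos (n : ℕ) (v : ℝ) (hv : 0 < v) : 0 < sn n v := by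
  unfold sn
  have := Real.sinh_pos_iff.2 (show 0 < v / (n + 1) by positivity)
  positivity

theorem hh_le_sn (n : ℕ) (v : ℝ) (hv : 0 < v) : hh v ≤ sn n v := by
  have h1 := nat_mul_sinh_le (v / (n + 1)) (by positivity) (n + 1)
  have h2 : ((n + 1 : ℕ) : ℝ) * (v / (n + 1)) = v := by push_cast; field_simp
  rw [h2] at h1
  have h3 := Real.sinh_pos_iff.2 (show 0 < v / (n + 1) by positivity)
  unfold hh sn
  apply one_div_le_one_div_of_le (by positivity)
  push_cast at h1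
  exact h1

theorem sn_le (n : ℕ) (v : ℝ) (hv : 0 < v) : sn n v ≤ 1 / v := by
  unfold sn
  apply one_div_le_one_div_of_le hv
  have h1 : v / (n + 1) ≤ Real.sinh (v / (n + 1)) := Real.self_le_sinh_iff.2 (by positivity)
  have h2 : v = (n + 1) * (v / (n + 1)) := by field_simp
  calc v = (n + 1) * (v / (n + 1)) := h2
    _ ≤ _ := by gcongr

theorem sinh_le_mul_cosh (v : ℝ) (hv : 0 ≤ v) : Real.sinh v ≤ v * Real.cosh v := by
  have hmono : MonotoneOn (fun v : ℝ => v * Real.cosh v - Real.sinh v) (Set.Ici 0) := by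
    apply monotoneOn_of_deriv_nonneg (convex_Ici 0)
    · fun_prop
    · fun_prop
    · intro x hx
      rw [interior_Ici] at hx
      have hd : HasDerivAt (fun v : ℝ => v * Real.cosh v - Real.sinh v)
          ((1 * Real.cosh x + x * Real.sinh x) - Real.cosh x) x :=
        ((hasDerivAt_id x).mul (Real.hasDerivAt_cosh x)).sub (Real.hasDerivAt_sinh x)
      rw [hd.deriv]
      have : 0 < Real.sinh x := Real.sinh_pos_iff.2 hx
      have hx' : 0 < x := hx
      nlinarith [mul_pos hx' this]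
  have := hmono (Set.mem_Ici.2 le_rfl) (Set.mem_Ici.2 hv) hv
  simp at this
  linarith

theorem inv_sq_sub_le (v : ℝ) (hv : 0 < v) : (1 / v) ^ 2 - hh v ^ 2 ≤ 1 := by
  have h1 := sinh_le_mul_cosh v hv.le
  have h2 : 0 < Real.sinh v := Real.sinh_pos_iff.2 hv
  have h3 : Real.cosh v ^ 2 = Real.sinh v ^ 2 + 1 := by
    have := Real.cosh_sq v; linarith
  have h4 : 0 < Real.cosh v := Real.cosh_pos v
  have h5 : Real.sinh v ^ 2 ≤ v ^ 2 * (Real.sinh v ^ 2 + 1) := by
    rw [← h3, ← mul_pow]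
    exact pow_le_pow_left₀ h2.le h1 2
  unfold hh
  rw [div_pow, div_pow, one_pow, div_sub_div _ _ (by positivity) (by positivity),
    div_le_one (by positivity)]
  nlinarith

/-- The transformed integrand. -/
noncomputable def Fn (n : ℕ) (v : ℝ) : ℝ := 1 / (2 * Real.pi) * Real.sqrt (sn n v ^ 2 - hh v ^ 2)

theorem Fn_eq (n : ℕ) (v : ℝ) (hv : 0 < v) :
    |-(1 / ((n : ℝ) + 1)) * Real.exp (-v / (n + 1))| • rho n (Real.exp (-v / (n + 1))) = Fn n v := by
  have hm : (0 : ℝ) < n + 1 := by positivity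
  set x := Real.exp (-v / (n + 1)) with hx
  have hx0 : 0 < x := Real.exp_pos _
  have hx1 : x < 1 := by
    rw [hx, Real.exp_lt_one_iff, neg_div]
    have : 0 < v / ((n : ℝ) + 1) := by positivity
    linarith
  have hs : 0 < Real.sinh (v / (n + 1)) := Real.sinh_pos_iff.2 (by positivity)
  have hS : 0 < Real.sinh v := Real.sinh_pos_iff.2 hv
  have e1 : 1 - x ^ 2 = 2 * x * Real.sinh (v / (n + 1)) := by
    have h1 : Real.exp (v / (n + 1)) * x = 1 := by
      rw [hx, ← Real.exp_add, neg_div, add_neg_cancel, Real.exp_zero]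
    rw [Real.sinh_eq]
    have h2 : Real.exp (-(v / (n + 1))) = x := by rw [hx, neg_div]
    rw [h2]
    linear_combination (-1 : ℝ) * h1
  have hxm : x ^ (n + 1) = Real.exp (-v) := by
    rw [hx, ← Real.exp_nat_mul]; congr 1; push_cast; field_simp
  have e2 : 1 - (x ^ 2) ^ (n + 1) = 2 * x ^ (n + 1) * Real.sinh v := by
    have h1 : Real.exp v * x ^ (n + 1) = 1 := by
      rw [hxm, ← Real.exp_add, add_neg_cancel, Real.exp_zero]
    rw [Real.sinh_eq, ← hxm, ← pow_mul, mul_comm 2 (n + 1), pow_mul]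
    linear_combination (-1 : ℝ) * h1
  rw [rho_eq n x hx0 hx1, e1, e2]
  have e3 : 1 / (2 * x * Real.sinh (v / (n + 1))) ^ 2
      - ((n : ℝ) + 1) ^ 2 * (x ^ 2) ^ n / (2 * x ^ (n + 1) * Real.sinh v) ^ 2
      = ((n + 1) / (2 * x)) ^ 2 * (sn n v ^ 2 - hh v ^ 2) := by
    unfold sn hh
    field_simp
    ring
  rw [e3, Real.sqrt_mul (by positivity), Real.sqrt_sq (by positivity)]
  have e4 : |-(1 / ((n : ℝ) + 1)) * x| = x / (n + 1) := by
    rw [neg_mul, abs_neg, abs_of_pos (by positivity)]; ring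
  rw [e4, smul_eq_mul]
  unfold Fn
  field_simp

theorem image_exp (n : ℕ) : (fun v : ℝ => Real.exp (-v / (n + 1))) '' Set.Ioi 0 = Set.Ioo 0 1 := by
  have hm : (0 : ℝ) < n + 1 := by positivity
  ext y
  constructor
  · rintro ⟨v, hv, rfl⟩
    refine ⟨Real.exp_pos _, ?_⟩
    show Real.exp (-v / (n + 1)) < 1
    rw [Real.exp_lt_one_iff, neg_div]
    have : 0 < v / ((n : ℝ) + 1) := div_pos hv hm
    linarith
  · rintro ⟨h0, h1⟩
    refine ⟨-((n + 1) * Real.log y), ?_, ?_⟩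
    · have := Real.log_neg h0 h1
      show 0 < -((n + 1) * Real.log y)
      nlinarith
    · show Real.exp (-(-((n + 1) * Real.log y)) / (n + 1)) = y
      rw [neg_neg, mul_div_cancel_left₀ _ hm.ne', Real.exp_log h0]

theorem hasDeriv_exp (n : ℕ) (v : ℝ) :
    HasDerivAt (fun v : ℝ => Real.exp (-v / (n + 1)))
      (-(1 / ((n : ℝ) + 1)) * Real.exp (-v / (n + 1))) v := by
  have h : HasDerivAt (fun v : ℝ => -v / ((n : ℝ) + 1)) (-1 / ((n : ℝ) + 1)) v :=
    (hasDerivAt_neg v).div_const _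
  have := h.exp
  convert this using 1
  ring

theorem injOn_exp (n : ℕ) : Set.InjOn (fun v : ℝ => Real.exp (-v / (n + 1))) (Set.Ioi 0) := by
  have hm : (0 : ℝ) < n + 1 := by positivity
  intro a _ b _ hab
  have := Real.exp_injective hab
  rw [div_left_inj' hm.ne'] at this
  linarith

theorem integrableOn_rho (n : ℕ) : IntegrableOn (rho n) (Set.Ioo 0 1) :=
  ((continuous_rho n).integrableOn_Icc (a := 0) (b := 1)).mono_set Set.Ioo_subset_Icc_self

theorem integral_rho_eq (n : ℕ) :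
    ∫ x in (0 : ℝ)..1, rho n x = ∫ v in Set.Ioi (0 : ℝ), Fn n v := by
  rw [intervalIntegral.integral_of_le zero_le_one, MeasureTheory.integral_Ioc_eq_integral_Ioo,
    ← image_exp n, integral_image_eq_integral_abs_deriv_smul measurableSet_Ioi
      (fun x _ => (hasDeriv_exp n x).hasDerivWithinAt) (injOn_exp n)]
  exact setIntegral_congr_fun measurableSet_Ioi fun v hv => Fn_eq n v hv

theorem integrableOn_Fn (n : ℕ) : IntegrableOn (Fn n) (Set.Ioi 0) := by
  have h := integrableOn_rho n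
  rw [← image_exp n, integrableOn_image_iff_integrableOn_abs_deriv_smul measurableSet_Ioi
      (fun x _ => (hasDeriv_exp n x).hasDerivWithinAt) (injOn_exp n)] at h
  exact h.congr_fun (fun v hv => Fn_eq n v hv) measurableSet_Ioi

/-- `sinh t / t → 1`. -/
theorem tendsto_sinh_div (v : ℝ) (hv : 0 < v) :
    Tendsto (fun n : ℕ => ((n : ℝ) + 1) * Real.sinh (v / (n + 1))) atTop (𝓝 v) := by
  have h0 : Tendsto (fun t : ℝ => t⁻¹ • (Real.sinh (0 + t) - Real.sinh 0)) (𝓝[≠] 0)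
      (𝓝 (Real.cosh 0)) := hasDerivAt_iff_tendsto_slope_zero.1 (Real.hasDerivAt_sinh 0)
  have h1 : Tendsto (fun n : ℕ => v / ((n : ℝ) + 1)) atTop (𝓝[≠] 0) := by
    rw [tendsto_nhdsWithin_iff]
    refine ⟨?_, Eventually.of_forall fun n => ?_⟩
    · have := (tendsto_one_div_add_atTop_nhds_zero_nat (𝕜 := ℝ)).const_mul v
      simp only [mul_one_div, mul_zero] at this
      exact this
    · have : 0 < v / ((n : ℝ) + 1) := by positivity
      exact this.ne'
  have h2 := (h0.comp h1).const_mul v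
  rw [Real.cosh_zero, mul_one] at h2
  refine h2.congr fun n => ?_
  simp only [Function.comp, zero_add, Real.sinh_zero, sub_zero, smul_eq_mul]
  field_simp

theorem tendsto_sn (v : ℝ) (hv : 0 < v) : Tendsto (fun n => sn n v) atTop (𝓝 (1 / v)) := by
  unfold sn
  exact tendsto_const_nhds.div (tendsto_sinh_div v hv) hv.ne'

theorem tendsto_sqrt_sn (v : ℝ) (hv : 0 < v) :
    Tendsto (fun n => Real.sqrt (sn n v ^ 2 - hh v ^ 2)) atTop
      (𝓝 (Real.sqrt ((1 / v) ^ 2 - hh v ^ 2))) :=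
  (Real.continuous_sqrt.tendsto _).comp (((tendsto_sn v hv).pow 2).sub_const _)

/-- Part I. -/
theorem partI : ∃ L : ℝ, Tendsto (fun n : ℕ => ∫ v in Set.Ioc (0 : ℝ) 1, Fn n v) atTop (𝓝 L) := by
  refine ⟨∫ v in Set.Ioc (0 : ℝ) 1, 1 / (2 * Real.pi) * Real.sqrt ((1 / v) ^ 2 - hh v ^ 2), ?_⟩
  apply tendsto_integral_of_dominated_convergence (fun _ => 1 / (2 * Real.pi) * 1)
  · intro n
    exact ((integrableOn_Fn n).mono_set Set.Ioc_subset_Ioi_self).aestronglyMeasurable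
  · exact (integrable_const _)
  · intro n
    rw [ae_restrict_iff' measurableSet_Ioc]
    refine Eventually.of_forall fun v hv => ?_
    have hv0 : 0 < v := hv.1
    have h1 : Real.sqrt (sn n v ^ 2 - hh v ^ 2) ≤ 1 := by
      apply Real.sqrt_le_iff.2
      refine ⟨zero_le_one, ?_⟩
      have h2 := sn_le n v hv0
      have h3 := sn_pos n v hv0
      have h4 : sn n v ^ 2 ≤ (1 / v) ^ 2 := pow_le_pow_left₀ h3.le h2 2
      linarith [inv_sq_sub_le v hv0]
    unfold Fn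
    rw [Real.norm_of_nonneg (by positivity)]
    gcongr
  · rw [ae_restrict_iff' measurableSet_Ioc]
    refine Eventually.of_forall fun v hv => ?_
    exact (tendsto_sqrt_sn v hv.1).const_mul _

/-- antiderivative of `s_n`. -/
noncomputable def Gn (n : ℕ) (v : ℝ) : ℝ :=
  Real.log (Real.sinh (v / (2 * (n + 1)))) - Real.log (Real.cosh (v / (2 * (n + 1))))

theorem hasDerivAt_Gn (n : ℕ) (v : ℝ) (hv : 0 < v) : HasDerivAt (Gn n) (sn n v) v := by
  have hm : (0 : ℝ) < n + 1 := by positivity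
  have hs : 0 < Real.sinh (v / (2 * (n + 1))) := Real.sinh_pos_iff.2 (by positivity)
  have hc : 0 < Real.cosh (v / (2 * (n + 1))) := Real.cosh_pos _
  have h : HasDerivAt (fun v : ℝ => v / (2 * ((n : ℝ) + 1))) (1 / (2 * ((n : ℝ) + 1))) v :=
    (hasDerivAt_id v).div_const _
  have h1 := (h.sinh).log hs.ne'
  have h2 := (h.cosh).log hc.ne'
  have h3 := h1.sub h2
  have e : sn n v = Real.cosh (v / (2 * (n + 1))) * (1 / (2 * ((n : ℝ) + 1)))
        / Real.sinh (v / (2 * (n + 1)))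
      - Real.sinh (v / (2 * (n + 1))) * (1 / (2 * ((n : ℝ) + 1)))
        / Real.cosh (v / (2 * (n + 1))) := by
    unfold sn
    have h4 : v / ((n : ℝ) + 1) = 2 * (v / (2 * (n + 1))) := by field_simp
    have h5 := Real.cosh_sq (v / (2 * ((n : ℝ) + 1)))
    rw [h4, Real.sinh_two_mul]
    set S := Real.sinh (v / (2 * ((n : ℝ) + 1))) with hSdef
    set K := Real.cosh (v / (2 * ((n : ℝ) + 1))) with hKdef
    field_simp
    linear_combination (-1 : ℝ) * h5
  rw [e]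
  exact h3

theorem tendsto_Gn (n : ℕ) : Tendsto (Gn n) atTop (𝓝 0) := by
  have hm : (0 : ℝ) < n + 1 := by positivity
  have h1 : Tendsto (fun t : ℝ => Real.log ((1 - Real.exp (-(2 * t))) / (1 + Real.exp (-(2 * t)))))
      atTop (𝓝 0) := by
    have h2 : Tendsto (fun t : ℝ => Real.exp (-(2 * t))) atTop (𝓝 0) :=
      Real.tendsto_exp_neg_atTop_nhds_zero.comp (tendsto_id.const_mul_atTop (by norm_num))
    have h3 : Tendsto (fun t : ℝ => (1 - Real.exp (-(2 * t))) / (1 + Real.exp (-(2 * t)))) atTop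
        (𝓝 ((1 - 0) / (1 + 0))) := (h2.const_sub 1).div (h2.const_add 1) (by norm_num)
    have h4 := (Real.continuousAt_log (show ((1 - 0 : ℝ) / (1 + 0)) ≠ 0 by norm_num)).tendsto.comp h3
    have h5 : Real.log ((1 - 0 : ℝ) / (1 + 0)) = 0 := by norm_num
    rw [h5] at h4
    exact h4
  have h6 : Tendsto (fun v : ℝ => v / (2 * ((n : ℝ) + 1))) atTop atTop :=
    tendsto_id.atTop_div_const (by positivity)
  refine (h1.comp h6).congr' ?_
  filter_upwards [eventually_gt_atTop 0] with v hv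
  have ht : 0 < v / (2 * ((n : ℝ) + 1)) := by positivity
  simp only [Function.comp, Gn]
  set t := v / (2 * ((n : ℝ) + 1)) with htdef
  have hs : 0 < Real.sinh t := Real.sinh_pos_iff.2 ht
  have hc : 0 < Real.cosh t := Real.cosh_pos _
  rw [← Real.log_div hs.ne' hc.ne']
  congr 1
  have e : Real.exp (-(2 * t)) = Real.exp (-t) ^ 2 := by
    rw [← Real.exp_nat_mul]; congr 1; push_cast; ring
  have e2 : Real.exp t = (Real.exp (-t))⁻¹ := by rw [Real.exp_neg, inv_inv]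
  rw [Real.sinh_eq, Real.cosh_eq, e, e2]
  have : 0 < Real.exp (-t) := Real.exp_pos _
  field_simp

theorem integrableOn_sn (n : ℕ) : IntegrableOn (sn n) (Set.Ioi 1) :=
  integrableOn_Ioi_deriv_of_nonneg' (fun x hx => hasDerivAt_Gn n x
      (lt_of_lt_of_le one_pos hx))
    (fun x hx => (sn_pos n x (lt_trans one_pos hx)).le) (tendsto_Gn n)

theorem integral_sn (n : ℕ) : ∫ v in Set.Ioi (1 : ℝ), sn n v = - Gn n 1 := by
  rw [integral_Ioi_of_hasDerivAt_of_tendsto' (fun x hx => hasDerivAt_Gn n x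
      (lt_of_lt_of_le one_pos hx)) (integrableOn_sn n) (tendsto_Gn n)]
  ring

theorem integrableOn_hh : IntegrableOn hh (Set.Ioi 1) := by
  have h := integrableOn_sn 0
  refine h.congr_fun (fun v _ => ?_) measurableSet_Ioi
  simp [sn, hh]

/-- Part II. -/
theorem partII : ∃ L : ℝ, Tendsto
    (fun n : ℕ => ∫ v in Set.Ioi (1 : ℝ), (1 / (2 * Real.pi) * sn n v - Fn n v)) atTop (𝓝 L) := by
  refine ⟨∫ v in Set.Ioi (1 : ℝ), (1 / (2 * Real.pi) * (1 / v)
    - 1 / (2 * Real.pi) * Real.sqrt ((1 / v) ^ 2 - hh v ^ 2)), ?_⟩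
  apply tendsto_integral_of_dominated_convergence (fun v => 1 / (2 * Real.pi) * hh v)
  · intro n
    exact (((integrableOn_sn n).const_mul _).sub
      ((integrableOn_Fn n).mono_set (Set.Ioi_subset_Ioi zero_le_one))).aestronglyMeasurable
  · exact integrableOn_hh.const_mul _
  · intro n
    rw [ae_restrict_iff' measurableSet_Ioi]
    refine Eventually.of_forall fun v hv => ?_
    have hv0 : 0 < v := lt_trans one_pos hv
    have h1 := hh_pos v hv0
    have h2 := hh_le_sn n v hv0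
    have h3 : sn n v - hh v ≤ Real.sqrt (sn n v ^ 2 - hh v ^ 2) := by
      apply Real.le_sqrt_of_sq_le
      nlinarith
    have h4 : Real.sqrt (sn n v ^ 2 - hh v ^ 2) ≤ sn n v := by
      apply Real.sqrt_le_iff.2
      exact ⟨by linarith, by nlinarith⟩
    have h5 : 1 / (2 * Real.pi) * sn n v - Fn n v
        = 1 / (2 * Real.pi) * (sn n v - Real.sqrt (sn n v ^ 2 - hh v ^ 2)) := by
      unfold Fn; ring
    rw [h5, Real.norm_of_nonneg (mul_nonneg (by positivity) (by linarith))]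
    have : sn n v - Real.sqrt (sn n v ^ 2 - hh v ^ 2) ≤ hh v := by linarith
    gcongr
  · rw [ae_restrict_iff' measurableSet_Ioi]
    refine Eventually.of_forall fun v hv => ?_
    have hv0 : 0 < v := lt_trans one_pos hv
    exact ((tendsto_sn v hv0).const_mul _).sub ((tendsto_sqrt_sn v hv0).const_mul _)

theorem tendsto_Gn_one : Tendsto (fun n : ℕ => - Gn n 1 - Real.log n) atTop (𝓝 (Real.log 2)) := by
  -- (n+1) sinh ((1/2)/(n+1)) → 1/2, cosh → 1
  have h1 := tendsto_sinh_div (1 / 2) (by norm_num)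
  have h0 : Tendsto (fun n : ℕ => (1 / 2 : ℝ) / ((n : ℝ) + 1)) atTop (𝓝 0) := by
    have := (tendsto_one_div_add_atTop_nhds_zero_nat (𝕜 := ℝ)).const_mul (1 / 2 : ℝ)
    simp only [mul_one_div, mul_zero] at this
    exact this
  have h2 : Tendsto (fun n : ℕ => Real.cosh ((1 / 2 : ℝ) / ((n : ℝ) + 1))) atTop (𝓝 1) := by
    have := (Real.continuous_cosh.tendsto 0).comp h0
    rw [Real.cosh_zero] at this
    exact this
  have h3 : Tendsto (fun n : ℕ => (n : ℝ) / (n + 1)) atTop (𝓝 1) :=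
    tendsto_natCast_div_add_atTop (1 : ℝ)
  have h4 := ((h2.log one_ne_zero).sub (h1.log (by norm_num))).sub (h3.log one_ne_zero)
  have e : Real.log 1 - Real.log (1 / 2) - Real.log 1 = Real.log 2 := by
    rw [Real.log_one, one_div, Real.log_inv]; ring
  rw [e] at h4
  refine h4.congr' ?_
  filter_upwards [eventually_gt_atTop 0] with n hn
  have hn' : (0 : ℝ) < n := by exact_mod_cast hn
  have hm : (0 : ℝ) < n + 1 := by positivity
  have e3 : (1 / 2 : ℝ) / ((n : ℝ) + 1) = 1 / (2 * (n + 1)) := by field_simp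
  have hs : 0 < Real.sinh (1 / (2 * ((n : ℝ) + 1))) := Real.sinh_pos_iff.2 (by positivity)
  rw [e3, Real.log_mul hm.ne' hs.ne', Real.log_div hn'.ne' hm.ne']
  unfold Gn
  ring

theorem modA2 :
    ∃ L : ℝ, Tendsto (fun n : ℕ => (∫ x in (0 : ℝ)..1, rho n x)
      - 1 / (2 * Real.pi) * Real.log (n : ℝ)) atTop (𝓝 L) := by
  obtain ⟨L1, hL1⟩ := partI
  obtain ⟨L2, hL2⟩ := partII
  have hL3 := tendsto_Gn_one.const_mul (1 / (2 * Real.pi))
  refine ⟨_, ((hL1.sub hL2).add hL3).congr fun n => ?_⟩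
  rw [integral_rho_eq, ← Set.Ioc_union_Ioi_eq_Ioi (zero_le_one (α := ℝ)),
    setIntegral_union (Set.Ioc_disjoint_Ioi le_rfl) measurableSet_Ioi
      ((integrableOn_Fn n).mono_set Set.Ioc_subset_Ioi_self)
      ((integrableOn_Fn n).mono_set (Set.Ioi_subset_Ioi zero_le_one)),
    integral_sub ((integrableOn_sn n).const_mul _)
      ((integrableOn_Fn n).mono_set (Set.Ioi_subset_Ioi zero_le_one)),
    integral_const_mul, integral_sn]
  ring

end Pool.Agent.H89.Kac
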