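import Pool.Agent.H89.Kac.Defs

set_option autoImplicit false

open MeasureTheory Filter Topology Polynomial

namespace Pool.Agent.H89.Kac

namespace ModC

/-! ### Deterministic part: Jensen type bound via the Mahler measure -/

lemma norm_coeff_zero_le_mahler (g : ℂ[X]) : ‖g.coeff 0‖ ≤ g.mahlerMeasure := by
  have := g.norm_coeff_le_choose_mul_mahlerMeasure 0
  simpa using this

/-- scaled version: for a complex polynomial `g` and `R > 0`, `|g(0)| ≤ M(g(R ·))`. -/
lemma coeff_zero_comp (g : ℂ[X]) (R : ℂ) : (g.comp (C R * X)).coeff 0 = g.coeff 0 := by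
  rw [coeff_zero_eq_eval_zero, eval_comp]
  simp [coeff_zero_eq_eval_zero]

lemma mahler_linear (R x : ℝ) (hR : 0 < R) (hx : 0 ≤ x) (hxR : x ≤ R) :
    ((X - C (x : ℂ)).comp (C (R : ℂ) * X)).mahlerMeasure = R := by
  have h1 : ((X - C (x : ℂ)).comp (C (R : ℂ) * X)) = C (R : ℂ) * X + C (-(x : ℂ)) := by
    simp [sub_eq_add_neg]
  rw [h1, mahlerMeasure_C_mul_X_add_C (by exact_mod_cast hR.ne')]
  have h2 : ‖(R : ℂ)‖ = R := by simp [abs_of_pos hR]
  have h3 : ‖(-(x : ℂ))‖ = x := by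
    rw [norm_neg]
    simp [abs_of_nonneg hx]
  rw [h2, h3]
  exact max_eq_left hxR

/-- Jensen type bound. -/
lemma root_bound (h : ℝ[X]) (hne : h ≠ 0) (r R : ℝ) (hr : 0 < r) (hrR : r < R) :
    (R / r) ^ (Z h 0 r) * |h.coeff 0| ≤ ∑ k ∈ Finset.range (h.natDegree + 1), |h.coeff k| * R ^ k := by
  classical
  have hR : 0 < R := hr.trans hrR
  set s : Finset ℝ := h.roots.toFinset.filter (fun x => 0 < x ∧ x ≤ r) with hs
  have hsub : s.val ≤ h.roots := by
    refine le_trans (Finset.val_le_iff.mpr (Finset.filter_subset _ _)) ?_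
    rw [Multiset.toFinset_val]
    exact Multiset.dedup_le _
  have hdvd := (Multiset.prod_X_sub_C_dvd_iff_le_roots hne s.val).mpr hsub
  obtain ⟨g, hg⟩ := hdvd
  have hprod : (Multiset.map (fun a => X - C a) s.val).prod = ∏ x ∈ s, (X - C x) := rfl
  rw [hprod] at hg
  -- complexify
  set e := algebraMap ℝ ℂ with he
  have hgC : (h.map e).comp (C (R : ℂ) * X) =
      (∏ x ∈ s, ((X - C (x : ℂ)).comp (C (R : ℂ) * X))) * (g.map e).comp (C (R : ℂ) * X) := by
    rw [hg, Polynomial.map_mul, mul_comp, Polynomial.map_prod, prod_comp]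
    congr 1
    apply Finset.prod_congr rfl
    intro x _
    simp [he]
  have hmprod : (∏ x ∈ s, ((X - C (x : ℂ)).comp (C (R : ℂ) * X))).mahlerMeasure = R ^ s.card := by
    have : ∀ t : Finset ℝ, t ⊆ s →
        (∏ x ∈ t, ((X - C (x : ℂ)).comp (C (R : ℂ) * X))).mahlerMeasure = R ^ t.card := by
      intro t
      induction t using Finset.induction_on with
      | empty => intro _; simp
      | insert a t ha ih =>
        intro hsubt
        rw [Finset.prod_insert ha, mahlerMeasure_mul, ih ((Finset.subset_insert _ _).trans hsubt),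
          Finset.card_insert_of_notMem ha]
        have hamem : a ∈ s := hsubt (Finset.mem_insert_self _ _)
        rw [hs, Finset.mem_filter] at hamem
        rw [mahler_linear R a hR hamem.2.1.le (hamem.2.2.trans hrR.le)]
        ring
    exact this s subset_rfl
  have hM : ((h.map e).comp (C (R : ℂ) * X)).mahlerMeasure =
      R ^ s.card * ((g.map e).comp (C (R : ℂ) * X)).mahlerMeasure := by
    rw [hgC, mahlerMeasure_mul, hmprod]
  -- lower bound
  have hlow : |g.coeff 0| ≤ ((g.map e).comp (C (R : ℂ) * X)).mahlerMeasure := by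
    have h1 := norm_coeff_zero_le_mahler ((g.map e).comp (C (R : ℂ) * X))
    rw [coeff_zero_comp] at h1
    simpa [he] using h1
  -- coefficient at zero of h
  have hh0 : |h.coeff 0| ≤ r ^ s.card * |g.coeff 0| := by
    have h1 : h.coeff 0 = (∏ x ∈ s, (-x)) * g.coeff 0 := by
      rw [hg, mul_coeff_zero, coeff_zero_prod]
      simp
    rw [h1, abs_mul, Finset.abs_prod]
    apply mul_le_mul_of_nonneg_right _ (abs_nonneg _)
    calc ∏ x ∈ s, |(-x)| ≤ ∏ _x ∈ s, r := by
          apply Finset.prod_le_prod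
          · intro i _; exact abs_nonneg _
          · intro i hi
            rw [hs, Finset.mem_filter] at hi
            rw [abs_neg, abs_of_pos hi.2.1]; exact hi.2.2
      _ = r ^ s.card := by simp
  -- upper bound
  have hup : ((h.map e).comp (C (R : ℂ) * X)).mahlerMeasure ≤
      ∑ k ∈ Finset.range (h.natDegree + 1), |h.coeff k| * R ^ k := by
    refine (mahlerMeasure_le_sum_norm_coeff _).trans ?_
    rw [Polynomial.sum_over_range' _ (by simp) (h.natDegree + 1)]
    · apply Finset.sum_le_sum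
      intro k _
      rw [comp_C_mul_X_coeff]
      simp [he, abs_of_pos hR]
    · refine Nat.lt_succ_of_le ?_
      refine (natDegree_comp_le).trans ?_
      have h5 : (C (R : ℂ) * X : ℂ[X]).natDegree ≤ 1 := by
        simpa using natDegree_C_mul_X_pow_le (R : ℂ) 1
      refine (Nat.mul_le_mul (natDegree_map_le) h5).trans ?_
      simp
  have hZ : Z h 0 r = s.card := rfl
  rw [hZ]
  calc (R / r) ^ s.card * |h.coeff 0| ≤ (R / r) ^ s.card * (r ^ s.card * |g.coeff 0|) := by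
        apply mul_le_mul_of_nonneg_left hh0 (by positivity)
    _ = R ^ s.card * |g.coeff 0| := by
        rw [div_pow]; field_simp
    _ ≤ R ^ s.card * ((g.map e).comp (C (R : ℂ) * X)).mahlerMeasure := by
        apply mul_le_mul_of_nonneg_left hlow (by positivity)
    _ = ((h.map e).comp (C (R : ℂ) * X)).mahlerMeasure := hM.symm
    _ ≤ _ := hup

/-! ### Rolle -/

lemma rolle_step (p : ℝ[X]) (hp : derivative p ≠ 0) (a b : ℝ) :
    Z p a b ≤ Z (derivative p) a b + 1 := by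
  classical
  unfold Z
  apply Finset.card_le_of_interleaved
  intro x hx y hy hxy _
  rw [Finset.mem_filter, Multiset.mem_toFinset] at hx hy
  have hp0 : p ≠ 0 := by rintro rfl; simp at hp
  have hx0 : p.eval x = 0 := (mem_roots hp0).mp hx.1
  have hy0 : p.eval y = 0 := (mem_roots hp0).mp hy.1
  obtain ⟨z, hz, hz0⟩ := exists_deriv_eq_zero (f := fun t => p.eval t) hxy
    p.continuous.continuousOn (hx0.trans hy0.symm)
  refine ⟨z, ?_, hz.1, hz.2⟩
  rw [Finset.mem_filter, Multiset.mem_toFinset, mem_roots hp]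
  refine ⟨?_, hx.2.1.trans hz.1, (hz.2.le).trans hy.2.2⟩
  rw [Polynomial.deriv] at hz0
  exact hz0

lemma rolle_iter (p : ℝ[X]) (m : ℕ) (a b : ℝ) (hp : (derivative^[m]) p ≠ 0) :
    Z p a b ≤ Z ((derivative^[m]) p) a b + m := by
  induction m generalizing p with
  | zero => simp
  | succ m ih =>
    rw [Function.iterate_succ_apply] at hp ⊢
    have h1 := ih (derivative p) hp
    have h2 : derivative p ≠ 0 := by
      intro h0
      rw [h0] at hp
      exact hp (iterate_map_zero derivative m)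
    have h3 := rolle_step p h2 a b
    omega

/-! ### The deterministic bound -/

/-- the dominating sum -/
noncomputable def Sm (m n : ℕ) (R : ℝ) (ω : ℕ → ℝ) : ℝ :=
  ∑ k ∈ Finset.range (n + 1), ((k + m).choose m : ℝ) * |ω (k + m)| * R ^ k

lemma kac_coeff (ε : ℝ) (n : ℕ) (c : ℕ → ℝ) (j : ℕ) :
    (kac ε n c).coeff j = if j ≤ n then ε ^ j * c j else 0 := by
  unfold kac
  rw [finsetSum_coeff]
  simp only [coeff_C_mul_X_pow]
  by_cases h : j ≤ n
  · rw [if_pos h, Finset.sum_eq_single j]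
    · simp
    · intro b _ hb
      rw [if_neg hb.symm]
    · intro hj
      exfalso
      apply hj
      simp; omega
  · rw [if_neg h]
    apply Finset.sum_eq_zero
    intro b hb
    rw [Finset.mem_range] at hb
    rw [if_neg]
    omega

lemma kac_natDegree_le (ε : ℝ) (n : ℕ) (c : ℕ → ℝ) : (kac ε n c).natDegree ≤ n := by
  rw [natDegree_le_iff_coeff_eq_zero]
  intro j hj
  rw [kac_coeff, if_neg (by omega)]

lemma abs_eps_pow {ε : ℝ} (hε : ε = 1 ∨ ε = -1) (j : ℕ) : |ε ^ j| = 1 := by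
  rcases hε with rfl | rfl <;> simp

lemma det_bound {ε : ℝ} (hε : ε = 1 ∨ ε = -1) (n m : ℕ) (hm1 : 1 ≤ m) (hmn : m ≤ n)
    (ω : ℕ → ℝ) (lam : ℝ) (hlam : 0 < lam) (hωm : lam ≤ |ω m|) (N : ℝ) (hN : 2 ≤ N) :
    (Z (derivative (kac ε n ω)) 0 (1 - 1 / N) : ℝ) ≤
      ((m - 1 : ℕ) : ℝ) + 2 * N * Real.log (Sm m n (1 - 1 / (2 * N)) ω / lam) ∧
    1 ≤ Sm m n (1 - 1 / (2 * N)) ω / lam := by
  have hNpos : 0 < N := by linarith
  set r : ℝ := 1 - 1 / N with hr
  set R : ℝ := 1 - 1 / (2 * N) with hR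
  have hinv : 1 / N ≤ 1 / 2 := by
    apply one_div_le_one_div_of_le <;> linarith
  have hinv2 : 1 / (2 * N) = (1 / N) / 2 := by field_simp
  have hinvpos : 0 < 1 / N := by positivity
  have hr0 : 0 < r := by rw [hr]; linarith
  have hrR : r < R := by rw [hr, hR, hinv2]; linarith
  have hR0 : 0 < R := hr0.trans hrR
  have hR1 : R ≤ 1 := by rw [hR, hinv2]; linarith
  set f := kac ε n ω with hf
  set h := (derivative^[m]) f with hh
  have hcoef : ∀ k, h.coeff k = ((k + m).descFactorial m : ℝ) * f.coeff (k + m) := by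
    intro k
    rw [hh, coeff_iterate_derivative, nsmul_eq_mul]
  have hcoefabs : ∀ k, |h.coeff k| ≤ (m.factorial : ℝ) * (((k + m).choose m : ℝ) * |ω (k + m)|) := by
    intro k
    rw [hcoef, Nat.descFactorial_eq_factorial_mul_choose, hf, kac_coeff]
    push_cast
    by_cases hk : k + m ≤ n
    · rw [if_pos hk, abs_mul, abs_mul, abs_mul, abs_eps_pow hε, one_mul,
        abs_of_nonneg (show (0 : ℝ) ≤ (m.factorial : ℝ) by positivity),
        abs_of_nonneg (show (0 : ℝ) ≤ ((k + m).choose m : ℝ) by positivity)]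
      linarith
    · rw [if_neg hk, mul_zero, abs_zero]
      positivity
  have hc0 : (m.factorial : ℝ) * lam ≤ |h.coeff 0| := by
    rw [hcoef, zero_add, hf, kac_coeff, if_pos hmn, Nat.descFactorial_self, abs_mul, abs_mul,
      abs_eps_pow hε, one_mul, abs_of_nonneg (show (0 : ℝ) ≤ (m.factorial : ℝ) by positivity)]
    exact mul_le_mul_of_nonneg_left hωm (by positivity)
  have hfac : (0 : ℝ) < m.factorial := by exact_mod_cast Nat.factorial_pos m
  have hne : h ≠ 0 := by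
    intro h0
    rw [h0] at hc0
    simp only [coeff_zero, abs_zero] at hc0
    have : 0 < (m.factorial : ℝ) * lam := by positivity
    linarith
  -- Rolle
  have hroll : Z (derivative f) 0 r ≤ Z h 0 r + (m - 1) := by
    have e : h = (derivative^[m - 1]) (derivative f) := by
      rw [hh, ← Function.iterate_succ_apply]
      congr 2
      omega
    rw [e] at hne ⊢
    exact rolle_iter _ _ _ _ hne
  -- Jensen
  have hj := root_bound h hne r R hr0 hrR
  have hdeg : h.natDegree ≤ n :=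
    ((natDegree_iterate_derivative f m).trans (Nat.sub_le _ _)).trans (kac_natDegree_le _ _ _)
  have hsum : ∑ k ∈ Finset.range (h.natDegree + 1), |h.coeff k| * R ^ k ≤
      (m.factorial : ℝ) * Sm m n R ω := by
    unfold Sm
    rw [Finset.mul_sum]
    refine (Finset.sum_le_sum_of_subset_of_nonneg (t := Finset.range (n + 1)) ?_ ?_).trans ?_
    · intro k hk
      rw [Finset.mem_range] at hk ⊢
      omega
    · intro k _ _
      positivity
    · apply Finset.sum_le_sum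
      intro k _
      have := mul_le_mul_of_nonneg_right (hcoefabs k) (show 0 ≤ R ^ k by positivity)
      linarith
  have hkey : (R / r) ^ (Z h 0 r) * lam ≤ Sm m n R ω := by
    have h1 : (R / r) ^ (Z h 0 r) * ((m.factorial : ℝ) * lam) ≤ (m.factorial : ℝ) * Sm m n R ω :=
      (mul_le_mul_of_nonneg_left hc0 (by positivity)).trans (hj.trans hsum)
    have h2 : (m.factorial : ℝ) * ((R / r) ^ (Z h 0 r) * lam) ≤ (m.factorial : ℝ) * Sm m n R ω := by
      linarith
    exact le_of_mul_le_mul_left h2 hfac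
  have hRr : 1 ≤ R / r := by rw [one_le_div hr0]; exact hrR.le
  have hkey2 : (R / r) ^ (Z h 0 r) ≤ Sm m n R ω / lam := by
    rw [le_div_iff₀ hlam]; exact hkey
  have hone : 1 ≤ Sm m n R ω / lam := (one_le_pow₀ hRr).trans hkey2
  refine ⟨?_, hone⟩
  have hlog : (Z h 0 r : ℝ) * Real.log (R / r) ≤ Real.log (Sm m n R ω / lam) := by
    rw [← Real.log_pow]
    exact Real.log_le_log (by positivity) hkey2
  have hlogRr : 1 / (2 * N) ≤ Real.log (R / r) := by
    have h1 : 1 - (R / r)⁻¹ ≤ Real.log (R / r) := Real.one_sub_inv_le_log_of_pos (by positivity)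
    have h2 : 1 - (R / r)⁻¹ = (R - r) / R := by
      rw [inv_div]; field_simp
    have h3 : R - r = 1 / (2 * N) := by rw [hr, hR, hinv2]; ring
    rw [h2, h3] at h1
    refine le_trans ?_ h1
    rw [le_div_iff₀ hR0]
    have : 0 < 1 / (2 * N) := by positivity
    nlinarith
  have hZle : (Z h 0 r : ℝ) ≤ 2 * N * Real.log (Sm m n R ω / lam) := by
    have h1 : (Z h 0 r : ℝ) * (1 / (2 * N)) ≤ Real.log (Sm m n R ω / lam) :=
      (mul_le_mul_of_nonneg_left hlogRr (Nat.cast_nonneg _)).trans hlog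
    have h2 : (Z h 0 r : ℝ) = 2 * N * ((Z h 0 r : ℝ) * (1 / (2 * N))) := by field_simp
    rw [h2]
    exact mul_le_mul_of_nonneg_left h1 (by positivity)
  have hroll' : (Z (derivative f) 0 r : ℝ) ≤ (Z h 0 r : ℝ) + ((m - 1 : ℕ) : ℝ) := by
    exact_mod_cast hroll
  linarith

/-! ### Probabilistic part -/

lemma exists_lam (μ : Measure ℝ) [IsProbabilityMeasure μ] (hμ : μ {(0 : ℝ)} ≠ 1) :
    ∃ lam : ℝ, 0 < lam ∧ μ {x : ℝ | |x| < lam} < 1 := by
  by_contra hcon
  push Not at hcon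
  apply hμ
  have h1 : ∀ j : ℕ, μ {x : ℝ | |x| < 1 / ((j : ℝ) + 1)}ᶜ = 0 := by
    intro j
    have hj := hcon (1 / ((j : ℝ) + 1)) (by positivity)
    rw [prob_compl_eq_zero_iff]
    · exact le_antisymm prob_le_one hj
    · exact measurableSet_lt measurable_norm measurable_const
  have h2 : μ ({(0 : ℝ)}ᶜ) = 0 := by
    have h3 : ({(0 : ℝ)}ᶜ : Set ℝ) ⊆ ⋃ j : ℕ, {x : ℝ | |x| < 1 / ((j : ℝ) + 1)}ᶜ := by
      intro x hx
      have hx0 : 0 < |x| := abs_pos.mpr hx
      obtain ⟨j, hj⟩ := exists_nat_one_div_lt hx0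
      rw [Set.mem_iUnion]
      refine ⟨j, ?_⟩
      simp only [Set.mem_compl_iff, Set.mem_ofPred_eq, not_lt]
      exact hj.le
    exact measure_mono_null h3 (measure_iUnion_null h1)
  rw [← prob_compl_eq_zero_iff (MeasurableSet.singleton 0)]
  exact h2

/-- the event that the coefficients number `1, ..., m - 1` are small -/
def Ev (lam : ℝ) (m : ℕ) : Set (ℕ → ℝ) := {ω | ∀ k, 1 ≤ k → k < m → |ω k| < lam}

lemma Ev_eq (lam : ℝ) (m : ℕ) : Ev lam m =
    Set.pi (↑(Finset.Ico 1 m)) (fun _ : ℕ => {x : ℝ | |x| < lam}) := by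
  ext ω
  simp only [Ev, Set.mem_ofPred_eq, Set.mem_pi, Finset.coe_Ico, Set.mem_Ico]
  constructor
  · intro h k hk; exact h k hk.1 hk.2
  · intro h k h1 h2; exact h k ⟨h1, h2⟩

lemma measurableSet_small (lam : ℝ) : MeasurableSet {x : ℝ | |x| < lam} :=
  measurableSet_lt measurable_norm measurable_const

lemma Ev_measurable (lam : ℝ) (m : ℕ) : MeasurableSet (Ev lam m) := by
  rw [Ev_eq]
  exact MeasurableSet.pi (Finset.countable_toSet _) (fun _ _ => measurableSet_small lam)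

lemma Ev_measure (μ : Measure ℝ) [IsProbabilityMeasure μ] (lam : ℝ) (m : ℕ) :
    Pm μ (Ev lam m) = (μ {x : ℝ | |x| < lam}) ^ (m - 1) := by
  rw [Ev_eq, Pm, Measure.infinitePi_pi _ (fun _ _ => measurableSet_small lam)]
  simp

lemma log_pow_eight_le (y : ℝ) (hy : 0 ≤ y) : Real.log (1 + y) ^ 8 ≤ 40320 * (1 + y) := by
  have h1 : 0 ≤ Real.log (1 + y) := Real.log_nonneg (by linarith)
  have h2 := Real.pow_div_factorial_le_exp (Real.log (1 + y)) h1 8
  rw [Real.exp_log (by linarith)] at h2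
  have h3 : ((Nat.factorial 8 : ℕ) : ℝ) = 40320 := by norm_num [Nat.factorial]
  rw [h3, div_le_iff₀ (by norm_num)] at h2
  linarith

/-- pointwise bound in the main case -/
lemma pointwise_main {ε : ℝ} (hε : ε = 1 ∨ ε = -1) (n m : ℕ) (hm1 : 1 ≤ m) (hmn : m ≤ n)
    (ω : ℕ → ℝ) (lam : ℝ) (hlam : 0 < lam) (hωm : lam ≤ |ω m|) (N : ℝ) (hN : 2 ≤ N)
    (s : ℝ) (hs : 0 < s) :
    (Z (derivative (kac ε n ω)) 0 (1 - 1 / N) : ℝ) ^ 4 ≤
      N ^ 4 * (2048 * ((m : ℝ) + 1) ^ 4 * Real.log (2 * N) ^ 4 + 64 / s ^ (m - 1)) +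
      2580480 * N ^ 4 * s ^ (m - 1) * (1 + Sm m n (1 - 1 / (2 * N)) ω / (lam * (2 * N) ^ (m + 1))) := by
  obtain ⟨h1, h2⟩ := det_bound hε n m hm1 hmn ω lam hlam hωm N hN
  have hNpos : 0 < N := by linarith
  set S := Sm m n (1 - 1 / (2 * N)) ω with hS
  set z : ℝ := (Z (derivative (kac ε n ω)) 0 (1 - 1 / N) : ℝ) with hz
  set l : ℝ := Real.log (2 * N) with hl
  have hl1 : 1 ≤ l := by
    have h4 : Real.log 4 ≤ l := Real.log_le_log (by norm_num) (by linarith)
    have h5 : Real.log 4 = 2 * Real.log 2 := by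
      rw [show (4 : ℝ) = 2 ^ 2 by norm_num, Real.log_pow]; norm_num
    have := Real.log_two_gt_d9
    linarith
  have hpow : 0 < (2 * N) ^ (m + 1) := by positivity
  set Y : ℝ := S / (lam * (2 * N) ^ (m + 1)) with hY
  have hSpos : 0 < S := by
    have : 0 < S / lam := by linarith
    exact (div_pos_iff_of_pos_right hlam).mp this
  have hY0 : 0 ≤ Y := by positivity
  have hSY : S / lam = Y * (2 * N) ^ (m + 1) := by
    rw [hY]; field_simp
  have hL : Real.log (S / lam) ≤ ((m : ℝ) + 1) * l + Real.log (1 + Y) := by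
    have h6 : S / lam ≤ (1 + Y) * (2 * N) ^ (m + 1) := by
      rw [hSY]
      nlinarith
    have h7 := Real.log_le_log (by linarith) h6
    rw [Real.log_mul (by linarith) hpow.ne', Real.log_pow] at h7
    push_cast at h7
    linarith
  set g : ℝ := Real.log (1 + Y) with hg
  have hg0 : 0 ≤ g := Real.log_nonneg (by linarith)
  have hm0 : ((m - 1 : ℕ) : ℝ) ≤ (m : ℝ) + 1 := by
    have : ((m - 1 : ℕ) : ℝ) ≤ (m : ℝ) := by exact_mod_cast Nat.sub_le m 1
    linarith
  have hmR : (0 : ℝ) ≤ m := Nat.cast_nonneg m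
  set A : ℝ := 4 * N * ((m : ℝ) + 1) * l with hA
  set B : ℝ := 2 * N * g with hB
  have hA0 : 0 ≤ A := by positivity
  have hB0 : 0 ≤ B := by positivity
  have hzAB : z ≤ A + B := by
    have h8 : 2 * N * Real.log (S / lam) ≤ 2 * N * (((m : ℝ) + 1) * l + g) :=
      mul_le_mul_of_nonneg_left hL (by positivity)
    have h9 : (m : ℝ) + 1 ≤ 2 * N * (((m : ℝ) + 1) * l) := by
      have h10 : 1 ≤ 2 * N * l := by nlinarith
      nlinarith
    rw [hA, hB]
    nlinarith
  have hz0 : 0 ≤ z := by positivity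
  have h11 : z ^ 4 ≤ (A + B) ^ 4 := pow_le_pow_left₀ hz0 hzAB 4
  have h12 : (A + B) ^ 4 ≤ 8 * (A ^ 4 + B ^ 4) := by
    nlinarith [sq_nonneg (A - B), sq_nonneg (A ^ 2 - B ^ 2), sq_nonneg (A + B),
      mul_nonneg hA0 hB0, sq_nonneg (A * B), mul_nonneg (mul_nonneg hA0 hB0) (sq_nonneg (A - B))]
  have hsp : 0 < s ^ (m - 1) := by positivity
  have h13 : 2 * g ^ 4 ≤ 1 / s ^ (m - 1) + g ^ 8 * s ^ (m - 1) := by
    set v := s ^ (m - 1) with hv
    have h14 : 0 ≤ (1 - g ^ 4 * v) ^ 2 / v := by positivity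
    have h15 : (1 - g ^ 4 * v) ^ 2 / v = 1 / v + g ^ 8 * v - 2 * g ^ 4 := by
      field_simp
      ring
    linarith
  have h16 : g ^ 8 ≤ 40320 * (1 + Y) := log_pow_eight_le Y hY0
  have h17 : g ^ 8 * s ^ (m - 1) ≤ 40320 * (1 + Y) * s ^ (m - 1) :=
    mul_le_mul_of_nonneg_right h16 hsp.le
  have hN4 : 0 ≤ N ^ 4 := by positivity
  have h18 : 8 * B ^ 4 ≤ N ^ 4 * (64 / s ^ (m - 1)) + 2580480 * N ^ 4 * s ^ (m - 1) * (1 + Y) := by
    have h19 : 8 * B ^ 4 = 64 * N ^ 4 * (2 * g ^ 4) := by rw [hB]; ring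
    rw [h19]
    have h20 : 2 * g ^ 4 ≤ 1 / s ^ (m - 1) + 40320 * (1 + Y) * s ^ (m - 1) := by linarith
    have h21 := mul_le_mul_of_nonneg_left h20 (show 0 ≤ 64 * N ^ 4 by positivity)
    calc 64 * N ^ 4 * (2 * g ^ 4) ≤ 64 * N ^ 4 * (1 / s ^ (m - 1) + 40320 * (1 + Y) * s ^ (m - 1)) := h21
      _ = N ^ 4 * (64 / s ^ (m - 1)) + 2580480 * N ^ 4 * s ^ (m - 1) * (1 + Y) := by ring
  have h22 : 8 * A ^ 4 = N ^ 4 * (2048 * ((m : ℝ) + 1) ^ 4 * l ^ 4) := by rw [hA]; ring
  calc z ^ 4 ≤ 8 * A ^ 4 + 8 * B ^ 4 := by linarith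
    _ ≤ _ := by rw [h22]; linarith

lemma pointwise_small {ε : ℝ} (n : ℕ) (ω : ℕ → ℝ) (r : ℝ) :
    (Z (derivative (kac ε n ω)) 0 r : ℝ) ^ 4 ≤ (n : ℝ) ^ 4 := by
  classical
  have h1 : Z (derivative (kac ε n ω)) 0 r ≤ n := by
    unfold Z
    refine (Finset.card_filter_le _ _).trans ?_
    refine (Multiset.toFinset_card_le _).trans ?_
    refine (card_roots' _).trans ?_
    exact (natDegree_derivative_le _).trans ((Nat.sub_le _ _).trans (kac_natDegree_le _ _ _))
  have h2 : (Z (derivative (kac ε n ω)) 0 r : ℝ) ≤ n := by exact_mod_cast h1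
  exact pow_le_pow_left₀ (Nat.cast_nonneg _) h2 4

lemma Sm_measurable (m n : ℕ) (R : ℝ) : Measurable (Sm m n R) := by
  unfold Sm
  fun_prop

lemma sum_choose_le (m n : ℕ) (R : ℝ) (h0 : 0 < R) (h1 : R < 1) :
    ∑ k ∈ Finset.range (n + 1), ((k + m).choose m : ℝ) * R ^ k ≤ 1 / (1 - R) ^ (m + 1) := by
  have hR : ‖R‖ < 1 := by rw [Real.norm_eq_abs, abs_of_pos h0]; exact h1
  have h2 := hasSum_choose_mul_geometric_of_norm_lt_one m hR
  exact sum_le_hasSum _ (fun k _ => by positivity) h2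

lemma lintegral_Sm (μ : Measure ℝ) [IsProbabilityMeasure μ] (A1 : ℝ) (hA1 : 0 ≤ A1)
    (hA : ∫⁻ x, ENNReal.ofReal |x| ∂μ ≤ ENNReal.ofReal A1) (m n : ℕ) (N : ℝ) (hN : 2 ≤ N) :
    ∫⁻ ω, ENNReal.ofReal (Sm m n (1 - 1 / (2 * N)) ω) ∂(Pm μ) ≤
      ENNReal.ofReal ((2 * N) ^ (m + 1) * A1) := by
  have hNpos : 0 < N := by linarith
  set R : ℝ := 1 - 1 / (2 * N) with hR
  have hinv : 1 / (2 * N) ≤ 1 / 4 := by
    apply one_div_le_one_div_of_le <;> linarith
  have hinvpos : 0 < 1 / (2 * N) := by positivity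
  have hR0 : 0 < R := by rw [hR]; linarith
  have hR1 : R < 1 := by rw [hR]; linarith
  have e1 : ∀ ω : ℕ → ℝ, ENNReal.ofReal (Sm m n R ω) =
      ∑ k ∈ Finset.range (n + 1), ENNReal.ofReal (((k + m).choose m : ℝ) * R ^ k) *
        ENNReal.ofReal |ω (k + m)| := by
    intro ω
    unfold Sm
    rw [ENNReal.ofReal_sum_of_nonneg (fun k _ => by positivity)]
    apply Finset.sum_congr rfl
    intro k _
    rw [← ENNReal.ofReal_mul (by positivity)]
    congr 1
    ring
  simp_rw [e1]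
  rw [lintegral_finsetSum]
  · have e2 : ∀ k ∈ Finset.range (n + 1),
        ∫⁻ ω, ENNReal.ofReal (((k + m).choose m : ℝ) * R ^ k) * ENNReal.ofReal |ω (k + m)| ∂(Pm μ) ≤
        ENNReal.ofReal (((k + m).choose m : ℝ) * R ^ k) * ENNReal.ofReal A1 := by
      intro k _
      rw [lintegral_const_mul _ (by fun_prop)]
      gcongr
      have h3 := (measurePreserving_eval_infinitePi (fun _ : ℕ => μ) (k + m)).lintegral_comp
        (f := fun x : ℝ => ENNReal.ofReal |x|) (by fun_prop)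
      rw [Pm]
      exact h3.trans_le hA
    refine (Finset.sum_le_sum e2).trans ?_
    rw [← Finset.sum_mul, ← ENNReal.ofReal_sum_of_nonneg (fun k _ => by positivity),
      ← ENNReal.ofReal_mul (Finset.sum_nonneg fun k _ => by positivity)]
    apply ENNReal.ofReal_le_ofReal
    apply mul_le_mul_of_nonneg_right _ hA1
    refine (sum_choose_le m n R hR0 hR1).trans (le_of_eq ?_)
    have : 1 - R = 1 / (2 * N) := by rw [hR]; ring
    rw [this, one_div_pow, one_div_one_div]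
  · intro k _
    fun_prop

lemma exists_A1 (μ : Measure ℝ) [IsProbabilityMeasure μ] (h2 : Integrable (fun x : ℝ => x ^ 2) μ) :
    ∃ A1 : ℝ, 0 ≤ A1 ∧ ∫⁻ x, ENNReal.ofReal |x| ∂μ ≤ ENNReal.ofReal A1 := by
  refine ⟨∫ x, (1 + x ^ 2) ∂μ, integral_nonneg fun x => by positivity, ?_⟩
  rw [ofReal_integral_eq_lintegral_ofReal]
  · apply lintegral_mono
    intro x
    apply ENNReal.ofReal_le_ofReal
    nlinarith [abs_nonneg x, sq_abs x, sq_nonneg (|x| - 1)]
  · exact (integrable_const 1).add h2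
  · exact Filter.Eventually.of_forall fun x => by positivity

lemma lintegral_Y (μ : Measure ℝ) [IsProbabilityMeasure μ] (A1 : ℝ) (hA1 : 0 ≤ A1)
    (hA : ∫⁻ x, ENNReal.ofReal |x| ∂μ ≤ ENNReal.ofReal A1) (m n : ℕ) (N : ℝ) (hN : 2 ≤ N)
    (lam : ℝ) (hlam : 0 < lam) (b : ℝ) (hb : 0 ≤ b) :
    ∫⁻ ω, ENNReal.ofReal (b * (1 + Sm m n (1 - 1 / (2 * N)) ω / (lam * (2 * N) ^ (m + 1)))) ∂(Pm μ)
      ≤ ENNReal.ofReal (b * (1 + A1 / lam)) := by
  have hNpos : 0 < N := by linarith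
  have hpr : IsProbabilityMeasure (Pm μ) := by unfold Pm; infer_instance
  set D : ℝ := lam * (2 * N) ^ (m + 1) with hD
  have hDpos : 0 < D := by positivity
  have hR0 : 0 ≤ 1 - 1 / (2 * N) := by
    have : 1 / (2 * N) ≤ 1 / 4 := by apply one_div_le_one_div_of_le <;> linarith
    linarith
  have hS0 : ∀ ω, 0 ≤ Sm m n (1 - 1 / (2 * N)) ω := by
    intro ω
    unfold Sm
    exact Finset.sum_nonneg fun k _ => by positivity
  have e1 : ∀ ω : ℕ → ℝ, ENNReal.ofReal (b * (1 + Sm m n (1 - 1 / (2 * N)) ω / D)) =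
      ENNReal.ofReal b + ENNReal.ofReal (b / D) * ENNReal.ofReal (Sm m n (1 - 1 / (2 * N)) ω) := by
    intro ω
    have h3 := hS0 ω
    rw [← ENNReal.ofReal_mul (by positivity), ← ENNReal.ofReal_add hb (by positivity)]
    congr 1
    ring
  simp_rw [e1]
  rw [lintegral_add_left (by fun_prop), lintegral_const, measure_univ, mul_one,
    lintegral_const_mul _ ((Sm_measurable m n _).ennreal_ofReal)]
  have h4 := lintegral_Sm μ A1 hA1 hA m n N hN
  refine (add_le_add le_rfl (mul_le_mul' le_rfl h4)).trans ?_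
  rw [← ENNReal.ofReal_mul (by positivity), ← ENNReal.ofReal_add hb (by positivity)]
  apply ENNReal.ofReal_le_ofReal
  apply le_of_eq
  rw [hD]
  field_simp

lemma summable_T (s : ℝ) (hs0 : 0 < s) (hs1 : s < 1) :
    Summable fun m : ℕ => ((m : ℝ) + 2) ^ 4 * s ^ m := by
  have hR : ‖s‖ < 1 := by rw [Real.norm_eq_abs, abs_of_pos hs0]; exact hs1
  have h := fun k : ℕ => summable_pow_mul_geometric_of_norm_lt_one k hR
  have h2 := ((((h 4).add ((h 3).mul_left 8)).add ((h 2).mul_left 24)).add ((h 1).mul_left 32)).add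
    ((h 0).mul_left 16)
  refine h2.congr ?_
  intro m
  ring

set_option maxHeartbeats 4000000 in
theorem main (μ : Measure ℝ) [IsProbabilityMeasure μ] (h2 : Integrable (fun x : ℝ => x ^ 2) μ)
    (hμ : μ {(0 : ℝ)} ≠ 1) :
    ∃ K : ℝ, 0 < K ∧ ∀ (N : ℝ), 2 ≤ N → ∀ n : ℕ, ∀ ε : ℝ, (ε = 1 ∨ ε = -1) →
      ∫⁻ ω, ENNReal.ofReal ((Z (derivative (kac ε n ω)) 0 (1 - 1 / N) : ℝ) ^ 4) ∂(Pm μ)
        ≤ ENNReal.ofReal (K * (N * (1 + Real.log N)) ^ 4) := by
  classical
  obtain ⟨lam, hlam, hq⟩ := exists_lam μ hμ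
  obtain ⟨A1, hA1, hA⟩ := exists_A1 μ h2
  -- the geometric ratio
  set q : ENNReal := μ {x : ℝ | |x| < lam} with hqdef
  have hqtop : q ≠ ⊤ := (hq.trans_le le_top).ne
  set t : ℝ := max q.toReal (1 / 4) with ht
  have ht1 : t < 1 := by
    apply max_lt
    · rw [← ENNReal.toReal_one]
      exact (ENNReal.toReal_lt_toReal hqtop ENNReal.one_ne_top).mpr hq
    · norm_num
  have ht0 : 0 < t := lt_of_lt_of_le (by norm_num) (le_max_right _ _)
  set s : ℝ := Real.sqrt t with hs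
  have hs0 : 0 < s := Real.sqrt_pos.mpr ht0
  have hs1 : s < 1 := by
    rw [hs, Real.sqrt_lt' one_pos]; simpa using ht1
  have hst : s ^ 2 = t := Real.sq_sqrt ht0.le
  have hqs : q ≤ ENNReal.ofReal (s ^ 2) := by
    rw [hst, ← ENNReal.ofReal_toReal hqtop]
    exact ENNReal.ofReal_le_ofReal (le_max_left _ _)
  have hEv : ∀ m : ℕ, Pm μ (Ev lam m) ≤ ENNReal.ofReal (s ^ (2 * (m - 1))) := by
    intro m
    rw [Ev_measure, pow_mul, ENNReal.ofReal_pow (by positivity)]
    exact pow_le_pow_left' hqs _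
  -- constants
  set T : ℝ := ∑' m : ℕ, ((m : ℝ) + 2) ^ 4 * s ^ m with hT
  have hTs := summable_T s hs0 hs1
  have hT0 : 0 < T := by
    refine hTs.tsum_pos (fun m => by positivity) 0 ?_
    norm_num
  set K0 : ℝ := 2113 + 2580480 * (1 + A1 / lam) with hK0
  have hA1lam : 0 ≤ A1 / lam := by positivity
  have hK0pos : 0 < K0 := by positivity
  refine ⟨T * K0, by positivity, ?_⟩
  intro N hN n ε hε
  have hNpos : 0 < N := by linarith
  set l : ℝ := Real.log (2 * N) with hl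
  have hl1 : 1 ≤ l := by
    have h4 : Real.log 4 ≤ l := Real.log_le_log (by norm_num) (by linarith)
    have h5 : Real.log 4 = 2 * Real.log 2 := by
      rw [show (4 : ℝ) = 2 ^ 2 by norm_num, Real.log_pow]; norm_num
    have := Real.log_two_gt_d9
    linarith
  -- the pointwise bound
  set a : ℕ → ℝ := fun m => N ^ 4 * (2048 * ((m : ℝ) + 1) ^ 4 * l ^ 4 + 64 / s ^ (m - 1)) with ha
  set b : ℕ → ℝ := fun m => 2580480 * N ^ 4 * s ^ (m - 1) with hb
  have hapos : ∀ m, 0 ≤ a m := fun m => by rw [ha]; positivity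
  have hbpos : ∀ m, 0 ≤ b m := fun m => by rw [hb]; positivity
  have hR0 : 0 ≤ 1 - 1 / (2 * N) := by
    have : 1 / (2 * N) ≤ 1 / 4 := by apply one_div_le_one_div_of_le <;> linarith
    linarith
  have hpt : ∀ ω : ℕ → ℝ, ENNReal.ofReal ((Z (derivative (kac ε n ω)) 0 (1 - 1 / N) : ℝ) ^ 4) ≤
      (Ev lam (n + 1)).indicator (fun _ => ENNReal.ofReal ((n : ℝ) ^ 4)) ω +
      ∑ m ∈ Finset.Icc 1 n, ((Ev lam m).indicator (fun _ => ENNReal.ofReal (a m)) ω +
        ENNReal.ofReal (b m * (1 + Sm m n (1 - 1 / (2 * N)) ω / (lam * (2 * N) ^ (m + 1))))) := by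
    intro ω
    by_cases hω : ω ∈ Ev lam (n + 1)
    · rw [Set.indicator_of_mem hω]
      exact (ENNReal.ofReal_le_ofReal (pointwise_small n ω _)).trans le_self_add
    · -- first large coefficient
      have hex : ∃ k, 1 ≤ k ∧ k < n + 1 ∧ lam ≤ |ω k| := by
        simp only [Ev, Set.mem_ofPred_eq, not_forall, not_lt] at hω
        obtain ⟨k, h1, h2, h3⟩ := hω
        exact ⟨k, h1, h2, h3⟩
      set m := Nat.find hex with hm
      obtain ⟨hm1, hm2, hm3⟩ := Nat.find_spec hex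
      have hmem : ω ∈ Ev lam m := by
        intro k hk1 hk2
        by_contra hcon
        push Not at hcon
        exact Nat.find_min hex hk2 ⟨hk1, hk2.trans hm2, hcon⟩
      have hmI : m ∈ Finset.Icc 1 n := by
        rw [Finset.mem_Icc]; exact ⟨hm1, by omega⟩
      have h5 := pointwise_main hε n m hm1 (by omega) ω lam hlam hm3 N hN s hs0
      have hS0 : 0 ≤ Sm m n (1 - 1 / (2 * N)) ω := by
        unfold Sm
        exact Finset.sum_nonneg fun k _ => by positivity
      refine le_trans ?_ le_add_self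
      refine le_trans ?_ (Finset.single_le_sum (f := fun m =>
        ((Ev lam m).indicator (fun _ => ENNReal.ofReal (a m)) ω +
        ENNReal.ofReal (b m * (1 + Sm m n (1 - 1 / (2 * N)) ω / (lam * (2 * N) ^ (m + 1))))))
        (fun _ _ => bot_le) hmI)
      rw [Set.indicator_of_mem hmem, ← ENNReal.ofReal_add (hapos m)]
      · exact ENNReal.ofReal_le_ofReal h5
      · have := hbpos m
        positivity
  refine (lintegral_mono hpt).trans ?_
  rw [lintegral_add_left (measurable_const.indicator (Ev_measurable _ _)), lintegral_finsetSum]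
  swap
  · intro m _
    refine (measurable_const.indicator (Ev_measurable _ _)).add ?_
    have := Sm_measurable m n (1 - 1 / (2 * N))
    fun_prop
  have hsum : ∀ m ∈ Finset.Icc 1 n,
      ∫⁻ ω, ((Ev lam m).indicator (fun _ => ENNReal.ofReal (a m)) ω +
        ENNReal.ofReal (b m * (1 + Sm m n (1 - 1 / (2 * N)) ω / (lam * (2 * N) ^ (m + 1))))) ∂(Pm μ)
      ≤ ENNReal.ofReal (N ^ 4 * l ^ 4 * (2112 + 2580480 * (1 + A1 / lam)) *
          (((m : ℝ) + 1) ^ 4 * s ^ (m - 1))) := by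
    intro m hm
    rw [lintegral_add_left (measurable_const.indicator (Ev_measurable _ _)),
      lintegral_indicator_const (Ev_measurable _ _)]
    refine (add_le_add (mul_le_mul' le_rfl (hEv m)) (lintegral_Y μ A1 hA1 hA m n N hN lam hlam (b m) (hbpos m))).trans ?_
    rw [← ENNReal.ofReal_mul (hapos m), ← ENNReal.ofReal_add (by have := hapos m; positivity)
      (by have := hbpos m; positivity)]
    apply ENNReal.ofReal_le_ofReal
    simp only [ha, hb]
    have hsm : 0 < s ^ (m - 1) := by positivity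
    have hsm1 : s ^ (m - 1) ≤ 1 := pow_le_one₀ hs0.le hs1.le
    rw [show s ^ (2 * (m - 1)) = s ^ (m - 1) * s ^ (m - 1) by rw [two_mul, pow_add]]
    set v := s ^ (m - 1) with hv
    have hl4 : 1 ≤ l ^ 4 := one_le_pow₀ hl1
    have hmR : (0 : ℝ) ≤ m := Nat.cast_nonneg m
    have hm4 : 1 ≤ ((m : ℝ) + 1) ^ 4 := one_le_pow₀ (by linarith)
    have hlm : 1 ≤ l ^ 4 * ((m : ℝ) + 1) ^ 4 := by nlinarith
    have e5 : N ^ 4 * (2048 * ((m : ℝ) + 1) ^ 4 * l ^ 4 + 64 / v) * (v * v) +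
        2580480 * N ^ 4 * v * (1 + A1 / lam) =
        N ^ 4 * v * (2048 * (l ^ 4 * ((m : ℝ) + 1) ^ 4) * v + 64 + 2580480 * (1 + A1 / lam)) := by
      field_simp
    rw [e5]
    have e6 : N ^ 4 * l ^ 4 * (2112 + 2580480 * (1 + A1 / lam)) * (((m : ℝ) + 1) ^ 4 * v) =
        N ^ 4 * v * ((2112 + 2580480 * (1 + A1 / lam)) * (l ^ 4 * ((m : ℝ) + 1) ^ 4)) := by ring
    rw [e6]
    apply mul_le_mul_of_nonneg_left _ (by positivity)
    set w := l ^ 4 * ((m : ℝ) + 1) ^ 4 with hw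
    have hw0 : 0 ≤ w := by linarith
    have e7 : 2048 * w * v ≤ 2048 * w := by nlinarith
    have e8 : 64 + 2580480 * (1 + A1 / lam) ≤ (64 + 2580480 * (1 + A1 / lam)) * w := by
      have : 0 ≤ 64 + 2580480 * (1 + A1 / lam) := by positivity
      nlinarith
    nlinarith
  have hfirst : ∫⁻ ω, (Ev lam (n + 1)).indicator (fun _ => ENNReal.ofReal ((n : ℝ) ^ 4)) ω ∂(Pm μ) ≤
      ENNReal.ofReal (N ^ 4 * l ^ 4 * (((n : ℝ) + 2) ^ 4 * s ^ n)) := by
    rw [lintegral_indicator_const (Ev_measurable _ _)]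
    refine (mul_le_mul' le_rfl (hEv (n + 1))).trans ?_
    rw [← ENNReal.ofReal_mul (by positivity)]
    apply ENNReal.ofReal_le_ofReal
    rw [Nat.add_sub_cancel]
    have hl4 : 1 ≤ l ^ 4 := one_le_pow₀ hl1
    have hN4 : 1 ≤ N ^ 4 := one_le_pow₀ (by linarith)
    have hNl : 1 ≤ N ^ 4 * l ^ 4 := by nlinarith
    have hn0 : (0 : ℝ) ≤ n := Nat.cast_nonneg n
    have h6 : (n : ℝ) ^ 4 ≤ ((n : ℝ) + 2) ^ 4 := pow_le_pow_left₀ hn0 (by linarith) 4
    have h7 : s ^ (2 * n) ≤ s ^ n := by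
      rw [two_mul, pow_add]
      have : s ^ n ≤ 1 := pow_le_one₀ hs0.le hs1.le
      have : 0 < s ^ n := by positivity
      nlinarith
    have h8 : (n : ℝ) ^ 4 * s ^ (2 * n) ≤ ((n : ℝ) + 2) ^ 4 * s ^ n :=
      mul_le_mul h6 h7 (by positivity) (by positivity)
    have h9 : 0 ≤ ((n : ℝ) + 2) ^ 4 * s ^ n := by positivity
    nlinarith
  refine (add_le_add hfirst (Finset.sum_le_sum hsum)).trans ?_
  · rw [← ENNReal.ofReal_sum_of_nonneg (fun m _ => by positivity),
      ← ENNReal.ofReal_add (by positivity) (Finset.sum_nonneg fun m _ => by positivity)]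
    apply ENNReal.ofReal_le_ofReal
    rw [← Finset.mul_sum]
    have h10 : ∑ m ∈ Finset.Icc 1 n, (((m : ℝ) + 1) ^ 4 * s ^ (m - 1)) ≤ T := by
      have e9 : ∑ m ∈ Finset.Icc 1 n, (((m : ℝ) + 1) ^ 4 * s ^ (m - 1)) =
          ∑ m ∈ Finset.range n, (((m : ℝ) + 2) ^ 4 * s ^ m) := by
        have e10 : Finset.Icc 1 n = Finset.Ico 1 (n + 1) := by
          ext k; simp only [Finset.mem_Icc, Finset.mem_Ico]; omega
        rw [e10, Finset.sum_Ico_eq_sum_range]
        simp only [Nat.add_sub_cancel]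
        apply Finset.sum_congr rfl
        intro k _
        have e11 : 1 + k - 1 = k := by omega
        rw [e11]
        push_cast
        ring
      rw [e9]
      exact hTs.sum_le_tsum _ (fun m _ => by positivity)
    have h11 : ((n : ℝ) + 2) ^ 4 * s ^ n ≤ T := hTs.le_tsum n (fun m _ => by positivity)
    have h12 : l ≤ 1 + Real.log N := by
      rw [hl, Real.log_mul (by norm_num) hNpos.ne']
      have := Real.log_two_lt_d9
      linarith
    have h13 : l ^ 4 ≤ (1 + Real.log N) ^ 4 := pow_le_pow_left₀ (by linarith) h12 4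
    have h14 : N ^ 4 * l ^ 4 * (((n : ℝ) + 2) ^ 4 * s ^ n) ≤ N ^ 4 * l ^ 4 * T :=
      mul_le_mul_of_nonneg_left h11 (by positivity)
    have h15 : N ^ 4 * l ^ 4 * (2112 + 2580480 * (1 + A1 / lam)) *
        ∑ m ∈ Finset.Icc 1 n, (((m : ℝ) + 1) ^ 4 * s ^ (m - 1)) ≤
        N ^ 4 * l ^ 4 * (2112 + 2580480 * (1 + A1 / lam)) * T :=
      mul_le_mul_of_nonneg_left h10 (by positivity)
    have h16 : N ^ 4 * l ^ 4 * (T * K0) ≤ N ^ 4 * (1 + Real.log N) ^ 4 * (T * K0) := by
      apply mul_le_mul_of_nonneg_right _ (by positivity)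
      exact mul_le_mul_of_nonneg_left h13 (by positivity)
    have h17 : N ^ 4 * l ^ 4 * T + N ^ 4 * l ^ 4 * (2112 + 2580480 * (1 + A1 / lam)) * T =
        N ^ 4 * l ^ 4 * (T * K0) := by rw [hK0]; ring
    have h18 : T * K0 * (N * (1 + Real.log N)) ^ 4 = N ^ 4 * (1 + Real.log N) ^ 4 * (T * K0) := by ring
    rw [h18]
    linarith

end ModC

/-! ### Module C: fourth moment of the number of roots of the derivative -/

theorem modC (μ : Measure ℝ) [IsProbabilityMeasure μ] (h2 : Integrable (fun x : ℝ => x ^ 2) μ)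
    (hμ : μ {(0 : ℝ)} ≠ 1) :
    ∃ K : ℝ, 0 < K ∧ ∀ (N : ℝ), 2 ≤ N → ∀ n : ℕ, ∀ ε : ℝ, (ε = 1 ∨ ε = -1) →
      ∫⁻ ω, ENNReal.ofReal ((Z (derivative (kac ε n ω)) 0 (1 - 1 / N) : ℝ) ^ 4) ∂(Pm μ)
        ≤ ENNReal.ofReal (K * (N * (1 + Real.log N)) ^ 4) :=
  ModC.main μ h2 hμ

end Pool.Agent.H89.Kac
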