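import Mathlib
import Pool.Agent.H89.Kac.Defs

/-!
Module D: deterministic smoothing of the root count of a real polynomial.
-/

set_option autoImplicit false

open MeasureTheory Filter Topology Polynomial

namespace Pool.Agent.H89.Kac

theorem continuous_tri (η : ℝ) : Continuous (tri η) := by
  unfold tri
  fun_prop

theorem tri_nonneg (η u : ℝ) : 0 ≤ tri η u := le_max_right _ _

theorem tri_neg (η u : ℝ) : tri η (-u) = tri η u := by simp [tri]

/-- Integral of the tent function from `0` to `u ≥ 0`. -/
theorem integral_tri_of_nonneg_of_le {η u : ℝ} (hu : 0 ≤ u) (huη : u ≤ η) :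
    ∫ x in (0 : ℝ)..u, tri η x = η * u - u ^ 2 / 2 := by
  have h1 : ∫ x in (0 : ℝ)..u, tri η x = ∫ x in (0 : ℝ)..u, (η - x) := by
    apply intervalIntegral.integral_congr
    intro x hx
    rw [Set.uIcc_of_le hu] at hx
    simp only [tri]
    rw [abs_of_nonneg hx.1, max_eq_left (by linarith [hx.2])]
  rw [h1, intervalIntegral.integral_sub (f := fun _ : ℝ => η) (g := fun x : ℝ => x)
    intervalIntegrable_const (continuous_id.intervalIntegrable _ _)]
  rw [intervalIntegral.integral_const, integral_id]
  simp only [smul_eq_mul]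
  ring

theorem integral_tri_tail {η α β : ℝ} (hα : η ≤ α) (hαβ : α ≤ β) :
    ∫ x in α..β, tri η x = 0 := by
  have h1 : ∫ x in α..β, tri η x = ∫ x in α..β, (0 : ℝ) := by
    apply intervalIntegral.integral_congr
    intro x hx
    rw [Set.uIcc_of_le hαβ] at hx
    simp only [tri]
    apply max_eq_right
    have : x ≤ |x| := le_abs_self x
    linarith [hx.1]
  rw [h1]
  simp

theorem intervalIntegrable_tri (η α β : ℝ) : IntervalIntegrable (tri η) volume α β :=
  (continuous_tri η).intervalIntegrable _ _

/-- The primitive `T u = ∫ 0..u` for `u ≥ 0` lies between `0` and `η^2/2`. -/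
theorem integral_tri_bounds {η u : ℝ} (hη : 0 < η) (hu : 0 ≤ u) :
    0 ≤ ∫ x in (0 : ℝ)..u, tri η x ∧ ∫ x in (0 : ℝ)..u, tri η x ≤ η ^ 2 / 2 ∧
      (η ≤ u → ∫ x in (0 : ℝ)..u, tri η x = η ^ 2 / 2) := by
  rcases le_total u η with h | h
  · rw [integral_tri_of_nonneg_of_le hu h]
    refine ⟨by nlinarith, by nlinarith [sq_nonneg (η - u)], fun h' => ?_⟩
    have : u = η := le_antisymm h h'
    subst this; ring
  · have h1 : ∫ x in (0 : ℝ)..u, tri η x = η ^ 2 / 2 := by
      rw [← intervalIntegral.integral_add_adjacent_intervals (intervalIntegrable_tri η 0 η)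
        (intervalIntegrable_tri η η u), integral_tri_of_nonneg_of_le hη.le le_rfl,
        integral_tri_tail le_rfl h]
      ring
    rw [h1]
    exact ⟨by positivity, le_rfl, fun _ => rfl⟩

theorem integral_tri_neg (η u : ℝ) :
    ∫ x in (0 : ℝ)..(-u), tri η x = - ∫ x in (0 : ℝ)..u, tri η x := by
  have h1 : ∫ x in (0 : ℝ)..u, tri η (-x) = ∫ x in (-u)..(-0 : ℝ), tri η x :=
    intervalIntegral.integral_comp_neg (tri η)
  simp only [tri_neg, neg_zero] at h1
  rw [h1, intervalIntegral.integral_symm]

/-- Basic estimate: `α < 0 ≤ β`. -/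
theorem tri_cross {η α β : ℝ} (hη : 0 < η) (hα : α < 0) (hβ : 0 ≤ β) :
    |1 - (η ^ 2)⁻¹ * ∫ x in α..β, tri η x| ≤
      (1 / 2) * (if |α| ≤ η then 1 else 0) + (1 / 2) * (if |β| ≤ η then 1 else 0) := by
  have hsplit : ∫ x in α..β, tri η x
      = (∫ x in (0 : ℝ)..β, tri η x) + ∫ x in (0 : ℝ)..(-α), tri η x := by
    rw [integral_tri_neg, ← intervalIntegral.integral_add_adjacent_intervals
      (intervalIntegrable_tri η α 0) (intervalIntegrable_tri η 0 β),
      intervalIntegral.integral_symm 0 α]
    ring
  obtain ⟨b1, b2, b3⟩ := integral_tri_bounds hη hβ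
  obtain ⟨a1, a2, a3⟩ := integral_tri_bounds hη (neg_pos.2 hα).le
  rw [hsplit]
  set B := ∫ x in (0 : ℝ)..β, tri η x
  set A := ∫ x in (0 : ℝ)..(-α), tri η x
  have hη2 : 0 < η ^ 2 := by positivity
  have key : 1 - (η ^ 2)⁻¹ * (B + A) = (1 / 2 - (η ^ 2)⁻¹ * B) + (1 / 2 - (η ^ 2)⁻¹ * A) := by ring
  have hB0 : 0 ≤ 1 / 2 - (η ^ 2)⁻¹ * B := by
    rw [sub_nonneg, inv_mul_le_iff₀ hη2]; linarith
  have hA0 : 0 ≤ 1 / 2 - (η ^ 2)⁻¹ * A := by
    rw [sub_nonneg, inv_mul_le_iff₀ hη2]; linarith
  have hB1 : 1 / 2 - (η ^ 2)⁻¹ * B ≤ (1 / 2) * (if |β| ≤ η then 1 else 0) := by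
    split_ifs with h
    · have : 0 ≤ (η ^ 2)⁻¹ * B := by positivity
      linarith
    · rw [abs_of_nonneg hβ] at h
      rw [b3 (by linarith)]
      field_simp
      norm_num
  have hA1 : 1 / 2 - (η ^ 2)⁻¹ * A ≤ (1 / 2) * (if |α| ≤ η then 1 else 0) := by
    split_ifs with h
    · have : 0 ≤ (η ^ 2)⁻¹ * A := by positivity
      linarith
    · rw [abs_of_neg hα] at h
      rw [a3 (by linarith)]
      field_simp
      norm_num
  rw [key, abs_of_nonneg (add_nonneg hB0 hA0)]
  linarith

/-- Basic estimate: `0 ≤ α ≤ β`. -/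
theorem tri_pos_side {η α β : ℝ} (hη : 0 < η) (hα : 0 ≤ α) (hαβ : α ≤ β) :
    |0 - (η ^ 2)⁻¹ * ∫ x in α..β, tri η x| ≤ (1 / 2) * (if |α| ≤ η then 1 else 0) := by
  have hη2 : 0 < η ^ 2 := by positivity
  have hsplit : ∫ x in α..β, tri η x
      = (∫ x in (0 : ℝ)..β, tri η x) - ∫ x in (0 : ℝ)..α, tri η x := by
    rw [intervalIntegral.integral_interval_sub_left (intervalIntegrable_tri η 0 β)
      (intervalIntegrable_tri η 0 α)]
  have h0 : 0 ≤ ∫ x in α..β, tri η x :=
    intervalIntegral.integral_nonneg hαβ fun x _ => tri_nonneg η x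
  obtain ⟨b1, b2, b3⟩ := integral_tri_bounds hη (hα.trans hαβ)
  obtain ⟨a1, a2, a3⟩ := integral_tri_bounds hη hα
  have h1 : 0 ≤ (η ^ 2)⁻¹ * ∫ x in α..β, tri η x := by positivity
  rw [zero_sub, abs_neg, abs_of_nonneg h1]
  split_ifs with h
  · rw [mul_one, inv_mul_le_iff₀ hη2, hsplit]; linarith
  · rw [abs_of_nonneg hα] at h
    rw [integral_tri_tail (by linarith) hαβ]
    simp

/-- Basic estimate: `α ≤ β ≤ 0`. -/
theorem tri_neg_side {η α β : ℝ} (hη : 0 < η) (hβ : β ≤ 0) (hαβ : α ≤ β) :
    |0 - (η ^ 2)⁻¹ * ∫ x in α..β, tri η x| ≤ (1 / 2) * (if |β| ≤ η then 1 else 0) := by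
  have h1 : ∫ x in α..β, tri η x = ∫ x in (-β)..(-α), tri η x := by
    have := intervalIntegral.integral_comp_neg (a := α) (b := β) (tri η)
    simp only [tri_neg] at this
    exact this
  rw [h1]
  have := tri_pos_side (η := η) (α := -β) (β := -α) hη (by linarith) (by linarith)
  rwa [abs_neg] at this

/-- The monotone case. -/
theorem modD_mono (p : ℝ[X]) (a b η : ℝ) (hab : a < b) (hη : 0 < η)
    (hpos : ∀ x ∈ Set.Ioo a b, 0 < (derivative p).eval x) :
    abs ((Z p a b : ℝ) - (η ^ 2)⁻¹ * ∫ x in a..b, tri η (p.eval x) * abs ((derivative p).eval x))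
      ≤ (1 / 2) * (if abs (p.eval a) ≤ η then 1 else 0)
        + (1 / 2) * (if abs (p.eval b) ≤ η then 1 else 0) := by
  have hmono : StrictMonoOn (fun x => p.eval x) (Set.Icc a b) := by
    apply strictMonoOn_of_deriv_pos (convex_Icc a b) p.continuousOn
    intro x hx
    rw [interior_Icc] at hx
    rw [Polynomial.deriv]
    exact hpos x hx
  have hp0 : p ≠ 0 := by
    rintro rfl
    have := hpos ((a + b) / 2) ⟨by linarith, by linarith⟩
    simp at this
  have hcont : Continuous fun x => (derivative p).eval x := (derivative p).continuous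
  have hnonneg : ∀ x ∈ Set.Icc a b, 0 ≤ (derivative p).eval x := by
    intro x hx
    have : x ∈ closure (Set.Ioo a b) := by rwa [closure_Ioo hab.ne]
    exact closure_minimal (s := Set.Ioo a b) (t := {x | 0 ≤ (derivative p).eval x})
      (fun y hy => (hpos y hy).le) (isClosed_le continuous_const hcont) this
  have hint : ∫ x in a..b, tri η (p.eval x) * abs ((derivative p).eval x)
      = ∫ u in (p.eval a)..(p.eval b), tri η u := by
    have h1 : ∫ x in a..b, tri η (p.eval x) * abs ((derivative p).eval x)
        = ∫ x in a..b, (tri η ∘ fun y => p.eval y) x * (derivative p).eval x := by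
      apply intervalIntegral.integral_congr
      intro x hx
      rw [Set.uIcc_of_le hab.le] at hx
      simp only [Function.comp]
      rw [abs_of_nonneg (hnonneg x hx)]
    rw [h1]
    exact intervalIntegral.integral_comp_mul_deriv (f := fun y => p.eval y)
      (f' := fun y => (derivative p).eval y) (g := tri η)
      (fun x _ => p.hasDerivAt x) hcont.continuousOn (continuous_tri η)
  rw [hint]
  have hlt : p.eval a < p.eval b := hmono (Set.left_mem_Icc.2 hab.le) (Set.right_mem_Icc.2 hab.le) hab
  by_cases hcase : p.eval a < 0 ∧ 0 ≤ p.eval b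
  · -- exactly one root
    have hroot : ∃ c, a < c ∧ c ≤ b ∧ p.eval c = 0 := by
      obtain ⟨c, hc, hc0⟩ := intermediate_value_Icc hab.le (f := fun x => p.eval x)
        p.continuousOn (show (0 : ℝ) ∈ Set.Icc _ _ from ⟨hcase.1.le, hcase.2⟩)
      refine ⟨c, lt_of_le_of_ne hc.1 ?_, hc.2, hc0⟩
      rintro rfl
      simp only at hc0
      linarith [hcase.1]
    obtain ⟨c, hac, hcb, hc⟩ := hroot
    have hZ : Z p a b = 1 := by
      unfold Z
      rw [Finset.card_eq_one]
      refine ⟨c, ?_⟩
      ext x
      simp only [Finset.mem_filter, Multiset.mem_toFinset, mem_roots hp0, IsRoot.def,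
        Finset.mem_singleton]
      constructor
      · rintro ⟨hx, hax, hxb⟩
        exact hmono.injOn ⟨hax.le, hxb⟩ ⟨hac.le, hcb⟩ (by simp [hx, hc])
      · rintro rfl
        exact ⟨hc, hac, hcb⟩
    rw [hZ, Nat.cast_one]
    exact tri_cross hη hcase.1 hcase.2
  · have hZ : Z p a b = 0 := by
      unfold Z
      rw [Finset.card_eq_zero, Finset.eq_empty_iff_forall_notMem]
      intro x hx
      simp only [Finset.mem_filter, Multiset.mem_toFinset, mem_roots hp0, IsRoot.def] at hx
      obtain ⟨hx, hax, hxb⟩ := hx
      apply hcase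
      have h1 : p.eval a < p.eval x := hmono (Set.left_mem_Icc.2 hab.le) ⟨hax.le, hxb⟩ hax
      have h2 : p.eval x ≤ p.eval b :=
        hmono.monotoneOn ⟨hax.le, hxb⟩ (Set.right_mem_Icc.2 hab.le) hxb
      rw [hx] at h1 h2
      exact ⟨h1, h2⟩
    rw [hZ, Nat.cast_zero]
    have hA : (0 : ℝ) ≤ (1 / 2) * (if abs (p.eval a) ≤ η then 1 else 0) := by
      split_ifs <;> norm_num
    have hB : (0 : ℝ) ≤ (1 / 2) * (if abs (p.eval b) ≤ η then 1 else 0) := by
      split_ifs <;> norm_num
    by_cases ha : p.eval a < 0
    · have hb : p.eval b < 0 := by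
        by_contra h
        exact hcase ⟨ha, not_lt.1 h⟩
      have := tri_neg_side hη hb.le hlt.le
      linarith
    · have := tri_pos_side hη (not_lt.1 ha) hlt.le
      linarith

theorem Z_neg (p : ℝ[X]) (a b : ℝ) : Z (-p) a b = Z p a b := by
  unfold Z
  rw [roots_neg]

/-- No critical points in the open interval. -/
theorem modD_base (p : ℝ[X]) (a b η : ℝ) (hab : a < b) (hη : 0 < η)
    (hne : ∀ x ∈ Set.Ioo a b, (derivative p).eval x ≠ 0) :
    abs ((Z p a b : ℝ) - (η ^ 2)⁻¹ * ∫ x in a..b, tri η (p.eval x) * abs ((derivative p).eval x))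
      ≤ (1 / 2) * (if abs (p.eval a) ≤ η then 1 else 0)
        + (1 / 2) * (if abs (p.eval b) ≤ η then 1 else 0) := by
  have hcont : Continuous fun x => (derivative p).eval x := (derivative p).continuous
  have hmid : (a + b) / 2 ∈ Set.Ioo a b := ⟨by linarith, by linarith⟩
  rcases lt_or_gt_of_ne (hne _ hmid) with hneg | hpos
  · -- derivative negative
    have hall : ∀ x ∈ Set.Ioo a b, 0 < (derivative (-p)).eval x := by
      intro x hx
      rw [derivative_neg, eval_neg, neg_pos]
      by_contra h
      have h' : 0 < (derivative p).eval x := lt_of_le_of_ne (not_lt.1 h) (hne x hx).symm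
      have hsub : Set.uIcc ((a + b) / 2) x ⊆ Set.Ioo a b :=
        (convex_Ioo a b).ordConnected.uIcc_subset hmid hx
      obtain ⟨c, hc, hc0⟩ := (intermediate_value_uIcc (a := (a + b) / 2) (b := x)
        (f := fun y => (derivative p).eval y) hcont.continuousOn)
        (Set.mem_uIcc.2 (Or.inl ⟨hneg.le, h'.le⟩))
      exact hne c (hsub hc) hc0
    have := modD_mono (-p) a b η hab hη hall
    simp only [Z_neg, eval_neg, derivative_neg, tri_neg, abs_neg] at this
    exact this
  · have hall : ∀ x ∈ Set.Ioo a b, 0 < (derivative p).eval x := by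
      intro x hx
      by_contra h
      have h' : (derivative p).eval x < 0 := lt_of_le_of_ne (not_lt.1 h) (hne x hx)
      have hsub : Set.uIcc x ((a + b) / 2) ⊆ Set.Ioo a b :=
        (convex_Ioo a b).ordConnected.uIcc_subset hx hmid
      obtain ⟨c, hc, hc0⟩ := (intermediate_value_uIcc (a := x) (b := (a + b) / 2)
        (f := fun y => (derivative p).eval y) hcont.continuousOn)
        (Set.mem_uIcc.2 (Or.inl ⟨h'.le, hpos.le⟩))
      exact hne c (hsub hc) hc0
    exact modD_mono p a b η hab hη hall

theorem Z_add (p : ℝ[X]) {a b c : ℝ} (hac : a ≤ c) (hcb : c ≤ b) :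
    Z p a b = Z p a c + Z p c b := by
  unfold Z
  rw [← Finset.card_union_of_disjoint]
  · congr 1
    ext x
    simp only [Finset.mem_filter, Finset.mem_union]
    constructor
    · rintro ⟨hx, h1, h2⟩
      rcases le_or_gt x c with h | h
      · exact Or.inl ⟨hx, h1, h⟩
      · exact Or.inr ⟨hx, h, h2⟩
    · rintro (⟨hx, h1, h2⟩ | ⟨hx, h1, h2⟩)
      · exact ⟨hx, h1, h2.trans hcb⟩
      · exact ⟨hx, hac.trans_lt h1, h2⟩
  · rw [Finset.disjoint_left]
    intro x hx hx'
    simp only [Finset.mem_filter] at hx hx'
    linarith [hx.2.2, hx'.2.1]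

/-- The sharp form of the estimate, by induction on the number of critical points. -/
theorem modD_sharp (p : ℝ[X]) (hp' : derivative p ≠ 0) (η : ℝ) (hη : 0 < η) (m : ℕ) :
    ∀ a b : ℝ, a ≤ b → ((derivative p).roots.toFinset.filter (fun x => a < x ∧ x < b)).card = m →
    abs ((Z p a b : ℝ) - (η ^ 2)⁻¹ * ∫ x in a..b, tri η (p.eval x) * abs ((derivative p).eval x))
      ≤ (((derivative p).roots.toFinset.filter
            (fun x => a < x ∧ x < b ∧ abs (p.eval x) ≤ η)).card : ℝ)
        + (1 / 2) * (if abs (p.eval a) ≤ η then 1 else 0)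
        + (1 / 2) * (if abs (p.eval b) ≤ η then 1 else 0) := by
  induction m using Nat.strong_induction_on with
  | _ m ih =>
    intro a b hab hm
    have hint : ∀ u v : ℝ, IntervalIntegrable
        (fun x => tri η (p.eval x) * abs ((derivative p).eval x)) volume u v := by
      intro u v
      apply Continuous.intervalIntegrable
      exact ((continuous_tri η).comp p.continuous).mul (derivative p).continuous.abs
    rcases hab.eq_or_lt with rfl | hlt
    · have hZ : Z p a a = 0 := by
        unfold Z
        rw [Finset.card_eq_zero, Finset.eq_empty_iff_forall_notMem]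
        intro x hx
        simp only [Finset.mem_filter] at hx
        linarith [hx.2.1, hx.2.2]
      rw [hZ]
      simp only [Nat.cast_zero, intervalIntegral.integral_same, mul_zero, sub_zero, abs_zero]
      positivity
    · rcases (((derivative p).roots.toFinset.filter
        (fun x => a < x ∧ x < b)).eq_empty_or_nonempty) with he | ⟨c, hc⟩
      · have hne : ∀ x ∈ Set.Ioo a b, (derivative p).eval x ≠ 0 := by
          intro x hx h0
          have : x ∈ (derivative p).roots.toFinset.filter (fun x => a < x ∧ x < b) := by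
            simp only [Finset.mem_filter, Multiset.mem_toFinset, mem_roots hp', IsRoot.def]
            exact ⟨h0, hx.1, hx.2⟩
          rw [he] at this
          simp at this
        have := modD_base p a b η hlt hη hne
        have h0 : (0 : ℝ) ≤ (((derivative p).roots.toFinset.filter
            (fun x => a < x ∧ x < b ∧ abs (p.eval x) ≤ η)).card : ℝ) := Nat.cast_nonneg _
        linarith
      · simp only [Finset.mem_filter] at hc
        obtain ⟨hcr, hac, hcb⟩ := hc
        -- smaller counts
        have hsub1 : ((derivative p).roots.toFinset.filter (fun x => a < x ∧ x < c)) ⊂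
            ((derivative p).roots.toFinset.filter (fun x => a < x ∧ x < b)) := by
          rw [Finset.ssubset_iff_of_subset]
          · exact ⟨c, by simp only [Finset.mem_filter]; exact ⟨hcr, hac, hcb⟩,
              by simp only [Finset.mem_filter, not_and]; intro _ _; exact lt_irrefl c⟩
          · intro x hx
            simp only [Finset.mem_filter] at hx ⊢
            exact ⟨hx.1, hx.2.1, hx.2.2.trans hcb⟩
        have hsub2 : ((derivative p).roots.toFinset.filter (fun x => c < x ∧ x < b)) ⊂
            ((derivative p).roots.toFinset.filter (fun x => a < x ∧ x < b)) := by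
          rw [Finset.ssubset_iff_of_subset]
          · exact ⟨c, by simp only [Finset.mem_filter]; exact ⟨hcr, hac, hcb⟩,
              by simp only [Finset.mem_filter, not_and]
                 intro _ h
                 exact absurd h (lt_irrefl c)⟩
          · intro x hx
            simp only [Finset.mem_filter] at hx ⊢
            exact ⟨hx.1, hac.trans hx.2.1, hx.2.2⟩
        have i1 := ih _ (hm ▸ Finset.card_lt_card hsub1) a c hac.le rfl
        have i2 := ih _ (hm ▸ Finset.card_lt_card hsub2) c b hcb.le rfl
        have hcard : (((derivative p).roots.toFinset.filter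
              (fun x => a < x ∧ x < c ∧ abs (p.eval x) ≤ η)).card : ℝ)
            + (((derivative p).roots.toFinset.filter
              (fun x => c < x ∧ x < b ∧ abs (p.eval x) ≤ η)).card : ℝ)
            + (if abs (p.eval c) ≤ η then 1 else 0)
            = (((derivative p).roots.toFinset.filter
              (fun x => a < x ∧ x < b ∧ abs (p.eval x) ≤ η)).card : ℝ) := by
          have hd : (derivative p).roots.toFinset.filter
              (fun x => a < x ∧ x < b ∧ abs (p.eval x) ≤ η) =
              (((derivative p).roots.toFinset.filter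
              (fun x => a < x ∧ x < c ∧ abs (p.eval x) ≤ η)) ∪
              ((derivative p).roots.toFinset.filter
              (fun x => c < x ∧ x < b ∧ abs (p.eval x) ≤ η))) ∪
              (if abs (p.eval c) ≤ η then {c} else ∅) := by
            ext x
            simp only [Finset.mem_filter, Finset.mem_union]
            constructor
            · rintro ⟨hx, h1, h2, h3⟩
              rcases lt_trichotomy x c with h | h | h
              · exact Or.inl (Or.inl ⟨hx, h1, h, h3⟩)
              · right
                subst h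
                rw [if_pos h3]
                simp
              · exact Or.inl (Or.inr ⟨hx, h, h2, h3⟩)
            · rintro ((⟨hx, h1, h2, h3⟩ | ⟨hx, h1, h2, h3⟩) | hx)
              · exact ⟨hx, h1, h2.trans hcb, h3⟩
              · exact ⟨hx, hac.trans h1, h2, h3⟩
              · split_ifs at hx with h
                · rw [Finset.mem_singleton] at hx
                  subst hx
                  exact ⟨hcr, hac, hcb, h⟩
                · simp at hx
          have hdis1 : Disjoint (((derivative p).roots.toFinset.filter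
              (fun x => a < x ∧ x < c ∧ abs (p.eval x) ≤ η)) ∪
              ((derivative p).roots.toFinset.filter
              (fun x => c < x ∧ x < b ∧ abs (p.eval x) ≤ η)))
              (if abs (p.eval c) ≤ η then {c} else ∅) := by
            rw [Finset.disjoint_left]
            intro x hx hx'
            split_ifs at hx' with h
            · rw [Finset.mem_singleton] at hx'
              subst hx'
              simp only [Finset.mem_filter, Finset.mem_union] at hx
              rcases hx with hx | hx
              · exact lt_irrefl _ hx.2.2.1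
              · exact lt_irrefl _ hx.2.1
            · simp at hx'
          have hdis2 : Disjoint ((derivative p).roots.toFinset.filter
              (fun x => a < x ∧ x < c ∧ abs (p.eval x) ≤ η))
              ((derivative p).roots.toFinset.filter
              (fun x => c < x ∧ x < b ∧ abs (p.eval x) ≤ η)) := by
            rw [Finset.disjoint_left]
            intro x hx hx'
            simp only [Finset.mem_filter] at hx hx'
            linarith [hx.2.2.1, hx'.2.1]
          rw [hd, Finset.card_union_of_disjoint hdis1, Finset.card_union_of_disjoint hdis2]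
          push_cast
          congr 1
          split_ifs <;> simp
        have hZ := Z_add p hac.le hcb.le
        have hI : ∫ x in a..b, tri η (p.eval x) * abs ((derivative p).eval x)
            = (∫ x in a..c, tri η (p.eval x) * abs ((derivative p).eval x))
              + ∫ x in c..b, tri η (p.eval x) * abs ((derivative p).eval x) :=
          (intervalIntegral.integral_add_adjacent_intervals (hint a c) (hint c b)).symm
        rw [hZ, hI, ← hcard]
        push_cast
        have key : ((Z p a c : ℝ) + (Z p c b : ℝ)) - (η ^ 2)⁻¹ *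
            ((∫ x in a..c, tri η (p.eval x) * abs ((derivative p).eval x))
              + ∫ x in c..b, tri η (p.eval x) * abs ((derivative p).eval x))
            = ((Z p a c : ℝ) - (η ^ 2)⁻¹ *
              ∫ x in a..c, tri η (p.eval x) * abs ((derivative p).eval x))
              + ((Z p c b : ℝ) - (η ^ 2)⁻¹ *
              ∫ x in c..b, tri η (p.eval x) * abs ((derivative p).eval x)) := by ring
        rw [key]
        refine (abs_add_le _ _).trans ?_
        linarith

theorem modD (p : ℝ[X]) (a b η : ℝ) (hab : a ≤ b) (hη : 0 < η) :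
    abs ((Z p a b : ℝ) - (η ^ 2)⁻¹ * ∫ x in a..b, tri η (p.eval x) * abs ((derivative p).eval x))
      ≤ 2 * (((derivative p).roots.toFinset.filter
            (fun x => a < x ∧ x < b ∧ abs (p.eval x) ≤ η)).card : ℝ)
        + (if abs (p.eval a) ≤ η then 1 else 0) + (if abs (p.eval b) ≤ η then 1 else 0) := by
  have hA : (0 : ℝ) ≤ (if abs (p.eval a) ≤ η then 1 else 0) := by
    split_ifs <;> norm_num
  have hB : (0 : ℝ) ≤ (if abs (p.eval b) ≤ η then 1 else 0) := by
    split_ifs <;> norm_num
  have hC : (0 : ℝ) ≤ (((derivative p).roots.toFinset.filter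
            (fun x => a < x ∧ x < b ∧ abs (p.eval x) ≤ η)).card : ℝ) := Nat.cast_nonneg _
  by_cases hp' : derivative p = 0
  · have hZ : Z p a b = 0 := by
      unfold Z
      rw [eq_C_of_derivative_eq_zero hp', roots_C]
      simp
    rw [hZ, hp']
    simp only [Nat.cast_zero, eval_zero, abs_zero, mul_zero, intervalIntegral.integral_zero,
      sub_zero]
    rw [hp'] at hC
    linarith
  · have := modD_sharp p hp' η hη _ a b hab rfl
    linarith

theorem card_roots_Icc_le (p : ℝ[X]) (a b : ℝ) :
    (p.roots.toFinset.filter (fun x => a ≤ x ∧ x ≤ b)).card ≤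
      ((derivative p).roots.toFinset.filter (fun x => a ≤ x ∧ x ≤ b)).card + 1 := by
  rcases eq_or_ne (derivative p) 0 with hp' | hp'
  · rw [eq_C_of_derivative_eq_zero hp', roots_C]
    simp
  have hp : p ≠ 0 := ne_of_apply_ne derivative (by rwa [derivative_zero])
  refine Finset.card_le_of_interleaved fun x hx y hy hxy hxy' => ?_
  simp only [Finset.mem_filter, Multiset.mem_toFinset, mem_roots hp] at hx hy
  obtain ⟨z, hz1, hz2⟩ := exists_deriv_eq_zero hxy p.continuousOn (hx.1.trans hy.1.symm)
  refine ⟨z, ?_, hz1⟩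
  simp only [Finset.mem_filter, Multiset.mem_toFinset, mem_roots hp', IsRoot]
  refine ⟨by rwa [← p.deriv], hx.2.1.trans hz1.1.le, hz1.2.le.trans hy.2.2⟩

theorem modD2 (p : ℝ[X]) (a b : ℝ) (_hab : a ≤ b) (q : ℕ) (S : ℝ)
    (hq : q ≤ (p.roots.toFinset.filter (fun x => a ≤ x ∧ x ≤ b)).card)
    (hS : ∀ x ∈ Set.Icc a b, |((derivative^[q]) p).eval x| ≤ S) :
    ∀ x ∈ Set.Icc a b, |p.eval x| ≤ (b - a) ^ q * S := by
  induction q generalizing p with
  | zero =>
    intro x hx
    simpa using hS x hx
  | succ q ih =>
    have h1 : q ≤ ((derivative p).roots.toFinset.filter (fun x => a ≤ x ∧ x ≤ b)).card := by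
      have := card_roots_Icc_le p a b
      omega
    have h2 := ih (derivative p) h1 (by simpa using hS)
    -- a root
    have hne : (p.roots.toFinset.filter (fun x => a ≤ x ∧ x ≤ b)).Nonempty := by
      rw [← Finset.card_pos]; omega
    obtain ⟨c, hc⟩ := hne
    simp only [Finset.mem_filter, Multiset.mem_toFinset] at hc
    have hroot : p.eval c = 0 := (mem_roots'.1 hc.1).2
    intro x hx
    have h3 : ‖p.eval x - p.eval c‖ ≤ ((b - a) ^ q * S) * ‖x - c‖ := by
      apply Convex.norm_image_sub_le_of_norm_hasDerivWithin_le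
        (f := fun y => p.eval y) (f' := fun y => (derivative p).eval y) (s := Set.Icc a b)
      · intro y _
        exact (p.hasDerivAt y).hasDerivWithinAt
      · intro y hy
        exact h2 y hy
      · exact convex_Icc a b
      · exact hc.2
      · exact hx
    rw [hroot, sub_zero, Real.norm_eq_abs, Real.norm_eq_abs] at h3
    have h4 : |x - c| ≤ b - a := by
      rw [abs_le]
      constructor <;> linarith [hx.1, hx.2, hc.2.1, hc.2.2]
    have h5 : 0 ≤ (b - a) ^ q * S := (abs_nonneg _).trans (h2 x hx)
    calc |p.eval x| ≤ ((b - a) ^ q * S) * |x - c| := h3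
      _ ≤ ((b - a) ^ q * S) * (b - a) := mul_le_mul_of_nonneg_left h4 h5
      _ = (b - a) ^ (q + 1) * S := by ring

end Pool.Agent.H89.Kac
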