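import Pool.Agent.H89.Kac.Defs

set_option autoImplicit false

open MeasureTheory Filter Topology Polynomial Set

namespace Pool.Agent.H89.Kac

/-- Points where the polynomial has a root in a compact set form a closed set. -/
theorem isClosed_hasRoot {Ω : Type*} [TopologicalSpace Ω] {p : Ω → ℝ[X]}
    (hp : Continuous (fun z : Ω × ℝ => (p z.1).eval z.2)) {K : Set ℝ} (hK : IsCompact K) :
    IsClosed {ω | ∃ x ∈ K, (p ω).eval x = 0} := by
  have : CompactSpace K := isCompact_iff_compactSpace.1 hK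
  have h1 : IsClosed {z : Ω × K | (p z.1).eval (z.2 : ℝ) = 0} := by
    refine isClosed_eq ?_ continuous_const
    exact hp.comp (continuous_fst.prodMk (continuous_subtype_val.comp continuous_snd))
  have h2 := isClosedMap_fst_of_compactSpace (X := Ω) (Y := K) _ h1
  convert! h2 using 1
  ext ω
  constructor
  · rintro ⟨x, hx, h⟩
    exact ⟨(ω, ⟨x, hx⟩), h, rfl⟩
  · rintro ⟨⟨ω', x⟩, h, rfl⟩
    exact ⟨x, x.2, h⟩

theorem isClosed_eq_zero {Ω : Type*} [TopologicalSpace Ω] {p : Ω → ℝ[X]}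
    (hp : Continuous (fun z : Ω × ℝ => (p z.1).eval z.2)) : IsClosed {ω | p ω = 0} := by
  have : {ω | p ω = 0} = ⋂ x : ℝ, {ω | (p ω).eval x = 0} := by
    ext ω
    rw [mem_iInter]
    constructor
    · intro h x
      rw [mem_ofPred_eq] at h
      simp [h]
    · intro h
      exact Polynomial.funext fun x => by simpa using h x
  rw [this]
  refine isClosed_iInter fun x => isClosed_eq ?_ continuous_const
  exact hp.comp (continuous_id.prodMk continuous_const)

theorem le_Z_iff {p : ℝ[X]} (hp : p ≠ 0) (a b : ℝ) (m : ℕ) :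
    m ≤ Z p a b ↔ ∃ f : Fin m → ℚ × ℚ, (∀ i, a < ((f i).1 : ℝ)) ∧
      (∀ i j, i ≠ j → Disjoint (Icc ((f i).1 : ℝ) (f i).2) (Icc ((f j).1 : ℝ) (f j).2)) ∧
      ∀ i, ∃ x ∈ Icc ((f i).1 : ℝ) (min ((f i).2 : ℝ) b), p.eval x = 0 := by
  classical
  constructor
  · intro h
    obtain ⟨T, hT, hTc⟩ := Finset.exists_subset_card_eq h
    obtain ⟨U, hU, hUd⟩ := T.finite_toSet.t2_separation
    have hex : ∀ x : ℝ, x ∈ T → ∃ q r : ℚ, a < (q : ℝ) ∧ (q : ℝ) < x ∧ x < (r : ℝ) ∧
        Icc (q : ℝ) r ⊆ U x := by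
      intro x hx
      have hxR := hT hx
      rw [Finset.mem_filter] at hxR
      have ho : IsOpen (U x ∩ Ioi a) := (hU x).2.inter isOpen_Ioi
      obtain ⟨δ, hδ, hball⟩ := Metric.isOpen_iff.1 ho x ⟨(hU x).1, hxR.2.1⟩
      obtain ⟨q, hq1, hq2⟩ := exists_rat_btwn (show x - δ < x by linarith)
      obtain ⟨r, hr1, hr2⟩ := exists_rat_btwn (show x < x + δ by linarith)
      have hin : Icc (q : ℝ) r ⊆ U x ∩ Ioi a := by
        intro y hy
        apply hball
        rw [Metric.mem_ball, Real.dist_eq, abs_lt]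
        constructor <;> linarith [hy.1, hy.2]
      exact ⟨q, r, (hin ⟨le_rfl, by linarith⟩).2, hq2, hr1, hin.trans inter_subset_left⟩
    choose! q r hq1 hq2 hr hqr using hex
    let e : Fin m ≃ T := (T.equivFinOfCardEq hTc).symm
    refine ⟨fun i => (q (e i), r (e i)), fun i => hq1 _ (e i).2, ?_, ?_⟩
    · intro i j hij
      have hne : ((e i : ℝ)) ≠ e j := fun h => hij (e.injective (Subtype.ext h))
      exact (hUd (e i).2 (e j).2 hne).mono (hqr _ (e i).2) (hqr _ (e j).2)
    · intro i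
      have hxR := hT (e i).2
      rw [Finset.mem_filter, Multiset.mem_toFinset] at hxR
      exact ⟨e i, ⟨(hq2 _ (e i).2).le, le_min (hr _ (e i).2).le hxR.2.2⟩,
        (Polynomial.mem_roots hp).1 hxR.1⟩
  · rintro ⟨f, hf1, hf2, hf3⟩
    choose x hx hx0 using hf3
    have hinj : Function.Injective x := by
      intro i j hij
      by_contra hne
      have h1 := hf2 i j hne
      have h2 : x i ∈ Icc ((f i).1 : ℝ) (f i).2 := ⟨(hx i).1, (hx i).2.trans (min_le_left _ _)⟩
      have h3 : x i ∈ Icc ((f j).1 : ℝ) (f j).2 := by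
        rw [hij]
        exact ⟨(hx j).1, (hx j).2.trans (min_le_left _ _)⟩
      exact h1.le_bot ⟨h2, h3⟩
    have hcard : (Finset.univ.image x).card = m := by
      rw [Finset.card_image_of_injective _ hinj, Finset.card_univ, Fintype.card_fin]
    rw [← hcard]
    apply Finset.card_le_card
    intro y hy
    obtain ⟨i, -, rfl⟩ := Finset.mem_image.1 hy
    rw [Finset.mem_filter, Multiset.mem_toFinset]
    exact ⟨(Polynomial.mem_roots hp).2 (hx0 i), (hf1 i).trans_le (hx i).1,
      (hx i).2.trans (min_le_right _ _)⟩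

theorem measurable_Z {Ω : Type*} [TopologicalSpace Ω] [MeasurableSpace Ω] [OpensMeasurableSpace Ω]
    {p : Ω → ℝ[X]} (hp : Continuous (fun z : Ω × ℝ => (p z.1).eval z.2)) (a b : ℝ) :
    Measurable (fun ω => Z (p ω) a b) := by
  refine measurable_of_Ici fun m => ?_
  by_cases hm : m = 0
  · have : (fun ω => Z (p ω) a b) ⁻¹' Ici m = univ := by
      ext ω
      simp [hm]
    rw [this]
    exact MeasurableSet.univ
  have : (fun ω => Z (p ω) a b) ⁻¹' Ici m = {ω | p ω = 0}ᶜ ∩
      ⋃ f ∈ {f : Fin m → ℚ × ℚ | (∀ i, a < ((f i).1 : ℝ)) ∧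
        ∀ i j, i ≠ j → Disjoint (Icc ((f i).1 : ℝ) (f i).2) (Icc ((f j).1 : ℝ) (f j).2)},
      ⋂ i, {ω | ∃ x ∈ Icc ((f i).1 : ℝ) (min ((f i).2 : ℝ) b), (p ω).eval x = 0} := by
    ext ω
    rw [mem_preimage, mem_Ici, mem_inter_iff, mem_compl_iff, mem_ofPred_eq, mem_iUnion₂]
    by_cases h0 : p ω = 0
    · simp only [h0, not_true_eq_false, false_and, iff_false]
      simp [Z]
      omega
    · rw [le_Z_iff h0]
      constructor
      · rintro ⟨f, hf1, hf2, hf3⟩
        exact ⟨h0, f, ⟨hf1, hf2⟩, mem_iInter.2 hf3⟩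
      · rintro ⟨-, f, ⟨hf1, hf2⟩, hf3⟩
        exact ⟨f, hf1, hf2, mem_iInter.1 hf3⟩
  rw [this]
  refine (isClosed_eq_zero hp).measurableSet.compl.inter ?_
  refine MeasurableSet.biUnion (to_countable _) fun f _ => ?_
  exact MeasurableSet.iInter fun i => (isClosed_hasRoot hp isCompact_Icc).measurableSet

theorem modE1 (ε : ℝ) (n : ℕ) (a b : ℝ) : Measurable (fun c : ℕ → ℝ => Z (kac ε n c) a b) := by
  refine measurable_Z ?_ a b
  simp only [kac, eval_finsetSum, eval_mul, eval_C, eval_pow, eval_X]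
  fun_prop

theorem modE2 (ε : ℝ) (n : ℕ) (a b : ℝ) :
    Measurable (fun c : ℕ → ℝ => Z (derivative (kac ε n c)) a b) := by
  refine measurable_Z ?_ a b
  simp only [kac, derivative_sum, derivative_mul, derivative_C, derivative_X_pow, eval_finsetSum,
    eval_mul, eval_C, eval_pow, eval_X, zero_mul, zero_add]
  fun_prop

end Pool.Agent.H89.Kac
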