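import Pool.Agent.H89.Kac.ModB
import Pool.Agent.H89.Kac.ModC
import Pool.Agent.H89.Kac.ModD
import Pool.Agent.H89.Kac.ModE

set_option autoImplicit false

open MeasureTheory Filter Topology ProbabilityTheory Polynomial

namespace Pool.Agent.H89.Kac

namespace ModI

theorem eval_kac' (ε : ℝ) (n : ℕ) (ω : ℕ → ℝ) (x : ℝ) :
    (kac ε n ω).eval x = ∑ k ∈ Finset.range (n + 1), ε ^ k * ω k * x ^ k := by
  simp only [kac, eval_finsetSum, eval_mul, eval_C, eval_pow, eval_X]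

theorem eval_dkac (ε : ℝ) (n : ℕ) (ω : ℕ → ℝ) (x : ℝ) :
    (derivative (kac ε n ω)).eval x =
      ∑ k ∈ Finset.range (n + 1), (k : ℝ) * (ε ^ k * ω k) * x ^ (k - 1) := by
  simp only [kac, derivative_sum, derivative_mul, derivative_C, derivative_X_pow, eval_finsetSum,
    eval_mul, eval_C, eval_pow, eval_X, zero_mul, zero_add]
  refine Finset.sum_congr rfl fun k _ => ?_
  ring

theorem unif0 {ε M : ℝ} (hε : ε = 1 ∨ ε = -1) {ω : ℕ → ℝ} (hω : ω ∈ Om M) {b : ℝ} (hb0 : 0 ≤ b)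
    (hb1 : b < 1) {δ : ℝ} (hδ : 0 < δ) :
    ∀ᶠ n : ℕ in atTop, ∀ x ∈ Set.Icc (0 : ℝ) b, |(kac ε n ω).eval x - F0 ε ω x| < δ := by
  have h := tendstoUniformlyOn_tsum_nat (f := fun (k : ℕ) (x : ℝ) => ε ^ k * ω k * x ^ k)
    (summable_bound0 M hb0 hb1) (s := Set.Icc 0 b)
    (fun k x hx => term_bound0 hε hω (by rw [abs_of_nonneg hx.1]; exact hx.2) k)
  rw [Metric.tendstoUniformlyOn_iff] at h
  have h2 := (tendsto_add_atTop_nat 1).eventually (h δ hδ)
  filter_upwards [h2] with n hn x hx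
  have h3 := hn x hx
  rw [dist_comm, Real.dist_eq] at h3
  rw [eval_kac']
  exact h3

theorem unif1 {ε M : ℝ} (hε : ε = 1 ∨ ε = -1) {ω : ℕ → ℝ} (hω : ω ∈ Om M) {b : ℝ} (hb0 : 0 ≤ b)
    (hb1 : b < 1) {δ : ℝ} (hδ : 0 < δ) :
    ∀ᶠ n : ℕ in atTop, ∀ x ∈ Set.Icc (0 : ℝ) b,
      |(derivative (kac ε n ω)).eval x - F1 ε ω x| < δ := by
  have h := tendstoUniformlyOn_tsum_nat
    (f := fun (k : ℕ) (x : ℝ) => (k : ℝ) * (ε ^ k * ω k) * x ^ (k - 1))
    (summable_bound1 M hb0 hb1) (s := Set.Icc 0 b)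
    (fun k x hx => term_bound1 hε hω (by rw [abs_of_nonneg hx.1]; exact hx.2) k)
  rw [Metric.tendstoUniformlyOn_iff] at h
  have h2 := (tendsto_add_atTop_nat 1).eventually (h δ hδ)
  filter_upwards [h2] with n hn x hx
  have h3 := hn x hx
  rw [dist_comm, Real.dist_eq] at h3
  rw [eval_dkac]
  exact h3

theorem contF1 {ε M : ℝ} (hε : ε = 1 ∨ ε = -1) {ω : ℕ → ℝ} (hω : ω ∈ Om M) {b : ℝ} (hb0 : 0 ≤ b)
    (hb1 : b < 1) : ContinuousOn (F1 ε ω) (Set.Icc 0 b) := by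
  unfold F1
  apply continuousOn_tsum (u := fun k : ℕ => (k : ℝ) * (M * ((k : ℝ) + 1)) * b ^ (k - 1))
  · intro k
    exact (continuous_const.mul (continuous_pow _)).continuousOn
  · exact summable_bound1 M hb0 hb1
  · intro k x hx
    exact term_bound1 hε hω (by rw [abs_of_nonneg hx.1]; exact hx.2) k

theorem contF0 {ε M : ℝ} (hε : ε = 1 ∨ ε = -1) {ω : ℕ → ℝ} (hω : ω ∈ Om M) {b : ℝ} (hb0 : 0 ≤ b)
    (hb1 : b < 1) : ContinuousOn (F0 ε ω) (Set.Icc 0 b) := by
  unfold F0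
  apply continuousOn_tsum (u := fun k : ℕ => M * ((k : ℝ) + 1) * b ^ k)
  · intro k
    exact (continuous_const.mul (continuous_pow _)).continuousOn
  · exact summable_bound0 M hb0 hb1
  · intro k x hx
    exact term_bound0 hε hω (by rw [abs_of_nonneg hx.1]; exact hx.2) k

/-- No small positive zero, uniformly in the degree. -/
theorem near_zero {ε M : ℝ} (hε : ε = 1 ∨ ε = -1) {ω : ℕ → ℝ} (hω : ω ∈ Om M) (hne : ω ≠ 0) :
    ∃ (a : ℝ) (m : ℕ) (κ : ℝ), 0 < a ∧ a < 1 ∧ 0 < κ ∧ ∀ a', 0 < a' → a' ≤ a → ∀ n : ℕ, m ≤ n →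
      a' ^ m * κ ≤ |(kac ε n ω).eval a'| := by
  classical
  obtain ⟨k0, hk0⟩ := Function.ne_iff.mp hne
  have hex : ∃ k, ω k ≠ 0 := ⟨k0, hk0⟩
  let m := Nat.find hex
  have hm : ω m ≠ 0 := Nat.find_spec hex
  have hmin : ∀ k < m, ω k = 0 := fun k hk => by
    have := Nat.find_min hex hk
    simpa using this
  have hM0 : 0 ≤ M := by
    have := hω 0
    simp at this
    exact (abs_nonneg _).trans this
  -- the tail sum is at most `a * S`
  have hS : Summable (fun k : ℕ => M * (((k + m + 1 : ℕ) : ℝ) + 1) * (1 / 2 : ℝ) ^ k) := by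
    have h1 := summable_bound0 M (r := 1 / 2) (by norm_num) (by norm_num)
    have h2 := (summable_nat_add_iff (m + 1)).2 h1
    have h3 := h2.mul_left ((2 : ℝ) ^ (m + 1))
    refine h3.congr fun k => ?_
    have e1 : ((1 : ℝ) / 2) ^ (k + (m + 1)) = (1 / 2) ^ k * (1 / 2) ^ (m + 1) := pow_add _ _ _
    have e2 : (2 : ℝ) ^ (m + 1) * (1 / 2) ^ (m + 1) = 1 := by
      rw [← mul_pow]; norm_num
    rw [e1]
    calc (2 : ℝ) ^ (m + 1) * (M * (((k + (m + 1) : ℕ) : ℝ) + 1) * ((1 / 2) ^ k * (1 / 2) ^ (m + 1)))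
        = M * (((k + (m + 1) : ℕ) : ℝ) + 1) * (1 / 2) ^ k * ((2 : ℝ) ^ (m + 1) * (1 / 2) ^ (m + 1)) := by
          ring
      _ = _ := by rw [e2, mul_one]; rfl
  set S := ∑' k : ℕ, M * (((k + m + 1 : ℕ) : ℝ) + 1) * (1 / 2 : ℝ) ^ k with hSdef
  have hS0 : 0 ≤ S := tsum_nonneg fun k => by positivity
  have hωm : 0 < |ω m| := abs_pos.mpr hm
  refine ⟨min (1 / 2) (|ω m| / (2 * (S + 1))), m, |ω m| / 2, ?_, ?_, by positivity, ?_⟩
  · positivity
  · exact lt_of_le_of_lt (min_le_left _ _) (by norm_num)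
  intro a ha0 ha n hn
  have ha1 : a ≤ 1 / 2 := ha.trans (min_le_left _ _)
  have ha2 : a ≤ |ω m| / (2 * (S + 1)) := ha.trans (min_le_right _ _)
  have hεk : ∀ k : ℕ, |ε ^ k| = 1 := fun k => by
    rw [abs_pow]; rcases hε with rfl | rfl <;> simp
  rw [eval_kac']
  obtain ⟨d, rfl⟩ : ∃ d, n = m + d := ⟨n - m, by omega⟩
  have e1 : ∑ k ∈ Finset.range (m + d + 1), ε ^ k * ω k * a ^ k =
      a ^ m * (ε ^ m * ω m + a * ∑ k ∈ Finset.range d, ε ^ (k + m + 1) * ω (k + m + 1) * a ^ k) := by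
    have h1 : m + d + 1 = m + (d + 1) := by ring
    rw [h1, Finset.sum_range_add]
    have h2 : ∑ k ∈ Finset.range m, ε ^ k * ω k * a ^ k = 0 := by
      refine Finset.sum_eq_zero fun k hk => ?_
      rw [hmin k (Finset.mem_range.mp hk)]
      ring
    rw [h2, zero_add, Finset.sum_range_succ', Finset.mul_sum, mul_add, Finset.mul_sum, add_comm]
    congr 1
    · rw [add_zero]; ring
    · refine Finset.sum_congr rfl fun k _ => ?_
      have : m + (k + 1) = k + m + 1 := by ring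
      rw [this]
      ring
  rw [e1, abs_mul, abs_of_pos (pow_pos ha0 m)]
  refine mul_le_mul_of_nonneg_left ?_ (pow_pos ha0 m).le
  have h6 : |∑ k ∈ Finset.range d, ε ^ (k + m + 1) * ω (k + m + 1) * a ^ k| ≤ S := by
    refine (Finset.abs_sum_le_sum_abs _ _).trans ?_
    have h7 : ∀ k ∈ Finset.range d, |ε ^ (k + m + 1) * ω (k + m + 1) * a ^ k| ≤
        M * (((k + m + 1 : ℕ) : ℝ) + 1) * (1 / 2 : ℝ) ^ k := by
      intro k _
      rw [abs_mul, abs_mul, hεk, one_mul, abs_pow, abs_of_pos ha0]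
      exact mul_le_mul (hω _) (pow_le_pow_left₀ ha0.le ha1 k) (by positivity)
        (mul_nonneg hM0 (by positivity))
    refine (Finset.sum_le_sum h7).trans ?_
    exact hS.sum_le_tsum _ (fun k _ => by positivity)
  set T := ∑ k ∈ Finset.range d, ε ^ (k + m + 1) * ω (k + m + 1) * a ^ k with hT
  have h8 : a * |T| ≤ |ω m| / 2 := by
    calc a * |T| ≤ a * S := mul_le_mul_of_nonneg_left h6 ha0.le
      _ ≤ |ω m| / (2 * (S + 1)) * S := mul_le_mul_of_nonneg_right ha2 hS0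
      _ ≤ |ω m| / 2 := by
        rw [div_mul_eq_mul_div, div_le_div_iff₀ (by positivity) (by norm_num)]
        nlinarith
  have h9 : |ε ^ m * ω m| = |ω m| := by rw [abs_mul, hεk, one_mul]
  have h10 : |ε ^ m * ω m| ≤ |ε ^ m * ω m + a * T| + |a * T| := by
    have := abs_sub (ε ^ m * ω m + a * T) (a * T)
    rwa [add_sub_cancel_right] at this
  rw [h9, abs_mul, abs_of_pos ha0] at h10
  linarith

theorem Z_zero_of {p : ℝ[X]} {a b : ℝ} (h : ∀ x, a < x → x ≤ b → p.eval x ≠ 0) : Z p a b = 0 := by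
  unfold Z
  rw [Finset.card_eq_zero, Finset.filter_eq_empty_iff]
  intro x hx hx2
  rw [Multiset.mem_toFinset] at hx
  exact h x hx2.1 hx2.2 (mem_roots'.1 hx).2

theorem Z_mono {p : ℝ[X]} {a b b' : ℝ} (h : b ≤ b') : Z p a b ≤ Z p a b' := by
  unfold Z
  refine Finset.card_le_card ?_
  intro x hx
  rw [Finset.mem_filter] at hx ⊢
  exact ⟨hx.1, hx.2.1, hx.2.2.trans h⟩

/-- Pathwise convergence of the number of roots. -/
theorem path {ε M : ℝ} (hε : ε = 1 ∨ ε = -1) {ω : ℕ → ℝ} (hω : ω ∈ Om M) {b : ℝ} (hb0 : 0 < b)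
    (hb1 : b < 1) (hb : F0 ε ω b ≠ 0)
    (hdz : ∀ x ∈ Set.Ioo (0 : ℝ) 1, ¬ (F0 ε ω x = 0 ∧ F1 ε ω x = 0)) :
    ∃ L : ℝ, Tendsto (fun n : ℕ => (Z (kac ε n ω) 0 b : ℝ)) atTop (𝓝 L) := by
  classical
  have hne : ω ≠ 0 := by
    rintro rfl
    apply hb
    unfold F0
    simp
  obtain ⟨a0, m, κ, ha0, ha01, hκ, hnz⟩ := near_zero hε hω hne
  set a := min a0 b with ha
  have hapos : 0 < a := lt_min ha0 hb0
  have hab : a ≤ b := min_le_right _ _
  have hzero : ∀ n : ℕ, m ≤ n → Z (kac ε n ω) 0 a = 0 := by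
    intro n hn
    refine Z_zero_of fun x hx1 hx2 h0 => ?_
    have h1 := hnz x hx1 (hx2.trans (min_le_left _ _)) n hn
    rw [h0, abs_zero] at h1
    have : 0 < x ^ m * κ := mul_pos (pow_pos hx1 m) hκ
    linarith
  have hsplit : ∀ n : ℕ, m ≤ n → Z (kac ε n ω) 0 b = Z (kac ε n ω) a b := by
    intro n hn
    rw [Z_add (kac ε n ω) (a := 0) (b := b) (c := a) hapos.le hab, hzero n hn, zero_add]
  -- the minimum of `|f| + |f'|`
  have hsub : Set.Icc a b ⊆ Set.Icc 0 b := Set.Icc_subset_Icc_left hapos.le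
  have hcont : ContinuousOn (fun x => |F0 ε ω x| + |F1 ε ω x|) (Set.Icc a b) :=
    (((contF0 hε hω hb0.le hb1).mono hsub).abs).add (((contF1 hε hω hb0.le hb1).mono hsub).abs)
  obtain ⟨x0, hx0, hmin⟩ := isCompact_Icc.exists_isMinOn (Set.nonempty_Icc.mpr hab) hcont
  set c0 := |F0 ε ω x0| + |F1 ε ω x0| with hc0
  have hc0pos : 0 < c0 := by
    have h1 := hdz x0 ⟨hapos.trans_le hx0.1, hx0.2.trans_lt hb1⟩
    rcases not_and_or.mp h1 with h2 | h2
    · have := abs_pos.mpr h2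
      have := abs_nonneg (F1 ε ω x0)
      linarith
    · have := abs_pos.mpr h2
      have := abs_nonneg (F0 ε ω x0)
      linarith
  have hκa : 0 < a ^ m * κ := mul_pos (pow_pos hapos m) hκ
  set η := min c0 (min (a ^ m * κ) |F0 ε ω b|) / 3 with hη
  have hηpos : 0 < η := by
    have : 0 < |F0 ε ω b| := abs_pos.mpr hb
    positivity
  have hη1 : 3 * η ≤ c0 := by
    have : min c0 (min (a ^ m * κ) |F0 ε ω b|) ≤ c0 := min_le_left _ _
    rw [hη]; linarith
  have hη2 : 3 * η ≤ a ^ m * κ := by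
    have : min c0 (min (a ^ m * κ) |F0 ε ω b|) ≤ a ^ m * κ :=
      (min_le_right _ _).trans (min_le_left _ _)
    rw [hη]; linarith
  have hη3 : 3 * η ≤ |F0 ε ω b| := by
    have : min c0 (min (a ^ m * κ) |F0 ε ω b|) ≤ |F0 ε ω b| :=
      (min_le_right _ _).trans (min_le_right _ _)
    rw [hη]; linarith
  have hev : ∀ᶠ n : ℕ in atTop, (Z (kac ε n ω) 0 b : ℝ) =
      (η ^ 2)⁻¹ * ∫ x in a..b, tri η ((kac ε n ω).eval x) * |(derivative (kac ε n ω)).eval x| := by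
    filter_upwards [eventually_ge_atTop m, unif0 hε hω hb0.le hb1 (half_pos hηpos),
      unif1 hε hω hb0.le hb1 (half_pos hηpos)] with n hn h0 h1
    rw [hsplit n hn]
    have hD := modD (kac ε n ω) a b η hab hηpos
    have hA : ¬ |(kac ε n ω).eval a| ≤ η := by
      have h2 := hnz a hapos (min_le_left _ _) n hn
      linarith
    have hB : ¬ |(kac ε n ω).eval b| ≤ η := by
      have h2 := h0 b ⟨hb0.le, le_rfl⟩
      have h3 : |F0 ε ω b| ≤ |(kac ε n ω).eval b| + |(kac ε n ω).eval b - F0 ε ω b| := by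
        have := abs_sub ((kac ε n ω).eval b) ((kac ε n ω).eval b - F0 ε ω b)
        rwa [sub_sub_cancel] at this
      linarith
    have hC : ((derivative (kac ε n ω)).roots.toFinset.filter
        (fun x => a < x ∧ x < b ∧ |(kac ε n ω).eval x| ≤ η)) = ∅ := by
      rw [Finset.filter_eq_empty_iff]
      rintro x hx ⟨hx1, hx2, hx3⟩
      rw [Multiset.mem_toFinset] at hx
      have hx4 : (derivative (kac ε n ω)).eval x = 0 := (mem_roots'.1 hx).2
      have hxab : x ∈ Set.Icc a b := ⟨hx1.le, hx2.le⟩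
      have h2 := h0 x (hsub hxab)
      have h3 := h1 x (hsub hxab)
      rw [hx4, zero_sub, abs_neg] at h3
      have h4 : c0 ≤ |F0 ε ω x| + |F1 ε ω x| := hmin hxab
      have h5 : |F0 ε ω x| ≤ |(kac ε n ω).eval x| + |(kac ε n ω).eval x - F0 ε ω x| := by
        have := abs_sub ((kac ε n ω).eval x) ((kac ε n ω).eval x - F0 ε ω x)
        rwa [sub_sub_cancel] at this
      linarith
    rw [if_neg hA, if_neg hB, hC] at hD
    simp only [Finset.card_empty, Nat.cast_zero, mul_zero, add_zero] at hD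
    exact sub_eq_zero.mp (abs_nonpos_iff.mp hD)
  refine ⟨(η ^ 2)⁻¹ * ∫ x in a..b, tri η (F0 ε ω x) * |F1 ε ω x|, ?_⟩
  refine Tendsto.congr' (hev.mono fun n hn => hn.symm) ?_
  refine Tendsto.const_mul _ ?_
  -- dominated convergence
  set B := ∑' k : ℕ, (k : ℝ) * (M * ((k : ℝ) + 1)) * b ^ (k - 1) with hB
  have hM0 : 0 ≤ M := by
    have := hω 0
    simp at this
    exact (abs_nonneg _).trans this
  have huIoc : Set.uIoc a b = Set.Ioc a b := Set.uIoc_of_le hab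
  refine intervalIntegral.tendsto_integral_filter_of_dominated_convergence (fun _ => η * B) ?_ ?_
    ?_ ?_
  · refine Eventually.of_forall fun n => ?_
    refine Continuous.aestronglyMeasurable ?_
    exact ((continuous_tri η).comp (kac ε n ω).continuous).mul
      (derivative (kac ε n ω)).continuous.abs
  · refine Eventually.of_forall fun n => Eventually.of_forall fun x hx => ?_
    rw [huIoc] at hx
    have hx0 : 0 ≤ x := (hapos.trans hx.1).le
    rw [Real.norm_eq_abs, abs_mul, abs_abs]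
    refine mul_le_mul ?_ ?_ (abs_nonneg _) hηpos.le
    · rw [abs_of_nonneg (tri_nonneg _ _)]
      unfold tri
      refine max_le ?_ hηpos.le
      have := abs_nonneg ((kac ε n ω).eval x)
      linarith
    · rw [eval_dkac]
      refine (Finset.abs_sum_le_sum_abs _ _).trans ?_
      refine (Finset.sum_le_sum fun k _ => term_bound1 hε hω
        (show |x| ≤ b by rw [abs_of_nonneg hx0]; exact hx.2) k).trans ?_
      exact (summable_bound1 M hb0.le hb1).sum_le_tsum _ (fun k _ => by positivity)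
  · exact intervalIntegrable_const
  · refine Eventually.of_forall fun x hx => ?_
    rw [huIoc] at hx
    have hx0 : |x| < 1 := by
      rw [abs_of_pos (hapos.trans hx.1)]
      exact hx.2.trans_lt hb1
    have h1 : Tendsto (fun n => (kac ε n ω).eval x) atTop (𝓝 (F0 ε ω x)) := by
      have := (summable0 hε hω hx0).hasSum.tendsto_sum_nat.comp (tendsto_add_atTop_nat 1)
      refine this.congr fun n => ?_
      rw [eval_kac']
      rfl
    have h2 : Tendsto (fun n => (derivative (kac ε n ω)).eval x) atTop (𝓝 (F1 ε ω x)) := by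
      have := (summable1 hε hω hx0).hasSum.tendsto_sum_nat.comp (tendsto_add_atTop_nat 1)
      refine this.congr fun n => ?_
      rw [eval_dkac]
      rfl
    exact (((continuous_tri η).tendsto _).comp h1).mul h2.abs

theorem Z_le_natDegree (p : ℝ[X]) (a b : ℝ) : Z p a b ≤ p.natDegree := by
  unfold Z
  exact (Finset.card_filter_le _ _).trans ((Multiset.toFinset_card_le _).trans (card_roots' p))

theorem Z_kac_le (ε : ℝ) (n : ℕ) (ω : ℕ → ℝ) (a b : ℝ) : Z (kac ε n ω) a b ≤ n :=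
  (Z_le_natDegree _ _ _).trans (ModC.kac_natDegree_le ε n ω)

theorem Z_dkac_le (ε : ℝ) (n : ℕ) (ω : ℕ → ℝ) (a b : ℝ) : Z (derivative (kac ε n ω)) a b ≤ n := by
  refine (Z_le_natDegree _ _ _).trans ((natDegree_derivative_le _).trans ?_)
  exact (Nat.sub_le _ _).trans (ModC.kac_natDegree_le ε n ω)

theorem measurable_Zr (ε : ℝ) (n : ℕ) (a b : ℝ) :
    Measurable (fun c : ℕ → ℝ => (Z (kac ε n c) a b : ℝ)) :=
  measurable_from_top.comp (modE1 ε n a b)

theorem measurable_dZr (ε : ℝ) (n : ℕ) (a b : ℝ) :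
    Measurable (fun c : ℕ → ℝ => (Z (derivative (kac ε n c)) a b : ℝ)) :=
  measurable_from_top.comp (modE2 ε n a b)

instance (μ : Measure ℝ) [IsProbabilityMeasure μ] : IsProbabilityMeasure (Pm μ) := by
  unfold Pm
  infer_instance

/-- A uniform second moment bound. -/
theorem moment (μ : Measure ℝ) [IsProbabilityMeasure μ] (h2 : Integrable (fun x : ℝ => x ^ 2) μ)
    (hμ : μ {(0 : ℝ)} ≠ 1) (ε : ℝ) (hε : ε = 1 ∨ ε = -1) (b : ℝ) (hb1 : b < 1) :
    ∃ K : ℝ, 0 ≤ K ∧ ∀ n : ℕ, ∫ ω, ((Z (kac ε n ω) 0 b : ℝ)) ^ 2 ∂(Pm μ) ≤ K := by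
  classical
  obtain ⟨K, hK, hKb⟩ := modC μ h2 hμ
  set N : ℝ := max 2 (1 / (1 - b)) with hN
  have hN2 : 2 ≤ N := le_max_left _ _
  have hbN : b ≤ 1 - 1 / N := by
    have h1 : 1 / (1 - b) ≤ N := le_max_right _ _
    have h3 : 0 < 1 - b := by linarith
    have h4 : 1 / N ≤ 1 - b := by
      rw [div_le_iff₀ (by linarith)]
      rw [div_le_iff₀ h3] at h1
      linarith
    linarith
  set K1 := K * (N * (1 + Real.log N)) ^ 4 with hK1
  have hK10 : 0 ≤ K1 := by positivity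
  refine ⟨3 + 2 * K1, by positivity, fun n => ?_⟩
  have hpt : ∀ ω, ((Z (kac ε n ω) 0 b : ℝ)) ^ 2 ≤
      3 + 2 * ((Z (derivative (kac ε n ω)) 0 (1 - 1 / N) : ℝ)) ^ 4 := by
    intro ω
    by_cases h0 : derivative (kac ε n ω) = 0
    · have h1 : Z (kac ε n ω) 0 b = 0 := by
        unfold Z
        rw [eq_C_of_derivative_eq_zero h0, roots_C]
        simp
      rw [h1]
      have : (0 : ℝ) ≤ ((Z (derivative (kac ε n ω)) 0 (1 - 1 / N) : ℝ)) ^ 4 := by positivity
      push_cast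
      linarith
    · have h1 := ModC.rolle_step (kac ε n ω) h0 0 b
      have h3 := Z_mono (p := derivative (kac ε n ω)) (a := 0) hbN
      have h4 : ((Z (kac ε n ω) 0 b : ℕ) : ℝ) ≤
          (Z (derivative (kac ε n ω)) 0 (1 - 1 / N) : ℝ) + 1 := by
        exact_mod_cast h1.trans (Nat.add_le_add_right h3 1)
      set Y : ℝ := (Z (derivative (kac ε n ω)) 0 (1 - 1 / N) : ℝ)
      have hY0 : 0 ≤ Y := Nat.cast_nonneg _
      have hZ0 : (0 : ℝ) ≤ ((Z (kac ε n ω) 0 b : ℕ) : ℝ) := Nat.cast_nonneg _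
      have h5 : ((Z (kac ε n ω) 0 b : ℕ) : ℝ) ^ 2 ≤ (Y + 1) ^ 2 := pow_le_pow_left₀ hZ0 h4 2
      have h6 : (Y + 1) ^ 2 ≤ 3 + 2 * Y ^ 4 := by nlinarith [sq_nonneg (Y ^ 2 - 1), sq_nonneg (Y - 1)]
      linarith
  have hY : Integrable (fun ω => ((Z (derivative (kac ε n ω)) 0 (1 - 1 / N) : ℝ)) ^ 4) (Pm μ) := by
    refine Integrable.of_bound ((measurable_dZr ε n 0 (1 - 1 / N)).pow_const 4).aestronglyMeasurable
      ((n : ℝ) ^ 4) (Eventually.of_forall fun ω => ?_)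
    rw [Real.norm_eq_abs, abs_of_nonneg (by positivity)]
    exact pow_le_pow_left₀ (Nat.cast_nonneg _) (Nat.cast_le.mpr (Z_dkac_le ε n ω _ _)) 4
  have hZi : Integrable (fun ω => ((Z (kac ε n ω) 0 b : ℝ)) ^ 2) (Pm μ) := by
    refine Integrable.of_bound ((measurable_Zr ε n 0 b).pow_const 2).aestronglyMeasurable
      ((n : ℝ) ^ 2) (Eventually.of_forall fun ω => ?_)
    rw [Real.norm_eq_abs, abs_of_nonneg (by positivity)]
    exact pow_le_pow_left₀ (Nat.cast_nonneg _) (Nat.cast_le.mpr (Z_kac_le ε n ω _ _)) 2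
  have hYK : ∫ ω, ((Z (derivative (kac ε n ω)) 0 (1 - 1 / N) : ℝ)) ^ 4 ∂(Pm μ) ≤ K1 := by
    rw [integral_eq_lintegral_of_nonneg_ae (Eventually.of_forall fun ω => by positivity)
      hY.aestronglyMeasurable]
    exact ENNReal.toReal_le_of_le_ofReal hK10 (hKb N hN2 n ε hε)
  calc ∫ ω, ((Z (kac ε n ω) 0 b : ℝ)) ^ 2 ∂(Pm μ)
      ≤ ∫ ω, (3 + 2 * ((Z (derivative (kac ε n ω)) 0 (1 - 1 / N) : ℝ)) ^ 4) ∂(Pm μ) :=
        integral_mono hZi ((integrable_const _).add (hY.const_mul 2)) hpt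
    _ = 3 + 2 * ∫ ω, ((Z (derivative (kac ε n ω)) 0 (1 - 1 / N) : ℝ)) ^ 4 ∂(Pm μ) := by
        rw [integral_add (integrable_const _) (hY.const_mul 2), integral_const_mul]
        simp
    _ ≤ 3 + 2 * K1 := by linarith

end ModI

/-- Module I. -/
theorem modI (μ : Measure ℝ) [IsProbabilityMeasure μ] (h2 : Integrable (fun x : ℝ => x ^ 2) μ)
    (hnd : ∀ a : ℝ, μ {a} ≠ 1) (ε : ℝ) (hε : ε = 1 ∨ ε = -1) (b : ℝ) (hb0 : 0 < b) (hb1 : b < 1) :
    ∃ L : ℝ, Tendsto (fun n : ℕ => ∫ ω, (Z (kac ε n ω) 0 b : ℝ) ∂(Pm μ)) atTop (𝓝 L) := by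
  classical
  have h1 : Integrable (fun x : ℝ => x) μ := by
    refine Integrable.mono' ((integrable_const (1 : ℝ)).add h2)
      measurable_id.aestronglyMeasurable (Eventually.of_forall fun x => ?_)
    simp only [Pi.add_apply, Real.norm_eq_abs]
    have e1 : |x| ^ 2 = x ^ 2 := sq_abs x
    nlinarith [sq_nonneg (|x| - 1), abs_nonneg x]
  obtain ⟨K, hK0, hK⟩ := ModI.moment μ h2 (hnd 0) ε hε b hb1
  have hae : ∀ᵐ ω ∂(Pm μ), ∃ L : ℝ, Tendsto (fun n : ℕ => (Z (kac ε n ω) 0 b : ℝ)) atTop (𝓝 L) := by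
    filter_upwards [ae_mem_Om μ h1, modB1 μ h1 hnd ε hε, modB2 μ h1 hnd ε hε b hb0 hb1] with
      ω hω hb1' hb2'
    obtain ⟨M, hM⟩ := hω
    exact ModI.path hε hM hb0 hb1 hb2' hb1'
  have hZi : ∀ n, Integrable (fun ω => (Z (kac ε n ω) 0 b : ℝ)) (Pm μ) := by
    intro n
    refine Integrable.of_bound (ModI.measurable_Zr ε n 0 b).aestronglyMeasurable
      (n : ℝ) (Eventually.of_forall fun ω => ?_)
    rw [Real.norm_eq_abs, abs_of_nonneg (Nat.cast_nonneg _)]
    exact Nat.cast_le.mpr (ModI.Z_kac_le ε n ω _ _)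
  have hZ2 : ∀ n, Integrable (fun ω => (Z (kac ε n ω) 0 b : ℝ) ^ 2) (Pm μ) := by
    intro n
    refine Integrable.of_bound ((ModI.measurable_Zr ε n 0 b).pow_const 2).aestronglyMeasurable
      ((n : ℝ) ^ 2) (Eventually.of_forall fun ω => ?_)
    rw [Real.norm_eq_abs, abs_of_nonneg (by positivity)]
    exact pow_le_pow_left₀ (Nat.cast_nonneg _) (Nat.cast_le.mpr (ModI.Z_kac_le ε n ω _ _)) 2
  have hmi : ∀ (c : ℝ) (n : ℕ), 0 ≤ c →
      Integrable (fun ω => min (Z (kac ε n ω) 0 b : ℝ) c) (Pm μ) := by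
    intro c n hc
    refine Integrable.of_bound
      ((ModI.measurable_Zr ε n 0 b).min measurable_const).aestronglyMeasurable
      c (Eventually.of_forall fun ω => ?_)
    rw [Real.norm_eq_abs, abs_of_nonneg (le_min (Nat.cast_nonneg _) hc)]
    exact min_le_right _ _
  have htr : ∀ (c : ℝ) (n : ℕ), 0 < c →
      |(∫ ω, (Z (kac ε n ω) 0 b : ℝ) ∂(Pm μ)) - ∫ ω, min (Z (kac ε n ω) 0 b : ℝ) c ∂(Pm μ)| ≤
        K / c := by
    intro c n hc
    rw [← integral_sub (hZi n) (hmi c n hc.le)]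
    have hnn : ∀ ω, 0 ≤ (Z (kac ε n ω) 0 b : ℝ) - min (Z (kac ε n ω) 0 b : ℝ) c := fun ω =>
      sub_nonneg.mpr (min_le_left _ _)
    rw [abs_of_nonneg (integral_nonneg hnn)]
    calc ∫ ω, ((Z (kac ε n ω) 0 b : ℝ) - min (Z (kac ε n ω) 0 b : ℝ) c) ∂(Pm μ)
        ≤ ∫ ω, ((Z (kac ε n ω) 0 b : ℝ) ^ 2 / c) ∂(Pm μ) := by
          refine integral_mono ((hZi n).sub (hmi c n hc.le)) ((hZ2 n).div_const c) fun ω => ?_
          change (Z (kac ε n ω) 0 b : ℝ) - min (Z (kac ε n ω) 0 b : ℝ) c ≤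
            (Z (kac ε n ω) 0 b : ℝ) ^ 2 / c
          set z : ℝ := (Z (kac ε n ω) 0 b : ℝ)
          have hz : 0 ≤ z := Nat.cast_nonneg _
          rw [le_div_iff₀ hc]
          rcases le_total z c with h | h
          · rw [min_eq_left h, sub_self, zero_mul]
            positivity
          · rw [min_eq_right h]
            nlinarith
      _ = (∫ ω, (Z (kac ε n ω) 0 b : ℝ) ^ 2 ∂(Pm μ)) / c := integral_div _ _
      _ ≤ K / c := div_le_div_of_nonneg_right (hK n) hc.le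
  have hcau : CauchySeq (fun n : ℕ => ∫ ω, (Z (kac ε n ω) 0 b : ℝ) ∂(Pm μ)) := by
    rw [Metric.cauchySeq_iff]
    intro δ hδ
    set c : ℝ := 4 * (K + 1) / δ with hc
    have hcpos : 0 < c := by positivity
    have hKc : K / c < δ / 4 := by
      rw [hc, div_div_eq_mul_div, div_lt_div_iff₀ (by positivity) (by norm_num)]
      nlinarith
    obtain ⟨g, hg⟩ : ∃ g : (ℕ → ℝ) → ℝ, ∀ᵐ ω ∂(Pm μ),
        Tendsto (fun n : ℕ => (Z (kac ε n ω) 0 b : ℝ)) atTop (𝓝 (g ω)) := by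
      refine ⟨fun ω => if h : ∃ L : ℝ, Tendsto (fun n : ℕ => (Z (kac ε n ω) 0 b : ℝ)) atTop (𝓝 L)
        then Classical.choose h else 0, ?_⟩
      filter_upwards [hae] with ω hω
      rw [dif_pos hω]
      exact Classical.choose_spec hω
    have hlim : Tendsto (fun n : ℕ => ∫ ω, min (Z (kac ε n ω) 0 b : ℝ) c ∂(Pm μ)) atTop
        (𝓝 (∫ ω, min (g ω) c ∂(Pm μ))) := by
      refine tendsto_integral_of_dominated_convergence (fun _ => c)
        (fun n => ((ModI.measurable_Zr ε n 0 b).min measurable_const).aestronglyMeasurable)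
        (integrable_const _) (fun n => Eventually.of_forall fun ω => ?_) ?_
      · rw [Real.norm_eq_abs, abs_of_nonneg (le_min (Nat.cast_nonneg _) hcpos.le)]
        exact min_le_right _ _
      · filter_upwards [hg] with ω hω
        exact hω.min tendsto_const_nhds
    obtain ⟨N, hN⟩ := Metric.cauchySeq_iff.mp hlim.cauchySeq (δ / 4) (by positivity)
    refine ⟨N, fun m hm n hn => ?_⟩
    have e1 := hN m hm n hn
    have e2 := htr c m hcpos
    have e3 := htr c n hcpos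
    rw [Real.dist_eq] at e1 ⊢
    have e4 := abs_lt.mp e1
    have e5 := abs_le.mp e2
    have e6 := abs_le.mp e3
    rw [abs_lt]
    constructor <;> linarith [e4.1, e4.2, e5.1, e5.2, e6.1, e6.2]
  exact cauchySeq_tendsto_of_complete hcau

end Pool.Agent.H89.Kac
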