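import Pool.Agent.H89.Kac.PBound
import Pool.Agent.H89.Kac.ModA
import Pool.Agent.H89.Kac.ModI

set_option autoImplicit false
set_option linter.unusedSectionVars false

open MeasureTheory Filter Topology ProbabilityTheory Polynomial

namespace Pool.Agent.H89.Kac

/-- smoothed root count -/
noncomputable def Kf (ηp a b : ℝ) (p : ℝ[X]) : ℝ :=
  (ηp ^ 2)⁻¹ * ∫ x in a..b, tri ηp (p.eval x) * |(derivative p).eval x|

section fub

variable (μ : Measure ℝ) [IsProbabilityMeasure μ] (h2 : Integrable (fun x : ℝ => x ^ 2) μ)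

/-- the integrand -/
noncomputable def FF (ηp ε : ℝ) (n : ℕ) (z : (ℕ → ℝ) × ℝ) : ℝ :=
  tri ηp ((kac ε n z.1).eval z.2) * |(derivative (kac ε n z.1)).eval z.2|

lemma measurable_FF (ηp ε : ℝ) (n : ℕ) : Measurable (FF ηp ε n) := by
  unfold FF
  simp only [ModI.eval_kac', ModI.eval_dkac]
  have h1 : Measurable (fun z : (ℕ → ℝ) × ℝ => ∑ k ∈ Finset.range (n + 1), ε ^ k * z.1 k * z.2 ^ k) := by
    fun_prop
  have h2 : Measurable (fun z : (ℕ → ℝ) × ℝ =>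
      ∑ k ∈ Finset.range (n + 1), (k : ℝ) * (ε ^ k * z.1 k) * z.2 ^ (k - 1)) := by
    fun_prop
  exact ((continuous_tri ηp).measurable.comp h1).mul h2.abs

include h2 in
lemma integrable_FF {ηp : ℝ} (hη : 0 < ηp) {ε : ℝ} (hε : ε = 1 ∨ ε = -1) (n : ℕ) {a b : ℝ} (ha : 0 ≤ a)
    (hb : b ≤ 1) : Integrable (FF ηp ε n) ((Pm μ).prod (volume.restrict (Set.Ioc a b))) := by
  have hG : Integrable (fun ω : ℕ → ℝ => ηp * ∑ k ∈ Finset.range (n + 1), (k : ℝ) * |ω k|) (Pm μ) := by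
    refine Integrable.const_mul (integrable_finsetSum _ fun k _ => Integrable.const_mul ?_ _) _
    have h1 := (memLp_coord (fun _ : ℕ => μ) (fun _ => h2) 1 k).integrable (by norm_num)
    have h1' := h1.abs
    simp only [one_mul] at h1'
    exact h1'
  have hGz := hG.comp_fst (volume.restrict (Set.Ioc a b))
  refine hGz.mono' (measurable_FF ηp ε n).aestronglyMeasurable ?_
  have hae : ∀ᵐ z ∂((Pm μ).prod (volume.restrict (Set.Ioc a b))), z.2 ∈ Set.Ioc a b := by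
    have h3 : ∀ᵐ x ∂(volume.restrict (Set.Ioc a b)), x ∈ Set.Ioc a b := ae_restrict_mem measurableSet_Ioc
    exact Measure.quasiMeasurePreserving_snd.ae h3
  filter_upwards [hae] with z hz
  unfold FF
  rw [Real.norm_eq_abs, abs_mul, abs_abs, ModI.eval_dkac]
  have ht : |tri ηp ((kac ε n z.1).eval z.2)| ≤ ηp := by
    rw [abs_of_nonneg (tri_nonneg _ _)]
    unfold tri
    apply max_le _ hη.le
    have := abs_nonneg ((kac ε n z.1).eval z.2)
    linarith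
  gcongr
  refine (Finset.abs_sum_le_sum_abs _ _).trans (Finset.sum_le_sum fun k _ => ?_)
  rw [abs_mul, abs_mul, abs_mul, Nat.abs_cast, ModC.abs_eps_pow hε, one_mul, abs_pow]
  have hx : |z.2| ≤ 1 := by
    rw [abs_le]; constructor
    · linarith [hz.1]
    · linarith [hz.2]
  have : |z.2| ^ (k - 1) ≤ 1 := pow_le_one₀ (abs_nonneg _) hx
  have h0 : 0 ≤ (k : ℝ) * |z.1 k| := by positivity
  nlinarith

include h2 in
lemma Kf_facts {ηp : ℝ} (hη : 0 < ηp) {ε : ℝ} (hε : ε = 1 ∨ ε = -1) (n : ℕ) {a b : ℝ} (ha : 0 ≤ a)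
    (hab : a ≤ b) (hb : b ≤ 1) :
    Integrable (fun ω => Kf ηp a b (kac ε n ω)) (Pm μ) ∧
    IntervalIntegrable (fun x => ∫ ω, FF ηp ε n (ω, x) ∂(Pm μ)) volume a b ∧
    ∫ ω, Kf ηp a b (kac ε n ω) ∂(Pm μ)
      = ∫ x in a..b, (ηp ^ 2)⁻¹ * ∫ ω, FF ηp ε n (ω, x) ∂(Pm μ) := by
  have hF := integrable_FF μ h2 hη hε n ha hb
  have e : ∀ ω, Kf ηp a b (kac ε n ω) = (ηp ^ 2)⁻¹ * ∫ x, FF ηp ε n (ω, x) ∂(volume.restrict (Set.Ioc a b)) := by
    intro ω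
    unfold Kf FF
    rw [intervalIntegral.integral_of_le hab]
  refine ⟨?_, ?_, ?_⟩
  · simp_rw [e]
    exact hF.integral_prod_left.const_mul _
  · rw [intervalIntegrable_iff_integrableOn_Ioc_of_le hab]
    exact hF.integral_prod_right
  · simp_rw [e]
    rw [integral_const_mul, integral_integral_swap (f := fun ω x => FF ηp ε n (ω, x)) hF,
      intervalIntegral.integral_of_le hab, integral_const_mul]

end fub

/-- expected smoothed count versus the Kac integral -/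
theorem EK_bound (μ : Measure ℝ) [IsProbabilityMeasure μ] (h2 : Integrable (fun x : ℝ => x ^ 2) μ)
    (hm : ∫ x, x ∂μ = 0) (h21 : ∫ x, x ^ 2 ∂μ = 1) (Λ : ℝ) (hΛ : 1 ≤ Λ) (K : ℝ)
    (hG : GProp c1 (3 * Λ * Cw Λ ^ 2) K) :
    ∃ (C0 : ℝ) (R0 : ℕ), 0 ≤ C0 ∧ ∀ (R : ℕ) (a b : ℝ) (n : ℕ) (ε : ℝ), Blk Λ R a b n →
      (ε = 1 ∨ ε = -1) → R0 ≤ R →
      |(∫ ω, Kf (1 / (R : ℝ) ^ 8 * (R : ℝ) ^ 32) a b (kac ε n ω) ∂(Pm μ)) - ∫ x in a..b, rho n x|
        ≤ C0 * (aM μ ((R : ℝ) ^ 32) + 1 / (R : ℝ)) := by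
  obtain ⟨C0, M0, hC0, hM0, hT⟩ := Tx μ h2 hm h21 Λ hΛ K hG
  refine ⟨2 * C0, ⌈M0⌉₊, by positivity, ?_⟩
  intro R a b n ε hB hε hR
  have hR0 := hB.Rpos
  have hR1 := hB.R1
  have hab := hB.hab
  have hε' : |ε| = 1 := by rcases hε with rfl | rfl <;> simp
  have hN : (((R ^ 64 : ℕ) : ℝ)) = (R : ℝ) ^ 64 := by push_cast; rfl
  set r : ℝ := (R : ℝ) with hr
  have ha0 : 0 ≤ a := by
    have := hB.sca.x_half
    linarith
  have hb1 : b ≤ 1 := (hB.sc b (Set.right_mem_Icc.2 hab.le)).hx2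
  have hM : M0 ≤ r ^ 32 := by
    have h3 : M0 ≤ (⌈M0⌉₊ : ℝ) := Nat.le_ceil M0
    have h4 : ((⌈M0⌉₊ : ℕ) : ℝ) ≤ r := by rw [hr]; exact_mod_cast hR
    calc M0 ≤ r := h3.trans h4
      _ ≤ r ^ 32 := le_self_pow₀ hR1 (by norm_num)
  obtain ⟨hK1, hK2, hK3⟩ := Kf_facts μ h2 (ηp := 1 / r ^ 8 * r ^ 32) (by positivity) hε n ha0 hab.le hb1
  rw [hK3]
  have hpt : ∀ x ∈ Set.Icc a b, |((1 / r ^ 8 * r ^ 32) ^ 2)⁻¹ * (∫ ω, FF (1 / r ^ 8 * r ^ 32) ε n (ω, x) ∂(Pm μ))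
      - rho n x| ≤ r ^ 64 * (2 * C0 * (aM μ (r ^ 32) + 1 / r)) := by
    intro x hx
    have hsc := hB.sc x hx
    have h3 := hT (r ^ 32) x (R ^ 64) n ε hsc hε' hM (1 / r ^ 8) (by positivity)
      (by rw [div_le_one (by positivity)]; exact one_le_pow₀ hR1)
    rw [hN] at h3
    have e1 : ((1 / r ^ 8 * r ^ 32) ^ 2)⁻¹ * (∫ ω, FF (1 / r ^ 8 * r ^ 32) ε n (ω, x) ∂(Pm μ))
        = r ^ 64 * (((1 / r ^ 8) ^ 2)⁻¹ * ∫ ω, tri (1 / r ^ 8) (lin (nw ε x (r ^ 32) 0) (n + 1) ω)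
          * |lin (nw ε x (r ^ 32) 1) (n + 1) ω| ∂(Pm μ)) := by
      have e2 : ∀ ω, FF (1 / r ^ 8 * r ^ 32) ε n (ω, x) = (r ^ 32 * (r ^ 64 * r ^ 32)) *
          (tri (1 / r ^ 8) (lin (nw ε x (r ^ 32) 0) (n + 1) ω)
          * |lin (nw ε x (r ^ 32) 1) (n + 1) ω|) := by
        intro ω
        unfold FF
        have ev0 := eval_nw hsc ε 0 ω
        have ev1 := eval_nw hsc ε 1 ω
        simp only [Function.iterate_zero, id_eq, pow_zero, one_mul] at ev0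
        simp only [Function.iterate_one, pow_one] at ev1
        dsimp only
        rw [ev0, ev1, hN, abs_mul, abs_of_pos (by positivity : 0 < r ^ 64 * r ^ 32)]
        have et : tri (1 / r ^ 8 * r ^ 32) (r ^ 32 * lin (nw ε x (r ^ 32) 0) (n + 1) ω)
            = r ^ 32 * tri (1 / r ^ 8) (lin (nw ε x (r ^ 32) 0) (n + 1) ω) := by
          unfold tri
          rw [abs_mul, abs_of_pos (by positivity : 0 < r ^ 32), mul_max_of_nonneg _ _ (by positivity)]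
          congr 1
          · ring
          · ring
        rw [et]; ring
      simp_rw [e2]
      rw [integral_const_mul]
      field_simp
    rw [e1]
    refine h3.trans ?_
    have h4 : 1 / ((1 / r ^ 8) ^ 2 * r ^ 32) = 1 / r ^ 16 := by field_simp
    have h5 : 1 / r ^ 16 ≤ 1 / r := by
      apply one_div_le_one_div_of_le hR0
      exact le_self_pow₀ hR1 (by norm_num)
    have h6 : 1 / r ^ 8 ≤ 1 / r := by
      apply one_div_le_one_div_of_le hR0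
      exact le_self_pow₀ hR1 (by norm_num)
    have h7 := aM_nonneg μ (show 0 < r ^ 32 by positivity)
    refine mul_le_mul_of_nonneg_left ?_ (by positivity)
    rw [h4]
    calc C0 * (aM μ (r ^ 32) + 1 / r ^ 16 + 1 / r ^ 8)
        ≤ C0 * (aM μ (r ^ 32) + 1 / r + 1 / r) := by gcongr
      _ ≤ _ := by nlinarith [mul_nonneg hC0 h7]
  have hsub : (∫ x in a..b, ((1 / r ^ 8 * r ^ 32) ^ 2)⁻¹ * ∫ ω, FF (1 / r ^ 8 * r ^ 32) ε n (ω, x) ∂(Pm μ))
      - ∫ x in a..b, rho n x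
      = ∫ x in a..b, (((1 / r ^ 8 * r ^ 32) ^ 2)⁻¹ * (∫ ω, FF (1 / r ^ 8 * r ^ 32) ε n (ω, x) ∂(Pm μ))
      - rho n x) := by
    rw [intervalIntegral.integral_sub (hK2.const_mul _) ((continuous_rho n).intervalIntegrable _ _)]
  rw [hsub]
  have h8 := intervalIntegral.norm_integral_le_of_norm_le_const (a := a) (b := b)
    (C := r ^ 64 * (2 * C0 * (aM μ (r ^ 32) + 1 / r)))
    (f := fun x => ((1 / r ^ 8 * r ^ 32) ^ 2)⁻¹ * (∫ ω, FF (1 / r ^ 8 * r ^ 32) ε n (ω, x) ∂(Pm μ))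
      - rho n x) (by
      intro x hx
      rw [Set.uIoc_of_le hab.le] at hx
      exact hpt x ⟨hx.1.le, hx.2⟩)
  rw [Real.norm_eq_abs] at h8
  refine h8.trans ?_
  rw [abs_of_pos (by linarith)]
  have h9 := hB.hlen
  have h7 := aM_nonneg μ (show 0 < r ^ 32 by positivity)
  have h10 : 0 ≤ 2 * C0 * (aM μ (r ^ 32) + 1 / r) := by positivity
  calc r ^ 64 * (2 * C0 * (aM μ (r ^ 32) + 1 / r)) * (b - a)
      = ((b - a) * r ^ 64) * (2 * C0 * (aM μ (r ^ 32) + 1 / r)) := by ring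
    _ ≤ 1 * (2 * C0 * (aM μ (r ^ 32) + 1 / r)) := by gcongr
    _ = _ := one_mul _

end Pool.Agent.H89.Kac
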