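import Pool.Agent.H89.Kac.Core

set_option autoImplicit false
set_option linter.unusedSectionVars false

open MeasureTheory Filter Topology ProbabilityTheory

namespace Pool.Agent.H89.Kac

/-- `min(|t|^{3/2},1)/t^2`. -/
noncomputable def gt (t : ℝ) : ℝ := min (pw t) 1 / t ^ 2

lemma gt_nonneg (t : ℝ) : 0 ≤ gt t := by
  unfold gt
  have := pw_nonneg t
  positivity

lemma intervalIntegrable_inv_sqrt_abs : IntervalIntegrable (fun t : ℝ => (Real.sqrt |t|)⁻¹) volume (-1) 1 := by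
  have h1 : IntervalIntegrable (fun t : ℝ => (Real.sqrt |t|)⁻¹) volume 0 1 := by
    have h := intervalIntegral.intervalIntegrable_rpow' (a := 0) (b := 1) (r := -(1 / 2 : ℝ)) (by norm_num)
    refine h.congr ?_
    intro x hx
    rw [Set.uIoc_of_le (by norm_num)] at hx
    simp only
    rw [Real.rpow_neg hx.1.le, ← Real.sqrt_eq_rpow, abs_of_pos hx.1]
  have h2 : IntervalIntegrable (fun t : ℝ => (Real.sqrt |t|)⁻¹) volume (-1) 0 := by
    rw [IntervalIntegrable.iff_comp_neg]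
    simp only [abs_neg, neg_neg, neg_zero]
    exact h1.symm
  exact h2.trans h1

lemma gt_le (t : ℝ) : gt t ≤ Set.indicator (Set.Icc (-1 : ℝ) 1) (fun t : ℝ => (Real.sqrt |t|)⁻¹) t
    + 2 * (1 + t ^ 2)⁻¹ := by
  unfold gt
  by_cases h : |t| ≤ 1
  · have hmem : t ∈ Set.Icc (-1 : ℝ) 1 := abs_le.1 h
    rw [Set.indicator_of_mem hmem]
    have h1 : min (pw t) 1 / t ^ 2 ≤ (Real.sqrt |t|)⁻¹ := by
      by_cases ht : t = 0
      · simp [ht]
      have ht2 : 0 < t ^ 2 := by positivity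
      have hst : 0 < Real.sqrt |t| := Real.sqrt_pos.2 (abs_pos.2 ht)
      rw [div_le_iff₀ ht2, ← div_eq_inv_mul, le_div_iff₀ hst]
      calc min (pw t) 1 * Real.sqrt |t| ≤ pw t * Real.sqrt |t| := by
            gcongr; exact min_le_left _ _
        _ = |t| * (Real.sqrt |t| * Real.sqrt |t|) := by unfold pw; ring
        _ = t ^ 2 := by rw [Real.mul_self_sqrt (abs_nonneg t), ← sq_abs]; ring
    have h2 : 0 ≤ 2 * (1 + t ^ 2)⁻¹ := by positivity
    linarith
  · have hmem : t ∉ Set.Icc (-1 : ℝ) 1 := fun hh => h (abs_le.2 hh)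
    rw [Set.indicator_of_notMem hmem, zero_add]
    push Not at h
    have h1 : 1 ≤ t ^ 2 := by rw [← sq_abs]; exact one_le_pow₀ h.le
    rw [← div_eq_mul_inv, div_le_div_iff₀ (by positivity) (by positivity)]
    calc min (pw t) 1 * (1 + t ^ 2) ≤ 1 * (1 + t ^ 2) := by gcongr; exact min_le_right _ _
      _ ≤ 2 * t ^ 2 := by linarith

lemma gt_integrable : Integrable gt := by
  have h1 : Integrable (Set.indicator (Set.Icc (-1 : ℝ) 1) (fun t : ℝ => (Real.sqrt |t|)⁻¹)) := by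
    rw [integrable_indicator_iff measurableSet_Icc]
    rw [integrableOn_Icc_iff_integrableOn_Ioc]
    exact (intervalIntegrable_iff_integrableOn_Ioc_of_le (by norm_num)).1 intervalIntegrable_inv_sqrt_abs
  have h2 : Integrable (fun t : ℝ => 2 * (1 + t ^ 2)⁻¹) := (integrable_inv_one_add_sq).const_mul 2
  refine (h1.add h2).mono' ?_ (ae_of_all _ fun t => ?_)
  · unfold gt pw
    exact (by fun_prop : Measurable fun t : ℝ => min (|t| * Real.sqrt |t|) 1 / t ^ 2).aestronglyMeasurable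
  · rw [Real.norm_of_nonneg (gt_nonneg t)]
    exact gt_le t

/-- `∫ min(|t|^{3/2},1)/t^2 dt`. -/
noncomputable def I0 : ℝ := ∫ t : ℝ, gt t

lemma I0_nonneg : 0 ≤ I0 := integral_nonneg gt_nonneg

/-- tail integral of `1/t^2`. -/
lemma integrableOn_inv_sq_tail {τ : ℝ} (hτ : 0 < τ) :
    IntegrableOn (fun t : ℝ => 1 / t ^ 2) {t : ℝ | τ < |t|} := by
  have h1 : IntegrableOn (fun t : ℝ => 1 / t ^ 2) (Set.Ioi τ) := by
    have := integrableOn_Ioi_rpow_of_lt (a := -2) (by norm_num) hτ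
    refine this.congr_fun (fun x hx => ?_) measurableSet_Ioi
    have hx' : 0 < x := hτ.trans hx
    simp only
    rw [Real.rpow_neg hx'.le]
    norm_num
  have h2 : IntegrableOn (fun t : ℝ => 1 / t ^ 2) (Set.Iio (-τ)) := by
    have := h1.comp_neg
    simpa using this
  have : {t : ℝ | τ < |t|} = Set.Iio (-τ) ∪ Set.Ioi τ := by
    ext t
    simp only [Set.mem_ofPred_eq, Set.mem_union, Set.mem_Iio, Set.mem_Ioi, lt_abs]
    constructor
    · rintro (h | h)
      · exact Or.inr h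
      · left; linarith
    · rintro (h | h)
      · right; linarith
      · exact Or.inl h
  rw [this]
  exact h2.union h1

lemma integral_inv_sq_tail {τ : ℝ} (hτ : 0 < τ) :
    ∫ t in {t : ℝ | τ < |t|}, 1 / t ^ 2 = 2 / τ := by
  have hset : {t : ℝ | τ < |t|} = Set.Iio (-τ) ∪ Set.Ioi τ := by
    ext t
    simp only [Set.mem_ofPred_eq, Set.mem_union, Set.mem_Iio, Set.mem_Ioi, lt_abs]
    constructor
    · rintro (h | h)
      · exact Or.inr h
      · left; linarith
    · rintro (h | h)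
      · right; linarith
      · exact Or.inl h
  have hint := integrableOn_inv_sq_tail hτ
  rw [hset] at hint ⊢
  have hdisj : Disjoint (Set.Iio (-τ)) (Set.Ioi τ) := by
    rw [Set.disjoint_left]
    intro x hx hx'
    simp only [Set.mem_Iio, Set.mem_Ioi] at hx hx'
    linarith
  rw [setIntegral_union hdisj measurableSet_Ioi hint.left_of_union hint.right_of_union]
  have h1 : ∫ t in Set.Ioi τ, 1 / t ^ 2 = 1 / τ := by
    have h := integral_Ioi_rpow_of_lt (a := -2) (by norm_num) hτ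
    have e : ∫ t in Set.Ioi τ, 1 / t ^ 2 = ∫ t in Set.Ioi τ, t ^ (-2 : ℝ) := by
      refine setIntegral_congr_fun measurableSet_Ioi fun x hx => ?_
      have hx' : 0 < x := hτ.trans hx
      rw [Real.rpow_neg hx'.le]
      norm_num
    rw [e, h]
    norm_num
    rw [Real.rpow_neg hτ.le, Real.rpow_one]
  have h2 : ∫ t in Set.Iio (-τ), 1 / t ^ 2 = 1 / τ := by
    rw [← integral_Iic_eq_integral_Iio, ← h1, ← integral_comp_neg_Ioi]
    simp
  rw [h1, h2]
  ring

lemma poly_exp_bound {c : ℝ} (hc : 0 < c) (t : ℝ) :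
    (1 + |t|) ^ 3 * Real.exp (-(c * t ^ 2)) ≤ 8 + 16 / c ^ 2 := by
  have hc2 : 0 < c ^ 2 := by positivity
  have h16 : 0 < 16 / c ^ 2 := by positivity
  by_cases h : |t| ≤ 1
  · have h1 : (1 + |t|) ^ 3 ≤ 2 ^ 3 := by gcongr; linarith
    have h2 : Real.exp (-(c * t ^ 2)) ≤ 1 := by
      rw [Real.exp_le_one_iff]; nlinarith [mul_nonneg hc.le (sq_nonneg t)]
    calc (1 + |t|) ^ 3 * Real.exp (-(c * t ^ 2)) ≤ 2 ^ 3 * 1 := by gcongr
      _ ≤ _ := by linarith
  · push Not at h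
    have ht2 : 0 < t ^ 2 := by
      rw [← sq_abs]; positivity
    have h1 : (1 + |t|) ^ 3 ≤ (2 * |t|) ^ 3 := by gcongr; linarith
    have h2 := Real.quadratic_le_exp_of_nonneg (x := c * t ^ 2) (by positivity)
    have h3 : (c * t ^ 2) ^ 2 / 2 ≤ Real.exp (c * t ^ 2) := by
      have : 0 ≤ c * t ^ 2 := by positivity
      linarith
    rw [Real.exp_neg]
    have h4 : (Real.exp (c * t ^ 2))⁻¹ ≤ ((c * t ^ 2) ^ 2 / 2)⁻¹ := by
      gcongr
    calc (1 + |t|) ^ 3 * (Real.exp (c * t ^ 2))⁻¹ ≤ (2 * |t|) ^ 3 * ((c * t ^ 2) ^ 2 / 2)⁻¹ := by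
          gcongr
      _ = 16 / c ^ 2 / |t| := by
          have e : t ^ 2 = |t| ^ 2 := (sq_abs t).symm
          rw [e]
          have : |t| ≠ 0 := by positivity
          field_simp
          ring
      _ ≤ 16 / c ^ 2 / 1 := by gcongr
      _ ≤ _ := by linarith

/-- constant of the telescoping estimate. -/
noncomputable def Kc (C c : ℝ) : ℝ := 40 * (1 + C) + 4 * (9 + 16 / c ^ 2)

section dbound

variable (μ : Measure ℝ) [IsProbabilityMeasure μ] (h2 : Integrable (fun x : ℝ => x ^ 2) μ)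
    (hm : ∫ x, x ∂μ = 0) (h21 : ∫ x, x ^ 2 ∂μ = 1) (T : ℝ)

include h2 hm h21 in
lemma D_bound (n : ℕ) (u w ω : ℕ → ℝ) (C c s t : ℝ) (hc : 0 < c)
    (hu : ∀ k < n, |u k| ≤ ω k) (hw : ∀ k < n, |w k| ≤ ω k)
    (hC : ∑ k ∈ Finset.range n, w k ^ 2 ≤ C)
    (hd : ∀ m < n, ∀ τ : ℝ, |τ| ≤ |t| →
      ‖Psi μ T n m (fun k => s * u k + τ * w k)‖ ≤ Real.exp (-(c * (s ^ 2 + τ ^ 2)))) :
    ‖D2 (fun _ => μ) n u w s t - D2 (fun _ => gaussianReal 0 (vT μ T)) n u w s t‖
      ≤ Kc C c * (1 + |s|) ^ 3 * Real.exp (-(c * s ^ 2) / 4) * min (pw t) 1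
        * ∑ k ∈ Finset.range n, Ek μ T (ω k) := by
  have hC0 : 0 ≤ C := (Finset.sum_nonneg fun k _ => sq_nonneg _).trans hC
  have hc2 : 0 < 16 / c ^ 2 := by positivity
  have hexp : Real.exp (-(c * s ^ 2)) ≤ Real.exp (-(c * s ^ 2) / 4) := by
    apply Real.exp_le_exp.2
    nlinarith [mul_nonneg hc.le (sq_nonneg s)]
  rw [D2_tele, Finset.mul_sum]
  refine (norm_sum_le _ _).trans (Finset.sum_le_sum fun m hm' => ?_)
  have hmn := Finset.mem_range.1 hm'
  have hω : 0 ≤ ω m := (abs_nonneg _).trans (hu m hmn)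
  have hE := Ek_nonneg μ T hω
  by_cases ht : |t| ≤ 1
  · have h := term_small μ h2 hm h21 T hmn u w (ω m) C c s t hc.le (hu m hmn) (hw m hmn) hC ht ?_
    · refine h.trans ?_
      have hmin : min (pw t) 1 = pw t := by
        apply min_eq_left
        unfold pw
        have : Real.sqrt |t| ≤ 1 := by
          rw [Real.sqrt_le_one]; exact ht
        nlinarith [abs_nonneg t, Real.sqrt_nonneg |t|]
      rw [hmin]
      have hpt := pw_nonneg t
      have hK : 40 * (1 + C) ≤ Kc C c := by unfold Kc; linarith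
      calc 40 * (1 + C) * (1 + |s|) ^ 3 * pw t * Real.exp (-(c * s ^ 2) / 4) * Ek μ T (ω m)
          ≤ Kc C c * (1 + |s|) ^ 3 * pw t * Real.exp (-(c * s ^ 2) / 4) * Ek μ T (ω m) := by
            gcongr
        _ = _ := by ring
    · intro τ hτ
      refine (hd m hmn τ hτ).trans ?_
      apply Real.exp_le_exp.2
      nlinarith [mul_nonneg hc.le (sq_nonneg τ)]
  · push Not at ht
    have h := term_large μ h2 hm h21 T (n := n) (m := m) u w (ω m) c s t hc.le (hu m hmn) (hw m hmn)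
      (hd m hmn)
    refine h.trans ?_
    have hmin : min (pw t) 1 = 1 := by
      apply min_eq_right
      unfold pw
      have : 1 ≤ Real.sqrt |t| := Real.one_le_sqrt.2 ht.le
      nlinarith
    rw [hmin]
    have hp := poly_exp_bound hc t
    have hK : 4 * (1 + (1 + |t|) ^ 3 * Real.exp (-(c * t ^ 2))) ≤ Kc C c := by
      unfold Kc
      have : 0 ≤ 40 * (1 + C) := by positivity
      linarith
    have hK0 : 0 ≤ Kc C c := by unfold Kc; positivity
    calc 4 * (1 + (1 + |t|) ^ 3 * Real.exp (-(c * t ^ 2))) * (1 + |s|) ^ 3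
          * Real.exp (-(c * s ^ 2)) * Ek μ T (ω m)
        ≤ Kc C c * (1 + |s|) ^ 3 * Real.exp (-(c * s ^ 2) / 4) * Ek μ T (ω m) := by gcongr
      _ = _ := by ring

/-- `(1+|s|)^3 exp(-c s^2/4)`. -/
noncomputable def hs (c s : ℝ) : ℝ := (1 + |s|) ^ 3 * Real.exp (-(c * s ^ 2) / 4)

omit [IsProbabilityMeasure μ] in
lemma hs_nonneg (c s : ℝ) : 0 ≤ hs c s := by unfold hs; positivity

lemma hs_integrable {c : ℝ} (hc : 0 < c) : Integrable (hs c) := by
  have h1 : Integrable (fun s : ℝ => Real.exp (-(c / 8) * s ^ 2)) :=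
    integrable_exp_neg_mul_sq (by positivity)
  have h2 := h1.const_mul (8 + 16 / (c / 8) ^ 2)
  refine h2.mono' ?_ (ae_of_all _ fun s => ?_)
  · unfold hs
    exact (by fun_prop : Measurable fun s : ℝ => (1 + |s|) ^ 3 * Real.exp (-(c * s ^ 2) / 4)).aestronglyMeasurable
  · rw [Real.norm_of_nonneg (hs_nonneg c s)]
    unfold hs
    have e : Real.exp (-(c * s ^ 2) / 4) = Real.exp (-((c / 8) * s ^ 2)) * Real.exp (-(c / 8) * s ^ 2) := by
      rw [← Real.exp_add]; congr 1; ring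
    rw [e, ← mul_assoc]
    gcongr
    exact poly_exp_bound (by positivity) s

/-- `∫ (1+|s|)^3 exp(-c s^2/4)`. -/
noncomputable def H0 (c : ℝ) : ℝ := ∫ s, hs c s

lemma H0_nonneg (c : ℝ) : 0 ≤ H0 c := integral_nonneg (hs_nonneg c)

/-- real part of `D2` as an expectation. -/
lemma D2_re (ν : ℕ → Measure ℝ) [∀ k, IsProbabilityMeasure (ν k)] (n : ℕ) (u w : ℕ → ℝ) (s t : ℝ) :
    (D2 ν n u w s t).re = ∫ ω, Real.cos (s * lin u n ω) * (1 - Real.cos (t * lin w n ω))
      ∂(Measure.infinitePi ν) := by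
  unfold D2
  rw [Phi_q]
  have hmu := measurable_lin u n
  have hmw := measurable_lin w n
  have hi : Integrable (fun ω => Complex.exp (Complex.I * ((s * lin u n ω : ℝ) : ℂ))
      * ((1 - Real.cos (t * lin w n ω) : ℝ) : ℂ)) (Measure.infinitePi ν) := by
    refine Integrable.of_bound (C := 2) ?_ (ae_of_all _ fun y => ?_)
    · exact (by fun_prop : Measurable fun ω => Complex.exp (Complex.I * ((s * lin u n ω : ℝ) : ℂ))
        * ((1 - Real.cos (t * lin w n ω) : ℝ) : ℂ)).aestronglyMeasurable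
    · rw [norm_mul, Complex.norm_exp_I_mul_ofReal, one_mul, Complex.norm_real, Real.norm_eq_abs,
        abs_of_nonneg (by linarith [Real.cos_le_one (t * lin w n y)])]
      linarith [Real.neg_one_le_cos (t * lin w n y)]
  have : (∫ ω, Complex.exp (Complex.I * ((s * lin u n ω : ℝ) : ℂ))
      * ((1 - Real.cos (t * lin w n ω) : ℝ) : ℂ) ∂(Measure.infinitePi ν)).re
      = ∫ ω, (Complex.exp (Complex.I * ((s * lin u n ω : ℝ) : ℂ))
      * ((1 - Real.cos (t * lin w n ω) : ℝ) : ℂ)).re ∂(Measure.infinitePi ν) := by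
    exact (integral_re hi).symm
  rw [this]
  congr 1; ext ω
  rw [Complex.re_mul_ofReal, ← cos_eq_re]

lemma norm_D2_le_two (ν : ℕ → Measure ℝ) [∀ k, IsProbabilityMeasure (ν k)] (n : ℕ) (u w : ℕ → ℝ)
    (s t : ℝ) : |(D2 ν n u w s t).re| ≤ 2 := by
  rw [D2_re]
  have : ‖∫ ω, Real.cos (s * lin u n ω) * (1 - Real.cos (t * lin w n ω)) ∂(Measure.infinitePi ν)‖
      ≤ 2 * (Measure.infinitePi ν).real Set.univ := by
    refine norm_integral_le_of_norm_le_const (ae_of_all _ fun ω => ?_)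
    rw [norm_mul, Real.norm_eq_abs, Real.norm_eq_abs,
      abs_of_nonneg (by linarith [Real.cos_le_one (t * lin w n ω)] : 0 ≤ 1 - Real.cos (t * lin w n ω))]
    have h1 := Real.abs_cos_le_one (s * lin u n ω)
    have h2 := Real.neg_one_le_cos (t * lin w n ω)
    have h3 := Real.cos_le_one (t * lin w n ω)
    nlinarith [abs_nonneg (Real.cos (s * lin u n ω))]
  simpa using this

/-- the inner integral. -/
noncomputable def Jn (ν : ℕ → Measure ℝ) (n : ℕ) (u w : ℕ → ℝ) (s : ℝ) : ℝ :=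
  ∫ t : ℝ, (D2 ν n u w s t).re / t ^ 2

lemma Jn_integrable (ν : ℕ → Measure ℝ) [∀ k, IsProbabilityMeasure (ν k)]
    (hν : ∀ k, Integrable (fun x : ℝ => x ^ 2) (ν k)) (n : ℕ) (u w : ℕ → ℝ) (s : ℝ) :
    Integrable (fun t : ℝ => (D2 ν n u w s t).re / t ^ 2) := by
  simp_rw [D2_re]
  exact J_integrable (Measure.infinitePi ν) (lin u n) (lin w n) (measurable_lin u n)
    (measurable_lin w n) ((memLp_lin ν hν w n).integrable (by norm_num)) s

lemma abs_Jn_le (ν : ℕ → Measure ℝ) [∀ k, IsProbabilityMeasure (ν k)]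
    (hν : ∀ k, Integrable (fun x : ℝ => x ^ 2) (ν k)) (hm : ∀ k, ∫ x, x ∂(ν k) = 0)
    (h21 : ∀ k, ∫ x, x ^ 2 ∂(ν k) ≤ 1) (n : ℕ) (u w : ℕ → ℝ) (s : ℝ) :
    |Jn ν n u w s| ≤ c0 * Real.sqrt (∑ k ∈ Finset.range n, w k ^ 2) := by
  unfold Jn
  simp_rw [D2_re]
  refine (abs_J_le (Measure.infinitePi ν) (lin u n) (lin w n) (measurable_lin u n)
    (measurable_lin w n) ((memLp_lin ν hν w n).integrable (by norm_num)) s).trans ?_
  have := integral_abs_lin ν hν hm h21 w n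
  have := c0_pos
  gcongr

lemma expect_eq_Jn (ν : ℕ → Measure ℝ) [∀ k, IsProbabilityMeasure (ν k)]
    (hν : ∀ k, Integrable (fun x : ℝ => x ^ 2) (ν k)) (n : ℕ) (u w : ℕ → ℝ) (η : ℝ) (hη : 0 ≤ η) :
    ∫ ω, tri η (lin u n ω) * |lin w n ω| ∂(Measure.infinitePi ν)
      = c0⁻¹ ^ 2 * ∫ s : ℝ, (1 - Real.cos (s * η)) / s ^ 2 * Jn ν n u w s := by
  rw [expect_tri (Measure.infinitePi ν) (lin u n) (lin w n) (measurable_lin u n)
    (measurable_lin w n) ((memLp_lin ν hν w n).integrable (by norm_num)) η hη]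
  unfold Jn
  simp_rw [D2_re]

end dbound

end Pool.Agent.H89.Kac
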