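import Pool.Agent.H89.Kac.OneVar

set_option autoImplicit false
set_option linter.unusedSectionVars false

open MeasureTheory Filter Topology ProbabilityTheory

namespace Pool.Agent.H89.Kac

/-- the linear form `∑_{k<n} u_k ω_k`. -/
noncomputable def lin (u : ℕ → ℝ) (n : ℕ) (ω : ℕ → ℝ) : ℝ := ∑ k ∈ Finset.range n, u k * ω k

lemma measurable_lin (u : ℕ → ℝ) (n : ℕ) : Measurable (lin u n) := by
  unfold lin; fun_prop

section lin

variable (ν : ℕ → Measure ℝ) [∀ k, IsProbabilityMeasure (ν k)]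

lemma iIndep_coord : iIndepFun (fun (k : ℕ) (ω : ℕ → ℝ) => ω k) (Measure.infinitePi ν) :=
  iIndepFun_infinitePi (X := fun _ x => x) (fun _ => measurable_id)

lemma map_coord (k : ℕ) : (Measure.infinitePi ν).map (fun ω => ω k) = ν k :=
  Measure.infinitePi_map_eval ν k

/-- the product of characteristic functions -/
noncomputable def Phi (ν : ℕ → Measure ℝ) (n : ℕ) (a : ℕ → ℝ) : ℂ :=
  ∏ k ∈ Finset.range n, charFun (ν k) (a k)

lemma meas_coord (a : ℝ) (k : ℕ) : Measurable (fun ω : ℕ → ℝ => a * ω k) :=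
  by fun_prop

lemma Phi_eq (n : ℕ) (a : ℕ → ℝ) :
    Phi ν n a = ∫ ω, Complex.exp (Complex.I * ((lin a n ω : ℝ) : ℂ)) ∂(Measure.infinitePi ν) := by
  have hind : iIndepFun (fun (k : ℕ) (ω : ℕ → ℝ) => a k * ω k) (Measure.infinitePi ν) :=
    (iIndep_coord ν).comp (fun k x => a k * x) (fun k => by fun_prop)
  have h := (hind.restrict (Finset.range n)).charFun_map_fun_finsetSum_eq_prod
    (fun k _ => (meas_coord (a k) k).aemeasurable)
  have h1 := congrFun h 1
  have hl : (fun ω : ℕ → ℝ => ∑ i ∈ Finset.range n, a i * ω i) = lin a n := rfl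
  rw [hl, charFun_eq_I, integral_map (measurable_lin a n).aemeasurable
    (by fun_prop : Continuous _).aestronglyMeasurable] at h1
  simp only [one_mul] at h1
  unfold Phi
  rw [h1, Finset.prod_apply]
  refine Finset.prod_congr rfl fun k _ => ?_
  rw [charFun_map_mul_comp (measurable_pi_apply k).aemeasurable, map_coord]
  simp

lemma integrable_coord (hm : ∀ k, Integrable (fun x : ℝ => x) (ν k)) (k : ℕ) :
    Integrable (fun ω : ℕ → ℝ => ω k) (Measure.infinitePi ν) := by
  have := hm k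
  rw [← map_coord ν k] at this
  exact this.comp_measurable (measurable_pi_apply k)

lemma integrable_coord_sq (hm : ∀ k, Integrable (fun x : ℝ => x ^ 2) (ν k)) (k : ℕ) :
    Integrable (fun ω : ℕ → ℝ => (ω k) ^ 2) (Measure.infinitePi ν) := by
  have := hm k
  rw [← map_coord ν k] at this
  exact this.comp_measurable (measurable_pi_apply k)

lemma integral_coord (k : ℕ) : ∫ ω : ℕ → ℝ, ω k ∂(Measure.infinitePi ν) = ∫ x, x ∂(ν k) := by
  conv_rhs => rw [← map_coord ν k]
  rw [integral_map (measurable_pi_apply k).aemeasurable (by fun_prop)]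

lemma integral_coord_sq (k : ℕ) :
    ∫ ω : ℕ → ℝ, (ω k) ^ 2 ∂(Measure.infinitePi ν) = ∫ x, x ^ 2 ∂(ν k) := by
  conv_rhs => rw [← map_coord ν k]
  rw [integral_map (measurable_pi_apply k).aemeasurable (by fun_prop)]

variable (h2 : ∀ k, Integrable (fun x : ℝ => x ^ 2) (ν k)) (hm : ∀ k, ∫ x, x ∂(ν k) = 0)
  (h21 : ∀ k, ∫ x, x ^ 2 ∂(ν k) ≤ 1)

include h2 in
lemma memLp_coord (a : ℝ) (k : ℕ) :
    MemLp (fun ω : ℕ → ℝ => a * ω k) 2 (Measure.infinitePi ν) := by
  have : MemLp (fun ω : ℕ → ℝ => ω k) 2 (Measure.infinitePi ν) :=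
    (memLp_two_iff_integrable_sq (measurable_pi_apply k).aestronglyMeasurable).2
      (integrable_coord_sq ν h2 k)
  exact this.const_mul a

include h2 in
lemma memLp_lin (a : ℕ → ℝ) (n : ℕ) : MemLp (lin a n) 2 (Measure.infinitePi ν) := by
  have : lin a n = ∑ k ∈ Finset.range n, fun ω : ℕ → ℝ => a k * ω k := by
    ext ω; simp [lin]
  rw [this]
  exact memLp_finsetSum' _ fun k _ => memLp_coord ν h2 (a k) k

include h2 hm in
lemma integral_lin (a : ℕ → ℝ) (n : ℕ) : ∫ ω, lin a n ω ∂(Measure.infinitePi ν) = 0 := by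
  unfold lin
  rw [integral_finsetSum]
  · refine Finset.sum_eq_zero fun k _ => ?_
    rw [integral_const_mul, integral_coord, hm, mul_zero]
  · intro k _
    exact (memLp_coord ν h2 (a k) k).integrable (by norm_num)

include h2 hm h21 in
lemma integral_lin_sq (a : ℕ → ℝ) (n : ℕ) :
    ∫ ω, (lin a n ω) ^ 2 ∂(Measure.infinitePi ν) ≤ ∑ k ∈ Finset.range n, a k ^ 2 := by
  have hv : variance (lin a n) (Measure.infinitePi ν) = ∫ ω, (lin a n ω) ^ 2 ∂(Measure.infinitePi ν) := by
    rw [variance_eq_integral (measurable_lin a n).aemeasurable, integral_lin ν h2 hm]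
    simp
  rw [← hv]
  have hs : lin a n = ∑ k ∈ Finset.range n, fun ω : ℕ → ℝ => a k * ω k := by
    ext ω; simp [lin]
  have hind : iIndepFun (fun (k : ℕ) (ω : ℕ → ℝ) => a k * ω k) (Measure.infinitePi ν) :=
    (iIndep_coord ν).comp (fun k x => a k * x) (fun k => by fun_prop)
  rw [hs, IndepFun.variance_sum (fun k _ => memLp_coord ν h2 (a k) k)
    (fun i _ j _ hij => hind.indepFun hij)]
  refine Finset.sum_le_sum fun k _ => ?_
  rw [variance_const_mul]
  have : variance (fun ω : ℕ → ℝ => ω k) (Measure.infinitePi ν) ≤ 1 := by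
    rw [variance_eq_integral (measurable_pi_apply k).aemeasurable, integral_coord, hm]
    simp only [sub_zero]
    rw [integral_coord_sq]
    exact h21 k
  nlinarith [sq_nonneg (a k)]

include h2 hm h21 in
lemma integral_abs_lin (a : ℕ → ℝ) (n : ℕ) :
    ∫ ω, |lin a n ω| ∂(Measure.infinitePi ν) ≤ Real.sqrt (∑ k ∈ Finset.range n, a k ^ 2) := by
  have h := memLp_lin ν h2 a n
  have hi : Integrable (fun ω => |lin a n ω|) (Measure.infinitePi ν) :=
    (h.integrable (by norm_num)).abs
  have hsq : Integrable (fun ω => (lin a n ω) ^ 2) (Measure.infinitePi ν) :=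
    (memLp_two_iff_integrable_sq (measurable_lin a n).aestronglyMeasurable).1 h
  refine Real.le_sqrt_of_sq_le ?_
  refine le_trans ?_ (integral_lin_sq ν h2 hm h21 a n)
  -- Jensen / Cauchy-Schwarz
  have hv := variance_nonneg (fun ω => |lin a n ω|) (Measure.infinitePi ν)
  have habs : MemLp (fun ω => |lin a n ω|) 2 (Measure.infinitePi ν) := h.abs
  rw [variance_eq_sub habs] at hv
  have e : (Measure.infinitePi ν)[(fun ω => |lin a n ω|) ^ 2]
      = ∫ ω, (lin a n ω) ^ 2 ∂(Measure.infinitePi ν) := by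
    congr 1; ext ω; simp [sq_abs]
  rw [e] at hv
  linarith

end lin

end Pool.Agent.H89.Kac
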