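import Mathlib
import Pool.Agent.H89.Kac.Defs

/-!
Module B: almost surely the random power series has no double zero in `(0,1)`, and does not
vanish at a given point.
-/

set_option autoImplicit false

open MeasureTheory Filter Topology Polynomial

namespace Pool.Agent.H89.Kac

/-! ### Measure theoretic part -/

theorem measurable_update_prod (m : ℕ) :
    Measurable (fun p : (ℕ → ℝ) × ℝ => Function.update p.1 m p.2) := by
  rw [measurable_pi_iff]
  intro k
  by_cases hk : k = m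
  · subst hk
    simpa using measurable_snd
  · simp only [Function.update_of_ne hk]
    exact (measurable_pi_apply k).comp measurable_fst

/-- Resampling one coordinate preserves the product measure. -/
theorem map_update (μ : Measure ℝ) [IsProbabilityMeasure μ] (m : ℕ) :
    ((Pm μ).prod μ).map (fun p : (ℕ → ℝ) × ℝ => Function.update p.1 m p.2) = Pm μ := by
  classical
  unfold Pm
  apply Measure.eq_infinitePi
  intro s t ht
  have hmeas : ∀ s : Finset ℕ, (∀ i ∈ s, MeasurableSet (t i)) →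
      MeasurableSet (Set.pi (s : Set ℕ) t) := fun s hs =>
    MeasurableSet.pi s.countable_toSet hs
  rw [Measure.map_apply (measurable_update_prod m) (hmeas s fun i _ => ht i)]
  by_cases hm : m ∈ s
  · have hpre : (fun p : (ℕ → ℝ) × ℝ => Function.update p.1 m p.2) ⁻¹' Set.pi (s : Set ℕ) t
        = (Set.pi ((s.erase m : Finset ℕ) : Set ℕ) t) ×ˢ (t m) := by
      ext p
      simp only [Set.mem_preimage, Set.mem_pi, Finset.mem_coe, Set.mem_prod, Finset.mem_erase]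
      constructor
      · intro h
        refine ⟨fun i hi => ?_, ?_⟩
        · have := h i hi.2
          rwa [Function.update_of_ne hi.1] at this
        · simpa using h m hm
      · rintro ⟨h1, h2⟩ i hi
        by_cases him : i = m
        · subst him; simpa using h2
        · rw [Function.update_of_ne him]
          exact h1 i ⟨him, hi⟩
    rw [hpre, Measure.prod_prod, Measure.infinitePi_pi (fun _ : ℕ => μ)
      (fun i _ => ht i), mul_comm]
    exact Finset.mul_prod_erase s (fun i => μ (t i)) hm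
  · have hpre : (fun p : (ℕ → ℝ) × ℝ => Function.update p.1 m p.2) ⁻¹' Set.pi (s : Set ℕ) t
        = (Set.pi (s : Set ℕ) t) ×ˢ (Set.univ : Set ℝ) := by
      ext p
      simp only [Set.mem_preimage, Set.mem_pi, Finset.mem_coe, Set.mem_prod, Set.mem_univ,
        and_true]
      refine forall₂_congr fun i hi => ?_
      rw [Function.update_of_ne (by rintro rfl; exact hm hi)]
    rw [hpre, Measure.prod_prod, Measure.infinitePi_pi (fun _ : ℕ => μ) (fun i _ => ht i), measure_univ,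
      mul_one]

instance (μ : Measure ℝ) [IsProbabilityMeasure μ] : IsProbabilityMeasure (Pm μ) := by
  unfold Pm; infer_instance

/-- The atoms of a nondegenerate law are bounded away from one. -/
theorem exists_atom_bound (μ : Measure ℝ) [IsProbabilityMeasure μ] (hnd : ∀ a : ℝ, μ {a} ≠ 1) :
    ∃ q : ENNReal, q < 1 ∧ ∀ a : ℝ, μ {a} ≤ q := by
  by_cases h : ∃ a, 2⁻¹ < μ {a}
  · obtain ⟨a, ha⟩ := h
    refine ⟨max (μ {a}) 2⁻¹, ?_, fun b => ?_⟩
    · rw [max_lt_iff]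
      exact ⟨lt_of_le_of_ne prob_le_one (hnd a), ENNReal.one_half_lt_one⟩
    · by_cases hb : b = a
      · subst hb; exact le_max_left _ _
      · refine le_trans ?_ (le_max_right _ _)
        by_contra hlt
        rw [not_le] at hlt
        have h1 : μ ({a} ∪ {b}) = μ {a} + μ {b} :=
          measure_union (by simpa using Ne.symm hb) (measurableSet_singleton b)
        have h2 : (1 : ENNReal) < μ {a} + μ {b} := by
          have := ENNReal.add_lt_add ha hlt
          rwa [ENNReal.inv_two_add_inv_two] at this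
        rw [← h1] at h2
        exact absurd (prob_le_one (μ := μ) (s := {a} ∪ {b})) (not_le.2 h2)
  · push Not at h
    exact ⟨2⁻¹, ENNReal.one_half_lt_one, h⟩

/-- If all the sections in the coordinates `m ≥ m₀` of the compact set `E` have at most one
point, then `E` is a null set. -/
theorem null_of_sections (μ : Measure ℝ) [IsProbabilityMeasure μ] (hnd : ∀ a : ℝ, μ {a} ≠ 1)
    (E : Set (ℕ → ℝ)) (hE : IsCompact E) (m₀ : ℕ)
    (hsec : ∀ m ≥ m₀, ∀ (ω : ℕ → ℝ) (v w : ℝ), Function.update ω m v ∈ E →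
      Function.update ω m w ∈ E → v = w) :
    Pm μ E = 0 := by
  obtain ⟨q, hq1, hq⟩ := exists_atom_bound μ hnd
  -- cylinders
  let R : (m : ℕ) → (ℕ → ℝ) → (Fin m → ℝ) := fun m ω i => ω i
  have hRc : ∀ m, Continuous (R m) := fun m => continuous_pi fun i => continuous_apply _
  let Cy : ℕ → Set (ℕ → ℝ) := fun m => R m ⁻¹' (R m '' E)
  have hCc : ∀ m, IsClosed (Cy m) := fun m =>
    ((hE.image (hRc m)).isClosed).preimage (hRc m)
  have hCmem : ∀ m ω, ω ∈ Cy m ↔ ∃ ω' ∈ E, ∀ k < m, ω' k = ω k := by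
    intro m ω
    constructor
    · rintro ⟨ω', h1, h2⟩
      exact ⟨ω', h1, fun k hk => congrFun h2 ⟨k, hk⟩⟩
    · rintro ⟨ω', h1, h2⟩
      exact ⟨ω', h1, funext fun i => h2 i i.2⟩
  have hCanti : Antitone Cy := by
    intro m m' hmm ω hω
    rw [hCmem] at hω ⊢
    obtain ⟨ω', h1, h2⟩ := hω
    exact ⟨ω', h1, fun k hk => h2 k (hk.trans_le hmm)⟩
  have hCinter : (⋂ m, Cy m) = E := by
    apply Set.Subset.antisymm
    · intro ω hω
      have h1 : ∀ m, ∃ ω' ∈ E, ∀ k < m, ω' k = ω k := fun m =>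
        (hCmem m ω).1 (Set.mem_iInter.1 hω m)
      choose w hw1 hw2 using h1
      have hlim : Tendsto w atTop (𝓝 ω) := by
        rw [tendsto_pi_nhds]
        intro k
        apply tendsto_const_nhds.congr'
        filter_upwards [eventually_gt_atTop k] with m hm
        exact (hw2 m k hm).symm
      exact hE.isClosed.mem_of_tendsto hlim (Eventually.of_forall hw1)
    · intro ω hω
      exact Set.mem_iInter.2 fun m => (hCmem m ω).2 ⟨ω, hω, fun _ _ => rfl⟩
  have hEm : MeasurableSet E := hE.isClosed.measurableSet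
  have hbound : ∀ m ≥ m₀, Pm μ E ≤ q * Pm μ (Cy m) := by
    intro m hm
    have h1 : Pm μ E = ((Pm μ).prod μ) ((fun p : (ℕ → ℝ) × ℝ => Function.update p.1 m p.2) ⁻¹' E) := by
      rw [← Measure.map_apply (measurable_update_prod m) hEm, map_update]
    rw [h1, Measure.prod_apply ((measurable_update_prod m) hEm)]
    have h2 : ∀ ω : ℕ → ℝ, μ (Prod.mk ω ⁻¹' ((fun p : (ℕ → ℝ) × ℝ =>
        Function.update p.1 m p.2) ⁻¹' E)) ≤ (Cy m).indicator (fun _ => q) ω := by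
      intro ω
      by_cases hne : (Prod.mk ω ⁻¹' ((fun p : (ℕ → ℝ) × ℝ =>
        Function.update p.1 m p.2) ⁻¹' E)).Nonempty
      · obtain ⟨v, hv⟩ := hne
        have hv' : Function.update ω m v ∈ E := hv
        have hωC : ω ∈ Cy m := (hCmem m ω).2 ⟨_, hv', fun k hk =>
          Function.update_of_ne hk.ne _ _⟩
        rw [Set.indicator_of_mem hωC]
        refine le_trans (measure_mono ?_) (hq v)
        intro w hw
        exact Set.mem_singleton_iff.2 (hsec m hm ω w v hw hv')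
      · rw [Set.not_nonempty_iff_eq_empty] at hne
        rw [hne, measure_empty]
        exact zero_le
    calc ∫⁻ ω, μ (Prod.mk ω ⁻¹' ((fun p : (ℕ → ℝ) × ℝ =>
          Function.update p.1 m p.2) ⁻¹' E)) ∂(Pm μ)
        ≤ ∫⁻ ω, (Cy m).indicator (fun _ => q) ω ∂(Pm μ) := lintegral_mono h2
      _ = q * Pm μ (Cy m) := by
          rw [lintegral_indicator (hCc m).measurableSet, setLIntegral_const]
  have hlim : Tendsto (fun m => Pm μ (Cy m)) atTop (𝓝 (Pm μ E)) := by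
    have := tendsto_measure_iInter_atTop (μ := Pm μ) (s := Cy)
      (fun m => (hCc m).measurableSet.nullMeasurableSet) hCanti ⟨0, measure_ne_top _ _⟩
    rwa [hCinter] at this
  have hlim2 : Tendsto (fun m => q * Pm μ (Cy m)) atTop (𝓝 (q * Pm μ E)) :=
    ENNReal.Tendsto.const_mul hlim (Or.inr (hq1.trans_le le_top).ne)
  have hle : Pm μ E ≤ q * Pm μ E := by
    apply ge_of_tendsto hlim2
    filter_upwards [eventually_ge_atTop m₀] with m hm
    exact hbound m hm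
  by_contra hne
  have hpos : 0 < Pm μ E := pos_iff_ne_zero.2 hne
  have : q * Pm μ E < 1 * Pm μ E :=
    ENNReal.mul_lt_mul_left hne (measure_ne_top _ _) hq1
  rw [one_mul] at this
  exact absurd hle (not_le.2 this)

/-- Linear growth of the coefficients. -/
theorem ae_growth (μ : Measure ℝ) [IsProbabilityMeasure μ] (h1 : Integrable (fun x : ℝ => x) μ) :
    ∀ᵐ ω ∂(Pm μ), ∃ M : ℕ, ∀ k : ℕ, |ω k| ≤ (M : ℝ) * (k + 1) := by
  have hsum : ∑' k : ℕ, Pm μ {ω : ℕ → ℝ | (k : ℝ) < |ω k|} ≠ ⊤ := by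
    have hk : ∀ k : ℕ, Pm μ {ω : ℕ → ℝ | (k : ℝ) < |ω k|} = μ {x | (k : ℝ) < |x|} := by
      intro k
      have hmp := measurePreserving_eval_infinitePi (fun _ : ℕ => μ) k
      have hms : MeasurableSet {x : ℝ | (k : ℝ) < |x|} :=
        measurableSet_lt measurable_const measurable_id.abs
      exact hmp.measure_preimage hms.nullMeasurableSet
    simp_rw [hk]
    exact (@ProbabilityTheory.tsum_prob_mem_Ioi_lt_top ℝ ⟨μ⟩ ‹_› (fun x : ℝ => |x|) h1.abs
      (fun x => abs_nonneg x)).ne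
  have := ae_eventually_notMem hsum
  filter_upwards [this] with ω hω
  obtain ⟨N, hN⟩ := eventually_atTop.1 hω
  -- bound on the first `N` coefficients
  obtain ⟨B, hB⟩ : ∃ B : ℕ, ∀ k < N, |ω k| ≤ B := by
    refine ⟨⌈∑ k ∈ Finset.range N, |ω k|⌉₊, fun k hk => ?_⟩
    refine le_trans ?_ (Nat.le_ceil _)
    exact Finset.single_le_sum (f := fun k => |ω k|) (fun i _ => abs_nonneg _)
      (Finset.mem_range.2 hk)
  refine ⟨B + 1, fun k => ?_⟩
  have hk0 : (0 : ℝ) ≤ k := Nat.cast_nonneg k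
  have hB0 : (0 : ℝ) ≤ B := Nat.cast_nonneg B
  push_cast
  rcases lt_or_ge k N with h | h
  · have := hB k h
    nlinarith
  · have := hN k h
    have h3 : |ω k| ≤ k := by
      by_contra h4
      exact this (not_le.1 h4)
    nlinarith

/-! ### Analytic part -/

/-- The random power series. -/
noncomputable def F0 (ε : ℝ) (ω : ℕ → ℝ) (x : ℝ) : ℝ := ∑' k : ℕ, ε ^ k * ω k * x ^ k

/-- Its derivative. -/
noncomputable def F1 (ε : ℝ) (ω : ℕ → ℝ) (x : ℝ) : ℝ :=
  ∑' k : ℕ, (k : ℝ) * (ε ^ k * ω k) * x ^ (k - 1)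

/-- Sequences of linear growth. -/
def Om (M : ℝ) : Set (ℕ → ℝ) := {ω | ∀ k : ℕ, |ω k| ≤ M * (k + 1)}

theorem isCompact_Om (M : ℝ) : IsCompact (Om M) := by
  have : Om M = Set.pi Set.univ (fun k : ℕ => Set.Icc (-(M * (k + 1))) (M * (k + 1))) := by
    ext ω
    constructor
    · intro h k _
      exact abs_le.1 (h k)
    · intro h k
      exact abs_le.2 (h k trivial)
  rw [this]
  exact isCompact_univ_pi fun k => isCompact_Icc

theorem summable_bound0 (M : ℝ) {r : ℝ} (hr0 : 0 ≤ r) (hr1 : r < 1) :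
    Summable (fun k : ℕ => M * ((k : ℝ) + 1) * r ^ k) := by
  have h1 : Summable (fun k : ℕ => (k : ℝ) ^ 1 * r ^ k) :=
    summable_pow_mul_geometric_of_norm_lt_one 1 (by rwa [Real.norm_of_nonneg hr0])
  have h2 : Summable (fun k : ℕ => r ^ k) := summable_geometric_of_lt_one hr0 hr1
  have h3 := (h1.add h2).mul_left M
  refine h3.congr fun k => ?_
  ring

theorem summable_bound1 (M : ℝ) {r : ℝ} (hr0 : 0 ≤ r) (hr1 : r < 1) :
    Summable (fun k : ℕ => (k : ℝ) * (M * ((k : ℝ) + 1)) * r ^ (k - 1)) := by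
  rw [← summable_nat_add_iff 1]
  have h1 : Summable (fun k : ℕ => (k : ℝ) ^ 2 * r ^ k) :=
    summable_pow_mul_geometric_of_norm_lt_one 2 (by rwa [Real.norm_of_nonneg hr0])
  have h2 : Summable (fun k : ℕ => (k : ℝ) ^ 1 * r ^ k) :=
    summable_pow_mul_geometric_of_norm_lt_one 1 (by rwa [Real.norm_of_nonneg hr0])
  have h3 : Summable (fun k : ℕ => r ^ k) := summable_geometric_of_lt_one hr0 hr1
  have h4 := ((h1.add (h2.mul_left 3)).add (h3.mul_left 2)).mul_left M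
  refine h4.congr fun k => ?_
  rw [Nat.add_sub_cancel]
  push_cast
  ring

theorem term_bound0 {ε M : ℝ} (hε : ε = 1 ∨ ε = -1) {ω : ℕ → ℝ} (hω : ω ∈ Om M) {x r : ℝ}
    (hx : |x| ≤ r) (k : ℕ) : ‖ε ^ k * ω k * x ^ k‖ ≤ M * ((k : ℝ) + 1) * r ^ k := by
  have hεk : |ε ^ k| = 1 := by
    rw [abs_pow]; rcases hε with rfl | rfl <;> simp
  have hM : 0 ≤ M * ((k : ℝ) + 1) := (abs_nonneg _).trans (hω k)
  rw [Real.norm_eq_abs, abs_mul, abs_mul, hεk, one_mul, abs_pow]
  exact mul_le_mul (hω k) (pow_le_pow_left₀ (abs_nonneg x) hx k) (by positivity) hM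

theorem term_bound1 {ε M : ℝ} (hε : ε = 1 ∨ ε = -1) {ω : ℕ → ℝ} (hω : ω ∈ Om M) {x r : ℝ}
    (hx : |x| ≤ r) (k : ℕ) :
    ‖(k : ℝ) * (ε ^ k * ω k) * x ^ (k - 1)‖ ≤ (k : ℝ) * (M * ((k : ℝ) + 1)) * r ^ (k - 1) := by
  have hεk : |ε ^ k| = 1 := by
    rw [abs_pow]; rcases hε with rfl | rfl <;> simp
  have hM : 0 ≤ M * ((k : ℝ) + 1) := (abs_nonneg _).trans (hω k)
  rw [Real.norm_eq_abs, abs_mul, abs_mul, abs_mul, hεk, one_mul, abs_pow, Nat.abs_cast]
  exact mul_le_mul (mul_le_mul_of_nonneg_left (hω k) (Nat.cast_nonneg k))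
    (pow_le_pow_left₀ (abs_nonneg x) hx (k - 1)) (by positivity)
    (mul_nonneg (Nat.cast_nonneg k) hM)

theorem summable0 {ε M : ℝ} (hε : ε = 1 ∨ ε = -1) {ω : ℕ → ℝ} (hω : ω ∈ Om M) {x : ℝ}
    (hx : |x| < 1) : Summable (fun k : ℕ => ε ^ k * ω k * x ^ k) :=
  Summable.of_norm_bounded (summable_bound0 M (abs_nonneg x) hx) (term_bound0 hε hω le_rfl)

theorem summable1 {ε M : ℝ} (hε : ε = 1 ∨ ε = -1) {ω : ℕ → ℝ} (hω : ω ∈ Om M) {x : ℝ}
    (hx : |x| < 1) : Summable (fun k : ℕ => (k : ℝ) * (ε ^ k * ω k) * x ^ (k - 1)) :=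
  Summable.of_norm_bounded (summable_bound1 M (abs_nonneg x) hx) (term_bound1 hε hω le_rfl)

theorem continuousOn_F0 {ε : ℝ} (M : ℝ) (hε : ε = 1 ∨ ε = -1) {x : ℝ} (hx : |x| < 1) :
    ContinuousOn (fun ω => F0 ε ω x) (Om M) := by
  unfold F0
  apply continuousOn_tsum (u := fun k : ℕ => M * ((k : ℝ) + 1) * |x| ^ k)
  · intro k
    exact (((continuous_const.mul (continuous_apply k)).mul continuous_const)).continuousOn
  · exact summable_bound0 M (abs_nonneg x) hx
  · intro k ω hω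
    exact term_bound0 hε hω le_rfl k

theorem continuousOn_F1 {ε : ℝ} (M : ℝ) (hε : ε = 1 ∨ ε = -1) {x : ℝ} (hx : |x| < 1) :
    ContinuousOn (fun ω => F1 ε ω x) (Om M) := by
  unfold F1
  apply continuousOn_tsum (u := fun k : ℕ => (k : ℝ) * (M * ((k : ℝ) + 1)) * |x| ^ (k - 1))
  · intro k
    exact ((continuous_const.mul (continuous_const.mul (continuous_apply k))).mul
      continuous_const).continuousOn
  · exact summable_bound1 M (abs_nonneg x) hx
  · intro k ω hω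
    exact term_bound1 hε hω le_rfl k

/-- Effect of changing one coordinate. -/
theorem F0_update {ε M : ℝ} (hε : ε = 1 ∨ ε = -1) {ω : ℕ → ℝ} {m : ℕ} {v w x : ℝ}
    (hv : Function.update ω m v ∈ Om M) (hw : Function.update ω m w ∈ Om M) (hx : |x| < 1) :
    F0 ε (Function.update ω m w) x - F0 ε (Function.update ω m v) x
      = ε ^ m * (w - v) * x ^ m := by
  unfold F0
  rw [← (summable0 hε hw hx).tsum_sub (summable0 hε hv hx), tsum_eq_single m]
  · simp only [Function.update_self]; ring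
  · intro k hk
    rw [Function.update_of_ne hk, Function.update_of_ne hk, sub_self]

theorem F1_update {ε M : ℝ} (hε : ε = 1 ∨ ε = -1) {ω : ℕ → ℝ} {m : ℕ} {v w x : ℝ}
    (hv : Function.update ω m v ∈ Om M) (hw : Function.update ω m w ∈ Om M) (hx : |x| < 1) :
    F1 ε (Function.update ω m w) x - F1 ε (Function.update ω m v) x
      = (m : ℝ) * (ε ^ m * (w - v)) * x ^ (m - 1) := by
  unfold F1
  rw [← (summable1 hε hw hx).tsum_sub (summable1 hε hv hx), tsum_eq_single m]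
  · simp only [Function.update_self]; ring
  · intro k hk
    rw [Function.update_of_ne hk, Function.update_of_ne hk, sub_self]

/-! ### No zero at a given point -/

theorem ae_mem_Om (μ : Measure ℝ) [IsProbabilityMeasure μ] (h1 : Integrable (fun x : ℝ => x) μ) :
    ∀ᵐ ω ∂(Pm μ), ∃ M : ℕ, ω ∈ Om M := ae_growth μ h1

theorem modB2 (μ : Measure ℝ) [IsProbabilityMeasure μ] (h1 : Integrable (fun x : ℝ => x) μ)
    (hnd : ∀ a : ℝ, μ {a} ≠ 1) (ε : ℝ) (hε : ε = 1 ∨ ε = -1) (x : ℝ) (hx0 : 0 < x) (hx1 : x < 1) :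
    ∀ᵐ ω ∂(Pm μ), (∑' k : ℕ, ε ^ k * ω k * x ^ k) ≠ 0 := by
  have hx : |x| < 1 := by rwa [abs_of_pos hx0]
  have hnull : ∀ M : ℕ, Pm μ {ω ∈ Om (M : ℝ) | F0 ε ω x = 0} = 0 := by
    intro M
    apply null_of_sections μ hnd _ _ 0
    · intro m _ ω v w hv hw
      have h2 := F0_update hε hv.1 hw.1 hx
      rw [hv.2, hw.2, sub_zero] at h2
      have h3 : ε ^ m ≠ 0 := by
        apply pow_ne_zero
        rcases hε with rfl | rfl <;> norm_num
      have h4 : x ^ m ≠ 0 := pow_ne_zero _ hx0.ne'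
      have h5 : w - v = 0 := by
        by_contra h
        exact (mul_ne_zero (mul_ne_zero h3 h) h4) h2.symm
      linarith
    · apply (isCompact_Om (M : ℝ)).of_isClosed_subset _ (fun ω hω => hω.1)
      exact (continuousOn_F0 (M : ℝ) hε hx).preimage_isClosed_of_isClosed
        (isCompact_Om (M : ℝ)).isClosed isClosed_singleton
  filter_upwards [ae_mem_Om μ h1, ae_all_iff.2 fun M : ℕ =>
    (measure_eq_zero_iff_ae_notMem.1 (hnull M))] with ω hω h2 h0
  obtain ⟨M, hM⟩ := hω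
  exact h2 M ⟨hM, h0⟩

/-! ### Double zeros: the deterministic part -/

/-- The event that there is a zero of order exactly `N + 2` in `[a, b]`, in a quantitative
form. -/
def Ev (ε M κ : ℝ) (N : ℕ) (a b : ℝ) : Set (ℕ → ℝ) :=
  {ω | ω ∈ Om M ∧ ∃ c ∈ Set.Icc a b, ∀ x ∈ Set.Icc a b, |F0 ε ω x| ≤ M * |x - c| ^ (N + 2) ∧
    κ * |x - c| ^ (N + 1) ≤ |F1 ε ω x| ∧ |F1 ε ω x| ≤ M * |x - c| ^ (N + 1)}

theorem isCompact_Ev {ε : ℝ} (hε : ε = 1 ∨ ε = -1) (M κ : ℝ) (N : ℕ) {a b : ℝ} (ha : 0 < a)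
    (hb : b < 1) : IsCompact (Ev ε M κ N a b) := by
  let S : Set ((ℕ → ℝ) × ℝ) := Om M ×ˢ Set.Icc a b
  have hS : IsCompact S := (isCompact_Om M).prod isCompact_Icc
  have habs : ∀ x ∈ Set.Icc a b, |x| < 1 := by
    intro x hx
    rw [abs_of_pos (ha.trans_le hx.1)]
    exact hx.2.trans_lt hb
  let K : Set ((ℕ → ℝ) × ℝ) := S ∩ ⋂ x ∈ Set.Icc a b,
    ({p ∈ S | |F0 ε p.1 x| ≤ M * |x - p.2| ^ (N + 2)} ∩
      ({p ∈ S | κ * |x - p.2| ^ (N + 1) ≤ |F1 ε p.1 x|} ∩
      {p ∈ S | |F1 ε p.1 x| ≤ M * |x - p.2| ^ (N + 1)}))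
  have hKc : IsClosed K := by
    apply hS.isClosed.inter
    apply isClosed_biInter
    intro x hx
    have hc0 : ContinuousOn (fun p : (ℕ → ℝ) × ℝ => |F0 ε p.1 x|) S :=
      ((continuousOn_F0 M hε (habs x hx)).comp continuous_fst.continuousOn
        (fun p hp => hp.1)).abs
    have hc1 : ContinuousOn (fun p : (ℕ → ℝ) × ℝ => |F1 ε p.1 x|) S :=
      ((continuousOn_F1 M hε (habs x hx)).comp continuous_fst.continuousOn
        (fun p hp => hp.1)).abs
    have hp : ∀ (q : ℝ) (n : ℕ), ContinuousOn (fun p : (ℕ → ℝ) × ℝ => q * |x - p.2| ^ n) S := by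
      intro q n
      exact (continuous_const.mul ((continuous_const.sub continuous_snd).abs.pow n)).continuousOn
    exact (hS.isClosed.isClosed_le hc0 (hp _ _)).inter
      ((hS.isClosed.isClosed_le (hp _ _) hc1).inter (hS.isClosed.isClosed_le hc1 (hp _ _)))
  have hKcomp : IsCompact K := hS.of_isClosed_subset hKc Set.inter_subset_left
  have himg : Ev ε M κ N a b = Prod.fst '' K := by
    ext ω
    constructor
    · rintro ⟨h1, c, hc, h2⟩
      refine ⟨(ω, c), ⟨⟨h1, hc⟩, ?_⟩, rfl⟩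
      simp only [Set.mem_iInter]
      intro x hx
      exact ⟨⟨⟨h1, hc⟩, (h2 x hx).1⟩, ⟨⟨h1, hc⟩, (h2 x hx).2.1⟩, ⟨⟨h1, hc⟩, (h2 x hx).2.2⟩⟩
    · rintro ⟨⟨ω', c⟩, ⟨h1, h2⟩, rfl⟩
      simp only [Set.mem_iInter] at h2
      exact ⟨h1.1, c, h1.2, fun x hx => ⟨(h2 x hx).1.2, (h2 x hx).2.1.2, (h2 x hx).2.2.2⟩⟩
  rw [himg]
  exact hKcomp.image continuous_fst

/-- The choice of the threshold. -/
theorem exists_threshold {M κ b : ℝ} (hκ : 0 < κ) (hb0 : 0 < b) (hb : b < 1) (N : ℕ) :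
    ∃ m₀ : ℕ, N + 2 ≤ m₀ ∧ ∀ m ≥ m₀,
      M ^ (N + 1) * (m : ℝ) ^ (N + 2) * (2 * (M * ((m : ℝ) + 1))) * b ^ m / b ^ (N + 2)
        < κ ^ (N + 2) := by
  have h1 : Tendsto (fun m : ℕ => (m : ℝ) ^ (N + 3) * b ^ m) atTop (𝓝 0) :=
    tendsto_pow_const_mul_const_pow_of_abs_lt_one (N + 3) (by rwa [abs_of_pos hb0])
  have h2 : Tendsto (fun m : ℕ => (m : ℝ) ^ (N + 2) * b ^ m) atTop (𝓝 0) :=
    tendsto_pow_const_mul_const_pow_of_abs_lt_one (N + 2) (by rwa [abs_of_pos hb0])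
  have h3 : Tendsto (fun m : ℕ => M ^ (N + 1) * (m : ℝ) ^ (N + 2) * (2 * (M * ((m : ℝ) + 1)))
      * b ^ m / b ^ (N + 2)) atTop (𝓝 0) := by
    have h4 := (h1.add h2).const_mul (M ^ (N + 1) * 2 * M / b ^ (N + 2))
    rw [add_zero, mul_zero] at h4
    refine h4.congr fun m => ?_
    ring
  have h5 : ∀ᶠ m : ℕ in atTop, M ^ (N + 1) * (m : ℝ) ^ (N + 2) * (2 * (M * ((m : ℝ) + 1)))
      * b ^ m / b ^ (N + 2) < κ ^ (N + 2) := h3.eventually_lt_const (by positivity)
  obtain ⟨m₁, hm₁⟩ := eventually_atTop.1 h5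
  exact ⟨max m₁ (N + 2), le_max_right _ _, fun m hm => hm₁ m ((le_max_left _ _).trans hm)⟩

theorem sections_Ev {ε : ℝ} (hε : ε = 1 ∨ ε = -1) {M κ : ℝ} (hM : 0 ≤ M) (hκ : 0 < κ) (N : ℕ)
    {a b : ℝ} (ha : 0 < a) (hab : a ≤ b) (hb : b < 1) :
    ∃ m₀ : ℕ, ∀ m ≥ m₀, ∀ (ω : ℕ → ℝ) (v w : ℝ), Function.update ω m v ∈ Ev ε M κ N a b →
      Function.update ω m w ∈ Ev ε M κ N a b → v = w := by
  have hb0 : 0 < b := ha.trans_le hab
  obtain ⟨m₀, hm₀N, hm₀⟩ := exists_threshold (M := M) hκ hb0 hb N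
  refine ⟨m₀, fun m hm ω v w hv hw => ?_⟩
  obtain ⟨hv1, c, hc, hv2⟩ := hv
  obtain ⟨hw1, c', hc', hw2⟩ := hw
  have hc'0 : 0 < c' := ha.trans_le hc'.1
  have hc'1 : c' < 1 := hc'.2.trans_lt hb
  have hc'abs : |c'| < 1 := by rwa [abs_of_pos hc'0]
  -- values at c'
  have hz0 : F0 ε (Function.update ω m w) c' = 0 := by
    have := (hw2 c' hc').1
    simpa using this
  have hz1 : F1 ε (Function.update ω m w) c' = 0 := by
    have := (hw2 c' hc').2.2
    simpa using this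
  have hd0 := F0_update hε hv1 hw1 hc'abs
  have hd1 := F1_update hε hv1 hw1 hc'abs
  rw [hz0, zero_sub] at hd0
  rw [hz1, zero_sub] at hd1
  have hεm : |ε ^ m| = 1 := by
    rw [abs_pow]; rcases hε with rfl | rfl <;> simp
  set t := |w - v| with ht
  set D := |c' - c| with hD
  have e0 : |F0 ε (Function.update ω m v) c'| = t * c' ^ m := by
    rw [← abs_neg, hd0, abs_mul, abs_mul, hεm, one_mul, abs_of_pos (pow_pos hc'0 m)]
  have e1 : |F1 ε (Function.update ω m v) c'| = m * t * c' ^ (m - 1) := by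
    rw [← abs_neg, hd1, abs_mul, abs_mul, abs_mul, hεm, one_mul,
      abs_of_pos (pow_pos hc'0 (m - 1)), Nat.abs_cast]
  obtain ⟨g1, g2, -⟩ := hv2 c' hc'
  rw [e0] at g1
  rw [e1] at g2
  by_contra hne
  have htpos : 0 < t := abs_pos.2 (sub_ne_zero.2 (Ne.symm hne))
  have ht0 : 0 ≤ t := htpos.le
  have hD0 : 0 ≤ D := abs_nonneg _
  have hmpos : 1 ≤ m := by omega
  -- combine
  have k1 : (t * c' ^ m) ^ (N + 1) ≤ (M * D ^ (N + 2)) ^ (N + 1) :=
    pow_le_pow_left₀ (by positivity) g1 _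
  have k2 : (κ * D ^ (N + 1)) ^ (N + 2) ≤ (m * t * c' ^ (m - 1)) ^ (N + 2) :=
    pow_le_pow_left₀ (by positivity) g2 _
  have k3 : κ ^ (N + 2) * (t * c' ^ m) ^ (N + 1)
      ≤ M ^ (N + 1) * (m * t * c' ^ (m - 1)) ^ (N + 2) := by
    calc κ ^ (N + 2) * (t * c' ^ m) ^ (N + 1)
        ≤ κ ^ (N + 2) * (M * D ^ (N + 2)) ^ (N + 1) :=
          mul_le_mul_of_nonneg_left k1 (by positivity)
      _ = M ^ (N + 1) * (κ * D ^ (N + 1)) ^ (N + 2) := by ring
      _ ≤ M ^ (N + 1) * (m * t * c' ^ (m - 1)) ^ (N + 2) :=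
          mul_le_mul_of_nonneg_left k2 (by positivity)
  -- exponents
  obtain ⟨j, hj⟩ : ∃ j, m = N + 2 + j := ⟨m - (N + 2), by omega⟩
  have hexp : (c' ^ (m - 1)) ^ (N + 2) = (c' ^ m) ^ (N + 1) * c' ^ j := by
    rw [← pow_mul, ← pow_mul, ← pow_add]
    congr 1
    subst hj
    have : N + 2 + j - 1 = N + 1 + j := by omega
    rw [this]
    ring
  have k4 : κ ^ (N + 2) ≤ M ^ (N + 1) * (m : ℝ) ^ (N + 2) * t * c' ^ j := by
    have hpos : 0 < t ^ (N + 1) * (c' ^ m) ^ (N + 1) := by positivity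
    apply le_of_mul_le_mul_right _ hpos
    calc κ ^ (N + 2) * (t ^ (N + 1) * (c' ^ m) ^ (N + 1))
        = κ ^ (N + 2) * (t * c' ^ m) ^ (N + 1) := by ring
      _ ≤ M ^ (N + 1) * (m * t * c' ^ (m - 1)) ^ (N + 2) := k3
      _ = M ^ (N + 1) * (m : ℝ) ^ (N + 2) * t ^ (N + 2) * (c' ^ (m - 1)) ^ (N + 2) := by
          rw [mul_pow, mul_pow]; ring
      _ = M ^ (N + 1) * (m : ℝ) ^ (N + 2) * t * c' ^ j *
            (t ^ (N + 1) * (c' ^ m) ^ (N + 1)) := by rw [hexp]; ring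
  have htle : t ≤ 2 * (M * ((m : ℝ) + 1)) := by
    have h1 := hv1 m
    have h2 := hw1 m
    rw [Function.update_self] at h1 h2
    calc t ≤ |w| + |v| := abs_sub w v
      _ ≤ 2 * (M * ((m : ℝ) + 1)) := by linarith
  have hcj : c' ^ j ≤ b ^ j := pow_le_pow_left₀ hc'0.le hc'.2 _
  have hbj : b ^ j = b ^ m / b ^ (N + 2) := by
    rw [hj, pow_add, mul_comm, mul_div_assoc, div_self (by positivity), mul_one]
  have k5 : M ^ (N + 1) * (m : ℝ) ^ (N + 2) * t * c' ^ j
      ≤ M ^ (N + 1) * (m : ℝ) ^ (N + 2) * (2 * (M * ((m : ℝ) + 1))) * b ^ j := by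
    apply mul_le_mul (mul_le_mul_of_nonneg_left htle (by positivity)) hcj (by positivity)
    positivity
  have k6 := hm₀ m hm
  rw [mul_div_assoc, ← hbj] at k6
  linarith

theorem null_Ev (μ : Measure ℝ) [IsProbabilityMeasure μ] (hnd : ∀ a : ℝ, μ {a} ≠ 1) {ε : ℝ}
    (hε : ε = 1 ∨ ε = -1) {M κ : ℝ} (hM : 0 ≤ M) (hκ : 0 < κ) (N : ℕ)
    {a b : ℝ} (ha : 0 < a) (hab : a ≤ b) (hb : b < 1) : Pm μ (Ev ε M κ N a b) = 0 := by
  obtain ⟨m₀, hm₀⟩ := sections_Ev hε hM hκ N ha hab hb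
  exact null_of_sections μ hnd _ (isCompact_Ev hε M κ N ha hb) m₀ hm₀

/-! ### Double zeros: the analytic part -/

theorem hasDerivAt_F0 {ε M : ℝ} (hε : ε = 1 ∨ ε = -1) {ω : ℕ → ℝ} (hω : ω ∈ Om M) {x : ℝ}
    (hx : |x| < 1) : HasDerivAt (F0 ε ω) (F1 ε ω x) x := by
  obtain ⟨r, hxr, hr1⟩ := exists_between hx
  have hr0 : 0 ≤ r := (abs_nonneg x).trans hxr.le
  unfold F1
  have hx' : x ∈ Set.Ioo (-r) r := abs_lt.1 hxr
  refine hasDerivAt_tsum_of_isPreconnected (t := Set.Ioo (-r) r)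
    (u := fun k : ℕ => (k : ℝ) * (M * ((k : ℝ) + 1)) * r ^ (k - 1))
    (g := fun (k : ℕ) (y : ℝ) => ε ^ k * ω k * y ^ k)
    (g' := fun (k : ℕ) (y : ℝ) => (k : ℝ) * (ε ^ k * ω k) * y ^ (k - 1)) (y₀ := x) (y := x)
    (summable_bound1 M hr0 hr1) isOpen_Ioo (convex_Ioo _ _).isPreconnected ?_ ?_ hx'
    (summable0 hε hω hx) hx'
  · intro k y _
    have h := (hasDerivAt_pow k y).const_mul (ε ^ k * ω k)
    convert! h using 1
    ring
  · intro k y hy
    exact term_bound1 hε hω (abs_lt.2 hy).le k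

theorem analytic_F0 {ε M : ℝ} (hε : ε = 1 ∨ ε = -1) {ω : ℕ → ℝ} (hω : ω ∈ Om M) :
    ∃ p : FormalMultilinearSeries ℝ ℝ ℝ, HasFPowerSeriesOnBall (F0 ε ω) p 0 1 ∧
      (p = 0 → ω = 0) := by
  let cf : ℕ → ℝ := fun k => ε ^ k * ω k
  let p := FormalMultilinearSeries.ofScalars ℝ cf
  have hrad : 1 ≤ p.radius := by
    apply ENNReal.le_of_forall_nnreal_lt
    intro r hr
    have hr1 : (r : ℝ) < 1 := by exact_mod_cast hr
    apply p.le_radius_of_summable_norm
    have h := summable0 hε hω (x := (r : ℝ)) (by rw [abs_of_nonneg r.coe_nonneg]; exact hr1)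
    refine h.abs.congr fun k => ?_
    simp only [p]
    rw [FormalMultilinearSeries.ofScalars_norm, Real.norm_eq_abs, abs_mul,
      abs_of_nonneg (pow_nonneg r.coe_nonneg k)]
  have hsum : p.sum = F0 ε ω := by
    have := FormalMultilinearSeries.ofScalarsSum_eq_tsum (E := ℝ) cf
    unfold FormalMultilinearSeries.ofScalarsSum at this
    funext x
    change (FormalMultilinearSeries.ofScalars ℝ cf).sum x = _
    rw [this]
    simp [F0, cf, smul_eq_mul]
  refine ⟨p, ?_, ?_⟩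
  · have h := p.hasFPowerSeriesOnBall (lt_of_lt_of_le one_pos hrad)
    rw [hsum] at h
    exact h.mono one_pos hrad
  · intro hp
    have h1 : cf = 0 := (FormalMultilinearSeries.ofScalars_series_eq_zero (E := ℝ)).1 hp
    funext k
    have h2 := congrFun h1 k
    simp only [cf, Pi.zero_apply, mul_eq_zero] at h2
    rcases h2 with h2 | h2
    · exfalso
      have : ε ^ k ≠ 0 := by
        apply pow_ne_zero
        rcases hε with rfl | rfl <;> norm_num
      exact this h2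
    · exact h2

theorem exists_Ev {ε : ℝ} (hε : ε = 1 ∨ ε = -1) {ω : ℕ → ℝ} {M₀ : ℕ} (hω : ω ∈ Om (M₀ : ℝ))
    (hne : ω ≠ 0) {c : ℝ} (hc0 : 0 < c) (hc1 : c < 1) (h0 : F0 ε ω c = 0) (h1 : F1 ε ω c = 0) :
    ∃ (a b : ℚ) (K M N : ℕ), 0 < (a : ℝ) ∧ (a : ℝ) ≤ b ∧ (b : ℝ) < 1 ∧
      ω ∈ Ev ε (M : ℝ) (1 / ((K : ℝ) + 1)) N a b := by
  obtain ⟨p, hp, hp0⟩ := analytic_F0 hε hω
  have hcball : c ∈ Metric.eball (0 : ℝ) 1 := by
    rw [Metric.mem_eball, edist_zero_right, ← ofReal_norm, Real.norm_of_nonneg hc0.le]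
    rw [ENNReal.ofReal_lt_one]
    exact hc1
  have han : AnalyticOnNhd ℝ (F0 ε ω) (Metric.eball (0 : ℝ) 1) := hp.analyticOnNhd
  have hanc : AnalyticAt ℝ (F0 ε ω) c := han c hcball
  have hnz : ¬ ∀ᶠ z in 𝓝 c, F0 ε ω z = 0 := by
    intro hz
    have hpre : IsPreconnected (Metric.eball (0 : ℝ) 1) := (convex_eball (0 : ℝ) 1).isPreconnected
    have heq := han.eqOn_zero_of_preconnected_of_eventuallyEq_zero hpre hcball hz
    have hz0 : F0 ε ω =ᶠ[𝓝 0] 0 := by
      filter_upwards [Metric.eball_mem_nhds (0 : ℝ) one_pos] with x hx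
      exact heq hx
    have hps : HasFPowerSeriesAt (0 : ℝ → ℝ) p 0 := (hp.hasFPowerSeriesAt).congr hz0
    exact hne (hp0 hps.eq_zero)
  obtain ⟨n, g, hg, hgc, hfac⟩ := (AnalyticAt.exists_eventuallyEq_pow_smul_nonzero_iff hanc).2 hnz
  -- derivative of the factorization
  have hder : ∀ᶠ x in 𝓝 c, F1 ε ω x = (n : ℝ) * (x - c) ^ (n - 1) * g x
      + (x - c) ^ n * deriv g x := by
    have habs : ∀ᶠ x in 𝓝 c, |x| < 1 :=
      (continuous_abs.continuousAt).eventually_lt_const (by rwa [abs_of_pos hc0])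
    filter_upwards [hfac.eventually_nhds, habs, hg.eventually_analyticAt] with x hx hx1 hgx
    have hd1 := hasDerivAt_F0 hε hω hx1
    have hd2 : HasDerivAt (fun z => (z - c) ^ n • g z)
        ((n : ℝ) * (x - c) ^ (n - 1) * g x + (x - c) ^ n * deriv g x) x := by
      have e1 : HasDerivAt (fun z : ℝ => (z - c) ^ n) ((n : ℝ) * (x - c) ^ (n - 1)) x := by
        have := ((hasDerivAt_id x).sub_const c).fun_pow n
        simpa using this
      have e2 := e1.fun_mul hgx.differentiableAt.hasDerivAt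
      simpa [smul_eq_mul] using e2
    exact hd1.unique (hd2.congr_of_eventuallyEq hx)
  -- the order is at least two
  have hn : ∃ N, n = N + 2 := by
    match n, hfac, hder with
    | 0, hfac, _ =>
      exfalso
      have := hfac.self_of_nhds
      rw [h0] at this
      simp only [pow_zero, one_smul] at this
      exact hgc this.symm
    | 1, _, hder =>
      exfalso
      have := hder.self_of_nhds
      rw [h1] at this
      simp at this
      exact hgc this.symm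
    | (N + 2), _, _ => exact ⟨N, rfl⟩
  obtain ⟨N, rfl⟩ := hn
  let H : ℝ → ℝ := fun x => ((N + 2 : ℕ) : ℝ) * g x + (x - c) * deriv g x
  have hHc : H c ≠ 0 := by
    simp only [H, sub_self, zero_mul, add_zero]
    exact mul_ne_zero (by positivity) hgc
  have hHcont : ContinuousAt H c := by
    have h3 : ContinuousAt g c := hg.continuousAt
    have h4 : ContinuousAt (deriv g) c := hg.deriv.continuousAt
    exact (continuousAt_const.mul h3).add ((continuousAt_id.sub continuousAt_const).mul h4)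
  obtain ⟨K, hK⟩ := exists_nat_one_div_lt (abs_pos.2 hHc)
  obtain ⟨M₁, hM₁⟩ := exists_nat_gt (max |g c| |H c|)
  have hev : ∀ᶠ x in 𝓝 c, (F0 ε ω x = (x - c) ^ (N + 2) * g x ∧
      F1 ε ω x = (x - c) ^ (N + 1) * H x) ∧
      (|g x| < M₁ ∧ (1 / ((K : ℝ) + 1) < |H x| ∧ |H x| < M₁)) := by
    have i1 : ∀ᶠ x in 𝓝 c, |g x| < M₁ := hg.continuousAt.abs.eventually_lt_const
      ((le_max_left _ _).trans_lt hM₁)
    have i2 : ∀ᶠ x in 𝓝 c, |H x| < M₁ := hHcont.abs.eventually_lt_const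
      ((le_max_right _ _).trans_lt hM₁)
    have i3 : ∀ᶠ x in 𝓝 c, 1 / ((K : ℝ) + 1) < |H x| := hHcont.abs.eventually_const_lt hK
    filter_upwards [hfac, hder, i1, i2, i3] with x j1 j2 j3 j4 j5
    refine ⟨⟨by rw [j1, smul_eq_mul], ?_⟩, j3, j5, j4⟩
    rw [j2]
    simp only [H]
    have : N + 2 - 1 = N + 1 := rfl
    rw [this, pow_succ (x - c) (N + 1)]
    ring
  obtain ⟨δ, hδ, hball⟩ := Metric.eventually_nhds_iff.1 hev
  obtain ⟨a, ha1, ha2⟩ := exists_rat_btwn (show max (c - δ) 0 < c from max_lt (by linarith) hc0)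
  obtain ⟨b, hb1, hb2⟩ := exists_rat_btwn (show c < min (c + δ) 1 from lt_min (by linarith) hc1)
  have ha0 : (0 : ℝ) < a := (le_max_right _ _).trans_lt ha1
  have hb3 : (b : ℝ) < 1 := hb2.trans_le (min_le_right _ _)
  refine ⟨a, b, K, max M₀ M₁, N, ha0, (ha2.trans hb1).le, hb3, ?_, c, ⟨ha2.le, hb1.le⟩, ?_⟩
  · intro k
    refine (hω k).trans ?_
    apply mul_le_mul_of_nonneg_right _ (by positivity)
    exact_mod_cast le_max_left _ _
  · intro x hx
    have hxd : dist x c < δ := by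
      rw [Real.dist_eq, abs_lt]
      constructor
      · have := (le_max_left (c - δ) 0).trans_lt ha1
        linarith [hx.1]
      · have := hb2.trans_le (min_le_left (c + δ) 1)
        linarith [hx.2]
    obtain ⟨⟨j1, j2⟩, j3, j4, j5⟩ := hball hxd
    have hMle : (M₁ : ℝ) ≤ ((max M₀ M₁ : ℕ) : ℝ) := by exact_mod_cast le_max_right _ _
    rw [j1, j2, abs_mul, abs_mul, abs_pow, abs_pow]
    have hp1 : 0 ≤ |x - c| ^ (N + 2) := by positivity
    have hp2 : 0 ≤ |x - c| ^ (N + 1) := by positivity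
    refine ⟨?_, ?_, ?_⟩
    · rw [mul_comm]
      exact mul_le_mul_of_nonneg_right (j3.le.trans hMle) hp1
    · rw [mul_comm]
      exact mul_le_mul_of_nonneg_left j4.le hp2
    · rw [mul_comm]
      exact mul_le_mul_of_nonneg_right (j5.le.trans hMle) hp2

theorem modB1 (μ : Measure ℝ) [IsProbabilityMeasure μ] (h1 : Integrable (fun x : ℝ => x) μ)
    (hnd : ∀ a : ℝ, μ {a} ≠ 1) (ε : ℝ) (hε : ε = 1 ∨ ε = -1) :
    ∀ᵐ ω ∂(Pm μ), ∀ x ∈ Set.Ioo (0 : ℝ) 1,
      ¬ ((∑' k : ℕ, ε ^ k * ω k * x ^ k) = 0 ∧ (∑' k : ℕ, (k : ℝ) * (ε ^ k * ω k) * x ^ (k - 1)) = 0) := by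
  have hnull0 : ∀ᵐ ω ∂(Pm μ), ω ≠ 0 := by
    have : Pm μ {(0 : ℕ → ℝ)} = 0 := by
      apply null_of_sections μ hnd _ isCompact_singleton 0
      intro m _ ω v w hv hw
      rw [Set.mem_singleton_iff] at hv hw
      have e1 := congrFun hv m
      have e2 := congrFun hw m
      rw [Function.update_self] at e1 e2
      rw [e1, e2]
    filter_upwards [measure_eq_zero_iff_ae_notMem.1 this] with ω hω
    exact hω
  have hnull : ∀ᵐ ω ∂(Pm μ), ∀ (a b : ℚ) (K M N : ℕ), 0 < (a : ℝ) → (a : ℝ) ≤ b → (b : ℝ) < 1 →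
      ω ∉ Ev ε (M : ℝ) (1 / ((K : ℝ) + 1)) N a b := by
    simp only [ae_all_iff]
    intro a b K M N ha hab hb
    exact measure_eq_zero_iff_ae_notMem.1
      (null_Ev μ hnd hε (Nat.cast_nonneg M) (by positivity) N ha hab hb)
  filter_upwards [ae_mem_Om μ h1, hnull0, hnull] with ω hω hne hEv
  obtain ⟨M₀, hM₀⟩ := hω
  rintro x ⟨hx0, hx1⟩ ⟨hz0, hz1⟩
  obtain ⟨a, b, K, M, N, ha, hab, hb, hmem⟩ := exists_Ev hε hM₀ hne hx0 hx1 hz0 hz1
  exact hEv a b K M N ha hab hb hmem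

end Pool.Agent.H89.Kac
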