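import Pool.Agent.H89.Kac.Defs
import Pool.Agent.H89.Kac.ModE

set_option autoImplicit false

open MeasureTheory Filter Topology Polynomial Set

namespace Pool.Agent.H89.Kac

/-! ### Measures -/

/-- Reversal of the first `n + 1` coordinates. -/
def rv (n : ℕ) (k : ℕ) : ℕ := if k ≤ n then n - k else k

theorem rv_injective (n : ℕ) : Function.Injective (rv n) := by
  intro a b h
  unfold rv at h
  split_ifs at h <;> omega

theorem measurePreserving_rv (μ : Measure ℝ) [IsProbabilityMeasure μ] (n : ℕ) :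
    MeasurePreserving (fun (ω : ℕ → ℝ) (k : ℕ) => ω (rv n k)) (Pm μ) (Pm μ) := by
  refine ⟨by fun_prop, ?_⟩
  unfold Pm
  exact Measure.map_infinitePi_infinitePi_of_inj (P := fun _ : ℕ => μ) (rv_injective n)

theorem measurePreserving_fin (μ : Measure ℝ) [IsProbabilityMeasure μ] (n : ℕ) :
    MeasurePreserving (fun (ω : ℕ → ℝ) (k : Fin (n + 1)) => ω k) (Pm μ)
      (Measure.pi fun _ : Fin (n + 1) => μ) := by
  refine ⟨by fun_prop, ?_⟩
  unfold Pm
  rw [← Measure.infinitePi_eq_pi]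
  exact Measure.map_infinitePi_infinitePi_of_inj (P := fun _ : ℕ => μ)
    (f := fun k : Fin (n + 1) => (k : ℕ)) Fin.val_injective

/-! ### Counting roots -/

theorem card_roots_filter_eq {p q : ℝ[X]} (hp : p ≠ 0) (hq : q ≠ 0) {S T : ℝ → Prop}
    [DecidablePred S] [DecidablePred T] (φ ψ : ℝ → ℝ)
    (h1 : ∀ x, S x → T (φ x) ∧ ψ (φ x) = x ∧ (p.eval x = 0 → q.eval (φ x) = 0))
    (h2 : ∀ y, T y → S (ψ y) ∧ φ (ψ y) = y ∧ (q.eval y = 0 → p.eval (ψ y) = 0)) :
    (p.roots.toFinset.filter S).card = (q.roots.toFinset.filter T).card := by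
  refine Finset.card_bij' (fun x _ => φ x) (fun y _ => ψ y) ?_ ?_ ?_ ?_
  · intro x hx
    rw [Finset.mem_filter, Multiset.mem_toFinset, mem_roots hp] at hx
    rw [Finset.mem_filter, Multiset.mem_toFinset, mem_roots hq]
    exact ⟨(h1 x hx.2).2.2 hx.1, (h1 x hx.2).1⟩
  · intro y hy
    rw [Finset.mem_filter, Multiset.mem_toFinset, mem_roots hq] at hy
    rw [Finset.mem_filter, Multiset.mem_toFinset, mem_roots hp]
    exact ⟨(h2 y hy.2).2.2 hy.1, (h2 y hy.2).1⟩
  · intro x hx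
    rw [Finset.mem_filter] at hx
    exact (h1 x hx.2).2.1
  · intro y hy
    rw [Finset.mem_filter] at hy
    exact (h2 y hy.2).2.1

theorem eval_kac (ε : ℝ) (n : ℕ) (c : ℕ → ℝ) (x : ℝ) :
    (kac ε n c).eval x = ∑ k ∈ Finset.range (n + 1), ε ^ k * c k * x ^ k := by
  simp [kac, eval_finsetSum]

/-- Evaluation at `-x`. -/
theorem eval_kac_neg (n : ℕ) (c : ℕ → ℝ) (x : ℝ) :
    (kac (-1) n c).eval x = (kac 1 n c).eval (-x) := by
  rw [eval_kac, eval_kac]
  refine Finset.sum_congr rfl fun k _ => ?_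
  rw [one_pow, one_mul, neg_pow x k]
  ring

/-- Evaluation of the reversed polynomial. -/
theorem eval_kac_rv (n : ℕ) (c : ℕ → ℝ) {x : ℝ} (hx : x ≠ 0) :
    (kac 1 n (fun k => c (rv n k))).eval x⁻¹ * x ^ n = (kac 1 n c).eval x := by
  rw [eval_kac, eval_kac, Finset.sum_mul]
  rw [← Finset.sum_range_reflect]
  refine Finset.sum_congr rfl fun k hk => ?_
  rw [Finset.mem_range] at hk
  have h1 : n + 1 - 1 - k = n - k := by omega
  rw [h1]
  have h2 : rv n (n - k) = k := by unfold rv; split_ifs <;> omega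
  rw [h2, one_pow, one_pow, one_mul, mul_assoc]
  congr 1
  have h3 : x ^ n = x ^ (n - k) * x ^ k := by rw [← pow_add]; congr 1; omega
  rw [h3, ← mul_assoc, ← mul_pow, inv_mul_cancel₀ hx, one_pow, one_mul]

theorem kac_neg_eq_zero_iff (n : ℕ) (c : ℕ → ℝ) : kac (-1) n c = 0 ↔ kac 1 n c = 0 := by
  constructor
  · intro h
    refine Polynomial.funext fun x => ?_
    have := eval_kac_neg n c (-x)
    rw [neg_neg, h] at this
    rw [← this]
    simp
  · intro h
    refine Polynomial.funext fun x => ?_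
    rw [eval_kac_neg, h]
    simp

theorem kac_rv_eq_zero_of (n : ℕ) (c : ℕ → ℝ) (h : kac 1 n c = 0) :
    kac 1 n (fun k => c (rv n k)) = 0 := by
  refine Polynomial.eq_zero_of_infinite_isRoot _ ?_
  refine Set.Infinite.mono (s := Ioi (0 : ℝ)) ?_ (Ioi_infinite 0)
  intro x hx
  have hx' : (x : ℝ)⁻¹ ≠ 0 := inv_ne_zero (ne_of_gt hx)
  have h1 := eval_kac_rv n c hx'
  rw [h, inv_inv, eval_zero] at h1
  have h2 : (x : ℝ)⁻¹ ^ n ≠ 0 := pow_ne_zero n hx'
  rcases mul_eq_zero.1 h1 with h3 | h3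
  · exact h3
  · exact absurd h3 h2

theorem rv_rv (n k : ℕ) : rv n (rv n k) = k := by
  unfold rv; split_ifs <;> omega

theorem kac_rv_eq_zero_iff (n : ℕ) (c : ℕ → ℝ) :
    kac 1 n (fun k => c (rv n k)) = 0 ↔ kac 1 n c = 0 := by
  constructor
  · intro h
    have := kac_rv_eq_zero_of n _ h
    simpa only [rv_rv] using this
  · exact kac_rv_eq_zero_of n c

theorem count_neg (n : ℕ) (c : ℕ → ℝ) (h : kac 1 n c ≠ 0) :
    ((kac 1 n c).roots.toFinset.filter (fun x => -1 ≤ x ∧ x < 0)).card = Z (kac (-1) n c) 0 1 := by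
  refine card_roots_filter_eq h (fun h' => h ((kac_neg_eq_zero_iff n c).1 h')) (fun x => -x)
    (fun x => -x) ?_ ?_
  · rintro x ⟨h1, h2⟩
    refine ⟨⟨by linarith, by linarith⟩, neg_neg x, fun h3 => ?_⟩
    rw [eval_kac_neg, neg_neg, h3]
  · rintro x ⟨h1, h2⟩
    refine ⟨⟨by linarith, by linarith⟩, neg_neg x, fun h3 => ?_⟩
    rw [← eval_kac_neg, h3]

theorem count_inv (n : ℕ) (c : ℕ → ℝ) (h : kac 1 n c ≠ 0) :
    ((kac 1 n c).roots.toFinset.filter (fun x => 1 ≤ x)).card =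
      Z (kac 1 n (fun k => c (rv n k))) 0 1 := by
  refine card_roots_filter_eq h (fun h' => h ((kac_rv_eq_zero_iff n c).1 h')) (fun x => x⁻¹)
    (fun x => x⁻¹) ?_ ?_
  · intro x h1
    have hx : 0 < x := by linarith
    refine ⟨⟨by positivity, inv_le_one_of_one_le₀ h1⟩, inv_inv x, fun h3 => ?_⟩
    have h4 := eval_kac_rv n c hx.ne'
    rw [h3] at h4
    exact (mul_eq_zero.1 h4).resolve_right (pow_ne_zero n hx.ne')
  · rintro x ⟨h1, h2⟩
    refine ⟨(one_le_inv₀ h1).2 h2, inv_inv x, fun h3 => ?_⟩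
    have h4 := eval_kac_rv n c (inv_ne_zero h1.ne')
    rw [inv_inv, h3, zero_mul] at h4
    exact h4.symm

theorem count_neg_inv (n : ℕ) (c : ℕ → ℝ) (h : kac 1 n c ≠ 0) :
    ((kac 1 n c).roots.toFinset.filter (fun x => x ≤ -1)).card =
      Z (kac (-1) n (fun k => c (rv n k))) 0 1 := by
  have h' : kac 1 n (fun k => c (rv n k)) ≠ 0 := fun h' => h ((kac_rv_eq_zero_iff n c).1 h')
  refine card_roots_filter_eq h (fun h'' => h' ((kac_neg_eq_zero_iff n _).1 h''))
    (fun x => -x⁻¹) (fun x => -x⁻¹) ?_ ?_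
  · intro x h1
    have hx : x < 0 := by linarith
    have hx1 : 1 ≤ -x := by linarith
    have h5 : -x⁻¹ = (-x)⁻¹ := by rw [inv_neg]
    refine ⟨?_, ?_, fun h3 => ?_⟩
    · show 0 < -x⁻¹ ∧ -x⁻¹ ≤ 1
      rw [h5]
      exact ⟨by have : 0 < -x := by linarith
                positivity, inv_le_one_of_one_le₀ hx1⟩
    · show -(-x⁻¹)⁻¹ = x
      rw [h5, inv_inv, neg_neg]
    · show (kac (-1) n _).eval (-x⁻¹) = 0
      rw [eval_kac_neg, neg_neg]
      have h4 := eval_kac_rv n c hx.ne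
      rw [h3] at h4
      exact (mul_eq_zero.1 h4).resolve_right (pow_ne_zero n hx.ne)
  · rintro x ⟨h1, h2⟩
    refine ⟨?_, ?_, fun h3 => ?_⟩
    · show -x⁻¹ ≤ -1
      have := (one_le_inv₀ h1).2 h2
      linarith
    · show -(-x⁻¹)⁻¹ = x
      rw [inv_neg, neg_neg, inv_inv]
    · show (kac 1 n c).eval (-x⁻¹) = 0
      have hne : -x⁻¹ ≠ 0 := neg_ne_zero.2 (inv_ne_zero h1.ne')
      have h4 := eval_kac_rv n c hne
      rw [inv_neg, inv_inv, ← eval_kac_neg, h3, zero_mul] at h4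
      exact h4.symm

open Classical in
/-- The pointwise identity. -/
theorem pointwise_identity (n : ℕ) (c : ℕ → ℝ) :
    (kac 1 n c).roots.toFinset.card
      + (if kac 1 n c ≠ 0 ∧ (kac 1 n c).eval 1 = 0 then 1 else 0)
      + (if kac (-1) n c ≠ 0 ∧ (kac (-1) n c).eval 1 = 0 then 1 else 0)
    = (if kac 1 n c ≠ 0 ∧ c 0 = 0 then 1 else 0)
      + (Z (kac 1 n c) 0 1 + Z (kac 1 n (fun k => c (rv n k))) 0 1)
      + (Z (kac (-1) n c) 0 1 + Z (kac (-1) n (fun k => c (rv n k))) 0 1) := by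
  by_cases h : kac 1 n c = 0
  · have h1 : kac (-1) n c = 0 := (kac_neg_eq_zero_iff n c).2 h
    have h2 : kac 1 n (fun k => c (rv n k)) = 0 := (kac_rv_eq_zero_iff n c).2 h
    have h3 : kac (-1) n (fun k => c (rv n k)) = 0 := (kac_neg_eq_zero_iff n _).2 h2
    simp [h, h1, h2, h3, Z]
  · have hm : kac (-1) n c ≠ 0 := fun h' => h ((kac_neg_eq_zero_iff n c).1 h')
    rw [← count_neg n c h, ← count_inv n c h, ← count_neg_inv n c h]
    have hmem : ∀ x, x ∈ (kac 1 n c).roots.toFinset ↔ (kac 1 n c).eval x = 0 := by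
      intro x
      rw [Multiset.mem_toFinset, mem_roots h]
      rfl
    set R := (kac 1 n c).roots.toFinset with hR
    have e1 : (if kac 1 n c ≠ 0 ∧ (kac 1 n c).eval 1 = 0 then 1 else 0) =
        ∑ x ∈ R, if x = 1 then 1 else 0 := by
      rw [Finset.sum_ite_eq' R 1 (fun _ => 1)]
      simp only [hmem, ne_eq, h, not_false_eq_true, true_and]
    have e2 : (if kac (-1) n c ≠ 0 ∧ (kac (-1) n c).eval 1 = 0 then 1 else 0) =
        ∑ x ∈ R, if x = -1 then 1 else 0 := by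
      rw [Finset.sum_ite_eq' R (-1) (fun _ => 1)]
      simp only [hmem, ne_eq, hm, not_false_eq_true, true_and, eval_kac_neg]
    have e3 : (if kac 1 n c ≠ 0 ∧ c 0 = 0 then 1 else 0) =
        ∑ x ∈ R, if x = 0 then 1 else 0 := by
      rw [Finset.sum_ite_eq' R 0 (fun _ => 1)]
      have : (kac 1 n c).eval 0 = c 0 := by
        rw [eval_kac, Finset.sum_eq_single 0]
        · simp
        · intro k _ hk
          simp [hk]
        · simp
      simp only [hmem, ne_eq, h, not_false_eq_true, true_and, this]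
    rw [e1, e2, e3]
    unfold Z
    rw [← hR, Finset.card_eq_sum_ones, Finset.card_filter, Finset.card_filter,
      Finset.card_filter, Finset.card_filter]
    simp only [← Finset.sum_add_distrib]
    refine Finset.sum_congr rfl fun x _ => ?_
    have hn : (1 : ℝ) ≠ -1 := by norm_num
    rcases lt_trichotomy x (-1) with h1 | h1 | h1
    · have a1 : ¬ x = 1 := by linarith
      have a2 : ¬ x = -1 := by linarith
      have a3 : ¬ x = 0 := by linarith
      have a4 : ¬ (0 < x ∧ x ≤ 1) := fun h => by linarith [h.1]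
      have a5 : ¬ (1 ≤ x) := by linarith
      have a6 : ¬ (-1 ≤ x ∧ x < 0) := fun h => by linarith [h.1]
      have a7 : x ≤ -1 := h1.le
      simp [a1, a2, a3, a4, a5, a6, a7]
    · have a1 : ¬ x = 1 := by linarith
      have a3 : ¬ x = 0 := by linarith
      have a4 : ¬ (0 < x ∧ x ≤ 1) := fun h => by linarith [h.1]
      have a5 : ¬ (1 ≤ x) := by linarith
      have a6 : (-1 ≤ x ∧ x < 0) := ⟨h1.ge, by linarith⟩
      have a7 : x ≤ -1 := h1.le
      subst h1
      norm_num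
    · have a2 : ¬ x = -1 := by linarith
      have a7 : ¬ x ≤ -1 := by linarith
      rcases lt_trichotomy x 0 with h2 | h2 | h2
      · have a1 : ¬ x = 1 := by linarith
        have a3 : ¬ x = 0 := by linarith
        have a4 : ¬ (0 < x ∧ x ≤ 1) := fun h => by linarith [h.1]
        have a5 : ¬ (1 ≤ x) := by linarith
        have a6 : (-1 ≤ x ∧ x < 0) := ⟨h1.le, h2⟩
        simp [a1, a2, a3, a4, a5, a6, a7]
      · subst h2
        norm_num
      · have a3 : ¬ x = 0 := by linarith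
        have a6 : ¬ (-1 ≤ x ∧ x < 0) := fun h => by linarith [h.2]
        rcases lt_trichotomy x 1 with h3 | h3 | h3
        · have a1 : ¬ x = 1 := by linarith
          have a4 : (0 < x ∧ x ≤ 1) := ⟨h2, h3.le⟩
          have a5 : ¬ (1 ≤ x) := by linarith
          simp [a1, a2, a3, a4, a5, a6, a7]
        · subst h3
          norm_num
        · have a1 : ¬ x = 1 := by linarith
          have a4 : ¬ (0 < x ∧ x ≤ 1) := fun h => by linarith [h.2]
          have a5 : (1 ≤ x) := h3.le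
          simp [a1, a2, a3, a4, a5, a6, a7]

theorem ind_aux (A : Set (ℕ → ℝ)) (P : Prop) (c : ℕ → ℝ) (h : c ∈ A ↔ P) [Decidable P] :
    A.indicator (1 : (ℕ → ℝ) → ENNReal) c = ((if P then 1 else 0 : ℕ) : ENNReal) := by
  by_cases hP : P
  · rw [if_pos hP, Set.indicator_of_mem (h.2 hP), Nat.cast_one, Pi.one_apply]
  · rw [if_neg hP, Set.indicator_of_notMem (fun h' => hP (h.1 h')), Nat.cast_zero]

theorem pointwise_identity' (n : ℕ) (c : ℕ → ℝ) :
    ((kac 1 n c).roots.toFinset.card : ENNReal)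
      + {ω : ℕ → ℝ | kac 1 n ω ≠ 0 ∧ (kac 1 n ω).eval 1 = 0}.indicator 1 c
      + {ω : ℕ → ℝ | kac (-1) n ω ≠ 0 ∧ (kac (-1) n ω).eval 1 = 0}.indicator 1 c
    = {ω : ℕ → ℝ | kac 1 n ω ≠ 0 ∧ ω 0 = 0}.indicator 1 c
      + ((Z (kac 1 n c) 0 1 : ENNReal) + (Z (kac 1 n (fun k => c (rv n k))) 0 1 : ENNReal))
      + ((Z (kac (-1) n c) 0 1 : ENNReal) + (Z (kac (-1) n (fun k => c (rv n k))) 0 1 : ENNReal)) := by
  classical
  rw [ind_aux _ (kac 1 n c ≠ 0 ∧ (kac 1 n c).eval 1 = 0) c Iff.rfl,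
    ind_aux _ (kac (-1) n c ≠ 0 ∧ (kac (-1) n c).eval 1 = 0) c Iff.rfl,
    ind_aux _ (kac 1 n c ≠ 0 ∧ c 0 = 0) c Iff.rfl]
  exact_mod_cast pointwise_identity n c

theorem measurable_card_roots {Ω : Type*} [TopologicalSpace Ω] [MeasurableSpace Ω]
    [OpensMeasurableSpace Ω] {p : Ω → ℝ[X]}
    (hp : Continuous (fun z : Ω × ℝ => (p z.1).eval z.2)) :
    Measurable (fun ω => (p ω).roots.toFinset.card) := by
  refine measurable_of_Ici fun m => ?_
  have : (fun ω => (p ω).roots.toFinset.card) ⁻¹' Ici m =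
      ⋃ N : ℕ, (fun ω => Z (p ω) (-(N : ℝ)) N) ⁻¹' Ici m := by
    ext ω
    rw [mem_iUnion]
    constructor
    · intro h
      obtain ⟨B, hB⟩ := (p ω).roots.toFinset.finite_toSet.isBounded.subset_ball_lt 0 0
      obtain ⟨N, hN⟩ := exists_nat_gt B
      refine ⟨N, ?_⟩
      have heq : Z (p ω) (-(N : ℝ)) N = (p ω).roots.toFinset.card := by
        unfold Z
        congr 1
        rw [Finset.filter_eq_self]
        intro x hx
        have h1 := hB.2 hx
        rw [Metric.mem_ball, dist_zero_right, Real.norm_eq_abs, abs_lt] at h1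
        constructor <;> linarith [h1.1, h1.2]
      rw [mem_preimage, heq]
      exact h
    · rintro ⟨N, hN⟩
      rw [mem_preimage, mem_Ici] at hN ⊢
      exact hN.trans (Finset.card_le_card (Finset.filter_subset _ _))
  rw [this]
  exact MeasurableSet.iUnion fun N => measurable_Z hp _ _ measurableSet_Ici

theorem sum_fin_eq_kac (n : ℕ) (ω : ℕ → ℝ) :
    (∑ k : Fin (n + 1), Polynomial.C (ω k) * Polynomial.X ^ (k : ℕ)) = kac 1 n ω := by
  rw [kac, Finset.sum_range]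
  simp

theorem modF (μ : Measure ℝ) [IsProbabilityMeasure μ] (n : ℕ) :
    (∫⁻ c : Fin (n + 1) → ℝ,
        (((∑ k : Fin (n + 1), Polynomial.C (c k) * Polynomial.X ^ (k : ℕ)).roots.toFinset.card : ℕ) : ENNReal)
        ∂(Measure.pi fun _ : Fin (n + 1) => μ))
      + (Pm μ) {ω | kac 1 n ω ≠ 0 ∧ (kac 1 n ω).eval 1 = 0}
      + (Pm μ) {ω | kac (-1) n ω ≠ 0 ∧ (kac (-1) n ω).eval 1 = 0}
    = (Pm μ) {ω | kac 1 n ω ≠ 0 ∧ ω 0 = 0}
      + 2 * ∫⁻ ω, (Z (kac 1 n ω) 0 1 : ENNReal) ∂(Pm μ)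
      + 2 * ∫⁻ ω, (Z (kac (-1) n ω) 0 1 : ENNReal) ∂(Pm μ) := by
  classical
  have hcont : ∀ ε : ℝ, Continuous (fun z : (ℕ → ℝ) × ℝ => (kac ε n z.1).eval z.2) := by
    intro ε
    simp only [eval_kac]
    fun_prop
  have hZ : ∀ ε : ℝ, Measurable (fun ω : ℕ → ℝ => (Z (kac ε n ω) 0 1 : ENNReal)) := fun ε =>
    (measurable_of_countable (fun k : ℕ => (k : ENNReal))).comp (modE1 ε n 0 1)
  have hrv : Measurable (fun (ω : ℕ → ℝ) (k : ℕ) => ω (rv n k)) := by fun_prop
  have hne : ∀ ε : ℝ, MeasurableSet {ω : ℕ → ℝ | kac ε n ω ≠ 0} := fun ε =>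
    (isClosed_eq_zero (hcont ε)).measurableSet.compl
  have hev : ∀ ε : ℝ, MeasurableSet {ω : ℕ → ℝ | (kac ε n ω).eval 1 = 0} := by
    intro ε
    refine IsClosed.measurableSet (isClosed_eq ?_ continuous_const)
    exact (hcont ε).comp (continuous_id.prodMk continuous_const)
  have hA : ∀ ε : ℝ, MeasurableSet {ω : ℕ → ℝ | kac ε n ω ≠ 0 ∧ (kac ε n ω).eval 1 = 0} :=
    fun ε => (hne ε).inter (hev ε)
  have hA0 : MeasurableSet {ω : ℕ → ℝ | kac 1 n ω ≠ 0 ∧ ω 0 = 0} :=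
    (hne 1).inter ((isClosed_eq (continuous_apply 0) continuous_const).measurableSet)
  -- first term as an integral over sequences
  have hN : ∫⁻ c : Fin (n + 1) → ℝ,
        (((∑ k : Fin (n + 1), Polynomial.C (c k) * Polynomial.X ^ (k : ℕ)).roots.toFinset.card : ℕ) : ENNReal)
        ∂(Measure.pi fun _ : Fin (n + 1) => μ) =
      ∫⁻ ω, ((kac 1 n ω).roots.toFinset.card : ENNReal) ∂(Pm μ) := by
    rw [← (measurePreserving_fin μ n).lintegral_comp]
    · simp only [sum_fin_eq_kac]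
    · refine (measurable_of_countable (fun k : ℕ => (k : ENNReal))).comp
        (measurable_card_roots ?_)
      simp only [eval_finsetSum, eval_mul, eval_C, eval_pow, eval_X]
      fun_prop
  have hind : ∀ {A : Set (ℕ → ℝ)}, MeasurableSet A →
      (Pm μ) A = ∫⁻ ω, A.indicator 1 ω ∂(Pm μ) := by
    intro A hA
    rw [lintegral_indicator_one hA]
  have hmi : ∀ {A : Set (ℕ → ℝ)}, MeasurableSet A →
      Measurable (fun ω : ℕ → ℝ => A.indicator (1 : (ℕ → ℝ) → ENNReal) ω) := by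
    intro A hA
    exact measurable_one.indicator hA
  have hrev : ∀ ε : ℝ, ∫⁻ ω, (Z (kac ε n (fun k => ω (rv n k))) 0 1 : ENNReal) ∂(Pm μ) =
      ∫⁻ ω, (Z (kac ε n ω) 0 1 : ENNReal) ∂(Pm μ) := by
    intro ε
    exact (measurePreserving_rv μ n).lintegral_comp (hZ ε)
  have hZr : ∀ ε : ℝ, Measurable
      (fun ω : ℕ → ℝ => (Z (kac ε n (fun k => ω (rv n k))) 0 1 : ENNReal)) := fun ε =>
    (hZ ε).comp hrv
  have hZZ : ∀ ε : ℝ, Measurable (fun ω : ℕ → ℝ => (Z (kac ε n ω) 0 1 : ENNReal) +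
      (Z (kac ε n (fun k => ω (rv n k))) 0 1 : ENNReal)) := fun ε => (hZ ε).add (hZr ε)
  rw [hN, hind (hA 1), hind (hA (-1)), hind hA0, two_mul, two_mul]
  nth_rewrite 2 [← hrev 1]
  nth_rewrite 2 [← hrev (-1)]
  rw [← lintegral_add_right _ (hmi (hA 1)), ← lintegral_add_right _ (hmi (hA (-1))),
    ← lintegral_add_right _ (hZr 1), ← lintegral_add_right _ (hZr (-1)),
    ← lintegral_add_right _ (hZZ 1), ← lintegral_add_right _ (hZZ (-1))]
  exact lintegral_congr fun ω => pointwise_identity' n ω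

end Pool.Agent.H89.Kac
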