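import Pool.Agent.H89.Kac.Defs
import Pool.Agent.H89.Kac.Compare
import Pool.Agent.H89.Kac.Lin

set_option autoImplicit false

open MeasureTheory Filter Topology ProbabilityTheory

namespace Pool.Agent.H89.Kac

/-! ### The law of `(lin u, lin w)` for iid centred Gaussian coefficients -/

lemma g_int_sq (v : NNReal) : Integrable (fun x : ℝ => x ^ 2) (gaussianReal 0 v) :=
  (memLp_two_iff_integrable_sq (by fun_prop)).1 (memLp_id_gaussianReal 2)

lemma g_mean (v : NNReal) : ∫ x, x ∂(gaussianReal 0 v) = 0 := integral_id_gaussianReal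

lemma g_hasLaw_pair (v : NNReal) (n : ℕ) (u y : ℕ → ℝ) :
    HasGaussianLaw (fun ω : ℕ → ℝ => (lin u n ω, lin y n ω))
      (Measure.infinitePi (fun _ : ℕ => gaussianReal 0 v)) := by
  have h1 : ∀ i : Fin n, HasGaussianLaw (fun ω : ℕ → ℝ => ω i)
      (Measure.infinitePi (fun _ : ℕ => gaussianReal 0 v)) := by
    intro i
    refine ⟨?_⟩
    rw [map_coord (fun _ => gaussianReal 0 v) i]
    infer_instance
  have h2 : iIndepFun (fun (i : Fin n) (ω : ℕ → ℝ) => ω i)
      (Measure.infinitePi (fun _ : ℕ => gaussianReal 0 v)) :=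
    (iIndep_coord (fun _ => gaussianReal 0 v)).precomp Fin.val_injective
  have h3 := iIndepFun.hasGaussianLaw h1 h2
  let L : (Fin n → ℝ) →L[ℝ] ℝ × ℝ :=
    (∑ i : Fin n, u i • (ContinuousLinearMap.proj i : (Fin n → ℝ) →L[ℝ] ℝ)).prod
      (∑ i : Fin n, y i • (ContinuousLinearMap.proj i : (Fin n → ℝ) →L[ℝ] ℝ))
  have h4 := h3.map_fun L
  have h5 : (fun ω : ℕ → ℝ => L (fun i : Fin n => ω i)) =
      fun ω : ℕ → ℝ => (lin u n ω, lin y n ω) := by
    funext ω
    simp only [L, ContinuousLinearMap.prod_apply, sum_apply,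
      smul_apply, ContinuousLinearMap.proj_apply, smul_eq_mul, lin,
      Finset.sum_range]
  rw [h5] at h4
  exact h4

lemma g_variance (v : NNReal) (n : ℕ) (a : ℕ → ℝ) :
    variance (lin a n) (Measure.infinitePi (fun _ : ℕ => gaussianReal 0 v)) =
      v * ∑ k ∈ Finset.range n, a k ^ 2 := by
  have hs : lin a n = ∑ k ∈ Finset.range n, fun ω : ℕ → ℝ => a k * ω k := by
    ext ω; simp [lin]
  have hind : iIndepFun (fun (k : ℕ) (ω : ℕ → ℝ) => a k * ω k)
      (Measure.infinitePi (fun _ : ℕ => gaussianReal 0 v)) :=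
    (iIndep_coord _).comp (fun k x => a k * x) (fun k => by fun_prop)
  rw [hs, IndepFun.variance_sum
    (fun k _ => memLp_coord (fun _ => gaussianReal 0 v) (fun _ => g_int_sq v) (a k) k)
    (fun i _ j _ hij => hind.indepFun hij), Finset.mul_sum]
  refine Finset.sum_congr rfl fun k _ => ?_
  rw [variance_const_mul]
  have h1 : variance (fun ω : ℕ → ℝ => ω k) (Measure.infinitePi (fun _ : ℕ => gaussianReal 0 v)) =
      v := by
    rw [variance_eq_integral (measurable_pi_apply k).aemeasurable,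
      integral_coord (fun _ => gaussianReal 0 v), g_mean]
    simp only [sub_zero]
    rw [integral_coord_sq (fun _ => gaussianReal 0 v)]
    have h2 := variance_fun_id_gaussianReal (μ := 0) (v := v)
    rw [variance_eq_integral (by fun_prop), integral_id_gaussianReal] at h2
    simpa using h2
  rw [h1, mul_comm]

lemma g_law (v : NNReal) (n : ℕ) (a : ℕ → ℝ) (s : NNReal)
    (hs : (s : ℝ) = v * ∑ k ∈ Finset.range n, a k ^ 2) :
    (Measure.infinitePi (fun _ : ℕ => gaussianReal 0 v)).map (lin a n) = gaussianReal 0 s := by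
  have h1 : HasGaussianLaw (lin a n) (Measure.infinitePi (fun _ : ℕ => gaussianReal 0 v)) :=
    (g_hasLaw_pair v n a a).fst
  rw [h1.map_eq_gaussianReal, g_variance, ← hs,
    integral_lin (fun _ => gaussianReal 0 v) (fun _ => g_int_sq v) (fun _ => g_mean v),
    Real.toNNReal_coe]

lemma g_indep (v : NNReal) (n : ℕ) (u y : ℕ → ℝ) (h : ∑ k ∈ Finset.range n, u k * y k = 0) :
    IndepFun (lin u n) (lin y n) (Measure.infinitePi (fun _ : ℕ => gaussianReal 0 v)) := by
  refine (g_hasLaw_pair v n u y).indepFun_of_covariance_eq_zero ?_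
  have h1 := variance_add (memLp_lin (fun _ => gaussianReal 0 v) (fun _ => g_int_sq v) u n)
    (memLp_lin (fun _ => gaussianReal 0 v) (fun _ => g_int_sq v) y n)
  have h2 : lin u n + lin y n = lin (fun k => u k + y k) n := by
    funext ω
    simp only [Pi.add_apply, lin, ← Finset.sum_add_distrib]
    exact Finset.sum_congr rfl fun k _ => by ring
  rw [h2, g_variance, g_variance, g_variance] at h1
  have h3 : ∑ k ∈ Finset.range n, (u k + y k) ^ 2 = ∑ k ∈ Finset.range n, u k ^ 2 +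
      2 * ∑ k ∈ Finset.range n, u k * y k + ∑ k ∈ Finset.range n, y k ^ 2 := by
    rw [Finset.mul_sum, ← Finset.sum_add_distrib, ← Finset.sum_add_distrib]
    exact Finset.sum_congr rfl fun k _ => by ring
  rw [h3, h] at h1
  linarith

/-! ### One-dimensional Gaussian integrals -/

lemma g_abs (s : NNReal) : ∫ x, |x| ∂(gaussianReal 0 s) = Real.sqrt (2 * s / Real.pi) := by
  by_cases hs : s = 0
  · subst hs
    rw [gaussianReal_zero_var]
    simp
  have hs' : (0 : ℝ) < s := by
    rw [NNReal.coe_pos]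
    exact pos_iff_ne_zero.2 hs
  have hpi := Real.pi_pos
  rw [integral_gaussianReal_eq_integral_smul hs]
  have h1 : (fun x : ℝ => gaussianPDFReal 0 s x • |x|) =
      fun x : ℝ => (fun r : ℝ => (Real.sqrt (2 * Real.pi * s))⁻¹ *
        (r ^ (1 : ℝ) * Real.exp (-(2 * (s : ℝ))⁻¹ * r ^ (2 : ℝ)))) |x| := by
    funext x
    simp only [gaussianPDFReal, smul_eq_mul, sub_zero, Real.rpow_one, Real.rpow_two, sq_abs]
    rw [mul_assoc, mul_comm (Real.exp _) |x|]
    congr 3
    field_simp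
  rw [h1, integral_comp_abs (f := fun r : ℝ => (Real.sqrt (2 * Real.pi * s))⁻¹ *
        (r ^ (1 : ℝ) * Real.exp (-(2 * (s : ℝ))⁻¹ * r ^ (2 : ℝ)))), integral_const_mul,
    integral_rpow_mul_exp_neg_mul_rpow (by norm_num) (by norm_num) (by positivity)]
  have h2 : (-(1 + 1) / 2 : ℝ) = -1 := by norm_num
  have h3 : ((1 + 1) / 2 : ℝ) = 1 := by norm_num
  rw [h2, h3, Real.Gamma_one, Real.rpow_neg_one, inv_inv, mul_one]
  have h4 : (2 * ((Real.sqrt (2 * Real.pi * s))⁻¹ * (2 * (s : ℝ) * (1 / 2)))) ^ 2 =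
      2 * s / Real.pi := by
    rw [mul_pow, mul_pow, inv_pow, Real.sq_sqrt (by positivity)]
    field_simp
  rw [← h4, Real.sqrt_sq (by positivity)]

lemma g_integral_tri {η : ℝ} (hη : 0 < η) : ∫ x : ℝ, tri η x = η ^ 2 := by
  have h1 : (fun x : ℝ => tri η x) = fun x : ℝ => (fun r : ℝ => max (η - r) 0) |x| := rfl
  rw [h1, integral_comp_abs (f := fun r : ℝ => max (η - r) 0)]
  have h2 : ∫ r in Set.Ioi (0 : ℝ), max (η - r) 0 = ∫ r in Set.Ioc (0 : ℝ) η, max (η - r) 0 := by
    refine setIntegral_eq_of_subset_of_forall_sdiff_eq_zero measurableSet_Ioi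
      Set.Ioc_subset_Ioi_self ?_
    intro r hr
    have h3 : η < r := by
      by_contra h
      exact hr.2 ⟨hr.1, not_lt.1 h⟩
    exact max_eq_right (by linarith)
  rw [h2, ← intervalIntegral.integral_of_le hη.le]
  have h4 : ∫ r in (0 : ℝ)..η, max (η - r) 0 = ∫ r in (0 : ℝ)..η, (η - r) := by
    refine intervalIntegral.integral_congr fun r hr => ?_
    rw [Set.uIcc_of_le hη.le] at hr
    exact max_eq_left (by linarith [hr.2])
  rw [h4, intervalIntegral.integral_sub (by simp) (by simp)]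
  simp
  ring

lemma g_tri_integrable {η : ℝ} (hη : 0 < η) : Integrable (fun x : ℝ => tri η x) := by
  by_contra h
  have := integral_undef h
  rw [g_integral_tri hη] at this
  have h2 : 0 < η ^ 2 := by positivity
  linarith

/-- `E tri_η(U)` for `U ~ N(0, s)`. -/
lemma g_tri_bounds (s : NNReal) (hs : 0 < s) {η : ℝ} (hη : 0 < η) :
    (Real.sqrt (2 * Real.pi * s))⁻¹ * (η ^ 2 * (1 - η ^ 2 / (2 * s))) ≤
      ∫ x, tri η x ∂(gaussianReal 0 s) ∧
    ∫ x, tri η x ∂(gaussianReal 0 s) ≤ (Real.sqrt (2 * Real.pi * s))⁻¹ * η ^ 2 := by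
  have hs' : (0 : ℝ) < s := hs
  have hpi := Real.pi_pos
  have hsq : 0 < Real.sqrt (2 * Real.pi * s) := Real.sqrt_pos.2 (by positivity)
  rw [integral_gaussianReal_eq_integral_smul hs.ne']
  have hle : ∀ x, gaussianPDFReal 0 s x • tri η x ≤ (Real.sqrt (2 * Real.pi * s))⁻¹ * tri η x := by
    intro x
    rw [smul_eq_mul]
    refine mul_le_mul_of_nonneg_right ?_ (le_max_right _ _)
    unfold gaussianPDFReal
    refine mul_le_of_le_one_right (by positivity) ?_
    rw [Real.exp_le_one_iff, neg_div]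
    have : 0 ≤ (x - 0) ^ 2 / (2 * (s : ℝ)) := by positivity
    linarith
  have hge : ∀ x, (Real.sqrt (2 * Real.pi * s))⁻¹ * (1 - η ^ 2 / (2 * s)) * tri η x ≤
      gaussianPDFReal 0 s x • tri η x := by
    intro x
    rw [smul_eq_mul]
    by_cases hx : |x| ≤ η
    · refine mul_le_mul_of_nonneg_right ?_ (le_max_right _ _)
      unfold gaussianPDFReal
      refine mul_le_mul_of_nonneg_left ?_ (by positivity)
      have h1 := Real.add_one_le_exp (-(x - 0) ^ 2 / (2 * (s : ℝ)))
      have h2 : (x - 0) ^ 2 / (2 * (s : ℝ)) ≤ η ^ 2 / (2 * s) := by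
        refine div_le_div_of_nonneg_right ?_ (by positivity)
        rw [sub_zero, ← sq_abs x]
        exact pow_le_pow_left₀ (abs_nonneg x) hx 2
      rw [neg_div] at h1 ⊢
      linarith
    · have h1 : tri η x = 0 := max_eq_right (by linarith [not_le.1 hx])
      rw [h1]; simp
  have hint : Integrable (fun x => gaussianPDFReal 0 s x • tri η x) := by
    refine ((g_tri_integrable hη).const_mul (Real.sqrt (2 * Real.pi * s))⁻¹).mono' ?_ ?_
    · exact ((measurable_gaussianPDFReal 0 s).smul (tri_continuous η).measurable).aestronglyMeasurable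
    · refine ae_of_all _ fun x => ?_
      rw [Real.norm_of_nonneg]
      · exact hle x
      · rw [smul_eq_mul]
        exact mul_nonneg (gaussianPDFReal_nonneg 0 s x) (le_max_right _ _)
  constructor
  · have h1 := integral_mono ((g_tri_integrable hη).const_mul
      ((Real.sqrt (2 * Real.pi * s))⁻¹ * (1 - η ^ 2 / (2 * s)))) hint hge
    rw [integral_const_mul, g_integral_tri hη] at h1
    refine le_trans (le_of_eq ?_) h1
    ring
  · have h1 := integral_mono hint ((g_tri_integrable hη).const_mul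
      (Real.sqrt (2 * Real.pi * s))⁻¹) hle
    rw [integral_const_mul, g_integral_tri hη] at h1
    exact h1

/-! ### The Gaussian side -/

theorem modG (c C : ℝ) (hc : 0 < c) (hC : 0 < C) :
    ∃ K : ℝ, 0 ≤ K ∧ ∀ (v : NNReal), 1 / 2 ≤ (v : ℝ) → (v : ℝ) ≤ 1 → ∀ (n : ℕ) (u w : ℕ → ℝ),
      c ≤ ∑ k ∈ Finset.range n, u k ^ 2 → ∑ k ∈ Finset.range n, u k ^ 2 ≤ C →
      ∑ k ∈ Finset.range n, w k ^ 2 ≤ C → ∀ η : ℝ, 0 < η → η ≤ 1 →
      |(η ^ 2)⁻¹ * (∫ ω, tri η (lin u n ω) * |lin w n ω|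
            ∂(Measure.infinitePi (fun _ : ℕ => gaussianReal 0 v)))
        - Real.sqrt ((∑ k ∈ Finset.range n, u k ^ 2) * (∑ k ∈ Finset.range n, w k ^ 2)
            - (∑ k ∈ Finset.range n, u k * w k) ^ 2)
          / (Real.pi * ∑ k ∈ Finset.range n, u k ^ 2)| ≤ K * η := by
  refine ⟨C / c * (Real.sqrt c)⁻¹ + Real.sqrt C * (Real.sqrt c)⁻¹ / c, by positivity, ?_⟩
  intro v hv1 hv2 n u w hA1 hA2 hD η hη0 hη1
  set A := ∑ k ∈ Finset.range n, u k ^ 2 with hA
  set D := ∑ k ∈ Finset.range n, w k ^ 2 with hDdef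
  set B := ∑ k ∈ Finset.range n, u k * w k with hB
  have hA0 : 0 < A := lt_of_lt_of_le hc hA1
  have hv0 : (0 : ℝ) < v := by linarith
  have hpi := Real.pi_gt_three
  have hD0 : 0 ≤ D := Finset.sum_nonneg fun k _ => sq_nonneg _
  have hCS : B ^ 2 ≤ A * D := by
    rw [hA, hDdef, hB]
    exact Finset.sum_mul_sq_le_sq_mul_sq _ _ _
  set y : ℕ → ℝ := fun k => w k - B / A * u k with hy
  have huy : ∑ k ∈ Finset.range n, u k * y k = 0 := by
    have h1 : ∑ k ∈ Finset.range n, u k * y k = B - B / A * A := by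
      rw [hA, Finset.mul_sum, hB, ← Finset.sum_sub_distrib]
      exact Finset.sum_congr rfl fun k _ => by simp only [hy]; ring
    rw [h1]
    field_simp
    ring
  have hyy : ∑ k ∈ Finset.range n, y k ^ 2 = D - B ^ 2 / A := by
    have h1 : ∑ k ∈ Finset.range n, y k ^ 2 = D - 2 * (B / A) * B + (B / A) ^ 2 * A := by
      rw [hA, hDdef, Finset.mul_sum, ← hA]
      conv_rhs => rw [hB, Finset.mul_sum, ← hB]
      rw [← Finset.sum_sub_distrib, ← Finset.sum_add_distrib]
      exact Finset.sum_congr rfl fun k _ => by simp only [hy]; ring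
    rw [h1]
    field_simp
    ring
  have hYY0 : 0 ≤ ∑ k ∈ Finset.range n, y k ^ 2 := Finset.sum_nonneg fun k _ => sq_nonneg _
  set P := Measure.infinitePi (fun _ : ℕ => gaussianReal 0 v) with hP
  obtain ⟨sU, hsU⟩ : ∃ s : NNReal, (s : ℝ) = v * A := ⟨⟨v * A, by positivity⟩, rfl⟩
  obtain ⟨sY, hsY⟩ : ∃ s : NNReal, (s : ℝ) = v * ∑ k ∈ Finset.range n, y k ^ 2 :=
    ⟨⟨v * ∑ k ∈ Finset.range n, y k ^ 2, by positivity⟩, rfl⟩
  have hsU0 : (0 : ℝ) < sU := by rw [hsU]; positivity
  have hsU0' : 0 < sU := by exact_mod_cast hsU0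
  have hlawU := g_law v n u sU hsU
  have hlawY := g_law v n y sY hsY
  have hind := g_indep v n u y huy
  -- the two one-dimensional integrals
  have hT : ∫ ω, tri η (lin u n ω) ∂P = ∫ x, tri η x ∂(gaussianReal 0 sU) := by
    rw [← hlawU, integral_map (measurable_lin u n).aemeasurable
      (tri_continuous η).aestronglyMeasurable]
  have hN : ∫ ω, |lin y n ω| ∂P = Real.sqrt (2 * sY / Real.pi) := by
    rw [← g_abs, ← hlawY, integral_map (measurable_lin y n).aemeasurable
      continuous_abs.aestronglyMeasurable]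
  have hprod : ∫ ω, tri η (lin u n ω) * |lin y n ω| ∂P =
      (∫ ω, tri η (lin u n ω) ∂P) * ∫ ω, |lin y n ω| ∂P := by
    have h1 := (hind.comp (tri_continuous η).measurable continuous_abs.measurable)
    exact h1.integral_mul_eq_mul_integral
      ((tri_continuous η).measurable.comp (measurable_lin u n)).aestronglyMeasurable
      (continuous_abs.measurable.comp (measurable_lin y n)).aestronglyMeasurable
  obtain ⟨hT1, hT2⟩ := g_tri_bounds sU hsU0' hη0
  rw [← hT] at hT1 hT2
  set T := ∫ ω, tri η (lin u n ω) ∂P with hTdef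
  set N := ∫ ω, |lin y n ω| ∂P with hNdef
  set α := (Real.sqrt (2 * Real.pi * sU))⁻¹ with hα
  have hα0 : 0 ≤ α := by positivity
  have hN0 : 0 ≤ N := by rw [hN]; positivity
  -- integrability
  have hiU : Integrable (fun ω => tri η (lin u n ω)) P := by
    refine (integrable_const η).mono'
      ((tri_continuous η).measurable.comp (measurable_lin u n)).aestronglyMeasurable
      (ae_of_all _ fun ω => ?_)
    rw [Real.norm_of_nonneg (tri_nn _ _)]
    exact tri_le _ _ hη0.le
  have hiabs : ∀ a : ℕ → ℝ, Integrable (fun ω => |lin a n ω|) P := fun a =>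
    ((memLp_lin (fun _ => gaussianReal 0 v) (fun _ => g_int_sq v) a n).integrable (by norm_num)).abs
  have hitri : ∀ a : ℕ → ℝ, Integrable (fun ω => tri η (lin u n ω) * |lin a n ω|) P := by
    intro a
    refine ((hiabs a).const_mul η).mono'
      (((tri_continuous η).measurable.comp (measurable_lin u n)).mul
        (continuous_abs.measurable.comp (measurable_lin a n))).aestronglyMeasurable
      (ae_of_all _ fun ω => ?_)
    rw [Real.norm_of_nonneg (mul_nonneg (tri_nn _ _) (abs_nonneg _))]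
    exact mul_le_mul_of_nonneg_right (tri_le _ _ hη0.le) (abs_nonneg _)
  have hlinw : ∀ ω, lin w n ω = B / A * lin u n ω + lin y n ω := by
    intro ω
    simp only [lin, Finset.mul_sum, ← Finset.sum_add_distrib]
    exact Finset.sum_congr rfl fun k _ => by simp only [hy]; ring
  -- first error
  have hE1 : |(∫ ω, tri η (lin u n ω) * |lin w n ω| ∂P) -
      ∫ ω, tri η (lin u n ω) * |lin y n ω| ∂P| ≤ |B / A| * η * T := by
    rw [← integral_sub (hitri w) (hitri y), hTdef, ← integral_const_mul]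
    rw [← Real.norm_eq_abs]
    refine norm_integral_le_of_norm_le (hiU.const_mul _) (ae_of_all _ fun ω => ?_)
    rw [← mul_sub, norm_mul, Real.norm_of_nonneg (tri_nn _ _), Real.norm_eq_abs]
    by_cases hx : |lin u n ω| ≤ η
    · rw [mul_comm]
      refine mul_le_mul_of_nonneg_right ?_ (tri_nn _ _)
      refine (abs_abs_sub_abs_le_abs_sub _ _).trans ?_
      rw [hlinw ω, add_sub_cancel_right, abs_mul]
      exact mul_le_mul_of_nonneg_left hx (abs_nonneg _)
    · have h1 : tri η (lin u n ω) = 0 := max_eq_right (by linarith [not_le.1 hx])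
      rw [h1]; simp
  -- the main term
  have hmain : Real.sqrt (A * D - B ^ 2) / (Real.pi * A) = α * N := by
    have hpos : 0 < Real.pi * A := by positivity
    have e : (2 * Real.pi * (sU : ℝ))⁻¹ * (2 * sY / Real.pi) = (A * D - B ^ 2) / (Real.pi * A) ^ 2 := by
      rw [hsY, hsU, hyy]
      field_simp
    rw [hN, hα, ← Real.sqrt_inv, ← Real.sqrt_mul (by positivity), e,
      Real.sqrt_div' _ (sq_nonneg _), Real.sqrt_sq hpos.le]
  rw [hmain]
  -- second error
  have hη2 : 0 < η ^ 2 := by positivity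
  have hE2 : |(η ^ 2)⁻¹ * (T * N) - α * N| ≤ N * α * (η ^ 2 / (2 * sU)) := by
    have h1 : (η ^ 2)⁻¹ * T ≤ α := by
      rw [inv_mul_le_iff₀ hη2, mul_comm]
      exact hT2
    have h2 : α * (1 - η ^ 2 / (2 * sU)) ≤ (η ^ 2)⁻¹ * T := by
      rw [le_inv_mul_iff₀ hη2]
      refine le_trans (le_of_eq ?_) hT1
      ring
    rw [abs_le]
    constructor
    · have h3 := mul_le_mul_of_nonneg_right h2 hN0
      have e1 : α * (1 - η ^ 2 / (2 * sU)) * N = α * N - N * α * (η ^ 2 / (2 * sU)) := by ring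
      have e2 : (η ^ 2)⁻¹ * T * N = (η ^ 2)⁻¹ * (T * N) := by ring
      rw [e1, e2] at h3
      linarith
    · have h3 := mul_le_mul_of_nonneg_right h1 hN0
      have h4 : 0 ≤ N * α * (η ^ 2 / (2 * sU)) := by positivity
      have e2 : (η ^ 2)⁻¹ * T * N = (η ^ 2)⁻¹ * (T * N) := by ring
      rw [e2] at h3
      linarith
  have hE1' : |(η ^ 2)⁻¹ * (∫ ω, tri η (lin u n ω) * |lin w n ω| ∂P) - (η ^ 2)⁻¹ * (T * N)| ≤
      |B / A| * η * α := by
    rw [← mul_sub, abs_mul, abs_of_pos (inv_pos.2 hη2), ← hprod, inv_mul_le_iff₀ hη2]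
    refine hE1.trans ?_
    have h1 : |B / A| * η * T ≤ |B / A| * η * (α * η ^ 2) :=
      mul_le_mul_of_nonneg_left hT2 (by positivity)
    linarith
  -- bounds
  have hBA : |B / A| ≤ C / c := by
    rw [abs_div, abs_of_pos hA0]
    refine div_le_div₀ hC.le ?_ hc hA1
    refine abs_le_of_sq_le_sq ?_ hC.le
    calc B ^ 2 ≤ A * D := hCS
      _ ≤ C * C := mul_le_mul hA2 hD hD0 hC.le
      _ = C ^ 2 := by ring
  have hα1 : α ≤ (Real.sqrt c)⁻¹ := by
    rw [hα]
    refine inv_anti₀ (Real.sqrt_pos.2 hc) (Real.sqrt_le_sqrt ?_)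
    rw [hsU]
    have h1 : 1 / 2 * c ≤ v * A := mul_le_mul hv1 hA1 hc.le hv0.le
    calc c = 2 * 1 * (1 / 2 * c) := by ring
      _ ≤ 2 * Real.pi * (v * A) :=
        mul_le_mul (by linarith) h1 (by positivity) (by positivity)
  have hN1 : N ≤ Real.sqrt C := by
    rw [hN]
    refine Real.sqrt_le_sqrt ?_
    rw [div_le_iff₀ (by positivity), hsY, hyy]
    have h1 : 0 ≤ B ^ 2 / A := by positivity
    have h2 : (v : ℝ) * (D - B ^ 2 / A) ≤ 1 * C := by
      refine mul_le_mul hv2 (by linarith) ?_ (by norm_num)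
      rw [← hyy]; exact hYY0
    calc 2 * ((v : ℝ) * (D - B ^ 2 / A)) ≤ 2 * (1 * C) := by linarith
      _ = C * 2 := by ring
      _ ≤ C * Real.pi := mul_le_mul_of_nonneg_left (by linarith) hC.le
  have hs1 : η ^ 2 / (2 * sU) ≤ η / c := by
    have hηη : η ^ 2 ≤ η := by
      calc η ^ 2 = η * η := by ring
        _ ≤ η * 1 := mul_le_mul_of_nonneg_left hη1 hη0.le
        _ = η := by ring
    refine div_le_div₀ hη0.le hηη hc ?_
    rw [hsU]
    have h1 : 1 / 2 * c ≤ v * A := mul_le_mul hv1 hA1 hc.le hv0.le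
    linarith
  calc |(η ^ 2)⁻¹ * (∫ ω, tri η (lin u n ω) * |lin w n ω| ∂P) - α * N| ≤
      |(η ^ 2)⁻¹ * (∫ ω, tri η (lin u n ω) * |lin w n ω| ∂P) - (η ^ 2)⁻¹ * (T * N)| +
        |(η ^ 2)⁻¹ * (T * N) - α * N| := abs_sub_le _ _ _
    _ ≤ |B / A| * η * α + N * α * (η ^ 2 / (2 * sU)) := add_le_add hE1' hE2
    _ ≤ C / c * η * (Real.sqrt c)⁻¹ + Real.sqrt C * (Real.sqrt c)⁻¹ * (η / c) := by
        gcongr
    _ = _ := by ring

end Pool.Agent.H89.Kac
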