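import Pool.Agent.H89.Kac.Compare

set_option autoImplicit false

open MeasureTheory Filter Topology ProbabilityTheory

namespace Pool.Agent.H89.Kac

/-! ### Module H: summability of the truncated moments along a geometric sequence -/

/-- `∑_{j<N, q^j < a} q^j ≤ 2 a`. -/
theorem sumH2 (q a : ℝ) (hq : 2 ≤ q) (ha : 0 ≤ a) (N : ℕ) :
    ∑ j ∈ Finset.range N, (if a ≤ q ^ j then 0 else q ^ j) ≤ 2 * a := by
  have hq0 : 0 < q := by linarith
  have h1 : ∀ N : ℕ, ∑ j ∈ Finset.range N, (if a ≤ q ^ j then 0 else q ^ j) ≤ q ^ N := by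
    intro N
    induction N with
    | zero => simp
    | succ N ih =>
      rw [Finset.sum_range_succ]
      have : (if a ≤ q ^ N then 0 else q ^ N) ≤ q ^ N := by
        split_ifs
        · positivity
        · exact le_rfl
      have h3 : q ^ N + q ^ N ≤ q ^ (N + 1) := by
        rw [pow_succ]
        have : 0 < q ^ N := by positivity
        nlinarith
      linarith
  induction N with
  | zero => simp; exact ha
  | succ N ih =>
    rw [Finset.sum_range_succ]
    split_ifs with h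
    · linarith
    · push Not at h
      linarith [h1 N]

/-- `∑_{j<N, q^j < a} √(q^j) ≤ 4 √a`. -/
theorem sumH3 (q a : ℝ) (hq : 2 ≤ q) (N : ℕ) :
    ∑ j ∈ Finset.range N, (if a ≤ q ^ j then 0 else Real.sqrt (q ^ j)) ≤ 4 * Real.sqrt a := by
  have hq0 : 0 < q := by linarith
  have hr : 4 / 3 ≤ Real.sqrt q := by
    apply Real.le_sqrt_of_sq_le
    norm_num
    linarith
  have hpow : ∀ j : ℕ, Real.sqrt (q ^ j) = Real.sqrt q ^ j := by
    intro j
    induction j with
    | zero => simp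
    | succ j ih => rw [pow_succ, Real.sqrt_mul (by positivity), ih, pow_succ]
  have h1 : ∀ N : ℕ, ∑ j ∈ Finset.range N, (if a ≤ q ^ j then 0 else Real.sqrt (q ^ j))
      ≤ 3 * Real.sqrt (q ^ N) := by
    intro N
    induction N with
    | zero => simp
    | succ N ih =>
      rw [Finset.sum_range_succ]
      have : (if a ≤ q ^ N then 0 else Real.sqrt (q ^ N)) ≤ Real.sqrt (q ^ N) := by
        split_ifs
        · positivity
        · exact le_rfl
      have h3 : 4 * Real.sqrt (q ^ N) ≤ 3 * Real.sqrt (q ^ (N + 1)) := by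
        rw [hpow, hpow, pow_succ]
        have : 0 < Real.sqrt q ^ N := by positivity
        nlinarith
      linarith
  induction N with
  | zero => simp
  | succ N ih =>
    rw [Finset.sum_range_succ]
    split_ifs with h
    · linarith
    · push Not at h
      have := Real.sqrt_le_sqrt h.le
      linarith [h1 N]

/-- `∑_{j<N, a ≤ q^j} q^{-j} ≤ 2 / a`. -/
theorem sumH1 (q a : ℝ) (hq : 2 ≤ q) (ha : 0 < a) (N : ℕ) :
    ∑ j ∈ Finset.range N, (if a ≤ q ^ j then (q ^ j)⁻¹ else 0) ≤ 2 / a := by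
  have hq0 : 0 < q := by linarith
  have key : ∑ j ∈ Finset.range N, (if a ≤ q ^ j then (q ^ j)⁻¹ else 0)
      + 2 * min (q ^ N)⁻¹ (1 / a) ≤ 2 / a := by
    induction N with
    | zero =>
      simp only [Finset.range_zero, Finset.sum_empty, zero_add]
      have := min_le_right (q ^ 0)⁻¹ (1 / a)
      calc 2 * min (q ^ 0)⁻¹ (1 / a) ≤ 2 * (1 / a) := by linarith
        _ = 2 / a := by ring
    | succ N ih =>
      rw [Finset.sum_range_succ]
      have hp : 0 < q ^ N := by positivity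
      have hle : (q ^ (N + 1))⁻¹ ≤ (q ^ N)⁻¹ / 2 := by
        rw [pow_succ, mul_inv, div_eq_mul_inv]
        have : q⁻¹ ≤ (2 : ℝ)⁻¹ := inv_anti₀ (by norm_num) hq
        have h2 : 0 < (q ^ N)⁻¹ := by positivity
        nlinarith
      have hpos : 0 < (q ^ N)⁻¹ := by positivity
      split_ifs with h
      · have h1 : min (q ^ N)⁻¹ (1 / a) = (q ^ N)⁻¹ := by
          apply min_eq_left
          rw [one_div]
          exact inv_anti₀ ha h
        rw [h1] at ih
        have h2 := min_le_left (q ^ (N + 1))⁻¹ (1 / a)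
        linarith
      · have h3 : min (q ^ (N + 1))⁻¹ (1 / a) ≤ min (q ^ N)⁻¹ (1 / a) :=
          min_le_min_right _ (by linarith)
        linarith
  have : 0 ≤ min (q ^ N)⁻¹ (1 / a) := by
    have : 0 < q ^ N := by positivity
    positivity
  linarith

/-- the integrand -/
noncomputable def GH (q : ℝ) (j : ℕ) (x : ℝ) : ℝ :=
  ({x : ℝ | |x| ≤ q ^ j}.indicator (fun x => |x| ^ 3) x) / q ^ j
    + q ^ j * ({x : ℝ | |x| ≤ q ^ j}ᶜ.indicator (fun x => |x|) x)
    + Real.sqrt (q ^ j) * ({x : ℝ | |x| ≤ q ^ j}ᶜ.indicator pw x)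

theorem GH_sum (q : ℝ) (hq : 2 ≤ q) (N : ℕ) (x : ℝ) :
    ∑ j ∈ Finset.range N, GH q j x ≤ 8 * x ^ 2 := by
  have e1 : ∑ j ∈ Finset.range N, GH q j x
      = |x| ^ 3 * (∑ j ∈ Finset.range N, (if |x| ≤ q ^ j then (q ^ j)⁻¹ else 0))
        + |x| * (∑ j ∈ Finset.range N, (if |x| ≤ q ^ j then 0 else q ^ j))
        + pw x * (∑ j ∈ Finset.range N, (if |x| ≤ q ^ j then 0 else Real.sqrt (q ^ j))) := by
    rw [Finset.mul_sum, Finset.mul_sum, Finset.mul_sum, ← Finset.sum_add_distrib,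
      ← Finset.sum_add_distrib]
    refine Finset.sum_congr rfl fun j _ => ?_
    unfold GH
    by_cases h : |x| ≤ q ^ j
    · rw [Set.indicator_of_mem (show x ∈ {x : ℝ | |x| ≤ q ^ j} from h),
        Set.indicator_of_notMem (show x ∉ {x : ℝ | |x| ≤ q ^ j}ᶜ from fun h' => h' h),
        Set.indicator_of_notMem (show x ∉ {x : ℝ | |x| ≤ q ^ j}ᶜ from fun h' => h' h)]
      simp only [h, if_true]
      ring
    · rw [Set.indicator_of_notMem (show x ∉ {x : ℝ | |x| ≤ q ^ j} from h),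
        Set.indicator_of_mem (show x ∈ {x : ℝ | |x| ≤ q ^ j}ᶜ from h),
        Set.indicator_of_mem (show x ∈ {x : ℝ | |x| ≤ q ^ j}ᶜ from h)]
      simp only [h, if_false]
      ring
  rw [e1]
  rcases eq_or_ne x 0 with rfl | hx
  · simp [pw]
  have ha : 0 < |x| := abs_pos.2 hx
  have h1 := sumH1 q |x| hq ha N
  have h2 := sumH2 q |x| hq ha.le N
  have h3 := sumH3 q |x| hq N
  have k1 : |x| ^ 3 * (∑ j ∈ Finset.range N, (if |x| ≤ q ^ j then (q ^ j)⁻¹ else 0))
      ≤ 2 * x ^ 2 := by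
    calc _ ≤ |x| ^ 3 * (2 / |x|) := by gcongr
      _ = 2 * |x| ^ 2 := by field_simp
      _ = 2 * x ^ 2 := by rw [sq_abs]
  have k2 : |x| * (∑ j ∈ Finset.range N, (if |x| ≤ q ^ j then 0 else q ^ j)) ≤ 2 * x ^ 2 := by
    calc _ ≤ |x| * (2 * |x|) := by gcongr
      _ = 2 * |x| ^ 2 := by ring
      _ = 2 * x ^ 2 := by rw [sq_abs]
  have k3 : pw x * (∑ j ∈ Finset.range N, (if |x| ≤ q ^ j then 0 else Real.sqrt (q ^ j)))
      ≤ 4 * x ^ 2 := by
    calc _ ≤ pw x * (4 * Real.sqrt |x|) := by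
          apply mul_le_mul_of_nonneg_left h3 (pw_nonneg x)
      _ = 4 * (|x| * (Real.sqrt |x| * Real.sqrt |x|)) := by unfold pw; ring
      _ = 4 * |x| ^ 2 := by rw [Real.mul_self_sqrt ha.le]; ring
      _ = 4 * x ^ 2 := by rw [sq_abs]
  linarith

theorem GH_nonneg (q : ℝ) (hq : 2 ≤ q) (j : ℕ) (x : ℝ) : 0 ≤ GH q j x := by
  have hq0 : 0 < q := by linarith
  unfold GH
  have h1 : 0 ≤ {x : ℝ | |x| ≤ q ^ j}.indicator (fun x => |x| ^ 3) x :=
    Set.indicator_nonneg (fun _ _ => by positivity) _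
  have h2 : 0 ≤ {x : ℝ | |x| ≤ q ^ j}ᶜ.indicator (fun x => |x|) x :=
    Set.indicator_nonneg (fun _ _ => by positivity) _
  have h3 : 0 ≤ {x : ℝ | |x| ≤ q ^ j}ᶜ.indicator pw x :=
    Set.indicator_nonneg (fun y _ => pw_nonneg y) _
  positivity

theorem integrable_H1 (μ : Measure ℝ) (h2 : Integrable (fun x : ℝ => x ^ 2) μ)
    (T : ℝ) (hT : 0 ≤ T) : Integrable ({x : ℝ | |x| ≤ T}.indicator (fun x => |x| ^ 3)) μ := by
  refine (h2.const_mul T).mono'
    (Measurable.aestronglyMeasurable (Measurable.indicator (by fun_prop) (measurableSet_T T)))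
    (ae_of_all _ fun x => ?_)
  by_cases h : |x| ≤ T
  · rw [Set.indicator_of_mem (show x ∈ {x : ℝ | |x| ≤ T} from h), Real.norm_of_nonneg (by positivity)]
    calc |x| ^ 3 = |x| * |x| ^ 2 := by ring
      _ ≤ T * |x| ^ 2 := by gcongr
      _ = T * x ^ 2 := by rw [sq_abs]
  · rw [Set.indicator_of_notMem (show x ∉ {x : ℝ | |x| ≤ T} from h)]
    simp only [norm_zero]
    positivity

theorem integrable_H2 (μ : Measure ℝ) (h2 : Integrable (fun x : ℝ => x ^ 2) μ)
    (T : ℝ) (hT : 1 ≤ T) : Integrable ({x : ℝ | |x| ≤ T}ᶜ.indicator (fun x => |x|)) μ := by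
  refine h2.mono'
    (Measurable.aestronglyMeasurable (Measurable.indicator (by fun_prop) (measurableSet_T T).compl))
    (ae_of_all _ fun x => ?_)
  by_cases h : |x| ≤ T
  · rw [Set.indicator_of_notMem (show x ∉ {x : ℝ | |x| ≤ T}ᶜ from fun h' => h' h)]
    simp only [norm_zero]
    positivity
  · rw [Set.indicator_of_mem (show x ∈ {x : ℝ | |x| ≤ T}ᶜ from h), Real.norm_of_nonneg (by positivity)]
    push Not at h
    rw [← sq_abs]
    nlinarith

theorem integrable_H3 (μ : Measure ℝ) (h2 : Integrable (fun x : ℝ => x ^ 2) μ)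
    (T : ℝ) (hT : 1 ≤ T) : Integrable ({x : ℝ | |x| ≤ T}ᶜ.indicator pw) μ := by
  have hm : Measurable pw := by unfold pw; fun_prop
  refine h2.mono'
    (Measurable.aestronglyMeasurable (Measurable.indicator hm (measurableSet_T T).compl))
    (ae_of_all _ fun x => ?_)
  by_cases h : |x| ≤ T
  · rw [Set.indicator_of_notMem (show x ∉ {x : ℝ | |x| ≤ T}ᶜ from fun h' => h' h)]
    simp only [norm_zero]
    positivity
  · rw [Set.indicator_of_mem (show x ∈ {x : ℝ | |x| ≤ T}ᶜ from h), Real.norm_of_nonneg (pw_nonneg x)]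
    push Not at h
    unfold pw
    have h1 : Real.sqrt |x| ≤ |x| := by
      rw [Real.sqrt_le_left (by positivity)]
      nlinarith
    calc |x| * Real.sqrt |x| ≤ |x| * |x| := by gcongr
      _ = x ^ 2 := by rw [← sq_abs]; ring

theorem integrable_GH (μ : Measure ℝ) (h2 : Integrable (fun x : ℝ => x ^ 2) μ)
    (q : ℝ) (hq : 2 ≤ q) (j : ℕ) : Integrable (GH q j) μ := by
  have h1 : 1 ≤ q ^ j := one_le_pow₀ (by linarith)
  exact (((integrable_H1 μ h2 _ (by positivity)).div_const _).add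
    ((integrable_H2 μ h2 _ h1).const_mul _)).add ((integrable_H3 μ h2 _ h1).const_mul _)

theorem integral_GH (μ : Measure ℝ) (h2 : Integrable (fun x : ℝ => x ^ 2) μ)
    (q : ℝ) (hq : 2 ≤ q) (j : ℕ) : ∫ x, GH q j x ∂μ = m3 μ (q ^ j) / q ^ j
      + q ^ j * m1 μ (q ^ j) + Real.sqrt (q ^ j) * m32 μ (q ^ j) := by
  have h1 : 1 ≤ q ^ j := one_le_pow₀ (by linarith)
  have i1 := (integrable_H1 μ h2 (q ^ j) (by positivity)).div_const (q ^ j)
  have i2 := (integrable_H2 μ h2 _ h1).const_mul (q ^ j)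
  have i3 := (integrable_H3 μ h2 _ h1).const_mul (Real.sqrt (q ^ j))
  have e1 : ∫ x, GH q j x ∂μ = (∫ x, (({x : ℝ | |x| ≤ q ^ j}.indicator (fun x => |x| ^ 3) x) / q ^ j
      + q ^ j * ({x : ℝ | |x| ≤ q ^ j}ᶜ.indicator (fun x => |x|) x)) ∂μ)
      + ∫ x, Real.sqrt (q ^ j) * ({x : ℝ | |x| ≤ q ^ j}ᶜ.indicator pw x) ∂μ :=
    integral_add (i1.add i2) i3
  have e2 : (∫ x, (({x : ℝ | |x| ≤ q ^ j}.indicator (fun x => |x| ^ 3) x) / q ^ j
      + q ^ j * ({x : ℝ | |x| ≤ q ^ j}ᶜ.indicator (fun x => |x|) x)) ∂μ)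
      = (∫ x, ({x : ℝ | |x| ≤ q ^ j}.indicator (fun x => |x| ^ 3) x) / q ^ j ∂μ)
      + ∫ x, q ^ j * ({x : ℝ | |x| ≤ q ^ j}ᶜ.indicator (fun x => |x|) x) ∂μ := integral_add i1 i2
  rw [e1, e2, integral_div, integral_const_mul,
    integral_const_mul, integral_indicator (measurableSet_T _),
    integral_indicator (measurableSet_T _).compl, integral_indicator (measurableSet_T _).compl]
  rfl

theorem modH (μ : Measure ℝ) [IsProbabilityMeasure μ] (h2 : Integrable (fun x : ℝ => x ^ 2) μ)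
    (q : ℝ) (hq : 2 ≤ q) :
    Summable (fun j : ℕ => m3 μ (q ^ j) / q ^ j + q ^ j * m1 μ (q ^ j)
      + Real.sqrt (q ^ j) * m32 μ (q ^ j)) := by
  apply summable_of_sum_range_le (c := ∫ x, 8 * x ^ 2 ∂μ)
  · intro j
    rw [← integral_GH μ h2 q hq j]
    exact integral_nonneg (GH_nonneg q hq j)
  · intro N
    have e : ∑ j ∈ Finset.range N, (m3 μ (q ^ j) / q ^ j + q ^ j * m1 μ (q ^ j)
        + Real.sqrt (q ^ j) * m32 μ (q ^ j)) = ∫ x, ∑ j ∈ Finset.range N, GH q j x ∂μ := by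
      rw [integral_finsetSum _ (fun j _ => integrable_GH μ h2 q hq j)]
      exact Finset.sum_congr rfl fun j _ => (integral_GH μ h2 q hq j).symm
    rw [e]
    exact integral_mono (integrable_finsetSum _ (fun j _ => integrable_GH μ h2 q hq j))
      (h2.const_mul 8) (GH_sum q hq N)

end Pool.Agent.H89.Kac
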