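import Pool.Agent.H89.Kac.SmallBall
import Pool.Agent.H89.Kac.Defs

set_option autoImplicit false

open MeasureTheory Filter Topology ProbabilityTheory Polynomial

namespace Pool.Agent.H89.Kac

/-- Module J. -/
theorem modJ (μ : Measure ℝ) [IsProbabilityMeasure μ] (h2 : Integrable (fun x : ℝ => x ^ 2) μ)
    (h0 : ∫ x, x ∂μ = 0) (h1 : ∫ x, x ^ 2 ∂μ = 1) (ε : ℝ) (hε : ε = 1 ∨ ε = -1) :
    Tendsto (fun n : ℕ => (Pm μ) {ω | (kac ε n ω).eval 1 = 0}) atTop (𝓝 0) := by
  have hPm : IsProbabilityMeasure (Pm μ) := by unfold Pm; infer_instance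
  obtain ⟨θ0, hθ0, hθ1, hθ⟩ := exists_theta0 μ h2 h0 h1
  -- the bound
  let s : ℕ → ℝ := fun n => Real.sqrt ((n : ℝ) + 1)
  have hs1 : ∀ n, 1 ≤ s n := fun n => by
    have : Real.sqrt 1 ≤ Real.sqrt ((n : ℝ) + 1) := Real.sqrt_le_sqrt (by
      have : (0 : ℝ) ≤ n := Nat.cast_nonneg n
      linarith)
    rwa [Real.sqrt_one] at this
  have hbound : ∀ n : ℕ, (Pm μ).real {ω | (kac ε n ω).eval 1 = 0} ≤
      Real.exp (1 / 2) * (1 / Real.sqrt (1 + θ0 ^ 2 * s n / 2)
        + Real.sqrt 2 * Real.exp (-(s n / 4))) := by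
    intro n
    have hs0 : 0 < s n := lt_of_lt_of_le one_pos (hs1 n)
    set L := Real.sqrt (s n) with hL
    have hLpos : 0 < L := Real.sqrt_pos.mpr hs0
    have hL2 : L ^ 2 = s n := Real.sq_sqrt hs0.le
    have hsn : s n ^ 2 = (n : ℝ) + 1 := Real.sq_sqrt (by positivity)
    have hεk : ∀ k : ℕ, |ε ^ k| = 1 := fun k => by
      rw [abs_pow]; rcases hε with rfl | rfl <;> simp
    have hεk2 : ∀ k : ℕ, (ε ^ k) ^ 2 = 1 := fun k => by
      rw [← sq_abs, hεk]; norm_num
    have h := small_ball_bound (fun _ : ℕ => μ) 1 (n + 1) (fun _ k => θ0 / L * ε ^ k)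
      (fun _ => θ0 ^ 2 * s n) (fun _ _ => by positivity) L hLpos.le (by
        intro y hy
        have hy0 : |y 0| ≤ L := hy 0 (by norm_num)
        refine (Phi_decay μ hθ (n + 1) _ ?_).trans (le_of_eq ?_)
        · intro k _
          simp only [Finset.range_one, Finset.sum_singleton]
          rw [abs_mul, abs_mul, hεk, mul_one, abs_of_pos (div_pos hθ0 hLpos)]
          calc |y 0| * (θ0 / L) ≤ L * (θ0 / L) :=
                mul_le_mul_of_nonneg_right hy0 (div_pos hθ0 hLpos).le
            _ = θ0 := by field_simp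
        · congr 2
          simp only [Finset.range_one, Finset.sum_singleton]
          have e1 : ∀ k ∈ Finset.range (n + 1), (y 0 * (θ0 / L * ε ^ k)) ^ 2 =
              y 0 ^ 2 * (θ0 ^ 2 / s n) := by
            intro k _
            rw [mul_pow, mul_pow, hεk2, mul_one, div_pow, hL2]
          rw [Finset.sum_congr rfl e1, Finset.sum_const, Finset.card_range, nsmul_eq_mul]
          push_cast
          rw [← hsn]
          field_simp)
    simp only [Nat.cast_one, Finset.range_one, Finset.prod_singleton, one_mul] at h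
    rw [hL2] at h
    refine le_trans ?_ h
    refine measureReal_mono ?_
    intro ω hω i _
    have h3 : lin (fun k => θ0 / L * ε ^ k) (n + 1) ω = 0 := by
      have h4 : (kac ε n ω).eval 1 = 0 := hω
      have h5 : (kac ε n ω).eval 1 = ∑ k ∈ Finset.range (n + 1), ε ^ k * ω k := by
        simp [kac, eval_finsetSum]
      rw [h5] at h4
      unfold lin
      have h6 : ∑ k ∈ Finset.range (n + 1), θ0 / L * ε ^ k * ω k =
          θ0 / L * ∑ k ∈ Finset.range (n + 1), ε ^ k * ω k := by
        rw [Finset.mul_sum]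
        exact Finset.sum_congr rfl fun k _ => by ring
      rw [h6, h4, mul_zero]
    change |lin (fun k => θ0 / L * ε ^ k) (n + 1) ω| ≤ 1
    rw [h3]
    simp
  have hsinf : Tendsto s atTop atTop :=
    Real.tendsto_sqrt_atTop.comp (tendsto_atTop_add_const_right _ _ tendsto_natCast_atTop_atTop)
  have hlim : Tendsto (fun n : ℕ => Real.exp (1 / 2) * (1 / Real.sqrt (1 + θ0 ^ 2 * s n / 2)
        + Real.sqrt 2 * Real.exp (-(s n / 4)))) atTop (𝓝 (Real.exp (1 / 2) * (0 + Real.sqrt 2 * 0))) := by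
    refine Tendsto.const_mul _ (Tendsto.add ?_ (Tendsto.const_mul _ ?_))
    · have h3 : Tendsto (fun n : ℕ => 1 + θ0 ^ 2 * s n / 2) atTop atTop := by
        refine tendsto_atTop_add_const_left _ _ ?_
        have h4 : Tendsto (fun n : ℕ => (θ0 ^ 2 / 2) * s n) atTop atTop :=
          hsinf.const_mul_atTop (by positivity)
        refine h4.congr fun n => ?_
        ring
      have h5 := (Real.tendsto_sqrt_atTop.comp h3).inv_tendsto_atTop
      refine h5.congr fun n => ?_
      simp
    · refine Real.tendsto_exp_atBot.comp ?_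
      refine tendsto_neg_atTop_atBot.comp ?_
      exact hsinf.atTop_div_const (by norm_num)
  rw [mul_zero, add_zero, mul_zero] at hlim
  have hreal : Tendsto (fun n : ℕ => (Pm μ).real {ω | (kac ε n ω).eval 1 = 0}) atTop (𝓝 0) :=
    squeeze_zero (fun n => measureReal_nonneg) hbound hlim
  have h7 := ENNReal.tendsto_ofReal hreal
  rw [ENNReal.ofReal_zero] at h7
  refine h7.congr fun n => ?_
  exact ENNReal.ofReal_toReal (measure_ne_top _ _)

end Pool.Agent.H89.Kac
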