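import Pool.Agent.H89.Kac.Defs
import Pool.Agent.H89.Kac.ModA
import Pool.Agent.H89.Kac.ModD
import Pool.Agent.H89.Kac.ModE
import Pool.Agent.H89.Kac.ModF

/-!
# Module K: assembly

The local estimate `TLoc` near `1`, together with the convergence of the expected number of roots in
`(0, b]` for `b < 1` (module I) and `P(P_n(±1) = 0) → 0` (module J), gives the convergence of
`E N_n - (2/π) log n`.
-/

set_option autoImplicit false

open MeasureTheory Filter Topology ProbabilityTheory Polynomial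

namespace Pool.Agent.H89.Kac

/-- local estimate on dyadic blocks near `1`; this is what the core will prove. -/
def TLoc (μ : Measure ℝ) (κ : ℕ) : Prop :=
  ∃ (j0 : ℕ) (e : ℕ → ℝ), Summable e ∧ ∀ j : ℕ, j0 ≤ j → ∀ n : ℕ, 2 ^ (κ * j) ≤ n →
    ∀ ε : ℝ, (ε = 1 ∨ ε = -1) →
    ((2 ^ (κ * (j + 1)) ≤ n →
      |(∫ ω, (Z (kac ε n ω) (1 - 1 / 2 ^ (κ * j)) (1 - 1 / 2 ^ (κ * (j + 1))) : ℝ) ∂(Pm μ))
        - ∫ x in (1 - 1 / 2 ^ (κ * j) : ℝ)..(1 - 1 / 2 ^ (κ * (j + 1))), rho n x| ≤ e j) ∧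
     (n < 2 ^ (κ * (j + 1)) →
      |(∫ ω, (Z (kac ε n ω) (1 - 1 / 2 ^ (κ * j)) 1 : ℝ) ∂(Pm μ))
        - ∫ x in (1 - 1 / 2 ^ (κ * j) : ℝ)..1, rho n x| ≤ e j))

/-! ### Elementary facts -/

theorem Z_le_deg (ε : ℝ) (n : ℕ) (c : ℕ → ℝ) (a b : ℝ) : Z (kac ε n c) a b ≤ n := by
  unfold Z
  refine (Finset.card_filter_le _ _).trans ((Multiset.toFinset_card_le _).trans
    ((Polynomial.card_roots' _).trans ?_))
  unfold kac
  refine Polynomial.natDegree_sum_le_of_forall_le _ _ fun k hk => ?_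
  rw [Finset.mem_range] at hk
  exact (Polynomial.natDegree_C_mul_X_pow_le _ _).trans (by omega)

theorem measurable_Zreal (ε : ℝ) (n : ℕ) (a b : ℝ) :
    Measurable (fun ω : ℕ → ℝ => (Z (kac ε n ω) a b : ℝ)) :=
  (measurable_of_countable (fun k : ℕ => (k : ℝ))).comp (modE1 ε n a b)

theorem measurable_ZENN (ε : ℝ) (n : ℕ) (a b : ℝ) :
    Measurable (fun ω : ℕ → ℝ => (Z (kac ε n ω) a b : ENNReal)) :=
  (measurable_of_countable (fun k : ℕ => (k : ENNReal))).comp (modE1 ε n a b)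

theorem isProb_Pm (μ : Measure ℝ) [IsProbabilityMeasure μ] : IsProbabilityMeasure (Pm μ) := by
  unfold Pm; infer_instance

theorem integrable_Z (μ : Measure ℝ) [IsProbabilityMeasure μ] (ε : ℝ) (n : ℕ) (a b : ℝ) :
    Integrable (fun ω : ℕ → ℝ => (Z (kac ε n ω) a b : ℝ)) (Pm μ) := by
  have := isProb_Pm μ
  refine Integrable.of_bound (measurable_Zreal ε n a b).aestronglyMeasurable (n : ℝ)
    (Eventually.of_forall fun ω => ?_)
  rw [Real.norm_of_nonneg (Nat.cast_nonneg _)]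
  exact_mod_cast Z_le_deg ε n ω a b

/-- expected number of roots in `(a, b]`. -/
noncomputable def EZ (μ : Measure ℝ) (ε : ℝ) (n : ℕ) (a b : ℝ) : ℝ :=
  ∫ ω, (Z (kac ε n ω) a b : ℝ) ∂(Pm μ)

theorem EZ_add (μ : Measure ℝ) [IsProbabilityMeasure μ] (ε : ℝ) (n : ℕ) {a b c : ℝ}
    (hac : a ≤ c) (hcb : c ≤ b) : EZ μ ε n a b = EZ μ ε n a c + EZ μ ε n c b := by
  unfold EZ
  rw [← integral_add (integrable_Z μ ε n a c) (integrable_Z μ ε n c b)]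
  refine integral_congr_ae (Eventually.of_forall fun ω => ?_)
  have := Z_add (kac ε n ω) hac hcb
  simp only
  exact_mod_cast this

/-- the difference between the expected number of roots and the Kac integral. -/
noncomputable def RR (μ : Measure ℝ) (ε : ℝ) (n : ℕ) (a b : ℝ) : ℝ :=
  EZ μ ε n a b - ∫ x in a..b, rho n x

theorem RR_add (μ : Measure ℝ) [IsProbabilityMeasure μ] (ε : ℝ) (n : ℕ) {a b c : ℝ}
    (hac : a ≤ c) (hcb : c ≤ b) : RR μ ε n a b = RR μ ε n a c + RR μ ε n c b := by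
  unfold RR
  rw [EZ_add μ ε n hac hcb, ← intervalIntegral.integral_add_adjacent_intervals
    ((continuous_rho n).intervalIntegrable a c) ((continuous_rho n).intervalIntegrable c b)]
  ring

/-- the dyadic points. -/
noncomputable def bb (κ j : ℕ) : ℝ := 1 - 1 / 2 ^ (κ * j)

theorem bb_le_one (κ j : ℕ) : bb κ j ≤ 1 := by
  unfold bb
  have : (0 : ℝ) ≤ 1 / 2 ^ (κ * j) := by positivity
  linarith

theorem bb_lt_one (κ j : ℕ) : bb κ j < 1 := by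
  unfold bb
  have : (0 : ℝ) < 1 / 2 ^ (κ * j) := by positivity
  linarith

theorem bb_nonneg (κ j : ℕ) : 0 ≤ bb κ j := by
  unfold bb
  have h1 : (1 : ℝ) ≤ 2 ^ (κ * j) := one_le_pow₀ (by norm_num)
  have h2 : 1 / (2 : ℝ) ^ (κ * j) ≤ 1 := by
    rw [div_le_one (by positivity)]; exact h1
  linarith

theorem bb_pos (κ j : ℕ) (hκ : 1 ≤ κ) (hj : 1 ≤ j) : 0 < bb κ j := by
  unfold bb
  have h0 : κ * j ≠ 0 := by positivity
  have h1 : (1 : ℝ) < 2 ^ (κ * j) := one_lt_pow₀ (by norm_num) h0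
  have h2 : 1 / (2 : ℝ) ^ (κ * j) < 1 := by
    rw [div_lt_one (by positivity)]; exact h1
  linarith

theorem bb_mono (κ j : ℕ) : bb κ j ≤ bb κ (j + 1) := by
  unfold bb
  have h1 : (2 : ℝ) ^ (κ * j) ≤ 2 ^ (κ * (j + 1)) :=
    pow_le_pow_right₀ (by norm_num) (Nat.mul_le_mul_left κ (Nat.le_succ j))
  have h2 : 1 / (2 : ℝ) ^ (κ * (j + 1)) ≤ 1 / 2 ^ (κ * j) :=
    one_div_le_one_div_of_le (by positivity) h1
  linarith

/-- the terms of the series. -/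
noncomputable def dd (μ : Measure ℝ) (ε : ℝ) (κ j n : ℕ) : ℝ :=
  if 2 ^ (κ * (j + 1)) ≤ n then RR μ ε n (bb κ j) (bb κ (j + 1))
  else if 2 ^ (κ * j) ≤ n then RR μ ε n (bb κ j) 1 else 0

theorem RR_eq_sum (μ : Measure ℝ) [IsProbabilityMeasure μ] (ε : ℝ) (κ j1 n : ℕ)
    (hn : 2 ^ (κ * j1) ≤ n) (m : ℕ) :
    RR μ ε n (bb κ j1) 1 = ∑ j ∈ Finset.range m, dd μ ε κ (j1 + j) n
      + (if 2 ^ (κ * (j1 + m)) ≤ n then RR μ ε n (bb κ (j1 + m)) 1 else 0) := by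
  induction m with
  | zero => simp [hn]
  | succ m ih =>
    rw [ih, Finset.sum_range_succ, add_assoc]
    congr 1
    have hmono : 2 ^ (κ * (j1 + m)) ≤ 2 ^ (κ * (j1 + (m + 1))) :=
      Nat.pow_le_pow_right (by norm_num) (Nat.mul_le_mul_left κ (by omega))
    by_cases h1 : 2 ^ (κ * (j1 + (m + 1))) ≤ n
    · have h2 : 2 ^ (κ * (j1 + m)) ≤ n := hmono.trans h1
      have h1' : 2 ^ (κ * (j1 + m + 1)) ≤ n := h1
      rw [if_pos h2, if_pos h1, dd, if_pos h1']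
      exact RR_add μ ε n (bb_mono κ (j1 + m)) (bb_le_one _ _)
    · have h1' : ¬ 2 ^ (κ * (j1 + m + 1)) ≤ n := h1
      rw [if_neg h1, dd, if_neg h1', add_zero]

theorem RR_eq_tsum (μ : Measure ℝ) [IsProbabilityMeasure μ] (ε : ℝ) (κ j1 n : ℕ) (hκ : 1 ≤ κ)
    (hn : 2 ^ (κ * j1) ≤ n) :
    RR μ ε n (bb κ j1) 1 = ∑' j : ℕ, dd μ ε κ (j1 + j) n := by
  have hbig : ∀ m : ℕ, n ≤ m → ¬ 2 ^ (κ * (j1 + m)) ≤ n := by
    intro m hm h
    have h1 : m < 2 ^ m := Nat.lt_two_pow_self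
    have h2 : 2 ^ m ≤ 2 ^ (κ * (j1 + m)) := by
      apply Nat.pow_le_pow_right (by norm_num)
      nlinarith
    omega
  rw [tsum_eq_sum (s := Finset.range n)]
  · rw [RR_eq_sum μ ε κ j1 n hn n, if_neg (hbig n le_rfl), add_zero]
  · intro m hm
    rw [Finset.mem_range, not_lt] at hm
    have h1 := hbig m hm
    have h2 : ¬ 2 ^ (κ * (j1 + m + 1)) ≤ n := hbig (m + 1) (by omega)
    rw [dd, if_neg h2, if_neg h1]

theorem tendsto_RR_zero (μ : Measure ℝ) [IsProbabilityMeasure μ] (ε : ℝ)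
    (hI : ∀ b : ℝ, 0 < b → b < 1 →
      ∃ L : ℝ, Tendsto (fun n : ℕ => ∫ ω, (Z (kac ε n ω) 0 b : ℝ) ∂(Pm μ)) atTop (𝓝 L))
    (b : ℝ) (hb0 : 0 < b) (hb1 : b < 1) :
    ∃ L : ℝ, Tendsto (fun n : ℕ => RR μ ε n 0 b) atTop (𝓝 L) := by
  obtain ⟨L1, hL1⟩ := hI b hb0 hb1
  obtain ⟨L2, hL2⟩ := modA1 b hb0 hb1
  exact ⟨L1 - L2, hL1.sub hL2⟩

theorem tendsto_RR_all (μ : Measure ℝ) [IsProbabilityMeasure μ] (ε : ℝ)
    (hε : ε = 1 ∨ ε = -1) (κ : ℕ) (hκ : 1 ≤ κ) (hT : TLoc μ κ)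
    (hI : ∀ b : ℝ, 0 < b → b < 1 →
      ∃ L : ℝ, Tendsto (fun n : ℕ => ∫ ω, (Z (kac ε n ω) 0 b : ℝ) ∂(Pm μ)) atTop (𝓝 L)) :
    ∃ L : ℝ, Tendsto (fun n : ℕ => RR μ ε n 0 1) atTop (𝓝 L) := by
  obtain ⟨j0, e, he, hTe⟩ := hT
  have hlim := tendsto_RR_zero μ ε hI
  -- start at j1 ≥ max j0 1
  set j1 : ℕ := j0 + 1 with hj1
  obtain ⟨L1, hL1⟩ := hlim (bb κ j1) (bb_pos κ j1 hκ (by omega)) (bb_lt_one κ j1)
  -- limits of the individual terms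
  have hterm : ∀ j : ℕ, ∃ L : ℝ, Tendsto (fun n : ℕ => dd μ ε κ (j1 + j) n) atTop (𝓝 L) := by
    intro j
    obtain ⟨La, hLa⟩ := hlim (bb κ (j1 + j)) (bb_pos κ _ hκ (by omega)) (bb_lt_one κ _)
    obtain ⟨Lb, hLb⟩ := hlim (bb κ (j1 + j + 1)) (bb_pos κ _ hκ (by omega)) (bb_lt_one κ _)
    refine ⟨Lb - La, (hLb.sub hLa).congr' ?_⟩
    filter_upwards [eventually_ge_atTop (2 ^ (κ * (j1 + j + 1)))] with n hn
    rw [dd, if_pos hn, RR_add μ ε n (bb_nonneg κ (j1 + j)) (bb_mono κ (j1 + j))]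
    ring
  choose g hg using hterm
  have hbound : ∀ j : ℕ, ∀ n : ℕ, ‖dd μ ε κ (j1 + j) n‖ ≤ e (j1 + j) := by
    intro j n
    have hj : j0 ≤ j1 + j := by omega
    have hmono : 2 ^ (κ * (j1 + j)) ≤ 2 ^ (κ * (j1 + j + 1)) :=
      Nat.pow_le_pow_right (by norm_num) (Nat.mul_le_mul_left κ (by omega))
    have he0 : 0 ≤ e (j1 + j) :=
      (abs_nonneg _).trans ((hTe (j1 + j) hj (2 ^ (κ * (j1 + j + 1))) hmono ε hε).1 le_rfl)
    rw [Real.norm_eq_abs, dd]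
    split_ifs with h1 h2
    · exact (hTe (j1 + j) hj n (hmono.trans h1) ε hε).1 h1
    · exact (hTe (j1 + j) hj n h2 ε hε).2 (not_le.1 h1)
    · rw [abs_zero]; exact he0
  have hsum : Summable (fun j : ℕ => e (j1 + j)) := by
    have := (summable_nat_add_iff j1).2 he
    refine this.congr fun j => ?_
    rw [add_comm]
  have htend : Tendsto (fun n : ℕ => ∑' j : ℕ, dd μ ε κ (j1 + j) n) atTop (𝓝 (∑' j : ℕ, g j)) :=
    tendsto_tsum_of_dominated_convergence hsum hg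
      (Eventually.of_forall fun n j => hbound j n)
  refine ⟨L1 + ∑' j : ℕ, g j, (hL1.add htend).congr' ?_⟩
  filter_upwards [eventually_ge_atTop (2 ^ (κ * j1))] with n hn
  rw [← RR_eq_tsum μ ε κ j1 n hκ hn]
  exact (RR_add μ ε n (bb_nonneg κ j1) (bb_le_one κ j1)).symm

/-! ### The atom term -/

theorem coeff_kac (ε : ℝ) (n : ℕ) (c : ℕ → ℝ) (k : ℕ) :
    (kac ε n c).coeff k = if k ≤ n then ε ^ k * c k else 0 := by
  unfold kac
  rw [Polynomial.finsetSum_coeff]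
  simp only [Polynomial.coeff_C_mul_X_pow]
  rw [Finset.sum_ite_eq]
  simp

theorem kac_ne_zero_mono {n m : ℕ} (hnm : n ≤ m) (c : ℕ → ℝ) (h : kac 1 n c ≠ 0) :
    kac 1 m c ≠ 0 := by
  intro h0
  apply h
  ext k
  rw [coeff_kac, Polynomial.coeff_zero]
  split_ifs with hk
  · have := coeff_kac 1 m c k
    rw [h0, Polynomial.coeff_zero, if_pos (hk.trans hnm)] at this
    exact this.symm
  · rfl

theorem tendsto_atom (μ : Measure ℝ) [IsProbabilityMeasure μ] :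
    ∃ L : ℝ, Tendsto (fun n : ℕ => ((Pm μ) {ω | kac 1 n ω ≠ 0 ∧ ω 0 = 0}).toReal) atTop (𝓝 L) := by
  have := isProb_Pm μ
  refine ⟨((Pm μ) (⋃ n : ℕ, {ω | kac 1 n ω ≠ 0 ∧ ω 0 = 0})).toReal, ?_⟩
  refine (ENNReal.tendsto_toReal (measure_ne_top _ _)).comp ?_
  refine tendsto_measure_iUnion_atTop ?_
  intro n m hnm ω hω
  exact ⟨kac_ne_zero_mono hnm ω hω.1, hω.2⟩

theorem EZ_eq_toReal (μ : Measure ℝ) [IsProbabilityMeasure μ] (ε : ℝ) (n : ℕ) (a b : ℝ) :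
    (∫⁻ ω, (Z (kac ε n ω) a b : ENNReal) ∂(Pm μ)).toReal = EZ μ ε n a b := by
  unfold EZ
  rw [integral_eq_lintegral_of_nonneg_ae (Eventually.of_forall fun ω => Nat.cast_nonneg _)
    (measurable_Zreal ε n a b).aestronglyMeasurable]
  congr 1
  refine lintegral_congr fun ω => ?_
  rw [ENNReal.ofReal_natCast]

theorem lintegral_Z_ne_top (μ : Measure ℝ) [IsProbabilityMeasure μ] (ε : ℝ) (n : ℕ) (a b : ℝ) :
    (∫⁻ ω, (Z (kac ε n ω) a b : ENNReal) ∂(Pm μ)) ≠ ⊤ := by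
  have := isProb_Pm μ
  refine ne_top_of_le_ne_top (ENNReal.natCast_ne_top n) ?_
  calc (∫⁻ ω, (Z (kac ε n ω) a b : ENNReal) ∂(Pm μ)) ≤ ∫⁻ _, (n : ENNReal) ∂(Pm μ) := by
        refine lintegral_mono fun ω => ?_
        exact Nat.cast_le.2 (Z_le_deg ε n ω a b)
    _ = n := by simp

/-- the assembly. -/
theorem modK (μ : Measure ℝ) [IsProbabilityMeasure μ] (_h2 : Integrable (fun x : ℝ => x ^ 2) μ)
    (_h0 : ∫ x, x ∂μ = 0) (_h1 : ∫ x, x ^ 2 ∂μ = 1) (κ : ℕ) (hκ : 1 ≤ κ) (hT : TLoc μ κ)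
    (hI : ∀ ε : ℝ, (ε = 1 ∨ ε = -1) → ∀ b : ℝ, 0 < b → b < 1 →
      ∃ L : ℝ, Tendsto (fun n : ℕ => ∫ ω, (Z (kac ε n ω) 0 b : ℝ) ∂(Pm μ)) atTop (𝓝 L))
    (hJ : ∀ ε : ℝ, (ε = 1 ∨ ε = -1) →
      Tendsto (fun n : ℕ => (Pm μ) {ω | (kac ε n ω).eval 1 = 0}) atTop (𝓝 0)) :
    ∃ C : ℝ, Tendsto
        (fun n : ℕ =>
          (∫⁻ c : Fin (n + 1) → ℝ,
              (((∑ k : Fin (n + 1), Polynomial.C (c k) * Polynomial.X ^ (k : ℕ)).roots.toFinset.card : ℕ) : ENNReal)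
              ∂(Measure.pi fun _ : Fin (n + 1) => μ)).toReal
            - 2 / Real.pi * Real.log (n : ℝ))
        atTop (𝓝 C) := by
  have hprob := isProb_Pm μ
  obtain ⟨Lp, hLp⟩ := tendsto_RR_all μ 1 (Or.inl rfl) κ hκ hT (hI 1 (Or.inl rfl))
  obtain ⟨Lm, hLm⟩ := tendsto_RR_all μ (-1) (Or.inr rfl) κ hκ hT (hI (-1) (Or.inr rfl))
  obtain ⟨A, hA⟩ := modA2
  obtain ⟨P, hP⟩ := tendsto_atom μ
  have hJ' : ∀ ε : ℝ, (ε = 1 ∨ ε = -1) →
      Tendsto (fun n : ℕ => ((Pm μ) {ω | kac ε n ω ≠ 0 ∧ (kac ε n ω).eval 1 = 0}).toReal)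
        atTop (𝓝 0) := by
    intro ε hε
    have h1 : Tendsto (fun n : ℕ => (Pm μ) {ω | kac ε n ω ≠ 0 ∧ (kac ε n ω).eval 1 = 0})
        atTop (𝓝 0) := by
      refine tendsto_of_tendsto_of_tendsto_of_le_of_le tendsto_const_nhds (hJ ε hε)
        (fun n => bot_le) fun n => ?_
      exact measure_mono fun ω hω => hω.2
    have h2 := (ENNReal.tendsto_toReal ENNReal.zero_ne_top).comp h1
    rw [ENNReal.toReal_zero] at h2
    exact h2
  have hJ1 := hJ' 1 (Or.inl rfl)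
  have hJ2 := hJ' (-1) (Or.inr rfl)
  refine ⟨P + 2 * Lp + 2 * Lm + 4 * A - 0 - 0, ?_⟩
  refine (((((hP.add (hLp.const_mul 2)).add (hLm.const_mul 2)).add (hA.const_mul 4)).sub hJ1).sub
    hJ2).congr fun n => ?_
  have hF := modF μ n
  have hR : (Pm μ) {ω | kac 1 n ω ≠ 0 ∧ ω 0 = 0}
      + 2 * ∫⁻ ω, (Z (kac 1 n ω) 0 1 : ENNReal) ∂(Pm μ)
      + 2 * ∫⁻ ω, (Z (kac (-1) n ω) 0 1 : ENNReal) ∂(Pm μ) ≠ ⊤ := by
    refine ENNReal.add_ne_top.2 ⟨ENNReal.add_ne_top.2 ⟨measure_ne_top _ _, ?_⟩, ?_⟩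
    · exact ENNReal.mul_ne_top (by norm_num) (lintegral_Z_ne_top μ 1 n 0 1)
    · exact ENNReal.mul_ne_top (by norm_num) (lintegral_Z_ne_top μ (-1) n 0 1)
  have hNtop : (∫⁻ c : Fin (n + 1) → ℝ,
              (((∑ k : Fin (n + 1), Polynomial.C (c k) * Polynomial.X ^ (k : ℕ)).roots.toFinset.card : ℕ) : ENNReal)
              ∂(Measure.pi fun _ : Fin (n + 1) => μ)) ≠ ⊤ := by
    refine ne_top_of_le_ne_top hR ?_
    rw [← hF]
    exact le_self_add.trans le_self_add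
  have hF' := congrArg ENNReal.toReal hF
  rw [ENNReal.toReal_add (ENNReal.add_ne_top.2 ⟨hNtop, measure_ne_top _ _⟩) (measure_ne_top _ _),
    ENNReal.toReal_add hNtop (measure_ne_top _ _),
    ENNReal.toReal_add (ENNReal.add_ne_top.2 ⟨measure_ne_top _ _,
      ENNReal.mul_ne_top (by norm_num) (lintegral_Z_ne_top μ 1 n 0 1)⟩)
      (ENNReal.mul_ne_top (by norm_num) (lintegral_Z_ne_top μ (-1) n 0 1)),
    ENNReal.toReal_add (measure_ne_top _ _)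
      (ENNReal.mul_ne_top (by norm_num) (lintegral_Z_ne_top μ 1 n 0 1)),
    ENNReal.toReal_mul, ENNReal.toReal_mul, EZ_eq_toReal, EZ_eq_toReal, ENNReal.toReal_ofNat] at hF'
  have hpi : 4 * (1 / (2 * Real.pi) * Real.log (n : ℝ)) = 2 / Real.pi * Real.log (n : ℝ) := by
    field_simp
    ring
  simp only [RR]
  linarith

end Pool.Agent.H89.Kac
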