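import Pool.Agent.H89.Kac.Defs
import Pool.Agent.H89.Kac.ModD

/-!
# Module L: deterministic grid lemmas
-/

set_option autoImplicit false

open MeasureTheory Filter Topology ProbabilityTheory Polynomial

namespace Pool.Agent.H89.Kac

/-- mean value inequality for a polynomial on a subinterval. -/
theorem abs_eval_sub_le (p : ℝ[X]) (a b S : ℝ)
    (hS : ∀ x ∈ Set.Icc a b, |(derivative p).eval x| ≤ S) {x y : ℝ} (hx : x ∈ Set.Icc a b)
    (hy : y ∈ Set.Icc a b) : |p.eval y - p.eval x| ≤ S * |y - x| := by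
  have h3 : ‖p.eval y - p.eval x‖ ≤ S * ‖y - x‖ := by
    apply Convex.norm_image_sub_le_of_norm_hasDerivWithin_le
      (f := fun y => p.eval y) (f' := fun y => (derivative p).eval y) (s := Set.Icc a b)
    · intro z _
      exact (p.hasDerivAt z).hasDerivWithinAt
    · intro z hz
      exact hS z hz
    · exact convex_Icc a b
    · exact hx
    · exact hy
  simpa [Real.norm_eq_abs] using h3

theorem modL1 (p : ℝ[X]) (a b : ℝ) (hab : a < b) (m : ℕ) (hm : 1 ≤ m) (η S : ℝ)
    (hS : ∀ x ∈ Set.Icc a b, |((derivative^[2]) p).eval x| ≤ S)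
    (hc : ∃ c ∈ Set.Ioo a b, (derivative p).eval c = 0 ∧ |p.eval c| ≤ η) :
    ∃ i : ℕ, i < m ∧ |p.eval (a + i * ((b - a) / m))| ≤ η + ((b - a) / m) ^ 2 * S ∧
      |(derivative p).eval (a + i * ((b - a) / m))| ≤ ((b - a) / m) * S := by
  obtain ⟨c, hc, hc1, hc2⟩ := hc
  have hm0 : (0 : ℝ) < m := by exact_mod_cast hm
  set h : ℝ := (b - a) / m with hh
  have hh0 : 0 < h := div_pos (by linarith) hm0
  have hmh : (m : ℝ) * h = b - a := by rw [hh]; field_simp
  have hca : 0 ≤ (c - a) / h := div_nonneg (by linarith [hc.1]) hh0.le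
  have hfl := Nat.floor_le hca
  have hlt := Nat.lt_floor_add_one ((c - a) / h)
  set i : ℕ := ⌊(c - a) / h⌋₊ with hi
  have h1 : (i : ℝ) * h ≤ c - a := (le_div_iff₀ hh0).1 hfl
  have h2 : c - a < ((i : ℝ) + 1) * h := (div_lt_iff₀ hh0).1 hlt
  have him : i < m := by
    have h3 : (i : ℝ) * h < m * h := by rw [hmh]; linarith [hc.2]
    have h4 : (i : ℝ) < m := lt_of_mul_lt_mul_right h3 hh0.le
    exact_mod_cast h4
  have hih : 0 ≤ (i : ℝ) * h := by positivity
  have hS0 : 0 ≤ S := (abs_nonneg _).trans (hS a ⟨le_rfl, hab.le⟩)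
  have hcI : c ∈ Set.Icc a b := ⟨hc.1.le, hc.2.le⟩
  -- derivative bound between the grid point and `c`
  have hS' : ∀ x ∈ Set.Icc a b, |(derivative (derivative p)).eval x| ≤ S := by
    intro x hx
    simpa using hS x hx
  have hd : ∀ x ∈ Set.Icc (a + i * h) c, |(derivative p).eval x| ≤ h * S := by
    intro x hx
    have hxI : x ∈ Set.Icc a b := ⟨by linarith [hx.1], by linarith [hx.2, hc.2]⟩
    have h5 := abs_eval_sub_le (derivative p) a b S hS' hcI hxI
    rw [hc1, sub_zero] at h5
    have h6 : |x - c| ≤ h := by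
      rw [abs_le]
      constructor <;> linarith [hx.1, hx.2]
    calc |(derivative p).eval x| ≤ S * |x - c| := h5
      _ ≤ S * h := mul_le_mul_of_nonneg_left h6 hS0
      _ = h * S := mul_comm _ _
  have hyI : a + i * h ∈ Set.Icc (a + i * h) c := ⟨le_rfl, by linarith⟩
  refine ⟨i, him, ?_, hd _ hyI⟩
  have h7 := abs_eval_sub_le p (a + i * h) c (h * S) hd (x := c) ⟨by linarith, le_rfl⟩ hyI
  have h8 : |a + i * h - c| ≤ h := by
    rw [abs_le]
    constructor <;> linarith
  have h9 : h * S * |a + i * h - c| ≤ h * S * h :=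
    mul_le_mul_of_nonneg_left h8 (by positivity)
  calc |p.eval (a + i * h)| = |(p.eval (a + i * h) - p.eval c) + p.eval c| := by ring_nf
    _ ≤ |p.eval (a + i * h) - p.eval c| + |p.eval c| := abs_add_le _ _
    _ ≤ h * S * h + η := by linarith
    _ = η + h ^ 2 * S := by ring

theorem Z_grid (p : ℝ[X]) (a h : ℝ) (hh : 0 ≤ h) (i : ℕ) :
    Z p a (a + i * h) = ∑ k ∈ Finset.range i, Z p (a + k * h) (a + ((k + 1 : ℕ) : ℝ) * h) := by
  induction i with
  | zero =>
    have : Z p a a = 0 := by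
      unfold Z
      rw [Finset.card_eq_zero, Finset.filter_eq_empty_iff]
      intro x _ hx
      linarith [hx.1, hx.2]
    simpa using this
  | succ i ih =>
    rw [Finset.sum_range_succ, ← ih]
    apply Z_add
    · have : 0 ≤ (i : ℝ) * h := by positivity
      linarith
    · have : (i : ℝ) * h ≤ ((i + 1 : ℕ) : ℝ) * h := by
        apply mul_le_mul_of_nonneg_right _ hh
        exact_mod_cast Nat.le_succ i
      linarith

/-- if `p` has more than `m * q` roots in `(a,b]`, some cell of the grid has at least `q` roots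
(closed cell), hence `p`, `p'`, `p''` are tiny at the left endpoint of the cell. -/
theorem modL2 (p : ℝ[X]) (a b : ℝ) (hab : a < b) (m : ℕ) (hm : 1 ≤ m) (q : ℕ) (hq : 3 ≤ q) (S : ℝ)
    (hS : ∀ x ∈ Set.Icc a b, |((derivative^[q]) p).eval x| ≤ S)
    (hZ : m * q < Z p a b) (_hlen : (b - a) / m ≤ 1) :
    ∃ i : ℕ, i < m ∧ |p.eval (a + i * ((b - a) / m))| ≤ ((b - a) / m) ^ q * S ∧
      |(derivative p).eval (a + i * ((b - a) / m))| ≤ ((b - a) / m) ^ (q - 1) * S ∧
      |((derivative^[2]) p).eval (a + i * ((b - a) / m))| ≤ ((b - a) / m) ^ (q - 2) * S := by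
  have hm0 : (0 : ℝ) < m := by exact_mod_cast hm
  set h : ℝ := (b - a) / m with hh
  have hh0 : 0 < h := div_pos (by linarith) hm0
  have hmh : (m : ℝ) * h = b - a := by rw [hh]; field_simp
  have hgrid := Z_grid p a h hh0.le m
  have hb : a + m * h = b := by rw [hmh]; ring
  rw [hb] at hgrid
  obtain ⟨i, hi, hiq⟩ : ∃ i ∈ Finset.range m,
      q < Z p (a + i * h) (a + ((i + 1 : ℕ) : ℝ) * h) := by
    by_contra hcon
    push Not at hcon
    have h1 : ∑ k ∈ Finset.range m, Z p (a + k * h) (a + ((k + 1 : ℕ) : ℝ) * h)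
        ≤ ∑ _k ∈ Finset.range m, q := Finset.sum_le_sum hcon
    rw [Finset.sum_const, Finset.card_range, smul_eq_mul, ← hgrid] at h1
    omega
  rw [Finset.mem_range] at hi
  have hih : 0 ≤ (i : ℝ) * h := by positivity
  set y : ℝ := a + i * h with hy
  have hy1 : a + ((i + 1 : ℕ) : ℝ) * h = y + h := by rw [hy]; push_cast; ring
  rw [hy1] at hiq
  have hyb : y + h ≤ b := by
    rw [← hb, ← hy1]
    have : ((i + 1 : ℕ) : ℝ) * h ≤ (m : ℝ) * h := by
      apply mul_le_mul_of_nonneg_right _ hh0.le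
      exact_mod_cast hi
    linarith
  have hyh : y ≤ y + h := by linarith
  have hsub : ∀ x ∈ Set.Icc y (y + h), x ∈ Set.Icc a b := fun x hx =>
    ⟨by linarith [hx.1], by linarith [hx.2]⟩
  -- numbers of roots
  have hc0 : q + 1 ≤ (p.roots.toFinset.filter (fun x => y ≤ x ∧ x ≤ y + h)).card := by
    refine (Nat.succ_le_of_lt hiq).trans ?_
    unfold Z
    apply Finset.card_le_card
    intro x hx
    rw [Finset.mem_filter] at hx ⊢
    exact ⟨hx.1, hx.2.1.le, hx.2.2⟩
  have hc1 : q ≤ ((derivative p).roots.toFinset.filter (fun x => y ≤ x ∧ x ≤ y + h)).card := by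
    have := card_roots_Icc_le p y (y + h)
    omega
  have hc2 : q - 1 ≤ ((derivative (derivative p)).roots.toFinset.filter
      (fun x => y ≤ x ∧ x ≤ y + h)).card := by
    have := card_roots_Icc_le (derivative p) y (y + h)
    omega
  have hlen' : y + h - y = h := by ring
  obtain ⟨r, rfl⟩ : ∃ r, q = r + 2 := ⟨q - 2, by omega⟩
  refine ⟨i, hi, ?_, ?_, ?_⟩
  · have := modD2 p y (y + h) hyh (r + 2) S (by omega) (fun x hx => hS x (hsub x hx)) y
      ⟨le_rfl, hyh⟩
    rwa [hlen'] at this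
  · have := modD2 (derivative p) y (y + h) hyh (r + 1) S (by omega)
      (fun x hx => by
        have := hS x (hsub x hx)
        rwa [Function.iterate_succ_apply] at this) y ⟨le_rfl, hyh⟩
    rw [hlen'] at this
    exact this
  · have := modD2 (derivative (derivative p)) y (y + h) hyh r S (by omega)
      (fun x hx => by
        have := hS x (hsub x hx)
        rwa [Function.iterate_succ_apply, Function.iterate_succ_apply] at this) y ⟨le_rfl, hyh⟩
    rw [hlen'] at this
    exact this

end Pool.Agent.H89.Kac
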