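import Pool.Agent.H89.Kac.Defs
import Pool.Agent.H89.Kac.Lin

set_option autoImplicit false

open MeasureTheory Filter Topology ProbabilityTheory Polynomial

namespace Pool.Agent.H89.Kac

/-- deterministic: `sup |p| ≤ |p(a)| + ∫ |p'|`. -/
theorem modS1 (p : ℝ[X]) (a b : ℝ) (hab : a ≤ b) :
    ∀ x ∈ Set.Icc a b, |p.eval x| ≤ |p.eval a| + ∫ y in a..b, |(derivative p).eval y| := by
  intro x hx
  have hc : Continuous (fun y => (derivative p).eval y) := (derivative p).continuous
  have h1 : ∫ y in a..x, (derivative p).eval y = p.eval x - p.eval a :=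
    intervalIntegral.integral_eq_sub_of_hasDerivAt (fun y _ => p.hasDerivAt y)
      (hc.intervalIntegrable _ _)
  have h2 : |∫ y in a..x, (derivative p).eval y| ≤ ∫ y in a..x, |(derivative p).eval y| :=
    intervalIntegral.abs_integral_le_integral_abs hx.1
  have h3 : ∫ y in a..x, |(derivative p).eval y| ≤ ∫ y in a..b, |(derivative p).eval y| :=
    intervalIntegral.integral_mono_interval le_rfl hx.1 hx.2
      (Filter.Eventually.of_forall fun _ => abs_nonneg _) (hc.abs.intervalIntegrable _ _)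
  have h4 : p.eval x = p.eval a + ∫ y in a..x, (derivative p).eval y := by rw [h1]; ring
  calc |p.eval x| = |p.eval a + ∫ y in a..x, (derivative p).eval y| := by rw [← h4]
    _ ≤ |p.eval a| + |∫ y in a..x, (derivative p).eval y| := abs_add_le _ _
    _ ≤ _ := by linarith

/-- values of the derivatives of `kac` as linear forms in the coefficients. -/
theorem eval_iterate_kac (ε : ℝ) (n i : ℕ) (ω : ℕ → ℝ) (x : ℝ) :
    ((derivative^[i]) (kac ε n ω)).eval x
      = lin (fun k => ε ^ k * ((k.descFactorial i : ℝ) * x ^ (k - i))) (n + 1) ω := by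
  unfold kac lin
  rw [Polynomial.iterate_derivative_sum, Polynomial.eval_finsetSum]
  refine Finset.sum_congr rfl fun k _ => ?_
  rw [Polynomial.iterate_derivative_C_mul, Polynomial.iterate_derivative_X_pow_eq_natCast_mul]
  simp only [eval_mul, eval_C, eval_natCast, eval_pow, eval_X]
  ring

theorem sum_eps_sq {ε : ℝ} (hε : ε = 1 ∨ ε = -1) (m : ℕ) (g : ℕ → ℝ) :
    ∑ k ∈ Finset.range m, (ε ^ k * g k) ^ 2 = ∑ k ∈ Finset.range m, (g k) ^ 2 := by
  refine Finset.sum_congr rfl fun k _ => ?_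
  rw [mul_pow, ← pow_mul, mul_comm k 2, pow_mul]
  rcases hε with h | h <;> simp [h]

/-- first moment of the derivatives -/
theorem integral_abs_eval (μ : Measure ℝ) [IsProbabilityMeasure μ]
    (h2 : Integrable (fun x : ℝ => x ^ 2) μ)
    (h0 : ∫ x, x ∂μ = 0) (h1 : ∫ x, x ^ 2 ∂μ = 1) {ε : ℝ} (hε : ε = 1 ∨ ε = -1) (n i : ℕ)
    (a A : ℝ) (hA : 0 ≤ A)
    (hA2 : ∑ k ∈ Finset.range (n + 1), ((k.descFactorial i : ℝ) * a ^ (k - i)) ^ 2 ≤ A ^ 2) :
    ∫ ω, |((derivative^[i]) (kac ε n ω)).eval a| ∂(Pm μ) ≤ A := by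
  simp only [eval_iterate_kac]
  refine (integral_abs_lin (fun _ => μ) (fun _ => h2) (fun _ => h0) (fun _ => h1.le) _ _).trans ?_
  rw [sum_eps_sq hε]
  exact Real.sqrt_le_iff.2 ⟨hA, hA2⟩

theorem integrable_abs_eval (μ : Measure ℝ) [IsProbabilityMeasure μ]
    (h2 : Integrable (fun x : ℝ => x ^ 2) μ) (ε : ℝ) (n i : ℕ) (a : ℝ) :
    Integrable (fun ω => |((derivative^[i]) (kac ε n ω)).eval a|) (Pm μ) := by
  simp only [eval_iterate_kac]
  exact ((memLp_lin (fun _ => μ) (fun _ => h2) _ _).integrable (by norm_num)).abs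

/-- joint integrability on the product with an interval -/
theorem integrable_prod_abs_eval (μ : Measure ℝ) [IsProbabilityMeasure μ]
    (h2 : Integrable (fun x : ℝ => x ^ 2) μ) (ε : ℝ) (n i : ℕ) (a b : ℝ) :
    Integrable (fun z : (ℕ → ℝ) × ℝ => |((derivative^[i]) (kac ε n z.1)).eval z.2|)
      ((Pm μ).prod (volume.restrict (Set.Ioc a b))) := by
  simp only [eval_iterate_kac]
  refine Integrable.abs ?_
  unfold lin
  refine integrable_finsetSum _ fun k _ => ?_
  have e : (fun z : (ℕ → ℝ) × ℝ => ε ^ k * ((k.descFactorial i : ℝ) * z.2 ^ (k - i)) * z.1 k)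
      = fun z : (ℕ → ℝ) × ℝ => z.1 k * (ε ^ k * ((k.descFactorial i : ℝ) * z.2 ^ (k - i))) := by
    ext z; ring
  rw [e]
  have hk : Integrable (fun ω : ℕ → ℝ => ω k) (Pm μ) := by
    have hh := memLp_coord (fun _ : ℕ => μ) (fun _ => h2) 1 k
    simp only [one_mul] at hh
    exact hh.integrable (by norm_num)
  have hx : Integrable (fun x : ℝ => ε ^ k * ((k.descFactorial i : ℝ) * x ^ (k - i)))
      (volume.restrict (Set.Ioc a b)) := by
    have hc : Continuous (fun x : ℝ => ε ^ k * ((k.descFactorial i : ℝ) * x ^ (k - i))) := by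
      fun_prop
    exact (hc.integrableOn_Icc (a := a) (b := b)).mono_set Set.Ioc_subset_Icc_self
  haveI : IsProbabilityMeasure (Pm μ) := by unfold Pm; infer_instance
  exact Integrable.mul_prod hk hx

/-- expectation: if the second moments of the derivatives are bounded on `[a,b]`, then the
probability that `|p(a)| + ∫ |p'|` is large is small. (`∑ (weights)^2` is the second moment.) -/
theorem modS2 (μ : Measure ℝ) [IsProbabilityMeasure μ] (h2 : Integrable (fun x : ℝ => x ^ 2) μ)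
    (h0 : ∫ x, x ∂μ = 0) (h1 : ∫ x, x ^ 2 ∂μ = 1) (ε : ℝ) (hε : ε = 1 ∨ ε = -1) (n i : ℕ)
    (a b A B : ℝ) (hab : a ≤ b) (hA : 0 ≤ A) (hB : 0 ≤ B)
    (hA2 : ∑ k ∈ Finset.range (n + 1), ((k.descFactorial i : ℝ) * a ^ (k - i)) ^ 2 ≤ A ^ 2)
    (hB2 : ∀ x ∈ Set.Icc a b,
      ∑ k ∈ Finset.range (n + 1), ((k.descFactorial (i + 1) : ℝ) * x ^ (k - (i + 1))) ^ 2 ≤ B ^ 2)
    (t : ℝ) (ht : 0 < t) :
    (Pm μ).real {ω | ∃ x ∈ Set.Icc a b, t < |((derivative^[i]) (kac ε n ω)).eval x|}
      ≤ (A + (b - a) * B) / t := by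
  haveI : IsProbabilityMeasure (Pm μ) := by unfold Pm; infer_instance
  have hsucc : ∀ ω : ℕ → ℝ, derivative ((derivative^[i]) (kac ε n ω))
      = (derivative^[i + 1]) (kac ε n ω) := fun ω => by rw [Function.iterate_succ_apply']
  let F : (ℕ → ℝ) → ℝ := fun ω => |((derivative^[i]) (kac ε n ω)).eval a|
    + ∫ y in a..b, |((derivative^[i + 1]) (kac ε n ω)).eval y|
  have hFnn : ∀ ω, 0 ≤ F ω := fun ω => add_nonneg (abs_nonneg _)
    (intervalIntegral.integral_nonneg hab fun _ _ => abs_nonneg _)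
  have hprod := integrable_prod_abs_eval μ h2 ε n (i + 1) a b
  have hI2 : Integrable (fun ω => ∫ y in a..b, |((derivative^[i + 1]) (kac ε n ω)).eval y|)
      (Pm μ) := by
    simp only [intervalIntegral.integral_of_le hab]
    exact hprod.integral_prod_left
  have hI1 := integrable_abs_eval μ h2 ε n i a
  have hF : Integrable F (Pm μ) := hI1.add hI2
  have hswap : ∫ ω, (∫ y in a..b, |((derivative^[i + 1]) (kac ε n ω)).eval y|) ∂(Pm μ)
      = ∫ y in a..b, (∫ ω, |((derivative^[i + 1]) (kac ε n ω)).eval y| ∂(Pm μ)) := by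
    simp only [intervalIntegral.integral_of_le hab]
    exact integral_integral_swap hprod
  have hbd : ∫ y in a..b, (∫ ω, |((derivative^[i + 1]) (kac ε n ω)).eval y| ∂(Pm μ))
      ≤ (b - a) * B := by
    have hle : ∀ y ∈ Set.Icc a b,
        (∫ ω, |((derivative^[i + 1]) (kac ε n ω)).eval y| ∂(Pm μ)) ≤ B := fun y hy =>
      integral_abs_eval μ h2 h0 h1 hε n (i + 1) y B hB (hB2 y hy)
    have hint : IntervalIntegrable
        (fun y => ∫ ω, |((derivative^[i + 1]) (kac ε n ω)).eval y| ∂(Pm μ)) volume a b := by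
      rw [intervalIntegrable_iff_integrableOn_Ioc_of_le hab]
      exact hprod.integral_prod_right
    calc ∫ y in a..b, (∫ ω, |((derivative^[i + 1]) (kac ε n ω)).eval y| ∂(Pm μ))
        ≤ ∫ y in a..b, B := intervalIntegral.integral_mono_on hab hint (by simp) hle
      _ = (b - a) * B := by simp
  have hEF : ∫ ω, F ω ∂(Pm μ) ≤ A + (b - a) * B := by
    calc ∫ ω, F ω ∂(Pm μ) = (∫ ω, |((derivative^[i]) (kac ε n ω)).eval a| ∂(Pm μ))
          + ∫ ω, (∫ y in a..b, |((derivative^[i + 1]) (kac ε n ω)).eval y|) ∂(Pm μ) :=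
          integral_add hI1 hI2
      _ ≤ A + (b - a) * B := by
          rw [hswap]
          exact add_le_add (integral_abs_eval μ h2 h0 h1 hε n i a A hA hA2) hbd
  have hsub : {ω | ∃ x ∈ Set.Icc a b, t < |((derivative^[i]) (kac ε n ω)).eval x|}
      ⊆ {ω | t ≤ F ω} := by
    rintro ω ⟨x, hx, hxt⟩
    have h := modS1 ((derivative^[i]) (kac ε n ω)) a b hab x hx
    rw [hsucc] at h
    exact (hxt.le.trans h)
  have hmark := mul_meas_ge_le_integral_of_nonneg (Filter.Eventually.of_forall hFnn) hF t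
  calc (Pm μ).real {ω | ∃ x ∈ Set.Icc a b, t < |((derivative^[i]) (kac ε n ω)).eval x|}
      ≤ (Pm μ).real {ω | t ≤ F ω} := measureReal_mono hsub
    _ ≤ (A + (b - a) * B) / t := by
        rw [le_div_iff₀ ht, mul_comm]
        exact hmark.trans hEF

end Pool.Agent.H89.Kac
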