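import Mathlib

set_option autoImplicit false

namespace Pool.Agent.H89.Kac

/-- cubic polynomial in the falling factorial basis with scale `N` -/
noncomputable def qc (N z0 z1 z2 z3 y : ℝ) : ℝ :=
  z0 + z1 * (y / N) + z2 * (y * (y - 1) / N ^ 2) + z3 * (y * (y - 1) * (y - 2) / N ^ 3)

/-- the normalized cubic -/
noncomputable def qn (z0 z1 z2 z3 e x : ℝ) : ℝ :=
  z0 + z1 * x + z2 * (x * (x - e)) + z3 * (x * (x - e) * (x - 2 * e))

lemma nd3 {a M z3 D : ℝ} (ha1 : 1 / 8 ≤ a) (hD : D = z3 * (6 * a ^ 3)) (hb : |D| ≤ 8 * M) :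
    |z3| ≤ 683 * M := by
  have hz := abs_nonneg z3
  have h1 : |z3| * (6 * (1 / 8) ^ 3) ≤ 8 * M := by
    calc |z3| * (6 * (1 / 8) ^ 3) ≤ |z3| * (6 * a ^ 3) := by gcongr
      _ = |D| := by rw [hD, abs_mul, abs_of_pos (by positivity : 0 < 6 * a ^ 3)]
      _ ≤ 8 * M := hb
  norm_num at h1
  have hM : 0 ≤ M := by
    have := (abs_nonneg D).trans hb
    linarith
  linarith

lemma nd2 {a κ e M z3 z2 D : ℝ} (ha1 : 1 / 8 ≤ a) (hκ0 : 0 ≤ κ)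
    (hκa : κ ≤ a) (he0 : 0 < e) (hea : e ≤ a) (ha2 : a ≤ 1 / 4)
    (hD : D = z2 * (2 * a ^ 2) + z3 * (6 * a ^ 2 * (κ + a - e))) (hb : |D| ≤ 4 * M)
    (h3 : |z3| ≤ 683 * M) : |z2| ≤ 1153 * M := by
  have hz3 := abs_nonneg z3
  have ha0 : 0 < a := by linarith
  have hM : 0 ≤ M := by
    have := (abs_nonneg D).trans hb
    linarith
  have hk : 0 ≤ κ + a - e := by linarith
  have e1 : z2 * (2 * a ^ 2) = D - z3 * (6 * a ^ 2 * (κ + a - e)) := by rw [hD]; ring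
  have h4 : |z2| * (2 * a ^ 2) ≤ 4 * M + |z3| * (3 * a ^ 2) := by
    calc |z2| * (2 * a ^ 2) = |z2 * (2 * a ^ 2)| := by
          rw [abs_mul, abs_of_pos (by positivity : 0 < 2 * a ^ 2)]
      _ = |D - z3 * (6 * a ^ 2 * (κ + a - e))| := by rw [e1]
      _ ≤ |D| + |z3 * (6 * a ^ 2 * (κ + a - e))| := abs_sub _ _
      _ = |D| + |z3| * (6 * a ^ 2 * (κ + a - e)) := by
          rw [abs_mul z3, abs_of_nonneg (by positivity : 0 ≤ 6 * a ^ 2 * (κ + a - e))]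
      _ ≤ 4 * M + |z3| * (6 * a ^ 2 * (1 / 2)) := by gcongr; linarith
      _ = _ := by ring
  have h5 : 4 * M ≤ 256 * M * a ^ 2 := by
    calc 4 * M = 256 * M * (1 / 8) ^ 2 := by ring
      _ ≤ _ := by gcongr
  have h6 : |z2| * (2 * a ^ 2) ≤ (128 * M + |z3| * (3 / 2)) * (2 * a ^ 2) := by
    calc _ ≤ 4 * M + |z3| * (3 * a ^ 2) := h4
      _ ≤ 256 * M * a ^ 2 + |z3| * (3 * a ^ 2) := by linarith
      _ = _ := by ring
  have h7 : |z2| ≤ 128 * M + |z3| * (3 / 2) := le_of_mul_le_mul_right h6 (by positivity)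
  linarith

lemma nd1 {a κ e M z3 z2 z1 D : ℝ} (ha1 : 1 / 8 ≤ a) (hκ0 : 0 ≤ κ)
    (hκa : κ ≤ a) (he0 : 0 < e) (hea : e ≤ a) (ha2 : a ≤ 1 / 4) (he8 : e ≤ 1 / 8)
    (hD : D = z1 * a + z2 * (a * (2 * κ + a - e))
      + z3 * (a * (3 * κ ^ 2 + 3 * a * κ + a ^ 2 - 6 * κ * e - 3 * a * e + 2 * e ^ 2)))
    (hb : |D| ≤ 2 * M)
    (h3 : |z3| ≤ 683 * M) (h2 : |z2| ≤ 1153 * M) : |z1| ≤ 2535 * M := by
  have hz3 := abs_nonneg z3
  have hz2 := abs_nonneg z2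
  have ha0 : 0 < a := by linarith
  have hM : 0 ≤ M := by
    have := (abs_nonneg D).trans hb
    linarith
  have hκ4 : κ ≤ 1 / 4 := by linarith
  set R := 3 * κ ^ 2 + 3 * a * κ + a ^ 2 - 6 * κ * e - 3 * a * e + 2 * e ^ 2 with hR
  have hRb : |R| ≤ 2 := by
    have p1 : κ ^ 2 ≤ (1 / 4) ^ 2 := by gcongr
    have p2 : a * κ ≤ 1 / 4 * (1 / 4) := by gcongr
    have p3 : a ^ 2 ≤ (1 / 4) ^ 2 := by gcongr
    have p4 : κ * e ≤ 1 / 4 * (1 / 8) := by gcongr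
    have p5 : a * e ≤ 1 / 4 * (1 / 8) := by gcongr
    have p6 : e ^ 2 ≤ (1 / 8) ^ 2 := by gcongr
    have n1 : 0 ≤ κ ^ 2 := sq_nonneg _
    have n2 : 0 ≤ a * κ := by positivity
    have n3 : 0 ≤ a ^ 2 := sq_nonneg _
    have n4 : 0 ≤ κ * e := by positivity
    have n5 : 0 ≤ a * e := by positivity
    have n6 : 0 ≤ e ^ 2 := sq_nonneg _
    rw [hR, abs_le]
    constructor <;> linarith
  have hSb : |2 * κ + a - e| ≤ 1 := by rw [abs_le]; constructor <;> linarith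
  have e1 : z1 * a = D - z2 * (a * (2 * κ + a - e)) - z3 * (a * R) := by rw [hD]; ring
  have h4 : |z1| * a ≤ 2 * M + |z2| * a + |z3| * (2 * a) := by
    calc |z1| * a = |z1 * a| := by rw [abs_mul, abs_of_pos ha0]
      _ = |D - z2 * (a * (2 * κ + a - e)) - z3 * (a * R)| := by rw [e1]
      _ ≤ |D - z2 * (a * (2 * κ + a - e))| + |z3 * (a * R)| := abs_sub _ _
      _ ≤ |D| + |z2 * (a * (2 * κ + a - e))| + |z3 * (a * R)| := by gcongr; exact abs_sub _ _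
      _ = |D| + |z2| * (a * |2 * κ + a - e|) + |z3| * (a * |R|) := by
          rw [abs_mul z2, abs_mul a, abs_mul z3, abs_mul a, abs_of_pos ha0]
      _ ≤ 2 * M + |z2| * (a * 1) + |z3| * (a * 2) := by gcongr
      _ = _ := by ring
  have h5 : 2 * M ≤ (16 * M) * a := by
    calc 2 * M = (16 * M) * (1 / 8) := by ring
      _ ≤ _ := by gcongr
  have h6 : |z1| * a ≤ (16 * M + |z2| + 2 * |z3|) * a := by
    calc _ ≤ 2 * M + |z2| * a + |z3| * (2 * a) := h4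
      _ ≤ (16 * M) * a + |z2| * a + |z3| * (2 * a) := by linarith
      _ = _ := by ring
  have h7 : |z1| ≤ 16 * M + |z2| + 2 * |z3| := le_of_mul_le_mul_right h6 ha0
  linarith

lemma nd0 {a κ e M z3 z2 z1 z0 D : ℝ} (hκ0 : 0 ≤ κ)
    (hκa : κ ≤ a) (he0 : 0 < e) (ha2 : a ≤ 1 / 4) (he8 : e ≤ 1 / 8)
    (hD : D = z0 + z1 * κ + z2 * (κ * (κ - e)) + z3 * (κ * (κ - e) * (κ - 2 * e)))
    (hb : |D| ≤ M)
    (h3 : |z3| ≤ 683 * M) (h2 : |z2| ≤ 1153 * M) (h1 : |z1| ≤ 2535 * M) : |z0| ≤ 4400 * M := by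
  have hz1 := abs_nonneg z1
  have hz2 := abs_nonneg z2
  have hz3 := abs_nonneg z3
  have hκ4 : κ ≤ 1 := by linarith
  have s1 : |κ - e| ≤ 1 := by rw [abs_le]; constructor <;> linarith
  have s2 : |κ - 2 * e| ≤ 1 := by rw [abs_le]; constructor <;> linarith
  have e0 : z0 = D - z1 * κ - z2 * (κ * (κ - e)) - z3 * (κ * (κ - e) * (κ - 2 * e)) := by
    rw [hD]; ring
  calc |z0| = |D - z1 * κ - z2 * (κ * (κ - e)) - z3 * (κ * (κ - e) * (κ - 2 * e))| := by rw [← e0]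
    _ ≤ |D - z1 * κ - z2 * (κ * (κ - e))| + |z3 * (κ * (κ - e) * (κ - 2 * e))| := abs_sub _ _
    _ ≤ |D - z1 * κ| + |z2 * (κ * (κ - e))| + |z3 * (κ * (κ - e) * (κ - 2 * e))| := by
        gcongr; exact abs_sub _ _
    _ ≤ |D| + |z1 * κ| + |z2 * (κ * (κ - e))| + |z3 * (κ * (κ - e) * (κ - 2 * e))| := by
        gcongr; exact abs_sub _ _
    _ = |D| + |z1| * κ + |z2| * (κ * |κ - e|) + |z3| * (κ * |κ - e| * |κ - 2 * e|) := by
        rw [abs_mul z1, abs_mul z2, abs_mul κ, abs_mul z3, abs_mul (κ * (κ - e)), abs_mul κ,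
          abs_of_nonneg hκ0]
    _ ≤ M + |z1| * 1 + |z2| * (1 * 1) + |z3| * (1 * 1 * 1) := by gcongr
    _ ≤ _ := by linarith

lemma nondeg_point {N h k z0 z1 z2 z3 M : ℝ} (hN : 8 ≤ N) (hk : 0 ≤ k) (hkh : k ≤ h) (h1 : 1 ≤ h)
    (hh1 : N / 8 ≤ h) (hh2 : h ≤ N / 4)
    (hq0 : |qc N z0 z1 z2 z3 k| ≤ M) (hq1 : |qc N z0 z1 z2 z3 (k + h)| ≤ M)
    (hq2 : |qc N z0 z1 z2 z3 (k + 2 * h)| ≤ M) (hq3 : |qc N z0 z1 z2 z3 (k + 3 * h)| ≤ M) :
    |z3| ≤ 683 * M ∧ |z2| ≤ 1153 * M ∧ |z1| ≤ 2535 * M ∧ |z0| ≤ 4400 * M := by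
  have hN0 : 0 < N := by linarith
  have hM0 : 0 ≤ M := (abs_nonneg _).trans hq0
  obtain ⟨a, ha⟩ : ∃ a, a = h / N := ⟨_, rfl⟩
  have ha1 : 1 / 8 ≤ a := by rw [ha, le_div_iff₀ hN0]; linarith
  have ha2 : a ≤ 1 / 4 := by rw [ha, div_le_iff₀ hN0]; linarith
  obtain ⟨κ, hκ⟩ : ∃ κ, κ = k / N := ⟨_, rfl⟩
  have hκ0 : 0 ≤ κ := by rw [hκ]; positivity
  have hκa : κ ≤ a := by rw [hκ, ha]; gcongr
  obtain ⟨e, he⟩ : ∃ e, e = 1 / N := ⟨_, rfl⟩
  have he0 : 0 < e := by rw [he]; positivity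
  have hea : e ≤ a := by rw [he, ha]; gcongr
  have he8 : e ≤ 1 / 8 := by rw [he, div_le_div_iff₀ hN0 (by norm_num)]; linarith
  have q0 : qc N z0 z1 z2 z3 k = qn z0 z1 z2 z3 e κ := by
    unfold qc qn; rw [hκ, he]; field_simp
  have q1 : qc N z0 z1 z2 z3 (k + h) = qn z0 z1 z2 z3 e (κ + a) := by
    unfold qc qn; rw [hκ, he, ha]; field_simp
  have q2 : qc N z0 z1 z2 z3 (k + 2 * h) = qn z0 z1 z2 z3 e (κ + 2 * a) := by
    unfold qc qn; rw [hκ, he, ha]; field_simp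
  have q3 : qc N z0 z1 z2 z3 (k + 3 * h) = qn z0 z1 z2 z3 e (κ + 3 * a) := by
    unfold qc qn; rw [hκ, he, ha]; field_simp
  rw [q0] at hq0; rw [q1] at hq1; rw [q2] at hq2; rw [q3] at hq3
  have c3 : |z3| ≤ 683 * M := by
    refine nd3 (D := qn z0 z1 z2 z3 e (κ + 3 * a) - 3 * qn z0 z1 z2 z3 e (κ + 2 * a)
      + 3 * qn z0 z1 z2 z3 e (κ + a) - qn z0 z1 z2 z3 e κ) ha1 ?_ ?_
    · unfold qn; ring
    · obtain ⟨l0, u0⟩ := abs_le.1 hq0
      obtain ⟨l1, u1⟩ := abs_le.1 hq1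
      obtain ⟨l2, u2⟩ := abs_le.1 hq2
      obtain ⟨l3, u3⟩ := abs_le.1 hq3
      rw [abs_le]; constructor <;> linarith
  have c2 : |z2| ≤ 1153 * M := by
    refine nd2 (D := qn z0 z1 z2 z3 e (κ + 2 * a) - 2 * qn z0 z1 z2 z3 e (κ + a)
      + qn z0 z1 z2 z3 e κ) ha1 hκ0 hκa he0 hea ha2 ?_ ?_ c3
    · unfold qn; ring
    · obtain ⟨l0, u0⟩ := abs_le.1 hq0
      obtain ⟨l1, u1⟩ := abs_le.1 hq1
      obtain ⟨l2, u2⟩ := abs_le.1 hq2
      rw [abs_le]; constructor <;> linarith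
  have c1 : |z1| ≤ 2535 * M := by
    refine nd1 (D := qn z0 z1 z2 z3 e (κ + a) - qn z0 z1 z2 z3 e κ) ha1 hκ0 hκa he0 hea ha2 he8
      ?_ ?_ c3 c2
    · unfold qn; ring
    · obtain ⟨l0, u0⟩ := abs_le.1 hq0
      obtain ⟨l1, u1⟩ := abs_le.1 hq1
      rw [abs_le]; constructor <;> linarith
  refine ⟨c3, c2, c1, ?_⟩
  exact nd0 (D := qn z0 z1 z2 z3 e κ) hκ0 hκa he0 ha2 he8 (by unfold qn; ring) hq0 c3 c2 c1

lemma nondeg_sum (N : ℕ) (hN : 8 ≤ N) (z0 z1 z2 z3 : ℝ) :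
    (N : ℝ) * (z0 ^ 2 + z1 ^ 2 + z2 ^ 2 + z3 ^ 2)
      ≤ 32 * 4400 ^ 2 * ∑ k ∈ Finset.range (N + 1), qc N z0 z1 z2 z3 k ^ 2 := by
  obtain ⟨h, hh⟩ : ∃ h : ℕ, h = N / 4 := ⟨_, rfl⟩
  have hN8 : (8 : ℝ) ≤ N := by exact_mod_cast hN
  have h4 : 4 * h ≤ N := by omega
  have h4' : N < 4 * h + 4 := by omega
  have h1n : 1 ≤ h := by omega
  have h8n : N ≤ 8 * h := by omega
  have h1 : (1 : ℝ) ≤ h := by exact_mod_cast h1n
  have hh2 : (h : ℝ) ≤ N / 4 := by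
    have : (4 : ℝ) * h ≤ N := by exact_mod_cast h4
    linarith
  have hh1 : (N : ℝ) / 8 ≤ h := by
    have : (N : ℝ) ≤ 8 * h := by exact_mod_cast h8n
    linarith
  set q : ℕ → ℝ := fun k => qc N z0 z1 z2 z3 k ^ 2 with hq
  have hqn : ∀ k, 0 ≤ q k := fun k => sq_nonneg _
  have hpt : ∀ k ∈ Finset.range h, z0 ^ 2 + z1 ^ 2 + z2 ^ 2 + z3 ^ 2
      ≤ 4 * 4400 ^ 2 * (q k + q (h + k) + q (h + h + k) + q (h + h + h + k)) := by
    intro k hk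
    have hkh : (k : ℝ) ≤ h := by
      have := (Finset.mem_range.1 hk).le
      exact_mod_cast this
    set S := q k + q (h + k) + q (h + h + k) + q (h + h + h + k) with hS
    have hS0 : 0 ≤ S := by
      have := hqn k; have := hqn (h + k); have := hqn (h + h + k); have := hqn (h + h + h + k)
      linarith
    have key : ∀ j : ℕ, q j ≤ S → |qc N z0 z1 z2 z3 j| ≤ Real.sqrt S := by
      intro j hj
      apply Real.abs_le_sqrt
      exact hj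
    have b0 := key k (by have := hqn (h + k); have := hqn (h + h + k); have := hqn (h + h + h + k); linarith)
    have b1 := key (h + k) (by have := hqn k; have := hqn (h + h + k); have := hqn (h + h + h + k); linarith)
    have b2 := key (h + h + k) (by have := hqn k; have := hqn (h + k); have := hqn (h + h + h + k); linarith)
    have b3 := key (h + h + h + k) (by have := hqn k; have := hqn (h + k); have := hqn (h + h + k); linarith)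
    have e1 : ((h + k : ℕ) : ℝ) = k + h := by push_cast; ring
    have e2 : ((h + h + k : ℕ) : ℝ) = k + 2 * h := by push_cast; ring
    have e3 : ((h + h + h + k : ℕ) : ℝ) = k + 3 * h := by push_cast; ring
    rw [e1] at b1; rw [e2] at b2; rw [e3] at b3
    obtain ⟨c3, c2, c1, c0⟩ := nondeg_point hN8 (Nat.cast_nonneg k) hkh h1 hh1 hh2 b0 b1 b2 b3
    have hsq := Real.sqrt_nonneg S
    have sq : ∀ z : ℝ, |z| ≤ 4400 * Real.sqrt S → z ^ 2 ≤ 4400 ^ 2 * S := by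
      intro z hz
      calc z ^ 2 = |z| ^ 2 := (sq_abs z).symm
        _ ≤ (4400 * Real.sqrt S) ^ 2 := by gcongr
        _ = 4400 ^ 2 * S := by rw [mul_pow, Real.sq_sqrt hS0]
    have s0 := sq z0 c0
    have s1 := sq z1 (c1.trans (by linarith))
    have s2 := sq z2 (c2.trans (by linarith))
    have s3 := sq z3 (c3.trans (by linarith))
    linarith
  have hsum := Finset.sum_le_sum hpt
  rw [Finset.sum_const, Finset.card_range, nsmul_eq_mul, ← Finset.mul_sum, Finset.sum_add_distrib,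
    Finset.sum_add_distrib, Finset.sum_add_distrib, ← Finset.sum_range_add, ← Finset.sum_range_add,
    ← Finset.sum_range_add] at hsum
  have hle : ∑ k ∈ Finset.range (h + h + h + h), q k ≤ ∑ k ∈ Finset.range (N + 1), q k := by
    apply Finset.sum_le_sum_of_subset_of_nonneg
    · intro k hk
      rw [Finset.mem_range] at hk ⊢
      omega
    · intro k _ _; exact hqn k
  have hz : 0 ≤ z0 ^ 2 + z1 ^ 2 + z2 ^ 2 + z3 ^ 2 := by positivity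
  calc (N : ℝ) * (z0 ^ 2 + z1 ^ 2 + z2 ^ 2 + z3 ^ 2)
      ≤ (8 * h) * (z0 ^ 2 + z1 ^ 2 + z2 ^ 2 + z3 ^ 2) := by gcongr; linarith
    _ = 8 * (h * (z0 ^ 2 + z1 ^ 2 + z2 ^ 2 + z3 ^ 2)) := by ring
    _ ≤ 8 * (4 * 4400 ^ 2 * ∑ k ∈ Finset.range (h + h + h + h), q k) := by gcongr
    _ ≤ 8 * (4 * 4400 ^ 2 * ∑ k ∈ Finset.range (N + 1), q k) := by gcongr
    _ = _ := by ring

end Pool.Agent.H89.Kac
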