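import Pool.Agent.H89.Kac.Compare

set_option autoImplicit false
set_option linter.unusedSectionVars false

open MeasureTheory Filter Topology ProbabilityTheory

namespace Pool.Agent.H89.Kac

section onevar

variable (μ : Measure ℝ) [IsProbabilityMeasure μ] (h2 : Integrable (fun x : ℝ => x ^ 2) μ)
    (hm : ∫ x, x ∂μ = 0) (h21 : ∫ x, x ^ 2 ∂μ = 1) (T : ℝ)

/-- difference of the characteristic functions of `μ` and of the matching Gaussian. -/
noncomputable def bet (μ : Measure ℝ) (T : ℝ) (θ : ℝ) : ℂ :=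
  charFun μ θ - charFun (gaussianReal 0 (vT μ T)) θ

lemma charFun_eq_I (ν : Measure ℝ) (θ : ℝ) :
    charFun ν θ = ∫ y : ℝ, Complex.exp (Complex.I * ((θ * y : ℝ) : ℂ)) ∂ν := by
  rw [charFun_apply_real]
  congr 1; ext y
  congr 1
  push_cast
  ring

lemma integrable_expI (ν : Measure ℝ) [IsFiniteMeasure ν] (θ : ℝ) :
    Integrable (fun y : ℝ => Complex.exp (Complex.I * ((θ * y : ℝ) : ℂ))) ν := by
  refine Integrable.of_bound (C := 1) (by fun_prop) (ae_of_all _ fun y => ?_)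
  rw [Complex.norm_exp_I_mul_ofReal]

include h2 hm h21 in
lemma integrable_abs_of_sq : Integrable (fun x : ℝ => |x|) μ := by
  have : MemLp (fun x : ℝ => x) 2 μ := (memLp_two_iff_integrable_sq (by fun_prop)).2 h2
  exact (this.integrable (by norm_num)).abs

include h2 hm h21 in
lemma integrable_pw_of_sq : Integrable (fun x : ℝ => pw x) μ := by
  have h1 := integrable_abs_of_sq μ h2 hm h21
  have h3 : Integrable (fun x : ℝ => |x| + x ^ 2) μ := h1.add h2
  refine h3.mono' ?_ (ae_of_all _ fun x => ?_)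
  · unfold pw; fun_prop
  · rw [Real.norm_of_nonneg (pw_nonneg x)]
    unfold pw
    have hs : Real.sqrt |x| ≤ 1 + |x| := by
      rw [Real.sqrt_le_left (by positivity)]
      nlinarith [abs_nonneg x]
    have : x ^ 2 = |x| * |x| := by rw [← sq_abs]; ring
    rw [this]
    nlinarith [abs_nonneg x]

lemma m1_nonneg (μ : Measure ℝ) (T : ℝ) : 0 ≤ m1 μ T := integral_nonneg fun x => abs_nonneg x
lemma m3_nonneg (μ : Measure ℝ) (T : ℝ) : 0 ≤ m3 μ T := integral_nonneg fun x => by positivity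
lemma m32_nonneg (μ : Measure ℝ) (T : ℝ) : 0 ≤ m32 μ T := integral_nonneg fun x => pw_nonneg x

include h2 hm h21 in
lemma bet_bound (θ : ℝ) : ‖bet μ T θ‖ ≤ 4 * |θ| ^ 3 * (m3 μ T + cG) + 2 * |θ| * m1 μ T := by
  unfold bet
  rw [charFun_eq_I, charFun_eq_I]
  have := cmp_gauss μ h2 hm h21 T (fun y : ℝ => Complex.exp (Complex.I * ((θ * y : ℝ) : ℂ)))
    (by fun_prop) 1 (Complex.I * θ) (-(θ : ℂ) ^ 2 / 2) (4 * |θ| ^ 3) (by positivity)
    (fun y => 2 * |θ| * |y|) ((integrable_abs_of_sq μ h2 hm h21).const_mul _) ?_ ?_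
  · refine this.trans (le_of_eq ?_)
    congr 1
    unfold m1
    rw [← integral_const_mul]
  · intro y
    have h := ne3 (θ * y)
    rw [abs_mul, mul_pow] at h
    refine le_trans (le_of_eq ?_) (h.trans (le_of_eq (by ring)))
    congr 1
    push_cast
    ring
  · intro y
    have h := ne2' (θ * y)
    rw [abs_mul] at h
    refine le_trans (le_of_eq ?_) (h.trans (le_of_eq (by ring)))
    congr 1
    push_cast
    ring

/-- second difference part of `bet`. -/
lemma q_identity (ν : Measure ℝ) [IsFiniteMeasure ν] (a b : ℝ) :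
    charFun ν a - (charFun ν (a + b) + charFun ν (a - b)) / 2
      = ∫ y : ℝ, Complex.exp (Complex.I * ((a * y : ℝ) : ℂ)) * ((1 - Real.cos (b * y) : ℝ) : ℂ) ∂ν := by
  rw [charFun_eq_I, charFun_eq_I, charFun_eq_I, ← integral_add (integrable_expI _ _)
    (integrable_expI _ _), ← integral_div, ← integral_sub (integrable_expI _ _)]
  · congr 1; ext y
    have h1 : (((a + b) * y : ℝ) : ℂ) = (a * y : ℝ) + (b * y : ℝ) := by push_cast; ring
    have h2 : (((a - b) * y : ℝ) : ℂ) = (a * y : ℝ) - (b * y : ℝ) := by push_cast; ring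
    rw [h1, h2, mul_add, mul_sub, Complex.exp_add, Complex.exp_sub]
    have h3 : ((1 - Real.cos (b * y) : ℝ) : ℂ) = 1 - (Complex.exp (Complex.I * ((b * y : ℝ) : ℂ))
        + (Complex.exp (Complex.I * ((b * y : ℝ) : ℂ)))⁻¹) / 2 := by
      rw [← Complex.exp_neg]
      push_cast
      rw [Complex.cos]
      congr 3
      · congr 1; ring
      · congr 1; ring
    rw [h3]
    ring
  · exact ((integrable_expI _ _).add (integrable_expI _ _)).div_const _

lemma s_identity (ν : Measure ℝ) [IsFiniteMeasure ν] (a b : ℝ) :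
    (charFun ν (a + b) - charFun ν (a - b)) / 2
      = ∫ y : ℝ, Complex.I * (Complex.exp (Complex.I * ((a * y : ℝ) : ℂ)) * ((Real.sin (b * y) : ℝ) : ℂ)) ∂ν := by
  rw [charFun_eq_I, charFun_eq_I, ← integral_sub (integrable_expI _ _)
    (integrable_expI _ _), ← integral_div]
  congr 1; ext y
  have h1 : (((a + b) * y : ℝ) : ℂ) = (a * y : ℝ) + (b * y : ℝ) := by push_cast; ring
  have h2 : (((a - b) * y : ℝ) : ℂ) = (a * y : ℝ) - (b * y : ℝ) := by push_cast; ring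
  rw [h1, h2, mul_add, mul_sub, Complex.exp_add, Complex.exp_sub]
  have h3 : ((Real.sin (b * y) : ℝ) : ℂ) = -Complex.I * ((Complex.exp (Complex.I * ((b * y : ℝ) : ℂ))
      - (Complex.exp (Complex.I * ((b * y : ℝ) : ℂ)))⁻¹) / 2) := by
    rw [← Complex.exp_neg]
    push_cast
    rw [Complex.sin]
    have e1 : (-((b : ℂ) * y) * Complex.I) = -(Complex.I * ((b : ℂ) * y)) := by ring
    have e2 : ((b : ℂ) * y * Complex.I) = Complex.I * ((b : ℂ) * y) := by ring
    rw [e1, e2]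
    ring
  rw [h3]
  have hI : Complex.I * -Complex.I = 1 := by simp
  calc _ = (Complex.I * -Complex.I) * (Complex.exp (Complex.I * ((a * y : ℝ) : ℂ)) * ((Complex.exp (Complex.I * ((b * y : ℝ) : ℂ))
      - (Complex.exp (Complex.I * ((b * y : ℝ) : ℂ)))⁻¹) / 2)) := by rw [hI]; ring
    _ = _ := by ring

include h2 hm h21 in
lemma bet_q_bound (a b : ℝ) :
    ‖bet μ T a - (bet μ T (a + b) + bet μ T (a - b)) / 2‖
      ≤ (|a| * b ^ 2 / 2 + 4 * |b| ^ 3) * (m3 μ T + cG) + 2 * pw b * m32 μ T := by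
  have e : bet μ T a - (bet μ T (a + b) + bet μ T (a - b)) / 2
      = (charFun μ a - (charFun μ (a + b) + charFun μ (a - b)) / 2)
        - (charFun (gaussianReal 0 (vT μ T)) a - (charFun (gaussianReal 0 (vT μ T)) (a + b)
          + charFun (gaussianReal 0 (vT μ T)) (a - b)) / 2) := by
    unfold bet; ring
  rw [e, q_identity, q_identity]
  have := cmp_gauss μ h2 hm h21 T
    (fun y : ℝ => Complex.exp (Complex.I * ((a * y : ℝ) : ℂ)) * ((1 - Real.cos (b * y) : ℝ) : ℂ))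
    (by fun_prop) 0 0 ((b : ℂ) ^ 2 / 2) (|a| * b ^ 2 / 2 + 4 * |b| ^ 3) (by positivity)
    (fun y => 2 * pw b * pw y) ((integrable_pw_of_sq μ h2 hm h21).const_mul _) ?_ ?_
  · refine this.trans (le_of_eq ?_)
    congr 1
    unfold m32
    rw [← integral_const_mul]
  · intro y
    have e2 : Complex.exp (Complex.I * ((a * y : ℝ) : ℂ)) * ((1 - Real.cos (b * y) : ℝ) : ℂ) - 0 - 0 * (y : ℂ)
        - (b : ℂ) ^ 2 / 2 * (y : ℂ) ^ 2
        = (Complex.exp (Complex.I * ((a * y : ℝ) : ℂ)) - 1) * ((1 - Real.cos (b * y) : ℝ) : ℂ)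
          + ((1 - Real.cos (b * y) - (b * y) ^ 2 / 2 : ℝ) : ℂ) := by
      push_cast; ring
    rw [e2]
    refine (norm_add_le _ _).trans ?_
    rw [norm_mul, Complex.norm_real, Complex.norm_real, Real.norm_eq_abs, Real.norm_eq_abs]
    have h3 : |1 - Real.cos (b * y)| ≤ (b * y) ^ 2 / 2 := by
      rw [abs_of_nonneg (by linarith [Real.cos_le_one (b * y)])]
      exact one_sub_cos_le_sq _
    have h4 := ne1 (a * y)
    have h5 := abs_one_sub_cos_sub (b * y)
    calc ‖Complex.exp (Complex.I * ((a * y : ℝ) : ℂ)) - 1‖ * |1 - Real.cos (b * y)|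
          + |1 - Real.cos (b * y) - (b * y) ^ 2 / 2|
        ≤ |a * y| * ((b * y) ^ 2 / 2) + 4 * |b * y| ^ 3 := by gcongr
      _ = (|a| * b ^ 2 / 2 + 4 * |b| ^ 3) * |y| ^ 3 := by
          rw [abs_mul, abs_mul]
          have : (b * y) ^ 2 = b ^ 2 * |y| ^ 2 := by rw [sq_abs]; ring
          rw [this]; ring
  · intro y
    simp only [sub_zero, zero_mul]
    rw [norm_mul, Complex.norm_exp_I_mul_ofReal, one_mul, Complex.norm_real, Real.norm_eq_abs,
      abs_of_nonneg (by linarith [Real.cos_le_one (b * y)]), mul_assoc, ← pw_mul]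
    exact one_sub_cos_le_pw _

include h2 hm h21 in
lemma bet_s_bound (a b : ℝ) :
    ‖(bet μ T (a + b) - bet μ T (a - b)) / 2‖
      ≤ (3 * a ^ 2 * |b| + 4 * |b| ^ 3 + 3 * |a| * b ^ 2) * (m3 μ T + cG) + 2 * |b| * m1 μ T := by
  have e : (bet μ T (a + b) - bet μ T (a - b)) / 2
      = (charFun μ (a + b) - charFun μ (a - b)) / 2
        - (charFun (gaussianReal 0 (vT μ T)) (a + b)
          - charFun (gaussianReal 0 (vT μ T)) (a - b)) / 2 := by
    unfold bet; ring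
  rw [e, s_identity, s_identity, integral_const_mul, integral_const_mul, ← mul_sub, norm_mul,
    Complex.norm_I, one_mul]
  have := cmp_gauss μ h2 hm h21 T
    (fun y : ℝ => Complex.exp (Complex.I * ((a * y : ℝ) : ℂ)) * ((Real.sin (b * y) : ℝ) : ℂ))
    (by fun_prop) 0 b (Complex.I * a * b) (3 * a ^ 2 * |b| + 4 * |b| ^ 3 + 3 * |a| * b ^ 2)
    (by positivity)
    (fun y => 2 * |b| * |y|) ((integrable_abs_of_sq μ h2 hm h21).const_mul _) ?_ ?_
  · refine this.trans (le_of_eq ?_)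
    congr 1
    unfold m1
    rw [← integral_const_mul]
  · intro y
    have e2 : Complex.exp (Complex.I * ((a * y : ℝ) : ℂ)) * ((Real.sin (b * y) : ℝ) : ℂ) - 0 - b * (y : ℂ)
        - Complex.I * a * b * (y : ℂ) ^ 2
        = (Complex.exp (Complex.I * ((a * y : ℝ) : ℂ)) - 1 - Complex.I * ((a * y : ℝ) : ℂ))
            * ((Real.sin (b * y) : ℝ) : ℂ)
          + ((Real.sin (b * y) - b * y : ℝ) : ℂ)
          + Complex.I * ((a * y : ℝ) : ℂ) * ((Real.sin (b * y) - b * y : ℝ) : ℂ) := by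
      push_cast; ring
    rw [e2]
    refine (norm_add₃_le).trans ?_
    simp only [norm_mul, Complex.norm_real, Real.norm_eq_abs, Complex.norm_I, one_mul]
    rw [← abs_mul a y]
    have h3 : |Real.sin (b * y)| ≤ |b * y| := Real.abs_sin_le_abs
    have h4 := ne2 (a * y)
    have h5 := abs_sin_sub (b * y)
    have h6 := abs_sin_sub' (b * y)
    calc ‖Complex.exp (Complex.I * ((a * y : ℝ) : ℂ)) - 1 - Complex.I * ((a * y : ℝ) : ℂ)‖ * |Real.sin (b * y)|
          + |Real.sin (b * y) - b * y| + |a * y| * |Real.sin (b * y) - b * y|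
        ≤ (3 * (a * y) ^ 2) * |b * y| + 4 * |b * y| ^ 3 + |a * y| * (3 * (b * y) ^ 2) := by gcongr
      _ = (3 * a ^ 2 * |b| + 4 * |b| ^ 3 + 3 * |a| * b ^ 2) * |y| ^ 3 := by
          rw [abs_mul, abs_mul]
          have h7 : (b * y) ^ 2 = b ^ 2 * |y| ^ 2 := by rw [sq_abs]; ring
          have h8 : (a * y) ^ 2 = a ^ 2 * |y| ^ 2 := by rw [sq_abs]; ring
          rw [h7, h8]; ring
  · intro y
    have e2 : Complex.exp (Complex.I * ((a * y : ℝ) : ℂ)) * ((Real.sin (b * y) : ℝ) : ℂ) - 0 - b * (y : ℂ)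
        = Complex.exp (Complex.I * ((a * y : ℝ) : ℂ)) * ((Real.sin (b * y) : ℝ) : ℂ)
          - ((b * y : ℝ) : ℂ) := by push_cast; ring
    rw [e2]
    refine (norm_sub_le _ _).trans ?_
    rw [norm_mul, Complex.norm_exp_I_mul_ofReal, one_mul, Complex.norm_real, Complex.norm_real,
      Real.norm_eq_abs, Real.norm_eq_abs]
    have h3 : |Real.sin (b * y)| ≤ |b * y| := Real.abs_sin_le_abs
    rw [mul_assoc, ← abs_mul]
    linarith

/-- the size of the contribution of one variable with weight `ω`. -/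
noncomputable def Ek (μ : Measure ℝ) (T ω : ℝ) : ℝ :=
  ω ^ 3 * (m3 μ T + cG) + ω * m1 μ T + pw ω * m32 μ T

lemma Ek_nonneg {ω : ℝ} (hω : 0 ≤ ω) : 0 ≤ Ek μ T ω := by
  unfold Ek
  have := m3_nonneg μ T; have := m1_nonneg μ T; have := m32_nonneg μ T; have := cG_nonneg
  have := pw_nonneg ω
  positivity

include h2 hm h21 in
lemma bet_bound' {ω u w : ℝ} (hu : |u| ≤ ω) (hw : |w| ≤ ω) (s t : ℝ) :
    ‖bet μ T (s * u + t * w)‖ ≤ 4 * (1 + |s| + |t|) ^ 3 * Ek μ T ω := by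
  have hω : 0 ≤ ω := (abs_nonneg u).trans hu
  have hθ : |s * u + t * w| ≤ (1 + |s| + |t|) * ω := by
    calc |s * u + t * w| ≤ |s| * |u| + |t| * |w| := by
          rw [← abs_mul, ← abs_mul]; exact abs_add_le _ _
      _ ≤ |s| * ω + |t| * ω := by gcongr
      _ ≤ _ := by nlinarith
  have h := bet_bound μ h2 hm h21 T (s * u + t * w)
  have hm3 := m3_nonneg μ T; have hm1 := m1_nonneg μ T; have hm32 := m32_nonneg μ T
  have hcG := cG_nonneg
  have hpw := pw_nonneg ω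
  set R := 1 + |s| + |t| with hR
  have hR1 : 1 ≤ R := by rw [hR]; linarith [abs_nonneg s, abs_nonneg t]
  have hR3 : R ≤ R ^ 3 := by
    have : 1 ≤ R ^ 2 := one_le_pow₀ hR1
    nlinarith
  calc ‖bet μ T (s * u + t * w)‖
      ≤ 4 * |s * u + t * w| ^ 3 * (m3 μ T + cG) + 2 * |s * u + t * w| * m1 μ T := h
    _ ≤ 4 * (R * ω) ^ 3 * (m3 μ T + cG) + 2 * (R * ω) * m1 μ T := by gcongr
    _ ≤ 4 * R ^ 3 * (ω ^ 3 * (m3 μ T + cG)) + 4 * R ^ 3 * (ω * m1 μ T) := by
        have h5 : 2 * (R * ω) * m1 μ T ≤ 4 * R ^ 3 * (ω * m1 μ T) := by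
          have : 0 ≤ ω * m1 μ T := by positivity
          nlinarith
        have h6 : 4 * (R * ω) ^ 3 * (m3 μ T + cG) = 4 * R ^ 3 * (ω ^ 3 * (m3 μ T + cG)) := by ring
        linarith
    _ ≤ 4 * R ^ 3 * Ek μ T ω := by
        unfold Ek
        have : 0 ≤ 4 * R ^ 3 * (pw ω * m32 μ T) := by positivity
        nlinarith

lemma sq_le_pw {t : ℝ} (ht : |t| ≤ 1) : t ^ 2 ≤ pw t := by
  unfold pw
  have h2 : |t| ≤ Real.sqrt |t| := by
    rw [show |t| = Real.sqrt (|t| * |t|) by rw [Real.sqrt_mul_self (abs_nonneg t)]]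
    apply Real.sqrt_le_sqrt
    rw [Real.sqrt_mul_self (abs_nonneg t)]
    nlinarith [abs_nonneg t]
  have h3 : t ^ 2 = |t| * |t| := by rw [← sq_abs]; ring
  rw [h3]
  exact mul_le_mul_of_nonneg_left h2 (abs_nonneg t)

include h2 hm h21 in
lemma bet_q_bound' {ω u w : ℝ} (hu : |u| ≤ ω) (hw : |w| ≤ ω) (s t : ℝ) (ht : |t| ≤ 1) :
    ‖bet μ T (s * u) - (bet μ T (s * u + t * w) + bet μ T (s * u - t * w)) / 2‖
      ≤ 4 * (1 + |s|) * pw t * Ek μ T ω := by
  have hω : 0 ≤ ω := (abs_nonneg u).trans hu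
  have h := bet_q_bound μ h2 hm h21 T (s * u) (t * w)
  have hm3 := m3_nonneg μ T; have hm1 := m1_nonneg μ T; have hm32 := m32_nonneg μ T
  have hcG := cG_nonneg
  have hpw := pw_nonneg ω
  have hpt := pw_nonneg t
  have hA : |s * u| * (t * w) ^ 2 / 2 + 4 * |t * w| ^ 3 ≤ 4 * (1 + |s|) * pw t * ω ^ 3 := by
    have h3 : (t * w) ^ 2 ≤ pw t * ω ^ 2 := by
      rw [mul_pow]
      have : w ^ 2 ≤ ω ^ 2 := by rw [← sq_abs w]; gcongr
      gcongr
      exact sq_le_pw ht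
    have h4 : |t * w| ^ 3 ≤ pw t * ω ^ 3 := by
      rw [abs_mul, mul_pow]
      have : |t| ^ 3 ≤ pw t := by
        refine le_trans ?_ (sq_le_pw ht)
        rw [← sq_abs t]
        nlinarith [abs_nonneg t, sq_nonneg (|t|)]
      gcongr
    have h5 : |s * u| ≤ |s| * ω := by rw [abs_mul]; gcongr
    calc |s * u| * (t * w) ^ 2 / 2 + 4 * |t * w| ^ 3
        ≤ (|s| * ω) * (pw t * ω ^ 2) / 2 + 4 * (pw t * ω ^ 3) := by gcongr
      _ ≤ _ := by
          have : 0 ≤ |s| * (pw t * ω ^ 3) := by positivity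
          nlinarith
  have hB : 2 * pw (t * w) * m32 μ T ≤ 4 * (1 + |s|) * pw t * (pw ω * m32 μ T) := by
    rw [pw_mul]
    have : pw w ≤ pw ω := pw_mono (by rwa [abs_of_nonneg hω])
    calc 2 * (pw t * pw w) * m32 μ T ≤ 2 * (pw t * pw ω) * m32 μ T := by gcongr
      _ ≤ _ := by
          have h7 : 0 ≤ pw t * (pw ω * m32 μ T) := by positivity
          have h8 : 0 ≤ |s| * (pw t * (pw ω * m32 μ T)) := by positivity
          nlinarith
  refine h.trans ?_
  calc (|s * u| * (t * w) ^ 2 / 2 + 4 * |t * w| ^ 3) * (m3 μ T + cG) + 2 * pw (t * w) * m32 μ T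
      ≤ (4 * (1 + |s|) * pw t * ω ^ 3) * (m3 μ T + cG) + 4 * (1 + |s|) * pw t * (pw ω * m32 μ T) := by
        gcongr
    _ ≤ 4 * (1 + |s|) * pw t * Ek μ T ω := by
        unfold Ek
        have : 0 ≤ 4 * (1 + |s|) * pw t * (ω * m1 μ T) := by positivity
        nlinarith

include h2 hm h21 in
lemma bet_s_bound' {ω u w : ℝ} (hu : |u| ≤ ω) (hw : |w| ≤ ω) (s t : ℝ) (ht : |t| ≤ 1) :
    ‖(bet μ T (s * u + t * w) - bet μ T (s * u - t * w)) / 2‖
      ≤ 4 * (1 + |s|) ^ 2 * |t| * Ek μ T ω := by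
  have hω : 0 ≤ ω := (abs_nonneg u).trans hu
  have h := bet_s_bound μ h2 hm h21 T (s * u) (t * w)
  have hm3 := m3_nonneg μ T; have hm1 := m1_nonneg μ T; have hm32 := m32_nonneg μ T
  have hcG := cG_nonneg
  have hpw := pw_nonneg ω
  have htw : |t * w| ≤ |t| * ω := by rw [abs_mul]; gcongr
  have hsu : |s * u| ≤ |s| * ω := by rw [abs_mul]; gcongr
  have hs2 : (s * u) ^ 2 ≤ (|s| * ω) ^ 2 := by rw [← sq_abs (s * u)]; gcongr
  have ht2 : (t * w) ^ 2 ≤ (|t| * ω) ^ 2 := by rw [← sq_abs (t * w)]; gcongr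
  have hA : 3 * (s * u) ^ 2 * |t * w| + 4 * |t * w| ^ 3 + 3 * |s * u| * (t * w) ^ 2
      ≤ 4 * (1 + |s|) ^ 2 * |t| * ω ^ 3 := by
    have ht3 : |t| ^ 3 ≤ |t| := by
      have : |t| ^ 2 ≤ 1 := pow_le_one₀ (abs_nonneg t) ht
      nlinarith [abs_nonneg t]
    have ht22 : |t| ^ 2 ≤ |t| := by nlinarith [abs_nonneg t]
    calc 3 * (s * u) ^ 2 * |t * w| + 4 * |t * w| ^ 3 + 3 * |s * u| * (t * w) ^ 2
        ≤ 3 * (|s| * ω) ^ 2 * (|t| * ω) + 4 * (|t| * ω) ^ 3 + 3 * (|s| * ω) * (|t| * ω) ^ 2 := by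
          gcongr
      _ = (3 * |s| ^ 2 * |t| + 4 * |t| ^ 3 + 3 * |s| * |t| ^ 2) * ω ^ 3 := by ring
      _ ≤ (3 * |s| ^ 2 * |t| + 4 * |t| + 3 * |s| * |t|) * ω ^ 3 := by gcongr
      _ ≤ (4 * (1 + |s|) ^ 2 * |t|) * ω ^ 3 := by
          gcongr
          have h1 : 0 ≤ |s| * |t| := by positivity
          have h2 : 0 ≤ |s| ^ 2 * |t| := by positivity
          nlinarith
      _ = _ := by ring
  have hB : 2 * |t * w| * m1 μ T ≤ 4 * (1 + |s|) ^ 2 * |t| * (ω * m1 μ T) := by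
    calc 2 * |t * w| * m1 μ T ≤ 2 * (|t| * ω) * m1 μ T := by gcongr
      _ ≤ _ := by
          have h7 : 0 ≤ |t| * (ω * m1 μ T) := by positivity
          have h8 : 1 ≤ (1 + |s|) ^ 2 := one_le_pow₀ (by linarith [abs_nonneg s])
          nlinarith
  refine h.trans ?_
  calc (3 * (s * u) ^ 2 * |t * w| + 4 * |t * w| ^ 3 + 3 * |s * u| * (t * w) ^ 2) * (m3 μ T + cG)
        + 2 * |t * w| * m1 μ T
      ≤ (4 * (1 + |s|) ^ 2 * |t| * ω ^ 3) * (m3 μ T + cG) + 4 * (1 + |s|) ^ 2 * |t| * (ω * m1 μ T) := by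
        gcongr
    _ ≤ _ := by
        unfold Ek
        have : 0 ≤ 4 * (1 + |s|) ^ 2 * |t| * (pw ω * m32 μ T) := by positivity
        nlinarith

end onevar

end Pool.Agent.H89.Kac
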