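import Pool.Agent.H89.Kac.Sup

set_option autoImplicit false
set_option linter.unusedSectionVars false

open MeasureTheory Filter Topology ProbabilityTheory Polynomial

namespace Pool.Agent.H89.Kac

/-- A block `[a,b]` near `1` at scale `N = R^64`. -/
structure Blk (Λ : ℝ) (R : ℕ) (a b : ℝ) (n : ℕ) : Prop where
  hR : 2 ≤ R
  hab : a < b
  hlen : (b - a) * (R : ℝ) ^ 64 ≤ 1
  sc : ∀ x ∈ Set.Icc a b, Sc Λ ((R : ℝ) ^ 32) x (R ^ 64) n

variable {Λ a b : ℝ} {R n : ℕ}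

lemma Blk.Rpos (h : Blk Λ R a b n) : (0 : ℝ) < R := by
  have := h.hR
  have : (2 : ℝ) ≤ R := by exact_mod_cast this
  linarith

lemma Blk.R1 (h : Blk Λ R a b n) : (1 : ℝ) ≤ R := by
  have := h.hR
  have : (2 : ℝ) ≤ R := by exact_mod_cast this
  linarith

lemma Blk.sca (h : Blk Λ R a b n) : Sc Λ ((R : ℝ) ^ 32) a (R ^ 64) n :=
  h.sc a (Set.left_mem_Icc.2 h.hab.le)

lemma grid_mem {a b : ℝ} (hab : a < b) {m i : ℕ} (hi : i < m) :
    a + i * ((b - a) / m) ∈ Set.Icc a b := by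
  have hm : (0 : ℝ) < m := by
    have : 0 < m := by omega
    exact_mod_cast this
  have him : (i : ℝ) ≤ m := by exact_mod_cast hi.le
  have hba : 0 < b - a := by linarith
  constructor
  · have : 0 ≤ (i : ℝ) * ((b - a) / m) := by positivity
    linarith
  · have : (i : ℝ) * ((b - a) / m) ≤ m * ((b - a) / m) := by gcongr
    have e : (m : ℝ) * ((b - a) / m) = b - a := by field_simp
    linarith

lemma alg1 {l N M F r91 : ℝ} (hN : 0 < N) (hM : 0 < M) (q j : ℕ) (hj : j ≤ q)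
    (h : N ^ (j + 1) * M * F ≤ l ^ (q - j) * (r91 * (N ^ (q + 1) * M))) :
    F ≤ (l * N) ^ (q - j) * r91 := by
  have e : N ^ (q + 1) = N ^ (q - j) * N ^ (j + 1) := by
    rw [← pow_add]; congr 1; omega
  rw [e] at h
  have h3 : (N ^ (j + 1) * M) * F ≤ (N ^ (j + 1) * M) * ((l * N) ^ (q - j) * r91) := by
    refine h.trans (le_of_eq ?_)
    rw [mul_pow]
    ring
  exact le_of_mul_le_mul_left h3 (by positivity)

lemma alg2 {r : ℝ} (hr : 1 ≤ r) {l N : ℝ} (hl : 0 ≤ l * N) (h : l * N ≤ 1 / r) {q j : ℕ} (a c : ℕ)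
    (hq : a + c ≤ q - j) : (l * N) ^ (q - j) * r ^ a ≤ 1 / r ^ c := by
  have hr0 : 0 < r := by linarith
  have h1 : (l * N) ^ (q - j) ≤ (1 / r) ^ (a + c) :=
    (pow_le_pow_left₀ hl h _).trans
      (pow_le_pow_of_le_one (by positivity) (by rw [div_le_one hr0]; exact hr) hq)
  calc (l * N) ^ (q - j) * r ^ a ≤ (1 / r) ^ (a + c) * r ^ a := by gcongr
    _ = 1 / r ^ c := by
      rw [pow_add, one_div, inv_pow, inv_pow]
      field_simp

section bounds

variable (μ : Measure ℝ) [IsProbabilityMeasure μ] (h2 : Integrable (fun x : ℝ => x ^ 2) μ)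
    (hm : ∫ x, x ∂μ = 0) (h21 : ∫ x, x ^ 2 ∂μ = 1)

include h2 hm h21

/-- probability that `f` has a critical point with a small critical value -/
theorem PB_bound (Λ : ℝ) (hΛ : 1 ≤ Λ) : ∃ C : ℝ, 0 ≤ C ∧ ∀ (R : ℕ) (a b : ℝ) (n : ℕ) (ε : ℝ),
    Blk Λ R a b n → (ε = 1 ∨ ε = -1) →
    (Pm μ).real {ω | ∃ c ∈ Set.Ioo a b, (derivative (kac ε n ω)).eval c = 0 ∧
      |(kac ε n ω).eval c| ≤ 1 / (R : ℝ) ^ 8 * (R : ℝ) ^ 32} ≤ C / (R : ℝ) ^ 4 := by
  obtain ⟨θ0, hθ0, hθ1, hθ⟩ := exists_theta0 μ h2 hm h21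
  have hCw := Cw_pos hΛ
  have hc1 := c1_pos
  obtain ⟨C20, hC20, hexp⟩ := exp_small (c := θ0 / (2 * Cw Λ)) (by positivity) 20
  have hCg2 := Cg_pos hΛ 2
  have hCg3 := Cg_pos hΛ 3
  refine ⟨Real.sqrt (3 * Λ) * (Cg Λ 2 + Cg Λ 3)
    + Real.exp 1 * (2 / c1 * 2 + 2 * (Real.sqrt 2 * C20)), by positivity, ?_⟩
  intro R a b n ε hB hε
  have hR0 := hB.Rpos
  have hR1 := hB.R1
  have hab := hB.hab
  have hε' : |ε| = 1 := by rcases hε with rfl | rfl <;> simp
  have hN : (((R ^ 64 : ℕ) : ℝ)) = (R : ℝ) ^ 64 := by push_cast; rfl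
  set r : ℝ := (R : ℝ) with hr
  set E1 : Set (ℕ → ℝ) := {ω | ∃ x ∈ Set.Icc a b, r ^ 4 * ((((R ^ 64 : ℕ) : ℝ)) ^ 2 * r ^ 32)
    < |((derivative^[2]) (kac ε n ω)).eval x|} with hE1
  set xg : ℕ → ℝ := fun i => a + i * ((b - a) / ((R ^ 16 : ℕ) : ℝ)) with hxg
  set E2 : ℕ → Set (ℕ → ℝ) := fun i => {ω | |lin (nw ε (xg i) (r ^ 32) 0) (n + 1) ω| ≤ 2 / r ^ 8 ∧
    |lin (nw ε (xg i) (r ^ 32) 1) (n + 1) ω| ≤ 1 / r ^ 12} with hE2
  have hsub : {ω : ℕ → ℝ | ∃ c ∈ Set.Ioo a b, (derivative (kac ε n ω)).eval c = 0 ∧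
      |(kac ε n ω).eval c| ≤ 1 / r ^ 8 * r ^ 32}
      ⊆ E1 ∪ ⋃ i ∈ Finset.range (R ^ 16), E2 i := by
    intro ω hω
    by_cases hω1 : ω ∈ E1
    · exact Or.inl hω1
    · right
      have hS : ∀ x ∈ Set.Icc a b, |((derivative^[2]) (kac ε n ω)).eval x|
          ≤ r ^ 4 * ((((R ^ 64 : ℕ) : ℝ)) ^ 2 * r ^ 32) := by
        intro x hx
        by_contra hcon
        push Not at hcon
        exact hω1 ⟨x, hx, hcon⟩
      obtain ⟨i, hi, hi0, hi1⟩ := modL1 (kac ε n ω) a b hab (R ^ 16)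
        (Nat.one_le_pow _ _ (by have := hB.hR; omega)) _ _ hS hω
      simp only [Set.mem_iUnion, Finset.mem_range]
      refine ⟨i, hi, ?_⟩
      have hsc := hB.sc (xg i) (grid_mem hab hi)
      have ev0 := eval_nw hsc ε 0 ω
      have ev1 := eval_nw hsc ε 1 ω
      simp only [Function.iterate_zero, id_eq, pow_zero, one_mul] at ev0
      simp only [Function.iterate_one, pow_one] at ev1
      change |(kac ε n ω).eval (xg i)| ≤ _ at hi0
      change |(derivative (kac ε n ω)).eval (xg i)| ≤ _ at hi1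
      rw [ev0, abs_mul, abs_of_pos (by positivity : 0 < r ^ 32)] at hi0
      rw [ev1, abs_mul, abs_of_pos (by rw [hN]; positivity)] at hi1
      rw [hN] at hi0 hi1
      have hl : ((b - a) / ((R ^ 16 : ℕ) : ℝ)) * (r ^ 64 * r ^ 16) ≤ 1 := by
        push_cast
        have := hB.hlen
        calc ((b - a) / r ^ 16) * (r ^ 64 * r ^ 16) = (b - a) * r ^ 64 := by field_simp
          _ ≤ 1 := this
      set l := (b - a) / ((R ^ 16 : ℕ) : ℝ) with hldef
      have hl0 : 0 ≤ l := by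
        rw [hldef]
        have : 0 < b - a := by linarith
        positivity
      have hl2 : l * r ^ 64 ≤ 1 / r ^ 16 := by
        rw [le_div_iff₀ (by positivity)]; linarith
      constructor
      · have h3 : r ^ 32 * |lin (nw ε (xg i) (r ^ 32) 0) (n + 1) ω|
            ≤ r ^ 32 * (1 / r ^ 8 + (l * r ^ 64) ^ 2 * r ^ 4) := by
          refine hi0.trans (le_of_eq ?_)
          ring
        have h4 := le_of_mul_le_mul_left h3 (by positivity)
        refine h4.trans ?_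
        calc 1 / r ^ 8 + (l * r ^ 64) ^ 2 * r ^ 4
            ≤ 1 / r ^ 8 + (1 / r ^ 16) ^ 2 * r ^ 4 := by gcongr
          _ = 1 / r ^ 8 + 1 / r ^ 8 * (1 / r ^ 20) := by field_simp
          _ ≤ 1 / r ^ 8 + 1 / r ^ 8 * 1 := by
              gcongr
              rw [div_le_one (by positivity)]
              exact one_le_pow₀ hR1
          _ = 2 / r ^ 8 := by ring
      · have h3 : (r ^ 64 * r ^ 32) * |lin (nw ε (xg i) (r ^ 32) 1) (n + 1) ω|
            ≤ (r ^ 64 * r ^ 32) * ((l * r ^ 64) * r ^ 4) := by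
          refine hi1.trans (le_of_eq ?_)
          ring
        have h4 := le_of_mul_le_mul_left h3 (by positivity)
        refine h4.trans ?_
        calc l * r ^ 64 * r ^ 4 ≤ 1 / r ^ 16 * r ^ 4 := by gcongr
          _ = 1 / r ^ 12 := by field_simp
  have hlen' : b - a ≤ 1 / ((R ^ 64 : ℕ) : ℝ) := by
    rw [hN, le_div_iff₀ (by positivity)]
    exact hB.hlen
  have hP1 : (Pm μ).real E1 ≤ Real.sqrt (3 * Λ) * (Cg Λ 2 + Cg Λ 3) / r ^ 4 :=
    sup_block μ h2 hm h21 2 a b hab.le hlen' hB.sc ε hε (r ^ 4) (by positivity)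
  have hP2 : ∀ i ∈ Finset.range (R ^ 16), (Pm μ).real (E2 i)
      ≤ Real.exp 1 * (2 / c1 * 2 + 2 * (Real.sqrt 2 * C20)) / r ^ 20 := by
    intro i hi
    have hsc := hB.sc (xg i) (grid_mem hab (Finset.mem_range.1 hi))
    have h3 := sb2 μ hsc hε' hθ0 hθ (r0 := 2 / r ^ 8) (r1 := 1 / r ^ 12) (rm := 1 / r ^ 12)
      (by positivity) (by
        rw [div_le_div_iff₀ (by positivity) (by positivity), one_mul]
        calc r ^ 8 ≤ r ^ 12 := pow_le_pow_right₀ hR1 (by norm_num)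
          _ ≤ 2 * r ^ 12 := by
            have : 0 < r ^ 12 := by positivity
            linarith) le_rfl
    refine h3.trans ?_
    have h4 := hexp r hR1 (θ0 * r ^ 32 * (1 / r ^ 12) / (2 * Cw Λ)) (by
      have e : θ0 * r ^ 32 * (1 / r ^ 12) / (2 * Cw Λ) = θ0 / (2 * Cw Λ) * r ^ 20 := by
        field_simp
      rw [e]
      gcongr
      exact le_self_pow₀ hR1 (by norm_num))
    calc Real.exp 1 * (2 / c1 * (2 / r ^ 8 * (1 / r ^ 12))
          + 2 * (Real.sqrt 2 * Real.exp (-((θ0 * r ^ 32 * (1 / r ^ 12) / (2 * Cw Λ)) ^ 2 / 4))))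
        ≤ Real.exp 1 * (2 / c1 * (2 / r ^ 8 * (1 / r ^ 12))
          + 2 * (Real.sqrt 2 * (C20 / r ^ 20))) := by gcongr
      _ = _ := by
        field_simp
  calc (Pm μ).real _ ≤ (Pm μ).real (E1 ∪ ⋃ i ∈ Finset.range (R ^ 16), E2 i) :=
        measureReal_mono hsub
    _ ≤ (Pm μ).real E1 + (Pm μ).real (⋃ i ∈ Finset.range (R ^ 16), E2 i) := measureReal_union_le _ _
    _ ≤ (Pm μ).real E1 + ∑ i ∈ Finset.range (R ^ 16), (Pm μ).real (E2 i) := by
        gcongr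
        exact measureReal_biUnion_finset_le _ _
    _ ≤ Real.sqrt (3 * Λ) * (Cg Λ 2 + Cg Λ 3) / r ^ 4
        + ∑ i ∈ Finset.range (R ^ 16), Real.exp 1 * (2 / c1 * 2 + 2 * (Real.sqrt 2 * C20)) / r ^ 20 := by
        gcongr with i hi
        exact hP2 i hi
    _ = _ := by
        rw [Finset.sum_const, Finset.card_range, nsmul_eq_mul]
        push_cast
        rw [← hr]
        field_simp

/-- probability that `f'` has many roots in the block -/
theorem PZ_bound_q (Λ : ℝ) (hΛ : 1 ≤ Λ) (q α c : ℕ) (hq3 : 3 ≤ q) (hα : α + c + 2 ≤ q) (hc31 : c ≤ 31) :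
    ∃ C : ℝ, 0 ≤ C ∧ ∀ (R : ℕ) (a b : ℝ) (n : ℕ) (ε : ℝ),
    Blk Λ R a b n → (ε = 1 ∨ ε = -1) →
    (Pm μ).real {ω | R * q < Z (derivative (kac ε n ω)) a b}
      ≤ C / (R : ℝ) ^ α + C * (R / (R : ℝ) ^ (3 * c)) := by
  obtain ⟨θ0, hθ0, hθ1, hθ⟩ := exists_theta0 μ h2 hm h21
  have hCw := Cw_pos hΛ
  have hc1 := c1_pos
  obtain ⟨Ce, hCe, hexp⟩ := exp_small (c := θ0 / (3 * Cw Λ)) (by positivity) (3 * c)
  obtain ⟨K1, hK1def⟩ : ∃ K1 : ℝ, K1 = Real.sqrt (3 * Λ) * (Cg Λ (q + 1) + Cg Λ (q + 1 + 1)) := ⟨_, rfl⟩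
  obtain ⟨K2, hK2def⟩ : ∃ K2 : ℝ, K2 = Real.exp (3 / 2) * (Real.sqrt (2 / c1) ^ 3 + 3 * (Real.sqrt 2 * Ce)) := ⟨_, rfl⟩
  have hK1 : 0 ≤ K1 := by
    rw [hK1def]
    have hCg2 := Cg_pos hΛ (q + 1)
    have hCg3 := Cg_pos hΛ (q + 1 + 1)
    positivity
  have hK2 : 0 ≤ K2 := by rw [hK2def]; positivity
  refine ⟨K1 + K2, by positivity, ?_⟩
  intro R a b n ε hB hε
  have hR0 := hB.Rpos
  have hR1 := hB.R1
  have hab := hB.hab
  have hε' : |ε| = 1 := by rcases hε with rfl | rfl <;> simp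
  have hN : (((R ^ 64 : ℕ) : ℝ)) = (R : ℝ) ^ 64 := by push_cast; rfl
  set r : ℝ := (R : ℝ) with hr
  set E1 : Set (ℕ → ℝ) := {ω | ∃ x ∈ Set.Icc a b, r ^ α * ((((R ^ 64 : ℕ) : ℝ)) ^ (q + 1) * r ^ 32)
    < |((derivative^[q + 1]) (kac ε n ω)).eval x|} with hE1
  set xg : ℕ → ℝ := fun i => a + i * ((b - a) / ((R : ℕ) : ℝ)) with hxg
  set E2 : ℕ → Set (ℕ → ℝ) := fun i => {ω | |lin (nw ε (xg i) (r ^ 32) 1) (n + 1) ω| ≤ 1 / r ^ c ∧
    |lin (nw ε (xg i) (r ^ 32) 2) (n + 1) ω| ≤ 1 / r ^ c ∧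
    |lin (nw ε (xg i) (r ^ 32) 3) (n + 1) ω| ≤ 1 / r ^ c} with hE2
  have hsub : {ω : ℕ → ℝ | R * q < Z (derivative (kac ε n ω)) a b}
      ⊆ E1 ∪ ⋃ i ∈ Finset.range R, E2 i := by
    intro ω hω
    by_cases hω1 : ω ∈ E1
    · exact Or.inl hω1
    · right
      have hS : ∀ x ∈ Set.Icc a b, |((derivative^[q]) (derivative (kac ε n ω))).eval x|
          ≤ r ^ α * ((((R ^ 64 : ℕ) : ℝ)) ^ (q + 1) * r ^ 32) := by
        intro x hx
        by_contra hcon
        push Not at hcon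
        exact hω1 ⟨x, hx, hcon⟩
      have hlen1 : (b - a) / r ≤ 1 := by
        rw [div_le_one hR0]
        have h3 := hB.hlen
        have h4 : (1 : ℝ) ≤ r ^ 64 := one_le_pow₀ hR1
        have h5 : 0 < b - a := by linarith
        nlinarith
      obtain ⟨i, hi, hi0, hi1, hi2⟩ := modL2 (derivative (kac ε n ω)) a b hab R
        (by have := hB.hR; omega) q (by omega) _ hS hω hlen1
      simp only [Set.mem_iUnion, Finset.mem_range]
      refine ⟨i, hi, ?_⟩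
      have hsc := hB.sc (xg i) (grid_mem hab hi)
      have ev1 := eval_nw hsc ε 1 ω
      have ev2 := eval_nw hsc ε 2 ω
      have ev3 := eval_nw hsc ε 3 ω
      change |((derivative^[1]) (kac ε n ω)).eval (xg i)| ≤ _ at hi0
      change |((derivative^[2]) (kac ε n ω)).eval (xg i)| ≤ _ at hi1
      change |((derivative^[3]) (kac ε n ω)).eval (xg i)| ≤ _ at hi2
      have hl : ((b - a) / r) * (r ^ 64 * r) ≤ 1 := by
        have := hB.hlen
        calc ((b - a) / r) * (r ^ 64 * r) = (b - a) * r ^ 64 := by field_simp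
          _ ≤ 1 := this
      set l := (b - a) / r with hldef
      have hl0 : 0 ≤ l := by
        rw [hldef]
        have : 0 < b - a := by linarith
        positivity
      have hl2 : l * (((R ^ 64 : ℕ) : ℝ)) ≤ 1 / r := by
        rw [le_div_iff₀ (by positivity), hN]; linarith
      have hNpos : (0 : ℝ) < ((R ^ 64 : ℕ) : ℝ) := by rw [hN]; positivity
      generalize (((R ^ 64 : ℕ) : ℝ)) = NN at *
      rw [ev1, abs_mul, abs_of_pos (by positivity)] at hi0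
      rw [ev2, abs_mul, abs_of_pos (by positivity)] at hi1
      rw [ev3, abs_mul, abs_of_pos (by positivity)] at hi2
      have hM0 : 0 < r ^ 32 := by positivity
      have hlN : 0 ≤ l * NN := by positivity
      refine ⟨?_, ?_, ?_⟩
      · have h4 := alg1 hNpos hM0 q 0 (by omega) (by simpa using hi0)
        exact h4.trans (alg2 hR1 hlN hl2 α c (by omega))
      · have h4 := alg1 hNpos hM0 q 1 (by omega) (by simpa using hi1)
        exact h4.trans (alg2 hR1 hlN hl2 α c (by omega))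
      · have h4 := alg1 hNpos hM0 q 2 (by omega) (by simpa using hi2)
        exact h4.trans (alg2 hR1 hlN hl2 α c (by omega))
  have hlen' : b - a ≤ 1 / ((R ^ 64 : ℕ) : ℝ) := by
    rw [hN, le_div_iff₀ (by positivity)]
    exact hB.hlen
  have hP1 : (Pm μ).real E1 ≤ K1 / r ^ α := by
    rw [hK1def]
    exact sup_block μ h2 hm h21 (q + 1) a b hab.le hlen' hB.sc ε hε (r ^ α) (by positivity)
  have hP2 : ∀ i ∈ Finset.range R, (Pm μ).real (E2 i) ≤ K2 / r ^ (3 * c) := by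
    intro i hi
    have hsc := hB.sc (xg i) (grid_mem hab (Finset.mem_range.1 hi))
    have h3 := sb3 μ hsc hε' hθ0 hθ (r := 1 / r ^ c) (by positivity)
    refine h3.trans ?_
    have h4 := hexp r hR1 (θ0 * r ^ 32 * (1 / r ^ c) / (3 * Cw Λ)) (by
      have e : θ0 * r ^ 32 * (1 / r ^ c) / (3 * Cw Λ) = θ0 / (3 * Cw Λ) * (r ^ 32 / r ^ c) := by
        field_simp
      rw [e]
      gcongr
      rw [le_div_iff₀ (by positivity)]
      calc r * r ^ c = r ^ (c + 1) := by ring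
        _ ≤ r ^ 32 := pow_le_pow_right₀ hR1 (by omega))
    calc Real.exp (3 / 2) * (Real.sqrt (2 / c1) ^ 3 * (1 / r ^ c) ^ 3
          + 3 * (Real.sqrt 2 * Real.exp (-((θ0 * r ^ 32 * (1 / r ^ c) / (3 * Cw Λ)) ^ 2 / 4))))
        ≤ Real.exp (3 / 2) * (Real.sqrt (2 / c1) ^ 3 * (1 / r ^ c) ^ 3
          + 3 * (Real.sqrt 2 * (Ce / r ^ (3 * c)))) := by gcongr
      _ = _ := by
        rw [hK2def]
        have e : (1 / r ^ c) ^ 3 = 1 / r ^ (3 * c) := by
          rw [div_pow, one_pow, ← pow_mul, mul_comm c 3]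
        rw [e]
        ring
  calc (Pm μ).real _ ≤ (Pm μ).real (E1 ∪ ⋃ i ∈ Finset.range R, E2 i) :=
        measureReal_mono hsub
    _ ≤ (Pm μ).real E1 + (Pm μ).real (⋃ i ∈ Finset.range R, E2 i) := measureReal_union_le _ _
    _ ≤ (Pm μ).real E1 + ∑ i ∈ Finset.range R, (Pm μ).real (E2 i) := by
        gcongr
        exact measureReal_biUnion_finset_le _ _
    _ ≤ K1 / r ^ α + ∑ i ∈ Finset.range R, K2 / r ^ (3 * c) := by
        gcongr with i hi
        exact hP2 i hi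
    _ = K1 / r ^ α + K2 * (r / r ^ (3 * c)) := by
        rw [Finset.sum_const, Finset.card_range, nsmul_eq_mul]
        ring
    _ ≤ (K1 + K2) / r ^ α + (K1 + K2) * (r / r ^ (3 * c)) := by
        gcongr
        · linarith
        · linarith

theorem PZ_bound (Λ : ℝ) (hΛ : 1 ≤ Λ) : ∃ C : ℝ, 0 ≤ C ∧ ∀ (R : ℕ) (a b : ℝ) (n : ℕ) (ε : ℝ),
    Blk Λ R a b n → (ε = 1 ∨ ε = -1) →
    (Pm μ).real {ω | R * 124 < Z (derivative (kac ε n ω)) a b} ≤ C / (R : ℝ) ^ 91 := by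
  obtain ⟨C, hC, h⟩ := PZ_bound_q μ h2 hm h21 Λ hΛ 124 91 31 (by norm_num) (by norm_num) (by norm_num)
  refine ⟨2 * C, by positivity, fun R a b n ε hB hε => (h R a b n ε hB hε).trans ?_⟩
  have hR0 := hB.Rpos
  have hR1 := hB.R1
  generalize (R : ℝ) = r at *
  have e : r / r ^ (3 * 31) ≤ 1 / r ^ 91 := by
    have e1 : r ^ (3 * 31) = r ^ 91 * r * r := by
      rw [mul_assoc, ← pow_two, ← pow_add]
    rw [e1, div_le_div_iff₀ (by positivity) (by positivity)]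
    have : 0 < r ^ 91 := by positivity
    nlinarith [mul_pos this hR0]
  calc C / r ^ 91 + C * (r / r ^ (3 * 31)) ≤ C / r ^ 91 + C * (1 / r ^ 91) := by gcongr
    _ = _ := by ring

end bounds

end Pool.Agent.H89.Kac
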