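import Pool.Agent.H89.Kac.Sums

set_option autoImplicit false
set_option linter.unusedSectionVars false

open MeasureTheory Filter Topology ProbabilityTheory Polynomial

namespace Pool.Agent.H89.Kac

variable {Λ M x : ℝ} {N n : ℕ}

lemma one_div_sqrt_le {r : ℝ} (hr : 0 < r) : 1 / Real.sqrt (1 + c1 / r ^ 2 / 2) ≤ Real.sqrt (2 / c1) * r := by
  have hc1 := c1_pos
  have h1 : Real.sqrt (c1 / r ^ 2 / 2) ≤ Real.sqrt (1 + c1 / r ^ 2 / 2) :=
    Real.sqrt_le_sqrt (by linarith)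
  have h2 : 0 < Real.sqrt (c1 / r ^ 2 / 2) := Real.sqrt_pos.2 (by positivity)
  have h3 : 1 / Real.sqrt (1 + c1 / r ^ 2 / 2) ≤ 1 / Real.sqrt (c1 / r ^ 2 / 2) :=
    one_div_le_one_div_of_le h2 h1
  refine h3.trans (le_of_eq ?_)
  rw [one_div, ← Real.sqrt_inv]
  have e : (c1 / r ^ 2 / 2)⁻¹ = 2 / c1 * r ^ 2 := by field_simp
  rw [e, Real.sqrt_mul (by positivity), Real.sqrt_sq hr.le]

section sb

variable (μ : Measure ℝ) [IsProbabilityMeasure μ]

instance Pm_isProb : IsProbabilityMeasure (Pm μ) := by unfold Pm; infer_instance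

lemma sb1 (h : Sc Λ M x N n) {ε : ℝ} (hε : |ε| = 1) {θ0 : ℝ} (hθ0 : 0 < θ0)
    (hθ : ∀ θ : ℝ, |θ| ≤ θ0 → ‖charFun μ θ‖ ≤ Real.exp (-(θ ^ 2 / 4))) {r : ℝ} (hr : 0 < r) :
    (Pm μ).real {ω | |lin (nw ε x M 0) (n + 1) ω| ≤ r}
      ≤ Real.exp (1 / 2) * (Real.sqrt (2 / c1) * r
        + Real.sqrt 2 * Real.exp (-((θ0 * M * r / Cw Λ) ^ 2 / 4))) := by
  have hC := Cw_pos h.hΛ
  have hM := h.hM
  have hc1 := c1_pos
  have key := small_ball_bound (fun _ : ℕ => μ) 1 (n + 1) (fun _ k => nw ε x M 0 k / r)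
    (fun _ => c1 / r ^ 2) (fun _ _ => by positivity) (θ0 * M * r / Cw Λ) (by positivity) (by
      intro y hy
      have hy0 := hy 0 (by norm_num)
      have := Phi_nw μ h hε hθ (y 0 / r) 0 0 0 (by
        simp only [abs_zero, add_zero]
        rw [abs_div, abs_of_pos hr]
        calc |y 0| / r * (Cw Λ / M) ≤ (θ0 * M * r / Cw Λ) / r * (Cw Λ / M) := by gcongr
          _ = θ0 := by field_simp)
      convert this using 3
      · funext k
        simp
        ring
      · simp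
        ring)
  have hset : {ω : ℕ → ℝ | |lin (nw ε x M 0) (n + 1) ω| ≤ r}
      ⊆ {ω | ∀ i < 1, |lin (fun k => nw ε x M 0 k / r) (n + 1) ω| ≤ 1} := by
    intro ω hω i _
    have hω' : |lin (nw ε x M 0) (n + 1) ω| ≤ r := hω
    have e : lin (fun k => nw ε x M 0 k / r) (n + 1) ω = lin (nw ε x M 0) (n + 1) ω / r := by
      unfold lin
      rw [Finset.sum_div]
      refine Finset.sum_congr rfl fun k _ => by ring
    rw [e, abs_div, abs_of_pos hr, div_le_one hr]
    exact hω'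
  refine (measureReal_mono hset).trans (key.trans ?_)
  simp only [Finset.prod_range_one, Nat.cast_one, one_mul]
  have := one_div_sqrt_le hr
  gcongr

lemma sb2 (h : Sc Λ M x N n) {ε : ℝ} (hε : |ε| = 1) {θ0 : ℝ} (hθ0 : 0 < θ0)
    (hθ : ∀ θ : ℝ, |θ| ≤ θ0 → ‖charFun μ θ‖ ≤ Real.exp (-(θ ^ 2 / 4))) {r0 r1 rm : ℝ} (hrm : 0 < rm)
    (hr0 : rm ≤ r0) (hr1 : rm ≤ r1) :
    (Pm μ).real {ω | |lin (nw ε x M 0) (n + 1) ω| ≤ r0 ∧ |lin (nw ε x M 1) (n + 1) ω| ≤ r1}
      ≤ Real.exp 1 * (2 / c1 * (r0 * r1)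
        + 2 * (Real.sqrt 2 * Real.exp (-((θ0 * M * rm / (2 * Cw Λ)) ^ 2 / 4)))) := by
  have hC := Cw_pos h.hΛ
  have hM := h.hM
  have hc1 := c1_pos
  have hr0' : 0 < r0 := lt_of_lt_of_le hrm hr0
  have hr1' : 0 < r1 := lt_of_lt_of_le hrm hr1
  have key := small_ball_bound (fun _ : ℕ => μ) 2 (n + 1)
    (fun i k => if i = 0 then nw ε x M 0 k / r0 else nw ε x M 1 k / r1)
    (fun i => if i = 0 then c1 / r0 ^ 2 else c1 / r1 ^ 2)
    (fun i _ => by split_ifs <;> positivity) (θ0 * M * rm / (2 * Cw Λ)) (by positivity) (by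
      intro y hy
      have hy0 := hy 0 (by norm_num)
      have hy1 := hy 1 (by norm_num)
      have := Phi_nw μ h hε hθ (y 0 / r0) (y 1 / r1) 0 0 (by
        simp only [abs_zero, add_zero]
        rw [abs_div, abs_of_pos hr0', abs_div, abs_of_pos hr1']
        calc (|y 0| / r0 + |y 1| / r1) * (Cw Λ / M)
            ≤ ((θ0 * M * rm / (2 * Cw Λ)) / rm + (θ0 * M * rm / (2 * Cw Λ)) / rm) * (Cw Λ / M) := by gcongr
          _ = θ0 := by field_simp; ring)
      convert this using 3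
      · funext k
        simp [Finset.sum_range_succ]
        ring
      · simp [Finset.sum_range_succ]
        ring)
  have hset : {ω : ℕ → ℝ | |lin (nw ε x M 0) (n + 1) ω| ≤ r0 ∧ |lin (nw ε x M 1) (n + 1) ω| ≤ r1}
      ⊆ {ω | ∀ i < 2, |lin (fun k => if i = 0 then nw ε x M 0 k / r0 else nw ε x M 1 k / r1) (n + 1) ω| ≤ 1} := by
    intro ω hω i _
    obtain ⟨hω0, hω1⟩ := hω
    by_cases hi : i = 0
    · simp only [hi, if_true]
      have e : lin (fun k => nw ε x M 0 k / r0) (n + 1) ω = lin (nw ε x M 0) (n + 1) ω / r0 := by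
        unfold lin
        rw [Finset.sum_div]
        refine Finset.sum_congr rfl fun k _ => by ring
      rw [e, abs_div, abs_of_pos hr0', div_le_one hr0']
      exact hω0
    · simp only [hi, if_false]
      have e : lin (fun k => nw ε x M 1 k / r1) (n + 1) ω = lin (nw ε x M 1) (n + 1) ω / r1 := by
        unfold lin
        rw [Finset.sum_div]
        refine Finset.sum_congr rfl fun k _ => by ring
      rw [e, abs_div, abs_of_pos hr1', div_le_one hr1']
      exact hω1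
  refine (measureReal_mono hset).trans (key.trans ?_)
  simp only [Finset.prod_range_succ, Finset.range_zero, Finset.prod_empty, one_mul, if_true,
    Nat.cast_ofNat]
  have h0 := one_div_sqrt_le hr0'
  have h1 := one_div_sqrt_le hr1'
  have e1 : ((2 : ℝ) / 2) = 1 := by norm_num
  rw [e1]
  simp only [one_ne_zero, if_false]
  have h2 : 1 / Real.sqrt (1 + c1 / r0 ^ 2 / 2) * (1 / Real.sqrt (1 + c1 / r1 ^ 2 / 2))
      ≤ 2 / c1 * (r0 * r1) := by
    calc 1 / Real.sqrt (1 + c1 / r0 ^ 2 / 2) * (1 / Real.sqrt (1 + c1 / r1 ^ 2 / 2))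
        ≤ (Real.sqrt (2 / c1) * r0) * (Real.sqrt (2 / c1) * r1) := by gcongr
      _ = (Real.sqrt (2 / c1) * Real.sqrt (2 / c1)) * (r0 * r1) := by ring
      _ = _ := by rw [Real.mul_self_sqrt (by positivity)]
  gcongr

lemma sb3 (h : Sc Λ M x N n) {ε : ℝ} (hε : |ε| = 1) {θ0 : ℝ} (hθ0 : 0 < θ0)
    (hθ : ∀ θ : ℝ, |θ| ≤ θ0 → ‖charFun μ θ‖ ≤ Real.exp (-(θ ^ 2 / 4))) {r : ℝ} (hr : 0 < r) :
    (Pm μ).real {ω | |lin (nw ε x M 1) (n + 1) ω| ≤ r ∧ |lin (nw ε x M 2) (n + 1) ω| ≤ r ∧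
        |lin (nw ε x M 3) (n + 1) ω| ≤ r}
      ≤ Real.exp (3 / 2) * (Real.sqrt (2 / c1) ^ 3 * r ^ 3
        + 3 * (Real.sqrt 2 * Real.exp (-((θ0 * M * r / (3 * Cw Λ)) ^ 2 / 4)))) := by
  have hC := Cw_pos h.hΛ
  have hM := h.hM
  have hc1 := c1_pos
  have key := small_ball_bound (fun _ : ℕ => μ) 3 (n + 1)
    (fun i k => nw ε x M (i + 1) k / r)
    (fun _ => c1 / r ^ 2)
    (fun i _ => by positivity) (θ0 * M * r / (3 * Cw Λ)) (by positivity) (by
      intro y hy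
      have hy0 := hy 0 (by norm_num)
      have hy1 := hy 1 (by norm_num)
      have hy2 := hy 2 (by norm_num)
      have := Phi_nw μ h hε hθ 0 (y 0 / r) (y 1 / r) (y 2 / r) (by
        simp only [abs_zero, zero_add]
        rw [abs_div, abs_div, abs_div, abs_of_pos hr]
        calc (|y 0| / r + |y 1| / r + |y 2| / r) * (Cw Λ / M)
            ≤ ((θ0 * M * r / (3 * Cw Λ)) / r + (θ0 * M * r / (3 * Cw Λ)) / r
              + (θ0 * M * r / (3 * Cw Λ)) / r) * (Cw Λ / M) := by gcongr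
          _ = θ0 := by field_simp; ring)
      convert this using 3
      · funext k
        simp [Finset.sum_range_succ]
        ring
      · simp [Finset.sum_range_succ]
        ring)
  have hset : {ω : ℕ → ℝ | |lin (nw ε x M 1) (n + 1) ω| ≤ r ∧ |lin (nw ε x M 2) (n + 1) ω| ≤ r ∧
        |lin (nw ε x M 3) (n + 1) ω| ≤ r}
      ⊆ {ω | ∀ i < 3, |lin (fun k => nw ε x M (i + 1) k / r) (n + 1) ω| ≤ 1} := by
    intro ω hω i hi
    obtain ⟨hω0, hω1, hω2⟩ := hω
    have e : lin (fun k => nw ε x M (i + 1) k / r) (n + 1) ω = lin (nw ε x M (i + 1)) (n + 1) ω / r := by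
      unfold lin
      rw [Finset.sum_div]
      refine Finset.sum_congr rfl fun k _ => by ring
    rw [e, abs_div, abs_of_pos hr, div_le_one hr]
    interval_cases i
    · exact hω0
    · exact hω1
    · exact hω2
  refine (measureReal_mono hset).trans (key.trans ?_)
  have h0 := one_div_sqrt_le hr
  simp only [Finset.prod_const, Finset.card_range, Nat.cast_ofNat]
  gcongr
  calc (1 / Real.sqrt (1 + c1 / r ^ 2 / 2)) ^ 3
      ≤ (Real.sqrt (2 / c1) * r) ^ 3 := by gcongr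
    _ = _ := by ring

end sb

end Pool.Agent.H89.Kac
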