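import Pool.Agent.H89.Kac.Decay

set_option autoImplicit false
set_option linter.unusedSectionVars false

open MeasureTheory Filter Topology ProbabilityTheory

namespace Pool.Agent.H89.Kac

section smallball

/-- law of a sequence of independent standard Gaussians -/
noncomputable def Gm : Measure (ℕ → ℝ) := Measure.infinitePi (fun _ : ℕ => gaussianReal 0 1)

instance : IsProbabilityMeasure Gm := by unfold Gm; infer_instance

lemma integral_exp_gaussian {κ : ℝ} (hκ : -2 < κ) :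
    ∫ y : ℝ, Real.exp (-(κ * y ^ 2) / 4) ∂(gaussianReal 0 1) = 1 / Real.sqrt (1 + κ / 2) := by
  rw [integral_gaussianReal_eq_integral_smul (by norm_num)]
  have e : ∀ y : ℝ, gaussianPDFReal 0 1 y • Real.exp (-(κ * y ^ 2) / 4)
      = (Real.sqrt (2 * Real.pi))⁻¹ * Real.exp (-(1 / 2 + κ / 4) * y ^ 2) := by
    intro y
    unfold gaussianPDFReal
    simp only [NNReal.coe_one, mul_one, sub_zero, smul_eq_mul]
    rw [mul_assoc, ← Real.exp_add]
    congr 2
    ring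
  simp_rw [e]
  rw [integral_const_mul, integral_gaussian]
  have h1 : 0 < 1 + κ / 2 := by linarith
  have hpi := Real.pi_pos
  rw [show Real.pi / (1 / 2 + κ / 4) = (2 * Real.pi) / (1 + κ / 2) by
    rw [div_eq_div_iff (by linarith) (by linarith)]; ring]
  rw [Real.sqrt_div (by positivity), ← mul_div_assoc, inv_mul_cancel₀ (by positivity)]

lemma integrable_exp_gaussian {κ : ℝ} (hκ : -2 < κ) :
    Integrable (fun y : ℝ => Real.exp (-(κ * y ^ 2) / 4)) (gaussianReal 0 1) := by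
  by_contra h
  have h1 := integral_exp_gaussian hκ
  rw [integral_undef h] at h1
  have h2 : 0 < 1 + κ / 2 := by linarith
  have : 0 < 1 / Real.sqrt (1 + κ / 2) := by positivity
  linarith

lemma integral_prod_exp (d : ℕ) (κ : ℕ → ℝ) (hκ : ∀ i < d, 0 ≤ κ i) :
    ∫ ω, Real.exp (-((∑ i ∈ Finset.range d, κ i * ω i ^ 2) / 4)) ∂Gm
      = ∏ i ∈ Finset.range d, 1 / Real.sqrt (1 + κ i / 2) := by
  have hind : iIndepFun (fun (i : Fin d) (ω : ℕ → ℝ) => ω (i : ℕ)) Gm :=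
    (iIndep_coord (fun _ => gaussianReal 0 1)).precomp Fin.val_injective
  have h := iIndepFun.integral_fun_prod_comp (𝕜 := ℝ) (X := fun (i : Fin d) (ω : ℕ → ℝ) => ω (i : ℕ))
    (f := fun (i : Fin d) (x : ℝ) => Real.exp (-(κ (i : ℕ) * x ^ 2) / 4)) hind
    (fun i => (measurable_pi_apply (i : ℕ)).aemeasurable)
    (fun i => (by fun_prop : Measurable fun x : ℝ => Real.exp (-(κ (i : ℕ) * x ^ 2) / 4)).aestronglyMeasurable)
  have e1 : ∀ ω : ℕ → ℝ, ∏ i : Fin d, Real.exp (-(κ i * ω i ^ 2) / 4)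
      = Real.exp (-((∑ i ∈ Finset.range d, κ i * ω i ^ 2) / 4)) := by
    intro ω
    rw [← Real.exp_sum]
    congr 1
    rw [Finset.sum_range (fun i => κ i * ω i ^ 2), Finset.sum_div, ← Finset.sum_neg_distrib]
    refine Finset.sum_congr rfl fun i _ => ?_
    ring
  simp_rw [e1] at h
  rw [h, Finset.prod_range (fun i => 1 / Real.sqrt (1 + κ i / 2))]
  refine Finset.prod_congr rfl fun i _ => ?_
  have := integral_exp_gaussian (κ := κ i) (by linarith [hκ i i.2])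
  rw [← this]
  conv_rhs => rw [← map_coord (fun _ => gaussianReal 0 1) (i : ℕ)]
  rw [integral_map (measurable_pi_apply _).aemeasurable
    (by fun_prop : Measurable fun x : ℝ => Real.exp (-(κ i * x ^ 2) / 4)).aestronglyMeasurable]
  rfl

lemma gauss_tail (i : ℕ) (L : ℝ) :
    Gm.real {ω | L < |ω i|} ≤ Real.sqrt 2 * Real.exp (-(L ^ 2 / 4)) ∨ L < 0 := by
  by_cases hL : L < 0
  · exact Or.inr hL
  left
  push Not at hL
  have hint : Integrable (fun ω : ℕ → ℝ => Real.exp (ω i ^ 2 / 4)) Gm := by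
    have h := integrable_exp_gaussian (κ := -1) (by norm_num)
    have h' : Integrable (fun y : ℝ => Real.exp (y ^ 2 / 4)) (gaussianReal 0 1) := by
      simpa using h
    rw [← map_coord (fun _ => gaussianReal 0 1) i] at h'
    exact h'.comp_measurable (measurable_pi_apply i)
  have hval : ∫ ω : ℕ → ℝ, Real.exp (ω i ^ 2 / 4) ∂Gm = Real.sqrt 2 := by
    have h := integral_exp_gaussian (κ := -1) (by norm_num)
    have h' : ∫ y : ℝ, Real.exp (y ^ 2 / 4) ∂(gaussianReal 0 1) = 1 / Real.sqrt (1 + -1 / 2) := by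
      rw [← h]; congr 1; ext y; congr 1; ring
    rw [← map_coord (fun _ => gaussianReal 0 1) i, integral_map (measurable_pi_apply _).aemeasurable
      (by fun_prop : Measurable fun y : ℝ => Real.exp (y ^ 2 / 4)).aestronglyMeasurable] at h'
    unfold Gm
    rw [h']
    rw [show (1 + -1 / 2 : ℝ) = 2⁻¹ by norm_num, Real.sqrt_inv, one_div, inv_inv]
  have hmk := mul_meas_ge_le_integral_of_nonneg (μ := Gm)
    (f := fun ω : ℕ → ℝ => Real.exp (ω i ^ 2 / 4)) (ae_of_all _ fun ω => (Real.exp_pos _).le) hint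
    (Real.exp (L ^ 2 / 4))
  rw [hval] at hmk
  have hsub : {ω : ℕ → ℝ | L < |ω i|} ⊆ {ω : ℕ → ℝ | Real.exp (L ^ 2 / 4) ≤ Real.exp (ω i ^ 2 / 4)} := by
    intro ω hω
    have hω' : L < |ω i| := hω
    have : L ^ 2 ≤ ω i ^ 2 := by rw [← sq_abs (ω i)]; gcongr
    exact Real.exp_le_exp.2 (by linarith)
  have h1 : Gm.real {ω : ℕ → ℝ | L < |ω i|} ≤ Gm.real {ω : ℕ → ℝ | Real.exp (L ^ 2 / 4) ≤ Real.exp (ω i ^ 2 / 4)} :=
    measureReal_mono hsub
  have hpos := Real.exp_pos (L ^ 2 / 4)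
  rw [Real.exp_neg, ← div_eq_mul_inv, le_div_iff₀ hpos]
  calc Gm.real {ω : ℕ → ℝ | L < |ω i|} * Real.exp (L ^ 2 / 4)
      ≤ Gm.real {ω : ℕ → ℝ | Real.exp (L ^ 2 / 4) ≤ Real.exp (ω i ^ 2 / 4)} * Real.exp (L ^ 2 / 4) := by
        gcongr
    _ ≤ Real.sqrt 2 := by rw [mul_comm]; exact hmk

variable (ν : ℕ → Measure ℝ) [∀ k, IsProbabilityMeasure (ν k)]

lemma lin_lin (d n : ℕ) (b : ℕ → ℕ → ℝ) (ω ω' : ℕ → ℝ) :
    lin (fun i => lin (b i) n ω) d ω' = lin (fun k => ∑ i ∈ Finset.range d, ω' i * b i k) n ω := by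
  unfold lin
  simp_rw [Finset.sum_mul]
  rw [Finset.sum_comm]
  refine Finset.sum_congr rfl fun k _ => Finset.sum_congr rfl fun i _ => ?_
  ring

lemma small_ball (d n : ℕ) (b : ℕ → ℕ → ℝ) :
    (Measure.infinitePi ν).real {ω | ∀ i < d, |lin (b i) n ω| ≤ 1}
      ≤ Real.exp (d / 2) * ∫ ω', ‖Phi ν n (fun k => ∑ i ∈ Finset.range d, ω' i * b i k)‖ ∂Gm := by
  -- the Gaussian function of the vector
  have hg : ∀ ω : ℕ → ℝ, ((Real.exp (-((∑ i ∈ Finset.range d, (lin (b i) n ω) ^ 2) / 2)) : ℝ) : ℂ)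
      = ∫ ω', Complex.exp (Complex.I * ((lin (fun i => lin (b i) n ω) d ω' : ℝ) : ℂ)) ∂Gm := by
    intro ω
    unfold Gm
    rw [← Phi_eq (fun _ => gaussianReal 0 1) d (fun i => lin (b i) n ω)]
    unfold Phi
    simp_rw [charFun_gaussianReal]
    rw [← Complex.exp_sum, Complex.ofReal_exp]
    congr 1
    push_cast
    rw [Finset.sum_div, ← Finset.sum_neg_distrib]
    refine Finset.sum_congr rfl fun i _ => ?_
    simp
  have hmeas : ∀ i, Measurable (lin (b i) n) := fun i => measurable_lin _ _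
  have hS : MeasurableSet {ω : ℕ → ℝ | ∀ i < d, |lin (b i) n ω| ≤ 1} := by
    have : {ω : ℕ → ℝ | ∀ i < d, |lin (b i) n ω| ≤ 1}
        = ⋂ i ∈ Finset.range d, {ω : ℕ → ℝ | |lin (b i) n ω| ≤ 1} := by
      ext ω; simp
    rw [this]
    refine Finset.measurableSet_biInter _ fun i _ => ?_
    have := hmeas i
    exact measurableSet_le (by fun_prop) (by fun_prop)
  have hE : ∀ ω : ℕ → ℝ, Set.indicator {ω : ℕ → ℝ | ∀ i < d, |lin (b i) n ω| ≤ 1} (fun _ => (1 : ℝ)) ω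
      ≤ Real.exp (d / 2) * Real.exp (-((∑ i ∈ Finset.range d, (lin (b i) n ω) ^ 2) / 2)) := by
    intro ω
    by_cases hω : ω ∈ {ω : ℕ → ℝ | ∀ i < d, |lin (b i) n ω| ≤ 1}
    · rw [Set.indicator_of_mem hω, ← Real.exp_add]
      apply Real.one_le_exp
      have h1 : ∑ i ∈ Finset.range d, (lin (b i) n ω) ^ 2 ≤ ∑ i ∈ Finset.range d, (1 : ℝ) := by
        refine Finset.sum_le_sum fun i hi => ?_
        have h3 : |lin (b i) n ω| ≤ 1 := hω i (Finset.mem_range.1 hi)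
        rw [← sq_abs]; exact pow_le_one₀ (abs_nonneg _) h3
      simp at h1
      linarith
    · rw [Set.indicator_of_notMem hω]; positivity
  have hmg : Measurable (fun ω : ℕ → ℝ => Real.exp (-((∑ i ∈ Finset.range d, (lin (b i) n ω) ^ 2) / 2))) := by
    fun_prop
  have hig : Integrable (fun ω : ℕ → ℝ => Real.exp (-((∑ i ∈ Finset.range d, (lin (b i) n ω) ^ 2) / 2)))
      (Measure.infinitePi ν) := by
    refine Integrable.of_bound (C := 1) hmg.aestronglyMeasurable (ae_of_all _ fun ω => ?_)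
    rw [Real.norm_of_nonneg (Real.exp_pos _).le, Real.exp_le_one_iff]
    have : 0 ≤ ∑ i ∈ Finset.range d, (lin (b i) n ω) ^ 2 := Finset.sum_nonneg fun i _ => sq_nonneg _
    linarith
  have step1 : (Measure.infinitePi ν).real {ω | ∀ i < d, |lin (b i) n ω| ≤ 1}
      ≤ Real.exp (d / 2) * ∫ ω, Real.exp (-((∑ i ∈ Finset.range d, (lin (b i) n ω) ^ 2) / 2))
        ∂(Measure.infinitePi ν) := by
    rw [← integral_const_mul, ← integral_indicator_one hS]
    refine integral_mono_of_nonneg (ae_of_all _ fun ω => ?_) (hig.const_mul _) (ae_of_all _ fun ω => hE ω)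
    exact Set.indicator_nonneg (fun _ _ => zero_le_one) _
  refine step1.trans ?_
  gcongr
  have hF : Integrable (Function.uncurry fun (ω ω' : ℕ → ℝ) =>
      Complex.exp (Complex.I * ((lin (fun i => lin (b i) n ω) d ω' : ℝ) : ℂ)))
      ((Measure.infinitePi ν).prod Gm) := by
    refine Integrable.of_bound (C := 1) ?_ (ae_of_all _ fun z => ?_)
    · have : Measurable (Function.uncurry fun (ω ω' : ℕ → ℝ) =>
          Complex.exp (Complex.I * ((lin (fun i => lin (b i) n ω) d ω' : ℝ) : ℂ))) := by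
        unfold lin
        fun_prop
      exact this.aestronglyMeasurable
    · simp only [Function.uncurry]
      rw [Complex.norm_exp_I_mul_ofReal]
  have step2 : ((∫ ω, Real.exp (-((∑ i ∈ Finset.range d, (lin (b i) n ω) ^ 2) / 2))
        ∂(Measure.infinitePi ν) : ℝ) : ℂ)
      = ∫ ω', Phi ν n (fun k => ∑ i ∈ Finset.range d, ω' i * b i k) ∂Gm := by
    rw [← integral_complex_ofReal]
    simp_rw [hg]
    rw [integral_integral_swap hF]
    congr 1; ext ω'
    rw [Phi_eq]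
    simp_rw [lin_lin]
  have hnn : 0 ≤ ∫ ω, Real.exp (-((∑ i ∈ Finset.range d, (lin (b i) n ω) ^ 2) / 2))
        ∂(Measure.infinitePi ν) := integral_nonneg fun ω => (Real.exp_pos _).le
  have step3 : (∫ ω, Real.exp (-((∑ i ∈ Finset.range d, (lin (b i) n ω) ^ 2) / 2))
        ∂(Measure.infinitePi ν)) = ‖∫ ω', Phi ν n (fun k => ∑ i ∈ Finset.range d, ω' i * b i k) ∂Gm‖ := by
    rw [← step2, Complex.norm_real, Real.norm_of_nonneg hnn]
  rw [step3]
  exact norm_integral_le_integral_norm _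

lemma norm_Phi_le_one (n : ℕ) (a : ℕ → ℝ) : ‖Phi ν n a‖ ≤ 1 := by
  unfold Phi
  rw [norm_prod]
  exact Finset.prod_le_one (fun _ _ => norm_nonneg _) fun k _ => norm_charFun_le_one _

lemma measurable_norm_Phi (d n : ℕ) (b : ℕ → ℕ → ℝ) :
    Measurable (fun ω' : ℕ → ℝ => ‖Phi ν n (fun k => ∑ i ∈ Finset.range d, ω' i * b i k)‖) := by
  unfold Phi
  refine Measurable.norm ?_
  refine Finset.measurable_fun_prod _ fun k _ => ?_
  exact (continuous_charFun (μ := ν k)).measurable.comp (by fun_prop)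

theorem small_ball_bound (d n : ℕ) (b : ℕ → ℕ → ℝ) (κ : ℕ → ℝ) (hκ : ∀ i < d, 0 ≤ κ i) (L : ℝ)
    (hL : 0 ≤ L)
    (h : ∀ y : ℕ → ℝ, (∀ i < d, |y i| ≤ L) →
      ‖Phi ν n (fun k => ∑ i ∈ Finset.range d, y i * b i k)‖
        ≤ Real.exp (-((∑ i ∈ Finset.range d, κ i * y i ^ 2) / 4))) :
    (Measure.infinitePi ν).real {ω | ∀ i < d, |lin (b i) n ω| ≤ 1}
      ≤ Real.exp (d / 2) * (∏ i ∈ Finset.range d, 1 / Real.sqrt (1 + κ i / 2)
        + d * (Real.sqrt 2 * Real.exp (-(L ^ 2 / 4)))) := by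
  refine (small_ball ν d n b).trans ?_
  gcongr
  have hm1 : Measurable (fun ω' : ℕ → ℝ => Real.exp (-((∑ i ∈ Finset.range d, κ i * ω' i ^ 2) / 4))) := by
    fun_prop
  have hi1 : Integrable (fun ω' : ℕ → ℝ => Real.exp (-((∑ i ∈ Finset.range d, κ i * ω' i ^ 2) / 4))) Gm := by
    refine Integrable.of_bound (C := 1) hm1.aestronglyMeasurable (ae_of_all _ fun ω => ?_)
    rw [Real.norm_of_nonneg (Real.exp_pos _).le, Real.exp_le_one_iff]
    have : 0 ≤ ∑ i ∈ Finset.range d, κ i * ω i ^ 2 :=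
      Finset.sum_nonneg fun i hi => mul_nonneg (hκ i (Finset.mem_range.1 hi)) (sq_nonneg _)
    linarith
  have hSi : ∀ i : ℕ, MeasurableSet {ω : ℕ → ℝ | L < |ω i|} := fun i =>
    measurableSet_lt (by fun_prop) (by fun_prop)
  have hi2 : ∀ i : ℕ, Integrable (Set.indicator {ω : ℕ → ℝ | L < |ω i|} (1 : (ℕ → ℝ) → ℝ)) Gm := fun i =>
    (integrable_const (1 : ℝ)).indicator (hSi i)
  have hi3 : Integrable (fun ω' : ℕ → ℝ => ∑ i ∈ Finset.range d,
      Set.indicator {ω : ℕ → ℝ | L < |ω i|} (1 : (ℕ → ℝ) → ℝ) ω') Gm :=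
    integrable_finsetSum _ fun i _ => hi2 i
  have hbound : ∀ ω' : ℕ → ℝ, ‖Phi ν n (fun k => ∑ i ∈ Finset.range d, ω' i * b i k)‖
      ≤ Real.exp (-((∑ i ∈ Finset.range d, κ i * ω' i ^ 2) / 4))
        + ∑ i ∈ Finset.range d, Set.indicator {ω : ℕ → ℝ | L < |ω i|} (1 : (ℕ → ℝ) → ℝ) ω' := by
    intro ω'
    have hnn : ∀ i : ℕ, 0 ≤ Set.indicator {ω : ℕ → ℝ | L < |ω i|} (1 : (ℕ → ℝ) → ℝ) ω' := fun i =>
      Set.indicator_nonneg (fun _ _ => zero_le_one) _
    by_cases hω : ∀ i < d, |ω' i| ≤ L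
    · have := h ω' hω
      have h2 : 0 ≤ ∑ i ∈ Finset.range d, Set.indicator {ω : ℕ → ℝ | L < |ω i|} (1 : (ℕ → ℝ) → ℝ) ω' :=
        Finset.sum_nonneg fun i _ => hnn i
      linarith
    · push Not at hω
      obtain ⟨i, hid, hi⟩ := hω
      have h1 := norm_Phi_le_one ν n (fun k => ∑ i ∈ Finset.range d, ω' i * b i k)
      have h2 : Set.indicator {ω : ℕ → ℝ | L < |ω i|} (1 : (ℕ → ℝ) → ℝ) ω' = 1 := by
        rw [Set.indicator_of_mem (show ω' ∈ {ω : ℕ → ℝ | L < |ω i|} from hi)]; rfl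
      have h3 : Set.indicator {ω : ℕ → ℝ | L < |ω i|} (1 : (ℕ → ℝ) → ℝ) ω'
          ≤ ∑ i ∈ Finset.range d, Set.indicator {ω : ℕ → ℝ | L < |ω i|} (1 : (ℕ → ℝ) → ℝ) ω' :=
        Finset.single_le_sum (f := fun i => Set.indicator {ω : ℕ → ℝ | L < |ω i|} (1 : (ℕ → ℝ) → ℝ) ω')
          (fun i _ => hnn i) (Finset.mem_range.2 hid)
      have h4 := (Real.exp_pos (-((∑ i ∈ Finset.range d, κ i * ω' i ^ 2) / 4))).le
      linarith
  have hstep := integral_mono_of_nonneg (μ := Gm) (ae_of_all _ fun ω' => norm_nonneg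
    (Phi ν n (fun k => ∑ i ∈ Finset.range d, ω' i * b i k))) (hi1.add hi3) (ae_of_all _ hbound)
  refine hstep.trans ?_
  simp only [Pi.add_apply]
  rw [integral_add hi1 hi3, integral_prod_exp d κ hκ, integral_finsetSum _ (fun i _ => hi2 i)]
  gcongr
  have : ∀ i ∈ Finset.range d, ∫ ω', Set.indicator {ω : ℕ → ℝ | L < |ω i|} (1 : (ℕ → ℝ) → ℝ) ω' ∂Gm
      ≤ Real.sqrt 2 * Real.exp (-(L ^ 2 / 4)) := by
    intro i _
    rw [integral_indicator_one (hSi i)]
    rcases gauss_tail i L with h | h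
    · exact h
    · linarith
  refine (Finset.sum_le_sum this).trans ?_
  simp

end smallball

end Pool.Agent.H89.Kac
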