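import Pool.Agent.H89.Kac.Fub

set_option autoImplicit false
set_option linter.unusedSectionVars false

open MeasureTheory Filter Topology ProbabilityTheory Polynomial

namespace Pool.Agent.H89.Kac

variable {Λ a b : ℝ} {R n : ℕ}

section step1

variable (μ : Measure ℝ) [IsProbabilityMeasure μ] (h2 : Integrable (fun x : ℝ => x ^ 2) μ)
    (hm : ∫ x, x ∂μ = 0) (h21 : ∫ x, x ^ 2 ∂μ = 1)

include h2 hm h21 in
theorem Pa_bound (Λ : ℝ) (hΛ : 1 ≤ Λ) : ∃ C : ℝ, 0 ≤ C ∧ ∀ (R : ℕ) (a b : ℝ) (n : ℕ) (ε x : ℝ),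
    Blk Λ R a b n → (ε = 1 ∨ ε = -1) → x ∈ Set.Icc a b →
    (Pm μ).real {ω | |(kac ε n ω).eval x| ≤ 1 / (R : ℝ) ^ 8 * (R : ℝ) ^ 32} ≤ C / R := by
  obtain ⟨θ0, hθ0, hθ1, hθ⟩ := exists_theta0 μ h2 hm h21
  have hCw := Cw_pos hΛ
  have hc1 := c1_pos
  obtain ⟨C1, hC1, hexp⟩ := exp_small (c := θ0 / Cw Λ) (by positivity) 1
  refine ⟨Real.exp (1 / 2) * (Real.sqrt (2 / c1) + Real.sqrt 2 * C1), by positivity, ?_⟩
  intro R a b n ε x hB hε hx
  have hR0 := hB.Rpos
  have hR1 := hB.R1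
  have hε' : |ε| = 1 := by rcases hε with rfl | rfl <;> simp
  have hN : (((R ^ 64 : ℕ) : ℝ)) = (R : ℝ) ^ 64 := by push_cast; rfl
  set r : ℝ := (R : ℝ) with hr
  have hsc := hB.sc x hx
  have hset : {ω : ℕ → ℝ | |(kac ε n ω).eval x| ≤ 1 / r ^ 8 * r ^ 32}
      = {ω | |lin (nw ε x (r ^ 32) 0) (n + 1) ω| ≤ 1 / r ^ 8} := by
    ext ω
    have ev0 := eval_nw hsc ε 0 ω
    simp only [Function.iterate_zero, id_eq, pow_zero, one_mul] at ev0
    simp only [Set.mem_setOf_eq]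
    rw [ev0, abs_mul, abs_of_pos (by positivity : 0 < r ^ 32), mul_comm (r ^ 32)]
    exact mul_le_mul_iff_left₀ (by positivity)
  rw [hset]
  refine (sb1 μ hsc hε' hθ0 hθ (r := 1 / r ^ 8) (by positivity)).trans ?_
  have h4 := hexp r hR1 (θ0 * r ^ 32 * (1 / r ^ 8) / Cw Λ) (by
    have e : θ0 * r ^ 32 * (1 / r ^ 8) / Cw Λ = θ0 / Cw Λ * r ^ 24 := by
      field_simp
    rw [e]
    gcongr
    exact le_self_pow₀ hR1 (by norm_num))
  have h5 : 1 / r ^ 8 ≤ 1 / r := by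
    apply one_div_le_one_div_of_le hR0
    exact le_self_pow₀ hR1 (by norm_num)
  calc Real.exp (1 / 2) * (Real.sqrt (2 / c1) * (1 / r ^ 8)
        + Real.sqrt 2 * Real.exp (-((θ0 * r ^ 32 * (1 / r ^ 8) / Cw Λ) ^ 2 / 4)))
      ≤ Real.exp (1 / 2) * (Real.sqrt (2 / c1) * (1 / r) + Real.sqrt 2 * (C1 / r ^ 1)) := by gcongr
    _ = _ := by rw [pow_one]; ring

lemma measurable_eval_kac (ε : ℝ) (n : ℕ) (x : ℝ) : Measurable (fun ω : ℕ → ℝ => (kac ε n ω).eval x) := by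
  simp only [ModI.eval_kac']
  fun_prop

/-- pointwise bound -/
lemma pt_bound (p : ℝ[X]) (a b ηp : ℝ) (hab : a ≤ b) (hη : 0 < ηp) (Ls t : ℝ) (hL : 0 ≤ Ls) (ht : 0 < t) :
    |(Z p a b : ℝ) - Kf ηp a b p|
      ≤ 2 * (Ls * (Set.indicator {p : ℝ[X] | ∃ c ∈ Set.Ioo a b, (derivative p).eval c = 0 ∧ |p.eval c| ≤ ηp} (fun _ => (1 : ℝ)) p)
        + t * (if Ls < (Z (derivative p) a b : ℝ) then 1 else 0) + (Z (derivative p) a b : ℝ) ^ 4 / t ^ 3)
        + (if |p.eval a| ≤ ηp then 1 else 0) + (if |p.eval b| ≤ ηp then 1 else 0) := by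
  have h := modD p a b ηp hab hη
  unfold Kf
  refine h.trans ?_
  gcongr
  set S := (derivative p).roots.toFinset.filter (fun x => a < x ∧ x < b ∧ |p.eval x| ≤ ηp) with hS
  have hSZ : S.card ≤ Z (derivative p) a b := by
    unfold Z
    apply Finset.card_le_card
    intro x hx
    rw [hS, Finset.mem_filter] at hx
    rw [Finset.mem_filter]
    exact ⟨hx.1, hx.2.1, hx.2.2.1.le⟩
  have hSZ' : (S.card : ℝ) ≤ (Z (derivative p) a b : ℝ) := by exact_mod_cast hSZ
  have hZ0 : (0 : ℝ) ≤ (Z (derivative p) a b : ℝ) := Nat.cast_nonneg _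
  have h4 : 0 ≤ (Z (derivative p) a b : ℝ) ^ 4 / t ^ 3 := by positivity
  by_cases hne : S = ∅
  · rw [hne, Finset.card_empty, Nat.cast_zero]
    have h5 : 0 ≤ Ls * (Set.indicator {p : ℝ[X] | ∃ c ∈ Set.Ioo a b, (derivative p).eval c = 0 ∧ |p.eval c| ≤ ηp} (fun _ => (1 : ℝ)) p) :=
      mul_nonneg hL (Set.indicator_nonneg (fun _ _ => zero_le_one) _)
    have h6 : 0 ≤ t * (if Ls < (Z (derivative p) a b : ℝ) then (1 : ℝ) else 0) := by
      split_ifs <;> linarith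
    linarith
  · obtain ⟨c, hc⟩ := Finset.nonempty_iff_ne_empty.2 hne
    rw [hS, Finset.mem_filter, Multiset.mem_toFinset] at hc
    have hmem : p ∈ {p : ℝ[X] | ∃ c ∈ Set.Ioo a b, (derivative p).eval c = 0 ∧ |p.eval c| ≤ ηp} :=
      ⟨c, ⟨hc.2.1, hc.2.2.1⟩, isRoot_of_mem_roots hc.1, hc.2.2.2⟩
    rw [Set.indicator_of_mem hmem, mul_one]
    by_cases h7 : Ls < (Z (derivative p) a b : ℝ)
    · rw [if_pos h7, mul_one]
      by_cases h8 : (Z (derivative p) a b : ℝ) ≤ t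
      · linarith
      · push Not at h8
        have h9 : (Z (derivative p) a b : ℝ) ≤ (Z (derivative p) a b : ℝ) ^ 4 / t ^ 3 := by
          rw [le_div_iff₀ (by positivity)]
          have h10 : t ^ 3 ≤ (Z (derivative p) a b : ℝ) ^ 3 := by gcongr
          calc (Z (derivative p) a b : ℝ) * t ^ 3 ≤ (Z (derivative p) a b : ℝ) * (Z (derivative p) a b : ℝ) ^ 3 := by gcongr
            _ = _ := by ring
        linarith
    · push Not at h7
      have h6 : 0 ≤ t * (if Ls < (Z (derivative p) a b : ℝ) then (1 : ℝ) else 0) := by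
        split_ifs <;> linarith
      linarith

include h2 hm h21 in
theorem step1 (Λ : ℝ) (hΛ : 1 ≤ Λ) : ∃ C : ℝ, 0 ≤ C ∧ ∀ (R : ℕ) (a b : ℝ) (n : ℕ) (ε K4 : ℝ),
    Blk Λ R a b n → (ε = 1 ∨ ε = -1) → 0 ≤ K4 →
    (∫ ω, (Z (derivative (kac ε n ω)) a b : ℝ) ^ 4 ∂(Pm μ) ≤ K4 * (R : ℝ) ^ 260) →
    |(∫ ω, (Z (kac ε n ω) a b : ℝ) ∂(Pm μ))
      - ∫ ω, Kf (1 / (R : ℝ) ^ 8 * (R : ℝ) ^ 32) a b (kac ε n ω) ∂(Pm μ)| ≤ (C + 2 * K4) / R := by
  obtain ⟨C1, hC1, hPB⟩ := PB_bound μ h2 hm h21 Λ hΛ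
  obtain ⟨C2, hC2, hPZ⟩ := PZ_bound μ h2 hm h21 Λ hΛ
  obtain ⟨C3, hC3, hPa⟩ := Pa_bound μ h2 hm h21 Λ hΛ
  refine ⟨2 * (124 * C1 + C2) + 2 * C3, by positivity, ?_⟩
  intro R a b n ε K4 hB hε hK4 hZ4
  have hR0 := hB.Rpos
  have hR1 := hB.R1
  have hab := hB.hab
  have hPB' := hPB R a b n ε hB hε
  have hPZ' := hPZ R a b n ε hB hε
  have hPa' := hPa R a b n ε a hB hε (Set.left_mem_Icc.2 hab.le)
  have hPb' := hPa R a b n ε b hB hε (Set.right_mem_Icc.2 hab.le)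
  have ha0 : 0 ≤ a := by
    have := hB.sca.x_half
    linarith
  have hb1 : b ≤ 1 := (hB.sc b (Set.right_mem_Icc.2 hab.le)).hx2
  set r : ℝ := (R : ℝ) with hr
  obtain ⟨hK1, -, -⟩ := Kf_facts μ h2 (ηp := 1 / r ^ 8 * r ^ 32) (by positivity) hε n ha0 hab.le hb1
  set ηp := 1 / r ^ 8 * r ^ 32 with hηp
  have hη0 : 0 < ηp := by positivity
  set B : Set (ℕ → ℝ) := {ω | ∃ c ∈ Set.Ioo a b, (derivative (kac ε n ω)).eval c = 0 ∧
      |(kac ε n ω).eval c| ≤ ηp} with hBdef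
  set B' := toMeasurable (Pm μ) B with hB'
  have hB'm : MeasurableSet B' := measurableSet_toMeasurable _ _
  have hB'P : (Pm μ).real B' = (Pm μ).real B := by
    unfold Measure.real; rw [measure_toMeasurable]
  have hZm := ModI.measurable_Zr ε n a b
  have hdZm := ModI.measurable_dZr ε n a b
  set SZ : Set (ℕ → ℝ) := {ω | R * 124 < Z (derivative (kac ε n ω)) a b} with hSZ
  have hSZm : MeasurableSet SZ := by
    have := modE2 ε n a b
    exact measurableSet_lt measurable_const this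
  set Sa : Set (ℕ → ℝ) := {ω | |(kac ε n ω).eval a| ≤ ηp} with hSa
  have hSam : MeasurableSet Sa := measurableSet_le (measurable_eval_kac ε n a).abs measurable_const
  set Sb : Set (ℕ → ℝ) := {ω | |(kac ε n ω).eval b| ≤ ηp} with hSb
  have hSbm : MeasurableSet Sb := measurableSet_le (measurable_eval_kac ε n b).abs measurable_const
  have hZi : Integrable (fun ω => (Z (kac ε n ω) a b : ℝ)) (Pm μ) := by
    refine Integrable.of_bound hZm.aestronglyMeasurable (n : ℝ) (ae_of_all _ fun ω => ?_)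
    rw [Real.norm_of_nonneg (Nat.cast_nonneg _)]
    exact_mod_cast ModI.Z_kac_le ε n ω a b
  have hdZi : Integrable (fun ω => (Z (derivative (kac ε n ω)) a b : ℝ) ^ 4) (Pm μ) := by
    refine Integrable.of_bound (hdZm.pow_const 4).aestronglyMeasurable ((n : ℝ) ^ 4) (ae_of_all _ fun ω => ?_)
    rw [Real.norm_of_nonneg (by positivity)]
    have : (Z (derivative (kac ε n ω)) a b : ℝ) ≤ n := by exact_mod_cast ModI.Z_dkac_le ε n ω a b
    gcongr
  have hint : ∀ s : Set (ℕ → ℝ), MeasurableSet s → Integrable (s.indicator (fun _ => (1 : ℝ))) (Pm μ) :=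
    fun s hs => (integrable_const (1 : ℝ)).indicator hs
  have hintv : ∀ s : Set (ℕ → ℝ), MeasurableSet s →
      ∫ ω, s.indicator (fun _ => (1 : ℝ)) ω ∂(Pm μ) = (Pm μ).real s := by
    intro s hs
    rw [integral_indicator_const _ hs]; simp
  rw [← integral_sub hZi hK1]
  refine (abs_integral_le_integral_abs).trans ?_
  have hmono : ∀ ω, |(Z (kac ε n ω) a b : ℝ) - Kf ηp a b (kac ε n ω)|
      ≤ 2 * ((r * 124) * B'.indicator (fun _ => (1 : ℝ)) ω + r ^ 88 * SZ.indicator (fun _ => (1 : ℝ)) ω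
        + (r ^ 264)⁻¹ * (Z (derivative (kac ε n ω)) a b : ℝ) ^ 4)
        + Sa.indicator (fun _ => (1 : ℝ)) ω + Sb.indicator (fun _ => (1 : ℝ)) ω := by
    intro ω
    refine (pt_bound (kac ε n ω) a b ηp hab.le hη0 (r * 124) (r ^ 88) (by positivity) (by positivity)).trans ?_
    have i1 : (Set.indicator {p : ℝ[X] | ∃ c ∈ Set.Ioo a b, (derivative p).eval c = 0 ∧ |p.eval c| ≤ ηp}
        (fun _ => (1 : ℝ)) (kac ε n ω)) ≤ B'.indicator (fun _ => (1 : ℝ)) ω := by
      by_cases hω : ω ∈ B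
      · rw [Set.indicator_of_mem (subset_toMeasurable _ _ hω)]
        exact Set.indicator_le_self' (fun _ _ => zero_le_one) _
      · rw [Set.indicator_of_notMem (by exact hω)]
        exact Set.indicator_nonneg (fun _ _ => zero_le_one) _
    have i2 : (if r * 124 < (Z (derivative (kac ε n ω)) a b : ℝ) then (1 : ℝ) else 0)
        ≤ SZ.indicator (fun _ => (1 : ℝ)) ω := by
      split_ifs with h5
      · have : ω ∈ SZ := by
          rw [hSZ, Set.mem_setOf_eq]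
          rw [hr] at h5
          exact_mod_cast h5
        rw [Set.indicator_of_mem this]
      · exact Set.indicator_nonneg (fun _ _ => zero_le_one) _
    have i3 : (if |(kac ε n ω).eval a| ≤ ηp then (1 : ℝ) else 0) = Sa.indicator (fun _ => (1 : ℝ)) ω := by
      rw [Set.indicator_apply]; rfl
    have i4 : (if |(kac ε n ω).eval b| ≤ ηp then (1 : ℝ) else 0) = Sb.indicator (fun _ => (1 : ℝ)) ω := by
      rw [Set.indicator_apply]; rfl
    have i5 : (Z (derivative (kac ε n ω)) a b : ℝ) ^ 4 / (r ^ 88) ^ 3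
        = (r ^ 264)⁻¹ * (Z (derivative (kac ε n ω)) a b : ℝ) ^ 4 := by
      rw [← pow_mul]; ring
    rw [i3, i4, i5]
    gcongr
  refine (integral_mono (hZi.sub hK1).abs ?_ hmono).trans ?_
  · exact ((((((hint B' hB'm).const_mul _).add ((hint SZ hSZm).const_mul _)).add
      (hdZi.const_mul _)).const_mul _).add (hint Sa hSam)).add (hint Sb hSbm)
  · have j1 := ((hint B' hB'm).const_mul (r * 124))
    have j2 := ((hint SZ hSZm).const_mul (r ^ 88))
    have j3 := hdZi.const_mul ((r ^ 264)⁻¹)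
    rw [integral_add, integral_add, integral_const_mul, integral_add, integral_add, integral_const_mul,
      integral_const_mul, integral_const_mul, hintv _ hB'm, hintv _ hSZm, hintv _ hSam, hintv _ hSbm, hB'P]
    · have k1 : r * 124 * (Pm μ).real B ≤ 124 * C1 / r := by
        calc r * 124 * (Pm μ).real B ≤ r * 124 * (C1 / r ^ 4) := by gcongr
          _ = 124 * C1 / r ^ 3 := by field_simp
          _ ≤ 124 * C1 / r := by
            gcongr
            exact le_self_pow₀ hR1 (by norm_num)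
      have k2 : r ^ 88 * (Pm μ).real SZ ≤ C2 / r := by
        calc r ^ 88 * (Pm μ).real SZ ≤ r ^ 88 * (C2 / r ^ 91) := by gcongr
          _ = C2 / r ^ 3 := by field_simp
          _ ≤ C2 / r := by
            gcongr
            exact le_self_pow₀ hR1 (by norm_num)
      have k3 : (r ^ 264)⁻¹ * ∫ ω, (Z (derivative (kac ε n ω)) a b : ℝ) ^ 4 ∂(Pm μ) ≤ K4 / r := by
        calc (r ^ 264)⁻¹ * ∫ ω, (Z (derivative (kac ε n ω)) a b : ℝ) ^ 4 ∂(Pm μ)
            ≤ (r ^ 264)⁻¹ * (K4 * r ^ 260) := by gcongr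
          _ = K4 / r ^ 4 := by field_simp
          _ ≤ K4 / r := by
            gcongr
            exact le_self_pow₀ hR1 (by norm_num)
      calc 2 * (r * 124 * (Pm μ).real B + r ^ 88 * (Pm μ).real SZ
            + (r ^ 264)⁻¹ * ∫ ω, (Z (derivative (kac ε n ω)) a b : ℝ) ^ 4 ∂(Pm μ))
            + (Pm μ).real Sa + (Pm μ).real Sb
          ≤ 2 * (124 * C1 / r + C2 / r + K4 / r) + C3 / r + C3 / r := by gcongr
        _ = _ := by ring
    · exact j1
    · exact j2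
    · exact j1.add j2
    · exact j3
    · exact ((j1.add j2).add j3).const_mul 2
    · exact hint Sa hSam
    · exact (((j1.add j2).add j3).const_mul 2).add (hint Sa hSam)
    · exact hint Sb hSbm

end step1

end Pool.Agent.H89.Kac
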