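import Pool.Agent.H89.Kac.Weights

set_option autoImplicit false
set_option linter.unusedSectionVars false

open MeasureTheory Filter Topology ProbabilityTheory Polynomial

namespace Pool.Agent.H89.Kac

lemma geom_exp {y : ℝ} (hy : 0 < y) (n : ℕ) :
    ∑ k ∈ Finset.range n, Real.exp (-(k * y)) ≤ 1 + 1 / y := by
  have e : ∀ k : ℕ, Real.exp (-(k * y)) = Real.exp (-y) ^ k := by
    intro k
    rw [← Real.exp_nat_mul]; congr 1; ring
  simp_rw [e]
  have h1 : Real.exp (-y) < 1 := by rw [Real.exp_lt_one_iff]; linarith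
  have h0 : 0 < Real.exp (-y) := Real.exp_pos _
  have h2 : ∑ k ∈ Finset.range n, Real.exp (-y) ^ k ≤ (1 - Real.exp (-y))⁻¹ := by
    have := (summable_geometric_of_lt_one h0.le h1).sum_le_tsum (Finset.range n)
      (fun k _ => by positivity)
    rwa [tsum_geometric_of_lt_one h0.le h1] at this
  refine h2.trans ?_
  have h3 : Real.exp (-y) ≤ 1 / (1 + y) := by
    rw [Real.exp_neg, ← one_div]
    have := Real.add_one_le_exp y
    apply one_div_le_one_div_of_le (by positivity)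
    linarith
  have h4 : y / (1 + y) ≤ 1 - Real.exp (-y) := by
    have : y / (1 + y) = 1 - 1 / (1 + y) := by field_simp; ring
    rw [this]; linarith
  calc (1 - Real.exp (-y))⁻¹ ≤ (y / (1 + y))⁻¹ := by gcongr
    _ = 1 + 1 / y := by field_simp; ring

variable {Λ M x : ℝ} {N n : ℕ}

lemma Sc.one_le (h : Sc Λ M x N n) : 1 ≤ Λ * N := by
  have h8 := h.N8
  have := h.hΛ
  nlinarith

/-- sum of the exponentials -/
lemma sum_exp_le (h : Sc Λ M x N n) {p : ℝ} (hp : 1 ≤ p) (m : ℕ) :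
    ∑ k ∈ Finset.range m, Real.exp (-(k * (p / (2 * Λ * N)))) ≤ 3 * Λ * N := by
  have hN0 := h.Npos
  have hΛ0 := h.Λpos
  refine (geom_exp (by positivity) m).trans ?_
  have h1 := h.one_le
  have h2 : 1 / (p / (2 * Λ * N)) ≤ 2 * Λ * N := by
    rw [one_div_div]
    exact div_le_self (by positivity) hp
  nlinarith

lemma om_nonneg (h : Sc Λ M x N n) (k : ℕ) : 0 ≤ om Λ M N k := by
  unfold om
  have := Cw_pos h.hΛ
  have := h.hM
  positivity

lemma om_le (h : Sc Λ M x N n) (k : ℕ) : om Λ M N k ≤ Cw Λ / M := by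
  unfold om
  have := Cw_pos h.hΛ
  have := h.hM
  have hN0 := h.Npos
  have hΛ0 := h.Λpos
  gcongr
  have : Real.exp (-(k / (2 * Λ * N))) ≤ 1 := by
    rw [Real.exp_le_one_iff]
    have : 0 ≤ (k : ℝ) / (2 * Λ * N) := by positivity
    linarith
  nlinarith

lemma sum_om1 (h : Sc Λ M x N n) (m : ℕ) :
    ∑ k ∈ Finset.range m, om Λ M N k ≤ 3 * Λ * Cw Λ * M := by
  have hC := Cw_pos h.hΛ
  have hM := h.hM
  have e : ∀ k : ℕ, om Λ M N k = Cw Λ / M * Real.exp (-(k * (1 / (2 * Λ * N)))) := by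
    intro k; unfold om; rw [mul_one_div]; ring
  simp_rw [e]
  rw [← Finset.mul_sum]
  calc Cw Λ / M * ∑ k ∈ Finset.range m, Real.exp (-(k * (1 / (2 * Λ * N))))
      ≤ Cw Λ / M * (3 * Λ * N) := by
        gcongr
        exact sum_exp_le h le_rfl m
    _ = _ := by rw [← h.hMN]; field_simp

lemma sum_om2 (h : Sc Λ M x N n) (m : ℕ) :
    ∑ k ∈ Finset.range m, om Λ M N k ^ 2 ≤ 3 * Λ * Cw Λ ^ 2 := by
  have hC := Cw_pos h.hΛ
  have hM := h.hM
  have e : ∀ k : ℕ, om Λ M N k ^ 2 = Cw Λ ^ 2 / M ^ 2 * Real.exp (-(k * (2 / (2 * Λ * N)))) := by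
    intro k; unfold om
    rw [div_pow, mul_pow, ← Real.exp_nat_mul]
    rw [mul_div_right_comm]
    congr 2
    push_cast; ring
  simp_rw [e]
  rw [← Finset.mul_sum]
  calc Cw Λ ^ 2 / M ^ 2 * ∑ k ∈ Finset.range m, Real.exp (-(k * (2 / (2 * Λ * N))))
      ≤ Cw Λ ^ 2 / M ^ 2 * (3 * Λ * N) := by
        gcongr
        exact sum_exp_le h (by norm_num) m
    _ = _ := by rw [← h.hMN]; field_simp

lemma sum_om3 (h : Sc Λ M x N n) (m : ℕ) :
    ∑ k ∈ Finset.range m, om Λ M N k ^ 3 ≤ 3 * Λ * Cw Λ ^ 3 / M := by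
  have hC := Cw_pos h.hΛ
  have hM := h.hM
  have e : ∀ k : ℕ, om Λ M N k ^ 3 = Cw Λ ^ 3 / M ^ 3 * Real.exp (-(k * (3 / (2 * Λ * N)))) := by
    intro k; unfold om
    rw [div_pow, mul_pow, ← Real.exp_nat_mul]
    rw [mul_div_right_comm]
    congr 2
    push_cast; ring
  simp_rw [e]
  rw [← Finset.mul_sum]
  calc Cw Λ ^ 3 / M ^ 3 * ∑ k ∈ Finset.range m, Real.exp (-(k * (3 / (2 * Λ * N))))
      ≤ Cw Λ ^ 3 / M ^ 3 * (3 * Λ * N) := by
        gcongr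
        exact sum_exp_le h (by norm_num) m
    _ = _ := by rw [← h.hMN]; field_simp

lemma sum_om32 (h : Sc Λ M x N n) (m : ℕ) :
    ∑ k ∈ Finset.range m, pw (om Λ M N k) ≤ 3 * Λ * pw (Cw Λ) * Real.sqrt M := by
  have hC := Cw_pos h.hΛ
  have hM := h.hM
  have e : ∀ k : ℕ, pw (om Λ M N k) = pw (Cw Λ) / pw M * Real.exp (-(k * ((3 / 2) / (2 * Λ * N)))) := by
    intro k
    have hdiv : om Λ M N k = (Cw Λ * M⁻¹) * Real.exp (-(k / (2 * Λ * N))) := by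
      unfold om; ring
    rw [hdiv, pw_mul, pw_mul]
    have h1 : pw M⁻¹ = (pw M)⁻¹ := by
      have : pw M * pw M⁻¹ = 1 := by
        rw [← pw_mul, mul_inv_cancel₀ hM.ne']
        unfold pw; simp
      exact eq_inv_of_mul_eq_one_right this
    rw [h1]
    have h2 : pw (Real.exp (-(k / (2 * Λ * N)))) = Real.exp (-(k * ((3 / 2) / (2 * Λ * N)))) := by
      unfold pw
      rw [abs_of_pos (Real.exp_pos _), Real.sqrt_eq_rpow, ← Real.exp_mul, ← Real.exp_add]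
      congr 1
      ring
    rw [h2]; ring
  simp_rw [e]
  rw [← Finset.mul_sum]
  have hpC : 0 ≤ pw (Cw Λ) := pw_nonneg _
  have hpM : pw M = M * Real.sqrt M := by unfold pw; rw [abs_of_pos hM]
  have hsM : 0 < Real.sqrt M := Real.sqrt_pos.2 hM
  calc pw (Cw Λ) / pw M * ∑ k ∈ Finset.range m, Real.exp (-(k * ((3 / 2) / (2 * Λ * N))))
      ≤ pw (Cw Λ) / pw M * (3 * Λ * N) := by
        have := pw_nonneg M
        gcongr
        exact sum_exp_le h (by norm_num) m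
    _ = _ := by
        rw [← h.hMN, hpM]
        field_simp
        rw [Real.sq_sqrt hM.le]

/-- the basic error quantity -/
noncomputable def aM (μ : Measure ℝ) (M : ℝ) : ℝ :=
  (m3 μ M + cG) / M + M * m1 μ M + Real.sqrt M * m32 μ M

/-- constant -/
noncomputable def Cs (Λ : ℝ) : ℝ := 3 * Λ * (Cw Λ ^ 3 + Cw Λ + pw (Cw Λ))

lemma aM_nonneg (μ : Measure ℝ) {M : ℝ} (hM : 0 < M) : 0 ≤ aM μ M := by
  unfold aM
  have := m3_nonneg μ M
  have := m1_nonneg μ M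
  have := m32_nonneg μ M
  have := cG_nonneg
  positivity

lemma Cs_nonneg (hΛ : 1 ≤ Λ) : 0 ≤ Cs Λ := by
  unfold Cs
  have := Cw_pos hΛ
  have := pw_nonneg (Cw Λ)
  have : 0 ≤ Λ := by linarith
  positivity

lemma sum_Ek (μ : Measure ℝ) (h : Sc Λ M x N n) (m : ℕ) :
    ∑ k ∈ Finset.range m, Ek μ M (om Λ M N k) ≤ Cs Λ * aM μ M := by
  unfold Ek
  rw [Finset.sum_add_distrib, Finset.sum_add_distrib, ← Finset.sum_mul, ← Finset.sum_mul,
    ← Finset.sum_mul]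
  have a3 := m3_nonneg μ M
  have a1 := m1_nonneg μ M
  have a2 := m32_nonneg μ M
  have a0 := cG_nonneg
  have hC := Cw_pos h.hΛ
  have hpC := pw_nonneg (Cw Λ)
  have hM := h.hM
  have hΛ0 := h.Λpos
  have hsM := Real.sqrt_nonneg M
  calc _ ≤ 3 * Λ * Cw Λ ^ 3 / M * (m3 μ M + cG) + 3 * Λ * Cw Λ * M * m1 μ M
        + 3 * Λ * pw (Cw Λ) * Real.sqrt M * m32 μ M := by
        gcongr
        · exact sum_om3 h m
        · exact sum_om1 h m
        · exact sum_om32 h m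
    _ = 3 * Λ * (Cw Λ ^ 3 * ((m3 μ M + cG) / M) + Cw Λ * (M * m1 μ M)
        + pw (Cw Λ) * (Real.sqrt M * m32 μ M)) := by ring
    _ ≤ 3 * Λ * ((Cw Λ ^ 3 + Cw Λ + pw (Cw Λ)) * ((m3 μ M + cG) / M)
        + (Cw Λ ^ 3 + Cw Λ + pw (Cw Λ)) * (M * m1 μ M)
        + (Cw Λ ^ 3 + Cw Λ + pw (Cw Λ)) * (Real.sqrt M * m32 μ M)) := by
        have c3 : 0 ≤ Cw Λ ^ 3 := by positivity
        gcongr
        · linarith
        · linarith
        · linarith
    _ = _ := by unfold Cs aM; ring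

section hd

variable (μ : Measure ℝ) [IsProbabilityMeasure μ]

/-- decay of the mixed characteristic functions, needed in `expect_diff`. -/
lemma hd_holds (h : Sc Λ M x N n) {ε : ℝ} (hε : |ε| = 1) {θ0 : ℝ} (hθ0 : 0 < θ0)
    (hθ : ∀ θ : ℝ, |θ| ≤ θ0 → ‖charFun μ θ‖ ≤ Real.exp (-(θ ^ 2 / 4)))
    (hv : 1 / 2 ≤ ((vT μ M : NNReal) : ℝ)) (hM2 : 4 * Cw Λ ^ 2 / c1 ≤ M ^ 2) :
    ∀ m < n + 1, ∀ s τ : ℝ, |s| ≤ θ0 * M / (2 * Cw Λ) → |τ| ≤ θ0 * M / (2 * Cw Λ) →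
      ‖Psi μ M (n + 1) m (fun k => s * nw ε x M 0 k + τ * nw ε x M 1 k)‖
        ≤ Real.exp (-(c1 / 8 * (s ^ 2 + τ ^ 2))) := by
  intro m hm s τ hs hτ
  have hC := Cw_pos h.hΛ
  have hM := h.hM
  have hc1 := c1_pos
  have hb : ∀ k < n + 1, |s * nw ε x M 0 k + τ * nw ε x M 1 k| ≤ (|s| + |τ|) * (Cw Λ / M) := by
    intro k hk
    have h0 := (nw_bound h hε (i := 0) (by norm_num) (Nat.lt_succ_iff.1 hk)).trans (om_le h k)
    have h1 := (nw_bound h hε (i := 1) (by norm_num) (Nat.lt_succ_iff.1 hk)).trans (om_le h k)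
    calc |s * nw ε x M 0 k + τ * nw ε x M 1 k| ≤ |s * nw ε x M 0 k| + |τ * nw ε x M 1 k| := abs_add_le _ _
      _ = |s| * |nw ε x M 0 k| + |τ| * |nw ε x M 1 k| := by rw [abs_mul, abs_mul]
      _ ≤ |s| * (Cw Λ / M) + |τ| * (Cw Λ / M) := by gcongr
      _ = _ := by ring
  refine (Psi_decay μ M hθ hv (n + 1) m _ ?_).trans ?_
  · intro k hk
    refine (hb k hk).trans ?_
    calc (|s| + |τ|) * (Cw Λ / M)
        ≤ (θ0 * M / (2 * Cw Λ) + θ0 * M / (2 * Cw Λ)) * (Cw Λ / M) := by gcongr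
      _ = θ0 := by field_simp; ring
  · apply Real.exp_le_exp.2
    rw [Finset.sum_erase_eq_sub (Finset.mem_range.2 hm)]
    have h1 := nondeg_w h hε s τ 0 0
    simp only [zero_mul, add_zero] at h1
    have h2 : (s * nw ε x M 0 m + τ * nw ε x M 1 m) ^ 2 ≤ c1 / 2 * (s ^ 2 + τ ^ 2) := by
      have h3 := hb m hm
      have h4 : (s * nw ε x M 0 m + τ * nw ε x M 1 m) ^ 2 ≤ ((|s| + |τ|) * (Cw Λ / M)) ^ 2 := by
        rw [← sq_abs (s * nw ε x M 0 m + τ * nw ε x M 1 m)]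
        gcongr
      refine h4.trans ?_
      have h5 : (|s| + |τ|) ^ 2 ≤ 2 * (s ^ 2 + τ ^ 2) := by
        rw [← sq_abs s, ← sq_abs τ]
        nlinarith [sq_nonneg (|s| - |τ|)]
      rw [div_le_iff₀ hc1] at hM2
      have h6 : (Cw Λ / M) ^ 2 ≤ c1 / 4 := by
        rw [div_pow, div_le_iff₀ (by positivity)]
        linarith
      calc ((|s| + |τ|) * (Cw Λ / M)) ^ 2 = (|s| + |τ|) ^ 2 * (Cw Λ / M) ^ 2 := by ring
        _ ≤ 2 * (s ^ 2 + τ ^ 2) * (c1 / 4) := by gcongr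
        _ = _ := by ring
    have h7 : c1 * (s ^ 2 + τ ^ 2) ≤ ∑ k ∈ Finset.range (n + 1), (s * nw ε x M 0 k + τ * nw ε x M 1 k) ^ 2 := by
      refine le_trans (le_of_eq ?_) h1
      ring
    linarith

/-- decay of the characteristic function of `(F_0,…,F_3)`. -/
lemma Phi_nw (h : Sc Λ M x N n) {ε : ℝ} (hε : |ε| = 1) {θ0 : ℝ}
    (hθ : ∀ θ : ℝ, |θ| ≤ θ0 → ‖charFun μ θ‖ ≤ Real.exp (-(θ ^ 2 / 4)))
    (y0 y1 y2 y3 : ℝ) (hy : (|y0| + |y1| + |y2| + |y3|) * (Cw Λ / M) ≤ θ0) :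
    ‖Phi (fun _ => μ) (n + 1) (fun k => y0 * nw ε x M 0 k + y1 * nw ε x M 1 k + y2 * nw ε x M 2 k
          + y3 * nw ε x M 3 k)‖
      ≤ Real.exp (-((c1 * (y0 ^ 2 + y1 ^ 2 + y2 ^ 2 + y3 ^ 2)) / 4)) := by
  have hC := Cw_pos h.hΛ
  have hM := h.hM
  refine (Phi_decay μ hθ (n + 1) _ ?_).trans ?_
  · intro k hk
    have hb : ∀ i ≤ 3, |nw ε x M i k| ≤ Cw Λ / M := fun i hi =>
      (nw_bound h hε hi (Nat.lt_succ_iff.1 hk)).trans (om_le h k)
    have h0 := hb 0 (by norm_num)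
    have h1 := hb 1 (by norm_num)
    have h2 := hb 2 (by norm_num)
    have h3 := hb 3 (by norm_num)
    refine le_trans ?_ hy
    calc |y0 * nw ε x M 0 k + y1 * nw ε x M 1 k + y2 * nw ε x M 2 k + y3 * nw ε x M 3 k|
        ≤ |y0 * nw ε x M 0 k| + |y1 * nw ε x M 1 k| + |y2 * nw ε x M 2 k| + |y3 * nw ε x M 3 k| := by
          refine (abs_add_le _ _).trans ?_
          gcongr
          refine (abs_add_le _ _).trans ?_
          gcongr
          exact abs_add_le _ _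
      _ = |y0| * |nw ε x M 0 k| + |y1| * |nw ε x M 1 k| + |y2| * |nw ε x M 2 k| + |y3| * |nw ε x M 3 k| := by
          simp only [abs_mul]
      _ ≤ |y0| * (Cw Λ / M) + |y1| * (Cw Λ / M) + |y2| * (Cw Λ / M) + |y3| * (Cw Λ / M) := by gcongr
      _ = _ := by ring
  · apply Real.exp_le_exp.2
    have := nondeg_w h hε y0 y1 y2 y3
    linarith

end hd

end Pool.Agent.H89.Kac
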