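import Pool.Agent.H89.Kac.Tx
import Pool.Agent.H89.Kac.ModL
import Pool.Agent.H89.Kac.ModS

set_option autoImplicit false
set_option linter.unusedSectionVars false

open MeasureTheory Filter Topology ProbabilityTheory Polynomial

namespace Pool.Agent.H89.Kac

variable {Λ M x : ℝ} {N n : ℕ}

/-- constant for the weights of the `i`-th derivative -/
noncomputable def Cg (Λ : ℝ) (i : ℕ) : ℝ := Real.exp 1 * (i.factorial : ℝ) * (4 * Λ) ^ i

lemma Cg_pos (hΛ : 1 ≤ Λ) (i : ℕ) : 0 < Cg Λ i := by unfold Cg; positivity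

lemma wt_gen (h : Sc Λ M x N n) (i k : ℕ) (hk : k ≤ n) :
    (k.descFactorial i : ℝ) * x ^ (k - i) ≤ Cg Λ i * (N : ℝ) ^ i * Real.exp (-(k / (2 * Λ * N))) := by
  have hN0 := h.Npos
  have hM0 := h.hM
  have hx := h.x_half
  have hx0 : 0 < x := by linarith
  have hΛ0 := h.Λpos
  by_cases hki : k < i
  · rw [Nat.descFactorial_eq_zero_iff_lt.2 hki]
    simp only [Nat.cast_zero, zero_mul]
    have := Cg_pos h.hΛ i
    positivity
  · push Not at hki
    have h1 : (k.descFactorial i : ℝ) ≤ (k : ℝ) ^ i := by exact_mod_cast Nat.descFactorial_le_pow k i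
    have h2 : x ^ (k - i) ≤ 2 ^ i * x ^ k := by
      have e : x ^ k = x ^ (k - i) * x ^ i := by rw [← pow_add]; congr 1; omega
      rw [e]
      have h3 : (1 / 2 : ℝ) ^ i ≤ x ^ i := by gcongr
      have h4 : 1 ≤ 2 ^ i * x ^ i := by
        calc (1 : ℝ) = 2 ^ i * (1 / 2) ^ i := by rw [← mul_pow]; norm_num
          _ ≤ _ := by gcongr
      have h5 : 0 < x ^ (k - i) := by positivity
      nlinarith
    have h3 := h.star k hk
    set y := (k : ℝ) / (2 * Λ * N) with hy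
    have hy0 : 0 ≤ y := by positivity
    have h4 := Real.pow_div_factorial_le_exp y hy0 i
    have h4' : y ^ i ≤ i.factorial * Real.exp y := by
      rw [div_le_iff₀ (by positivity)] at h4
      linarith
    have h6 : (k : ℝ) ^ i = (2 * Λ * N) ^ i * y ^ i := by
      rw [← mul_pow, hy]; congr 1; field_simp
    have h7 : Real.exp (-(k / (Λ * N))) = Real.exp (-y) * Real.exp (-y) := by
      rw [← Real.exp_add, hy]; congr 1; field_simp; ring
    calc (k.descFactorial i : ℝ) * x ^ (k - i)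
        ≤ (k : ℝ) ^ i * (2 ^ i * x ^ k) := by gcongr
      _ ≤ ((2 * Λ * N) ^ i * (i.factorial * Real.exp y)) * (2 ^ i * (Real.exp 1 * (Real.exp (-y) * Real.exp (-y)))) := by
          rw [h6, ← h7]
          gcongr
      _ = (Real.exp 1 * i.factorial * (4 * Λ) ^ i * (N : ℝ) ^ i * Real.exp (-y)) * (Real.exp y * Real.exp (-y)) := by
          rw [mul_pow, mul_pow, mul_pow, show (4 : ℝ) ^ i = 2 ^ i * 2 ^ i by rw [← mul_pow]; norm_num]
          ring
      _ = _ := by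
          rw [← Real.exp_add, add_neg_cancel, Real.exp_zero, mul_one]
          unfold Cg
          ring

lemma sum_wt_gen (h : Sc Λ M x N n) (i : ℕ) :
    ∑ k ∈ Finset.range (n + 1), ((k.descFactorial i : ℝ) * x ^ (k - i)) ^ 2
      ≤ (Real.sqrt (3 * Λ) * Cg Λ i * (N : ℝ) ^ i * M) ^ 2 := by
  have hN0 := h.Npos
  have hM0 := h.hM
  have hx := h.x_half
  have hx0 : 0 < x := by linarith
  have hΛ0 := h.Λpos
  have hC := Cg_pos h.hΛ i
  calc ∑ k ∈ Finset.range (n + 1), ((k.descFactorial i : ℝ) * x ^ (k - i)) ^ 2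
      ≤ ∑ k ∈ Finset.range (n + 1), (Cg Λ i * (N : ℝ) ^ i) ^ 2 * Real.exp (-(k * (2 / (2 * Λ * N)))) := by
        refine Finset.sum_le_sum fun k hk => ?_
        have h1 := wt_gen h i k (Nat.lt_succ_iff.1 (Finset.mem_range.1 hk))
        calc ((k.descFactorial i : ℝ) * x ^ (k - i)) ^ 2
            ≤ (Cg Λ i * (N : ℝ) ^ i * Real.exp (-(k / (2 * Λ * N)))) ^ 2 := by gcongr
          _ = _ := by
            rw [mul_pow, ← Real.exp_nat_mul]
            congr 2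
            push_cast; ring
    _ ≤ (Cg Λ i * (N : ℝ) ^ i) ^ 2 * (3 * Λ * N) := by
        rw [← Finset.mul_sum]
        gcongr
        exact sum_exp_le h (by norm_num) (n + 1)
    _ = _ := by
        rw [← h.hMN, mul_pow, mul_pow, mul_pow, mul_pow, Real.sq_sqrt (by positivity)]
        ring

/-- sup bound on a block. -/
theorem sup_block (μ : Measure ℝ) [IsProbabilityMeasure μ] (h2 : Integrable (fun x : ℝ => x ^ 2) μ)
    (hm : ∫ x, x ∂μ = 0) (h21 : ∫ x, x ^ 2 ∂μ = 1) (i : ℕ) (a b : ℝ) (hab : a ≤ b)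
    (hlen : b - a ≤ 1 / N) (h : ∀ x ∈ Set.Icc a b, Sc Λ M x N n) (ε : ℝ) (hε : ε = 1 ∨ ε = -1)
    (S : ℝ) (hS : 0 < S) :
    (Pm μ).real {ω | ∃ x ∈ Set.Icc a b, S * ((N : ℝ) ^ i * M) < |((derivative^[i]) (kac ε n ω)).eval x|}
      ≤ Real.sqrt (3 * Λ) * (Cg Λ i + Cg Λ (i + 1)) / S := by
  have ha := h a (Set.left_mem_Icc.2 hab)
  have hN0 := ha.Npos
  have hM0 := ha.hM
  have hΛ0 := ha.Λpos
  have hC := Cg_pos ha.hΛ i
  have hC' := Cg_pos ha.hΛ (i + 1)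
  refine (modS2 μ h2 hm h21 ε hε n i a b (Real.sqrt (3 * Λ) * Cg Λ i * (N : ℝ) ^ i * M)
    (Real.sqrt (3 * Λ) * Cg Λ (i + 1) * (N : ℝ) ^ (i + 1) * M) hab (by positivity) (by positivity)
    (sum_wt_gen ha i) (fun x hx => sum_wt_gen (h x hx) (i + 1)) (S * ((N : ℝ) ^ i * M))
    (by positivity)).trans ?_
  rw [div_le_div_iff₀ (by positivity) hS]
  have hb : (b - a) * N ≤ 1 := by
    rw [le_div_iff₀ hN0] at hlen; exact hlen
  have hs := Real.sqrt_nonneg (3 * Λ)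
  calc (Real.sqrt (3 * Λ) * Cg Λ i * (N : ℝ) ^ i * M
        + (b - a) * (Real.sqrt (3 * Λ) * Cg Λ (i + 1) * (N : ℝ) ^ (i + 1) * M)) * S
      = (Real.sqrt (3 * Λ) * Cg Λ i * (N : ℝ) ^ i * M
        + ((b - a) * N) * (Real.sqrt (3 * Λ) * Cg Λ (i + 1) * (N : ℝ) ^ i * M)) * S := by ring
    _ ≤ (Real.sqrt (3 * Λ) * Cg Λ i * (N : ℝ) ^ i * M
        + 1 * (Real.sqrt (3 * Λ) * Cg Λ (i + 1) * (N : ℝ) ^ i * M)) * S := by gcongr
    _ = _ := by ring

lemma eval_nw (h : Sc Λ M x N n) (ε : ℝ) (i : ℕ) (ω : ℕ → ℝ) :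
    ((derivative^[i]) (kac ε n ω)).eval x = (N : ℝ) ^ i * M * lin (nw ε x M i) (n + 1) ω := by
  rw [eval_iter_kac]
  have hM0 := h.hM
  unfold lin nw
  rw [Finset.mul_sum]
  refine Finset.sum_congr rfl fun k _ => ?_
  rw [← h.hMN]
  have : M ^ (2 * i + 1) = (M ^ 2) ^ i * M := by rw [pow_succ, pow_mul]
  rw [this]
  field_simp

/-- Gaussian tail is smaller than any power. -/
lemma exp_small {c : ℝ} (hc : 0 < c) (k : ℕ) :
    ∃ C : ℝ, 0 ≤ C ∧ ∀ R : ℝ, 1 ≤ R → ∀ y : ℝ, c * R ≤ y → Real.exp (-(y ^ 2 / 4)) ≤ C / R ^ k := by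
  refine ⟨(k.factorial : ℝ) * (4 / c ^ 2) ^ k, by positivity, fun R hR y hy => ?_⟩
  have hR0 : 0 < R := by linarith
  have h1 : c ^ 2 * R ≤ y ^ 2 := by
    have h2 : (c * R) ^ 2 ≤ y ^ 2 := by gcongr
    have h3 : c ^ 2 * R ≤ (c * R) ^ 2 := by
      rw [mul_pow]
      have : R ≤ R ^ 2 := by nlinarith
      gcongr
    linarith
  have h2 : Real.exp (-(y ^ 2 / 4)) ≤ Real.exp (-(c ^ 2 / 4 * R)) := by
    apply Real.exp_le_exp.2; linarith
  refine h2.trans ?_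
  have h3 := Real.pow_div_factorial_le_exp (c ^ 2 / 4 * R) (by positivity) k
  rw [Real.exp_neg]
  have h4 : 0 < (c ^ 2 / 4 * R) ^ k / (k.factorial : ℝ) := by positivity
  calc (Real.exp (c ^ 2 / 4 * R))⁻¹ ≤ ((c ^ 2 / 4 * R) ^ k / (k.factorial : ℝ))⁻¹ := by gcongr
    _ = _ := by
      rw [inv_div, mul_pow, div_pow, div_pow]
      field_simp

end Pool.Agent.H89.Kac
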