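import Pool.Agent.H89.Kac.Step1
import Pool.Agent.H89.Kac.ModG
import Pool.Agent.H89.Kac.ModH
import Pool.Agent.H89.Kac.ModJ
import Pool.Agent.H89.Kac.ModK

set_option autoImplicit false
set_option linter.unusedSectionVars false

open MeasureTheory Filter Topology ProbabilityTheory Polynomial

namespace Pool.Agent.H89.Kac

section law

variable (μ : Measure ℝ) [IsProbabilityMeasure μ] (h2 : Integrable (fun x : ℝ => x ^ 2) μ)
    (hm : ∫ x, x ∂μ = 0) (h21 : ∫ x, x ^ 2 ∂μ = 1)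

include hm h21 in
lemma no_atom_one (a : ℝ) : μ {a} ≠ 1 := by
  intro h
  have hae : ∀ᵐ x ∂μ, x = a := by
    have h1 : μ {a}ᶜ = 0 := by
      rw [prob_compl_eq_zero_iff (measurableSet_singleton a)]; exact h
    rw [ae_iff]
    exact h1
  have e1 : ∫ x, x ∂μ = a := by
    rw [integral_congr_ae (g := fun _ => a) hae]; simp
  have e2 : ∫ x, x ^ 2 ∂μ = a ^ 2 := by
    rw [integral_congr_ae (g := fun _ => a ^ 2) (by filter_upwards [hae] with x hx; rw [hx])]; simp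
  rw [e1] at hm
  rw [e2, hm] at h21
  norm_num at h21

lemma Z_mono_left (p : ℝ[X]) {a a' b b' : ℝ} (h : a' ≤ a) (h' : b ≤ b') : Z p a b ≤ Z p a' b' := by
  unfold Z
  apply Finset.card_le_card
  intro x hx
  rw [Finset.mem_filter] at hx ⊢
  exact ⟨hx.1, lt_of_le_of_lt h hx.2.1, hx.2.2.trans h'⟩

lemma summable_two : Summable (fun j : ℕ => (1 : ℝ) / 2 ^ j) := by
  have := summable_geometric_of_lt_one (r := (1 / 2 : ℝ)) (by norm_num) (by norm_num)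
  refine this.congr fun j => ?_
  rw [one_div_pow]

include h2 in
lemma summable_aM : Summable (fun j : ℕ => aM μ (((2 : ℝ) ^ 32) ^ j)) := by
  have h3 := modH μ h2 ((2 : ℝ) ^ 32) (by norm_num)
  have h4 : Summable (fun j : ℕ => cG / ((2 : ℝ) ^ 32) ^ j) := by
    have := (summable_geometric_of_lt_one (r := (1 / 2 ^ 32 : ℝ)) (by norm_num) (by norm_num)).mul_left cG
    refine this.congr fun j => ?_
    rw [one_div_pow]; ring
  refine (h3.add h4).congr fun j => ?_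
  unfold aM
  rw [add_div]
  ring

/-- blocks, first case -/
lemma blk1 {j n : ℕ} (hj : 1 ≤ j) (hn : 2 ^ (64 * (j + 1)) ≤ n) :
    Blk (2 ^ 64) (2 ^ j) (1 - 1 / 2 ^ (64 * j)) (1 - 1 / 2 ^ (64 * (j + 1))) n := by
  have hR2 : 2 ≤ 2 ^ j := by
    calc 2 = 2 ^ 1 := rfl
      _ ≤ 2 ^ j := Nat.pow_le_pow_right (by norm_num) hj
  have hcast : (((2 ^ j : ℕ) : ℝ)) = (2 : ℝ) ^ j := by push_cast; rfl
  have hN : (((2 ^ j) ^ 64 : ℕ) : ℝ) = (2 : ℝ) ^ (64 * j) := by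
    push_cast
    rw [← pow_mul, mul_comm]
  have hNpos : (0 : ℝ) < 2 ^ (64 * j) := by positivity
  have hN1 : (2 : ℝ) ^ (64 * (j + 1)) = 2 ^ 64 * 2 ^ (64 * j) := by
    rw [← pow_add]; congr 1; ring
  refine ⟨hR2, ?_, ?_, ?_⟩
  · have : 1 / (2 : ℝ) ^ (64 * (j + 1)) < 1 / 2 ^ (64 * j) := by
      apply one_div_lt_one_div_of_lt hNpos
      exact pow_lt_pow_right₀ (by norm_num) (by omega)
    linarith
  · rw [hcast, ← pow_mul, mul_comm j 64]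
    have h3 : 0 < 1 / (2 : ℝ) ^ (64 * (j + 1)) := by positivity
    have h4 : (1 / (2 : ℝ) ^ (64 * j)) * 2 ^ (64 * j) = 1 := by field_simp
    nlinarith
  · intro x hx
    refine ⟨by norm_num, by positivity, ?_, ?_, ?_, ?_, ?_, ?_⟩
    · rw [hN, hcast, ← pow_mul, ← pow_mul]; congr 1; ring
    · calc 8 ≤ 2 ^ 64 := by norm_num
        _ ≤ (2 ^ j) ^ 64 := Nat.pow_le_pow_left hR2 64
    · have e : (2 ^ j) ^ 64 = 2 ^ (64 * j) := by rw [← pow_mul, mul_comm]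
      rw [e]
      exact (Nat.pow_le_pow_right (by norm_num) (by omega)).trans hn
    · rw [hN]; exact hx.1
    · have h3 : 0 < 1 / (2 : ℝ) ^ (64 * (j + 1)) := by positivity
      linarith [hx.2]
    · intro k _
      rw [hN]
      have hx0 : 0 ≤ x := by
        have h3 : 1 / (2 : ℝ) ^ (64 * j) ≤ 1 := by
          rw [div_le_one hNpos]; exact one_le_pow₀ (by norm_num)
        linarith [hx.1]
      have h4 : x ≤ Real.exp (-(1 / (2 ^ 64 * 2 ^ (64 * j)))) := by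
        have h5 := Real.add_one_le_exp (-(1 / ((2 : ℝ) ^ 64 * 2 ^ (64 * j))))
        rw [← hN1] at h5 ⊢
        linarith [hx.2]
      calc x ^ k ≤ Real.exp (-(1 / (2 ^ 64 * 2 ^ (64 * j)))) ^ k := by gcongr
        _ = 1 * Real.exp (-(k / (2 ^ 64 * 2 ^ (64 * j)))) := by
            rw [← Real.exp_nat_mul, one_mul]; congr 1; ring
        _ ≤ _ := by
            gcongr
            exact Real.one_le_exp (by norm_num)

/-- blocks, second case -/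
lemma blk2 {j n : ℕ} (hj : 1 ≤ j) (hn : 2 ^ (64 * j) ≤ n) (hn' : n < 2 ^ (64 * (j + 1))) :
    Blk (2 ^ 64) (2 ^ j) (1 - 1 / 2 ^ (64 * j)) 1 n := by
  have hR2 : 2 ≤ 2 ^ j := by
    calc 2 = 2 ^ 1 := rfl
      _ ≤ 2 ^ j := Nat.pow_le_pow_right (by norm_num) hj
  have hcast : (((2 ^ j : ℕ) : ℝ)) = (2 : ℝ) ^ j := by push_cast; rfl
  have hN : (((2 ^ j) ^ 64 : ℕ) : ℝ) = (2 : ℝ) ^ (64 * j) := by
    push_cast
    rw [← pow_mul, mul_comm]
  have hNpos : (0 : ℝ) < 2 ^ (64 * j) := by positivity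
  have hN1 : (2 : ℝ) ^ (64 * (j + 1)) = 2 ^ 64 * 2 ^ (64 * j) := by
    rw [← pow_add]; congr 1; ring
  refine ⟨hR2, ?_, ?_, ?_⟩
  · have : 0 < 1 / (2 : ℝ) ^ (64 * j) := by positivity
    linarith
  · rw [hcast, ← pow_mul, mul_comm j 64]
    have h4 : (1 / (2 : ℝ) ^ (64 * j)) * 2 ^ (64 * j) = 1 := by field_simp
    linarith
  · intro x hx
    refine ⟨by norm_num, by positivity, ?_, ?_, ?_, ?_, ?_, ?_⟩
    · rw [hN, hcast, ← pow_mul, ← pow_mul]; congr 1; ring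
    · calc 8 ≤ 2 ^ 64 := by norm_num
        _ ≤ (2 ^ j) ^ 64 := Nat.pow_le_pow_left hR2 64
    · have e : (2 ^ j) ^ 64 = 2 ^ (64 * j) := by rw [← pow_mul, mul_comm]
      rw [e]
      exact hn
    · rw [hN]; exact hx.1
    · exact hx.2
    · intro k hk
      rw [hN]
      have hx0 : 0 ≤ x := by
        have h3 : 1 / (2 : ℝ) ^ (64 * j) ≤ 1 := by
          rw [div_le_one hNpos]; exact one_le_pow₀ (by norm_num)
        linarith [hx.1]
      have h4 : x ^ k ≤ 1 := pow_le_one₀ hx0 hx.2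
      refine h4.trans ?_
      rw [← Real.exp_add]
      apply Real.one_le_exp
      have h5 : (k : ℝ) ≤ 2 ^ 64 * 2 ^ (64 * j) := by
        rw [← hN1]
        have : k ≤ 2 ^ (64 * (j + 1)) := hk.trans hn'.le
        exact_mod_cast this
      have h6 : (k : ℝ) / (2 ^ 64 * 2 ^ (64 * j)) ≤ 1 := by
        rw [div_le_one (by positivity)]; exact h5
      linarith

lemma log_bound (j : ℕ) : 1 + Real.log (2 ^ (64 * (j + 1))) ≤ 65 * 2 ^ j := by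
  rw [Real.log_pow]
  have h1 : Real.log 2 ≤ 1 := by
    have := Real.log_two_lt_d9
    linarith
  have h2 : ((j + 1 : ℕ) : ℝ) ≤ 2 ^ j := by
    have : j + 1 ≤ 2 ^ j := Nat.lt_two_pow_self
    exact_mod_cast this
  have h3 : (1 : ℝ) ≤ 2 ^ j := one_le_pow₀ (by norm_num)
  have h0 : 0 ≤ Real.log 2 := Real.log_nonneg (by norm_num)
  push_cast at h2 ⊢
  have h4 : 64 * ((j : ℝ) + 1) * Real.log 2 ≤ 64 * ((j : ℝ) + 1) * 1 := by gcongr
  linarith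

include h2 hm h21 in
/-- fourth moments on blocks -/
lemma z4_block : ∃ K4 : ℝ, 0 ≤ K4 ∧ ∀ (j n : ℕ) (ε : ℝ), (ε = 1 ∨ ε = -1) →
    ((2 ^ (64 * (j + 1)) ≤ n → ∫ ω, (Z (derivative (kac ε n ω)) (1 - 1 / 2 ^ (64 * j))
        (1 - 1 / 2 ^ (64 * (j + 1))) : ℝ) ^ 4 ∂(Pm μ) ≤ K4 * (((2 ^ j : ℕ) : ℝ)) ^ 260) ∧
     (n < 2 ^ (64 * (j + 1)) → ∫ ω, (Z (derivative (kac ε n ω)) (1 - 1 / 2 ^ (64 * j)) 1 : ℝ) ^ 4 ∂(Pm μ)
        ≤ K4 * (((2 ^ j : ℕ) : ℝ)) ^ 260)) := by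
  obtain ⟨K, hK, hC⟩ := modC μ h2 (no_atom_one μ hm h21 0)
  obtain ⟨L, hL⟩ : ∃ L : ℝ, L = 2 ^ 64 := ⟨_, rfl⟩
  have hL0 : 0 ≤ L := by rw [hL]; positivity
  refine ⟨K * (L * 65) ^ 4 + L ^ 4, by positivity, fun j n ε hε => ?_⟩
  have ej : (((2 ^ j : ℕ) : ℝ)) = (2 : ℝ) ^ j := by push_cast; rfl
  have h9 : (2 : ℝ) ^ (64 * (j + 1)) = L * (2 ^ j) ^ 64 := by
    rw [hL, ← pow_mul, ← pow_add]; congr 1; ring
  have h3 : (2 : ℝ) ≤ 2 ^ (64 * (j + 1)) := by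
    calc (2 : ℝ) = 2 ^ 1 := by norm_num
      _ ≤ 2 ^ (64 * (j + 1)) := pow_le_pow_right₀ (by norm_num) (by omega)
  have ha0 : 0 ≤ 1 - 1 / (2 : ℝ) ^ (64 * j) := by
    have : 1 / (2 : ℝ) ^ (64 * j) ≤ 1 := by
      rw [div_le_one (by positivity)]; exact one_le_pow₀ (by norm_num)
    linarith
  have hNcast : (((2 ^ (64 * (j + 1)) : ℕ) : ℝ)) = (2 : ℝ) ^ (64 * (j + 1)) := Nat.cast_pow _ _
  rw [ej]
  have hlogb := log_bound j
  have hlog : 0 ≤ Real.log (2 ^ (64 * (j + 1))) := Real.log_nonneg (by linarith)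
  have hCj := hC (2 ^ (64 * (j + 1))) h3 n ε hε
  have hNle : n < 2 ^ (64 * (j + 1)) → (n : ℝ) ≤ 2 ^ (64 * (j + 1)) := by
    intro h
    rw [← hNcast]
    exact Nat.cast_le.2 h.le
  have h1j : (1 : ℝ) ≤ 2 ^ j := one_le_pow₀ (by norm_num)
  generalize (2 : ℝ) ^ (64 * (j + 1)) = V at *
  generalize 1 - 1 / (2 : ℝ) ^ (64 * j) = a at *
  generalize (2 : ℝ) ^ j = r at *
  have hr0 : 0 ≤ r := by linarith
  have hV0 : 0 ≤ V := by linarith
  refine ⟨?_, ?_⟩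
  · intro hn
    clear hn hNle hNcast
    have h5 : ∫ ω, (Z (derivative (kac ε n ω)) a (1 - 1 / V) : ℝ) ^ 4 ∂(Pm μ)
        ≤ K * (V * (1 + Real.log V)) ^ 4 := by
      have hpos : ∀ ω : ℕ → ℝ, 0 ≤ (Z (derivative (kac ε n ω)) a (1 - 1 / V) : ℝ) ^ 4 :=
        fun ω => pow_nonneg (Nat.cast_nonneg _) 4
      rw [integral_eq_lintegral_of_nonneg_ae (ae_of_all _ hpos)
        ((ModI.measurable_dZr ε n _ _).pow_const 4).aestronglyMeasurable]
      refine ENNReal.toReal_le_of_le_ofReal (by positivity) (le_trans ?_ hCj)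
      refine lintegral_mono fun ω => ?_
      apply ENNReal.ofReal_le_ofReal
      have h6 : Z (derivative (kac ε n ω)) a (1 - 1 / V) ≤ Z (derivative (kac ε n ω)) 0 (1 - 1 / V) :=
        Z_mono_left _ ha0 le_rfl
      have h7 : (Z (derivative (kac ε n ω)) a (1 - 1 / V) : ℝ)
          ≤ Z (derivative (kac ε n ω)) 0 (1 - 1 / V) := Nat.cast_le.2 h6
      gcongr
    refine h5.trans ?_
    calc K * (V * (1 + Real.log V)) ^ 4 ≤ K * (V * (65 * r)) ^ 4 := by gcongr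
      _ = K * (L * 65) ^ 4 * r ^ 260 := by rw [h9]; ring
      _ ≤ _ := by
          have : 0 ≤ L ^ 4 * r ^ 260 := by positivity
          linarith
  · intro hn
    have hnV := hNle hn
    clear hn hNle hNcast
    have h5 : ∫ ω, (Z (derivative (kac ε n ω)) a 1 : ℝ) ^ 4 ∂(Pm μ) ≤ ∫ ω, V ^ 4 ∂(Pm μ) := by
      have hpos : ∀ ω : ℕ → ℝ, 0 ≤ (Z (derivative (kac ε n ω)) a 1 : ℝ) ^ 4 :=
        fun ω => pow_nonneg (Nat.cast_nonneg _) 4
      refine integral_mono_of_nonneg (ae_of_all _ hpos) (integrable_const _)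
        (ae_of_all _ fun ω => ?_)
      have h6 : (Z (derivative (kac ε n ω)) a 1 : ℝ) ≤ n := Nat.cast_le.2 (ModI.Z_dkac_le ε n ω a 1)
      have h7 := h6.trans hnV
      dsimp only
      gcongr
    refine h5.trans ?_
    rw [integral_const]
    simp only [probReal_univ, smul_eq_mul, one_mul]
    have e : V ^ 4 = L ^ 4 * r ^ 256 := by rw [h9]; ring
    rw [e]
    have h11 : r ^ 256 ≤ r ^ 260 := pow_le_pow_right₀ h1j (by norm_num)
    calc L ^ 4 * r ^ 256 ≤ L ^ 4 * r ^ 260 := by gcongr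
      _ ≤ _ := by
        have : 0 ≤ K * (L * 65) ^ 4 * r ^ 260 := by positivity
        linarith

include h2 hm h21 in
theorem tloc : TLoc μ 64 := by
  have hΛ : (1 : ℝ) ≤ 2 ^ 64 := by norm_num
  have hCw := Cw_pos hΛ
  obtain ⟨K, hK⟩ := modG c1 (3 * 2 ^ 64 * Cw (2 ^ 64) ^ 2) c1_pos (by positivity)
  obtain ⟨C0, R0, hC0, hEK⟩ := EK_bound μ h2 hm h21 (2 ^ 64) hΛ K hK
  obtain ⟨C1, hC1, hS⟩ := step1 μ h2 hm h21 (2 ^ 64) hΛ
  obtain ⟨K4, hK4, hZ4⟩ := z4_block μ h2 hm h21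
  refine ⟨max 1 R0, fun j => C0 * (aM μ (((2 : ℝ) ^ 32) ^ j) + 1 / 2 ^ j) + (C1 + 2 * K4) * (1 / 2 ^ j),
    (((summable_aM μ h2).add summable_two).mul_left _).add (summable_two.mul_left _), ?_⟩
  intro j hj n hn ε hε
  have hj1 : 1 ≤ j := (le_max_left _ _).trans hj
  have hR0 : R0 ≤ 2 ^ j := ((le_max_right _ _).trans hj).trans Nat.lt_two_pow_self.le
  have e32 : (((2 ^ j : ℕ) : ℝ)) ^ 32 = ((2 : ℝ) ^ 32) ^ j := by
    push_cast
    rw [← pow_mul, ← pow_mul, mul_comm]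
  have ej : (((2 ^ j : ℕ) : ℝ)) = (2 : ℝ) ^ j := by push_cast; rfl
  have main : ∀ a b : ℝ, Blk (2 ^ 64) (2 ^ j) a b n →
      (∫ ω, (Z (derivative (kac ε n ω)) a b : ℝ) ^ 4 ∂(Pm μ) ≤ K4 * (((2 ^ j : ℕ) : ℝ)) ^ 260) →
      |(∫ ω, (Z (kac ε n ω) a b : ℝ) ∂(Pm μ)) - ∫ x in a..b, rho n x|
        ≤ C0 * (aM μ (((2 : ℝ) ^ 32) ^ j) + 1 / 2 ^ j) + (C1 + 2 * K4) * (1 / 2 ^ j) := by
    intro a b hB h4
    have h5 := hEK (2 ^ j) a b n ε hB hε hR0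
    have h6 := hS (2 ^ j) a b n ε K4 hB hε hK4 h4
    rw [e32] at h5
    rw [ej] at h5
    rw [e32, ej] at h6
    have h7 := abs_add_le ((∫ ω, (Z (kac ε n ω) a b : ℝ) ∂(Pm μ))
      - ∫ ω, Kf (1 / ((2 : ℝ) ^ j) ^ 8 * ((2 : ℝ) ^ 32) ^ j) a b (kac ε n ω) ∂(Pm μ))
      ((∫ ω, Kf (1 / ((2 : ℝ) ^ j) ^ 8 * ((2 : ℝ) ^ 32) ^ j) a b (kac ε n ω) ∂(Pm μ))
        - ∫ x in a..b, rho n x)
    rw [sub_add_sub_cancel] at h7
    refine h7.trans ?_
    have e1 : (C1 + 2 * K4) * (1 / (2 : ℝ) ^ j) = (C1 + 2 * K4) / 2 ^ j := by ring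
    rw [e1]
    linarith
  refine ⟨fun h => main _ _ (blk1 hj1 h) ((hZ4 j n ε hε).1 h), fun h => main _ _ (blk2 hj1 hn h) ((hZ4 j n ε hε).2 h)⟩

end law

end Pool.Agent.H89.Kac
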