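import Pool.Agent.H89.Kac.Lin

set_option autoImplicit false
set_option linter.unusedSectionVars false

open MeasureTheory Filter Topology ProbabilityTheory

namespace Pool.Agent.H89.Kac

section trivial_bounds

variable (ν : ℕ → Measure ℝ) [∀ k, IsProbabilityMeasure (ν k)]
variable (h2 : ∀ k, Integrable (fun x : ℝ => x ^ 2) (ν k)) (hm : ∀ k, ∫ x, x ∂(ν k) = 0)
  (h21 : ∀ k, ∫ x, x ^ 2 ∂(ν k) ≤ 1)

lemma lin_add (u w : ℕ → ℝ) (s t : ℝ) (n : ℕ) (ω : ℕ → ℝ) :
    lin (fun k => s * u k + t * w k) n ω = s * lin u n ω + t * lin w n ω := by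
  unfold lin
  rw [Finset.mul_sum, Finset.mul_sum, ← Finset.sum_add_distrib]
  refine Finset.sum_congr rfl fun k _ => ?_
  ring

lemma integrable_expI_lin (a : ℕ → ℝ) (n : ℕ) :
    Integrable (fun ω => Complex.exp (Complex.I * ((lin a n ω : ℝ) : ℂ))) (Measure.infinitePi ν) := by
  refine Integrable.of_bound (C := 1) ?_ (ae_of_all _ fun y => ?_)
  · have := measurable_lin a n
    exact (by fun_prop : Measurable fun ω => Complex.exp (Complex.I * ((lin a n ω : ℝ) : ℂ))).aestronglyMeasurable
  · rw [Complex.norm_exp_I_mul_ofReal]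

/-- `E e^{isU} (1 - cos tW)` in terms of `Phi`. -/
lemma Phi_q (u w : ℕ → ℝ) (n : ℕ) (s t : ℝ) :
    Phi ν n (fun k => s * u k) - (Phi ν n (fun k => s * u k + t * w k)
      + Phi ν n (fun k => s * u k - t * w k)) / 2
    = ∫ ω, Complex.exp (Complex.I * ((s * lin u n ω : ℝ) : ℂ)) * ((1 - Real.cos (t * lin w n ω) : ℝ) : ℂ)
        ∂(Measure.infinitePi ν) := by
  have hsub : (fun k => s * u k - t * w k) = (fun k => s * u k + (-t) * w k) := by
    ext k; ring
  have hzero : (fun k => s * u k) = (fun k => s * u k + 0 * w k) := by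
    ext k; ring
  rw [hsub, hzero, Phi_eq, Phi_eq, Phi_eq, ← integral_add (integrable_expI_lin ν _ _)
    (integrable_expI_lin ν _ _), ← integral_div, ← integral_sub (integrable_expI_lin ν _ _)]
  · congr 1; ext ω
    rw [lin_add, lin_add, lin_add]
    have h1 : ((s * lin u n ω + t * lin w n ω : ℝ) : ℂ) = (s * lin u n ω : ℝ) + (t * lin w n ω : ℝ) := by
      push_cast; ring
    have h2 : ((s * lin u n ω + -t * lin w n ω : ℝ) : ℂ) = (s * lin u n ω : ℝ) - (t * lin w n ω : ℝ) := by
      push_cast; ring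
    have h0 : ((s * lin u n ω + 0 * lin w n ω : ℝ) : ℂ) = (s * lin u n ω : ℝ) := by
      push_cast; ring
    rw [h1, h2, h0, mul_add, mul_sub, Complex.exp_add, Complex.exp_sub]
    have h3 : ((1 - Real.cos (t * lin w n ω) : ℝ) : ℂ) = 1 - (Complex.exp (Complex.I * ((t * lin w n ω : ℝ) : ℂ))
        + (Complex.exp (Complex.I * ((t * lin w n ω : ℝ) : ℂ)))⁻¹) / 2 := by
      rw [← Complex.exp_neg]
      push_cast
      rw [Complex.cos]
      congr 3
      · congr 1; ring
      · congr 1; ring
    rw [h3]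
    ring
  · exact ((integrable_expI_lin ν _ _).add (integrable_expI_lin ν _ _)).div_const _

lemma Phi_s (u w : ℕ → ℝ) (n : ℕ) (s t : ℝ) :
    (Phi ν n (fun k => s * u k + t * w k) - Phi ν n (fun k => s * u k - t * w k)) / 2
    = ∫ ω, Complex.I * (Complex.exp (Complex.I * ((s * lin u n ω : ℝ) : ℂ)) * ((Real.sin (t * lin w n ω) : ℝ) : ℂ))
        ∂(Measure.infinitePi ν) := by
  have hsub : (fun k => s * u k - t * w k) = (fun k => s * u k + (-t) * w k) := by
    ext k; ring
  rw [hsub, Phi_eq, Phi_eq, ← integral_sub (integrable_expI_lin ν _ _)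
    (integrable_expI_lin ν _ _), ← integral_div]
  congr 1; ext ω
  rw [lin_add, lin_add]
  have h1 : ((s * lin u n ω + t * lin w n ω : ℝ) : ℂ) = (s * lin u n ω : ℝ) + (t * lin w n ω : ℝ) := by
    push_cast; ring
  have h2 : ((s * lin u n ω + -t * lin w n ω : ℝ) : ℂ) = (s * lin u n ω : ℝ) - (t * lin w n ω : ℝ) := by
    push_cast; ring
  rw [h1, h2, mul_add, mul_sub, Complex.exp_add, Complex.exp_sub]
  have h3 : ((Real.sin (t * lin w n ω) : ℝ) : ℂ) = -Complex.I * ((Complex.exp (Complex.I * ((t * lin w n ω : ℝ) : ℂ))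
      - (Complex.exp (Complex.I * ((t * lin w n ω : ℝ) : ℂ)))⁻¹) / 2) := by
    rw [← Complex.exp_neg]
    push_cast
    rw [Complex.sin]
    have e1 : (-((t : ℂ) * lin w n ω) * Complex.I) = -(Complex.I * ((t : ℂ) * lin w n ω)) := by ring
    have e2 : ((t : ℂ) * lin w n ω * Complex.I) = Complex.I * ((t : ℂ) * lin w n ω) := by ring
    rw [e1, e2]
    ring
  rw [h3]
  have hI : Complex.I * -Complex.I = 1 := by simp
  calc _ = (Complex.I * -Complex.I) * (Complex.exp (Complex.I * ((s * lin u n ω : ℝ) : ℂ)) *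
      ((Complex.exp (Complex.I * ((t * lin w n ω : ℝ) : ℂ))
      - (Complex.exp (Complex.I * ((t * lin w n ω : ℝ) : ℂ)))⁻¹) / 2)) := by rw [hI]; ring
    _ = _ := by ring

include h2 hm h21 in
lemma norm_Phi_q_le (u w : ℕ → ℝ) (n : ℕ) (s t : ℝ) :
    ‖Phi ν n (fun k => s * u k) - (Phi ν n (fun k => s * u k + t * w k)
      + Phi ν n (fun k => s * u k - t * w k)) / 2‖ ≤ t ^ 2 / 2 * ∑ k ∈ Finset.range n, w k ^ 2 := by
  rw [Phi_q]
  have hsq : Integrable (fun ω => (lin w n ω) ^ 2) (Measure.infinitePi ν) :=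
    (memLp_two_iff_integrable_sq (measurable_lin w n).aestronglyMeasurable).1 (memLp_lin ν h2 w n)
  have hb : Integrable (fun ω => t ^ 2 / 2 * (lin w n ω) ^ 2) (Measure.infinitePi ν) := hsq.const_mul _
  refine (norm_integral_le_of_norm_le hb (ae_of_all _ fun ω => ?_)).trans ?_
  · rw [norm_mul, Complex.norm_exp_I_mul_ofReal, one_mul, Complex.norm_real, Real.norm_eq_abs,
      abs_of_nonneg (by linarith [Real.cos_le_one (t * lin w n ω)])]
    refine (one_sub_cos_le_sq _).trans (le_of_eq ?_)
    ring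
  · rw [integral_const_mul]
    gcongr
    exact integral_lin_sq ν h2 hm h21 w n

include h2 hm h21 in
lemma norm_Phi_s_le (u w : ℕ → ℝ) (n : ℕ) (s t : ℝ) :
    ‖(Phi ν n (fun k => s * u k + t * w k) - Phi ν n (fun k => s * u k - t * w k)) / 2‖
      ≤ |t| * Real.sqrt (∑ k ∈ Finset.range n, w k ^ 2) := by
  rw [Phi_s]
  have h := memLp_lin ν h2 w n
  have hi : Integrable (fun ω => |lin w n ω|) (Measure.infinitePi ν) :=
    (h.integrable (by norm_num)).abs
  have hb : Integrable (fun ω => |t| * |lin w n ω|) (Measure.infinitePi ν) := hi.const_mul _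
  refine (norm_integral_le_of_norm_le hb (ae_of_all _ fun ω => ?_)).trans ?_
  · rw [norm_mul, norm_mul, Complex.norm_I, Complex.norm_exp_I_mul_ofReal, one_mul, one_mul,
      Complex.norm_real, Real.norm_eq_abs, ← abs_mul]
    exact Real.abs_sin_le_abs
  · rw [integral_const_mul]
    gcongr
    exact integral_abs_lin ν h2 hm h21 w n

end trivial_bounds

section tele

variable (μ : Measure ℝ) [IsProbabilityMeasure μ] (h2 : Integrable (fun x : ℝ => x ^ 2) μ)
    (hm : ∫ x, x ∂μ = 0) (h21 : ∫ x, x ^ 2 ∂μ = 1) (T : ℝ)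

/-- mixture of laws: `μ` for the first `m` coordinates, the matching Gaussian for the others. -/
noncomputable def mix (μ : Measure ℝ) (T : ℝ) (m k : ℕ) : Measure ℝ :=
  if k < m then μ else gaussianReal 0 (vT μ T)

instance mix_prob (m k : ℕ) : IsProbabilityMeasure (mix μ T m k) := by
  unfold mix
  split_ifs <;> infer_instance

include h2 in
lemma mix_sq (m k : ℕ) : Integrable (fun x : ℝ => x ^ 2) (mix μ T m k) := by
  unfold mix
  split_ifs
  · exact h2
  · exact integrable_pow_gaussian _ 2

include hm in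
lemma mix_mean (m k : ℕ) : ∫ x, x ∂(mix μ T m k) = 0 := by
  unfold mix
  split_ifs
  · exact hm
  · exact integral_id_gaussianReal

include h2 h21 in
lemma mix_var (m k : ℕ) : ∫ x, x ^ 2 ∂(mix μ T m k) ≤ 1 := by
  unfold mix
  split_ifs
  · exact h21.le
  · rw [integral_sq_gaussian]
    exact vT_le_one μ h2 h21 T

/-- product over the indices different from `m`. -/
noncomputable def Psi (μ : Measure ℝ) (T : ℝ) (n m : ℕ) (a : ℕ → ℝ) : ℂ :=
  ∏ k ∈ (Finset.range n).erase m, charFun (mix μ T m k) (a k)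

lemma Psi_eq_Phi {n m : ℕ} (hmn : m < n) (a : ℕ → ℝ) :
    Psi μ T n m a = Phi (mix μ T m) n (Function.update a m 0) := by
  unfold Psi Phi
  rw [← Finset.mul_prod_erase (Finset.range n) _ (Finset.mem_range.2 hmn)]
  rw [Function.update_self, charFun_zero]
  simp only [probReal_univ, Complex.ofReal_one, one_mul]
  refine Finset.prod_congr rfl fun k hk => ?_
  rw [Function.update_of_ne (Finset.ne_of_mem_erase hk)]

lemma tele_step {n m : ℕ} (hmn : m < n) (a : ℕ → ℝ) :
    Phi (mix μ T (m + 1)) n a - Phi (mix μ T m) n a = Psi μ T n m a * bet μ T (a m) := by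
  unfold Phi Psi bet
  rw [← Finset.mul_prod_erase (Finset.range n) _ (Finset.mem_range.2 hmn),
    ← Finset.mul_prod_erase (Finset.range n) (fun k => charFun (mix μ T m k) (a k))
      (Finset.mem_range.2 hmn)]
  have e1 : mix μ T (m + 1) m = μ := by unfold mix; simp
  have e2 : mix μ T m m = gaussianReal 0 (vT μ T) := by unfold mix; simp
  have e3 : ∏ k ∈ (Finset.range n).erase m, charFun (mix μ T (m + 1) k) (a k)
      = ∏ k ∈ (Finset.range n).erase m, charFun (mix μ T m k) (a k) := by
    refine Finset.prod_congr rfl fun k hk => ?_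
    have hk' : k ≠ m := Finset.ne_of_mem_erase hk
    have : mix μ T (m + 1) k = mix μ T m k := by
      unfold mix
      by_cases h : k < m
      · rw [if_pos h, if_pos (by omega)]
      · rw [if_neg h, if_neg (by omega)]
    rw [this]
  rw [e3, e1, e2]
  ring

lemma tele_sum (n : ℕ) (a : ℕ → ℝ) :
    Phi (fun _ => μ) n a - Phi (fun _ => gaussianReal 0 (vT μ T)) n a
      = ∑ m ∈ Finset.range n, Psi μ T n m a * bet μ T (a m) := by
  have h1 : Phi (fun _ => μ) n a = Phi (mix μ T n) n a := by
    unfold Phi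
    refine Finset.prod_congr rfl fun k hk => ?_
    have : mix μ T n k = μ := by unfold mix; simp [Finset.mem_range.1 hk]
    rw [this]
  have h0 : Phi (fun _ => gaussianReal 0 (vT μ T)) n a = Phi (mix μ T 0) n a := by
    unfold Phi
    refine Finset.prod_congr rfl fun k hk => ?_
    have : mix μ T 0 k = gaussianReal 0 (vT μ T) := by unfold mix; simp
    rw [this]
  rw [h1, h0, ← Finset.sum_range_sub (fun m => Phi (mix μ T m) n a)]
  refine Finset.sum_congr rfl fun m hmn => ?_
  exact tele_step μ T (Finset.mem_range.1 hmn) a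

/-- the symmetrized second difference of `Phi` in the direction `w`. -/
noncomputable def D2 (ν : ℕ → Measure ℝ) (n : ℕ) (u w : ℕ → ℝ) (s t : ℝ) : ℂ :=
  Phi ν n (fun k => s * u k) - (Phi ν n (fun k => s * u k + t * w k)
      + Phi ν n (fun k => s * u k - t * w k)) / 2

lemma D2_tele (n : ℕ) (u w : ℕ → ℝ) (s t : ℝ) :
    D2 (fun _ => μ) n u w s t - D2 (fun _ => gaussianReal 0 (vT μ T)) n u w s t
      = ∑ m ∈ Finset.range n,
        (Psi μ T n m (fun k => s * u k) * bet μ T (s * u m)
          - (Psi μ T n m (fun k => s * u k + t * w k) * bet μ T (s * u m + t * w m)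
            + Psi μ T n m (fun k => s * u k - t * w k) * bet μ T (s * u m - t * w m)) / 2) := by
  have e0 := tele_sum μ T n (fun k => s * u k)
  have e1 := tele_sum μ T n (fun k => s * u k + t * w k)
  have e2 := tele_sum μ T n (fun k => s * u k - t * w k)
  rw [Finset.sum_sub_distrib, ← Finset.sum_div, Finset.sum_add_distrib, ← e0, ← e1, ← e2]
  unfold D2
  ring

omit [IsProbabilityMeasure μ] in
lemma sum_update_sq_le (w : ℕ → ℝ) (n m : ℕ) :
    ∑ k ∈ Finset.range n, Function.update w m 0 k ^ 2 ≤ ∑ k ∈ Finset.range n, w k ^ 2 := by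
  refine Finset.sum_le_sum fun k _ => ?_
  by_cases hk : k = m
  · subst hk; simp; positivity
  · simp [Function.update_of_ne hk]

include h2 hm h21 in
lemma Psi_q_bound {n m : ℕ} (hmn : m < n) (u w : ℕ → ℝ) (s t : ℝ) :
    ‖Psi μ T n m (fun k => s * u k) - (Psi μ T n m (fun k => s * u k + t * w k)
      + Psi μ T n m (fun k => s * u k - t * w k)) / 2‖
      ≤ t ^ 2 / 2 * ∑ k ∈ Finset.range n, w k ^ 2 := by
  rw [Psi_eq_Phi μ T hmn, Psi_eq_Phi μ T hmn, Psi_eq_Phi μ T hmn]
  have h := norm_Phi_q_le (mix μ T m) (mix_sq μ h2 T m) (mix_mean μ hm T m) (mix_var μ h2 h21 T m)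
    (Function.update u m 0) (Function.update w m 0) n s t
  have e0 : Function.update (fun k => s * u k) m 0 = fun k => s * Function.update u m 0 k := by
    ext k; by_cases hk : k = m
    · subst hk; simp
    · simp [Function.update_of_ne hk]
  have e1 : Function.update (fun k => s * u k + t * w k) m 0
      = fun k => s * Function.update u m 0 k + t * Function.update w m 0 k := by
    ext k; by_cases hk : k = m
    · subst hk; simp
    · simp [Function.update_of_ne hk]
  have e2 : Function.update (fun k => s * u k - t * w k) m 0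
      = fun k => s * Function.update u m 0 k - t * Function.update w m 0 k := by
    ext k; by_cases hk : k = m
    · subst hk; simp
    · simp [Function.update_of_ne hk]
  rw [e0, e1, e2]
  refine h.trans ?_
  have hsum := sum_update_sq_le w n m
  gcongr

include h2 hm h21 in
lemma Psi_s_bound {n m : ℕ} (hmn : m < n) (u w : ℕ → ℝ) (s t : ℝ) :
    ‖(Psi μ T n m (fun k => s * u k + t * w k) - Psi μ T n m (fun k => s * u k - t * w k)) / 2‖
      ≤ |t| * Real.sqrt (∑ k ∈ Finset.range n, w k ^ 2) := by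
  rw [Psi_eq_Phi μ T hmn, Psi_eq_Phi μ T hmn]
  have h := norm_Phi_s_le (mix μ T m) (mix_sq μ h2 T m) (mix_mean μ hm T m) (mix_var μ h2 h21 T m)
    (Function.update u m 0) (Function.update w m 0) n s t
  have e1 : Function.update (fun k => s * u k + t * w k) m 0
      = fun k => s * Function.update u m 0 k + t * Function.update w m 0 k := by
    ext k; by_cases hk : k = m
    · subst hk; simp
    · simp [Function.update_of_ne hk]
  have e2 : Function.update (fun k => s * u k - t * w k) m 0
      = fun k => s * Function.update u m 0 k - t * Function.update w m 0 k := by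
    ext k; by_cases hk : k = m
    · subst hk; simp
    · simp [Function.update_of_ne hk]
  rw [e1, e2]
  refine h.trans ?_
  have hsum := sum_update_sq_le w n m
  gcongr

end tele

end Pool.Agent.H89.Kac
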