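import Pool.Agent.H89.Kac.SB
import Pool.Agent.H89.Kac.Decay

set_option autoImplicit false
set_option linter.unusedSectionVars false

open MeasureTheory Filter Topology ProbabilityTheory Polynomial

namespace Pool.Agent.H89.Kac

/-- the statement of the Gaussian module -/
def GProp (c C K : ℝ) : Prop :=
    0 ≤ K ∧ ∀ (v : NNReal), 1 / 2 ≤ (v : ℝ) → (v : ℝ) ≤ 1 → ∀ (n : ℕ) (u w : ℕ → ℝ),
      c ≤ ∑ k ∈ Finset.range n, u k ^ 2 → ∑ k ∈ Finset.range n, u k ^ 2 ≤ C →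
      ∑ k ∈ Finset.range n, w k ^ 2 ≤ C → ∀ η : ℝ, 0 < η → η ≤ 1 →
      |(η ^ 2)⁻¹ * (∫ ω, tri η (lin u n ω) * |lin w n ω|
            ∂(Measure.infinitePi (fun _ : ℕ => gaussianReal 0 v)))
        - Real.sqrt ((∑ k ∈ Finset.range n, u k ^ 2) * (∑ k ∈ Finset.range n, w k ^ 2)
            - (∑ k ∈ Finset.range n, u k * w k) ^ 2)
          / (Real.pi * ∑ k ∈ Finset.range n, u k ^ 2)| ≤ K * η

variable {Λ M x : ℝ} {N n : ℕ}

/-- the Kac density in terms of the normalised weights -/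
lemma rho_nw (h : Sc Λ M x N n) {ε : ℝ} (hε : |ε| = 1) :
    Real.sqrt ((∑ k ∈ Finset.range (n + 1), nw ε x M 0 k ^ 2)
        * (∑ k ∈ Finset.range (n + 1), nw ε x M 1 k ^ 2)
        - (∑ k ∈ Finset.range (n + 1), nw ε x M 0 k * nw ε x M 1 k) ^ 2)
      / (Real.pi * ∑ k ∈ Finset.range (n + 1), nw ε x M 0 k ^ 2) = rho n x / N := by
  have hM := h.hM
  have hN := h.Npos
  have hεk : ∀ k : ℕ, (ε ^ k) ^ 2 = 1 := by
    intro k
    rw [← pow_mul, mul_comm, pow_mul, ← sq_abs, hε]; simp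
  have hA : ∑ k ∈ Finset.range (n + 1), nw ε x M 0 k ^ 2 = An n x / N := by
    unfold An
    rw [Finset.sum_div]
    refine Finset.sum_congr rfl fun k _ => ?_
    unfold nw wt
    rw [div_pow, mul_pow, mul_pow, hεk k, ← h.hMN]
    simp only [Nat.descFactorial_zero, Nat.cast_one, Nat.sub_zero, mul_zero, zero_add, pow_one,
      one_pow, one_mul]
    rw [← pow_mul, mul_comm k 2]
  have hB : ∑ k ∈ Finset.range (n + 1), nw ε x M 0 k * nw ε x M 1 k = Bn n x / N ^ 2 := by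
    unfold Bn
    rw [Finset.sum_div]
    refine Finset.sum_congr rfl fun k _ => ?_
    unfold nw wt
    simp only [Nat.descFactorial_zero, Nat.cast_one, Nat.sub_zero, mul_zero, zero_add, pow_one,
      mul_one, Nat.descFactorial_one]
    rcases k with _ | k
    · simp
    · have e : 2 * (k + 1) - 1 = (k + 1) + k := by omega
      rw [e, pow_add x (k + 1) k, ← h.hMN, Nat.add_sub_cancel]
      have h1 := hεk (k + 1)
      have h2 : M ^ (2 * 1 + 1) = M ^ 3 := by norm_num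
      rw [h2, div_mul_div_comm, div_eq_div_iff (by positivity) (by positivity)]
      calc ε ^ (k + 1) * x ^ (k + 1) * (ε ^ (k + 1) * ((k + 1 : ℕ) : ℝ) * x ^ k) * (M ^ 2) ^ 2
          = (ε ^ (k + 1)) ^ 2 * (((k + 1 : ℕ) : ℝ) * (x ^ (k + 1) * x ^ k) * (M * M ^ 3)) := by ring
        _ = _ := by rw [h1]; ring
  have hC : ∑ k ∈ Finset.range (n + 1), nw ε x M 1 k ^ 2 = Cn n x / N ^ 3 := by
    unfold Cn
    rw [Finset.sum_div]
    refine Finset.sum_congr rfl fun k _ => ?_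
    unfold nw wt
    simp only [Nat.descFactorial_one]
    rw [div_pow, mul_pow, mul_pow, hεk k, ← h.hMN, one_mul]
    have h2 : M ^ (2 * 1 + 1) = M ^ 3 := by norm_num
    rw [h2, ← pow_mul x]
    have e : (k - 1) * 2 = 2 * k - 2 := by omega
    rw [e]
    congr 1
    ring
  rw [hA, hB, hC]
  unfold rho
  have e : An n x / N * (Cn n x / N ^ 3) - (Bn n x / N ^ 2) ^ 2 = (An n x * Cn n x - Bn n x ^ 2) / (N ^ 2) ^ 2 := by
    field_simp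
  rw [e, Real.sqrt_div' _ (by positivity), Real.sqrt_sq (by positivity)]
  have hApos : 0 < An n x := by
    unfold An
    have hx := h.x_half
    have hx0 : 0 < x := by linarith
    exact Finset.sum_pos (fun k _ => by positivity) ⟨0, by simp⟩
  have hpi := Real.pi_pos
  field_simp

lemma sum_nw_sq_le (h : Sc Λ M x N n) {ε : ℝ} (hε : |ε| = 1) {i : ℕ} (hi : i ≤ 3) :
    ∑ k ∈ Finset.range (n + 1), nw ε x M i k ^ 2 ≤ 3 * Λ * Cw Λ ^ 2 := by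
  refine le_trans (Finset.sum_le_sum fun k hk => ?_) (sum_om2 h (n + 1))
  have h1 := nw_bound h hε hi (Nat.lt_succ_iff.1 (Finset.mem_range.1 hk))
  rw [← sq_abs]
  gcongr

lemma sum_nw0_ge (h : Sc Λ M x N n) {ε : ℝ} (hε : |ε| = 1) :
    c1 ≤ ∑ k ∈ Finset.range (n + 1), nw ε x M 0 k ^ 2 := by
  have := nondeg_w h hε 1 0 0 0
  simpa using this

theorem Tx (μ : Measure ℝ) [IsProbabilityMeasure μ] (h2 : Integrable (fun x : ℝ => x ^ 2) μ)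
    (hm : ∫ x, x ∂μ = 0) (h21 : ∫ x, x ^ 2 ∂μ = 1) (Λ : ℝ) (hΛ : 1 ≤ Λ) (K : ℝ)
    (hG : GProp c1 (3 * Λ * Cw Λ ^ 2) K) :
    ∃ C0 M0 : ℝ, 0 ≤ C0 ∧ 0 < M0 ∧ ∀ (M x : ℝ) (N n : ℕ) (ε : ℝ), Sc Λ M x N n → |ε| = 1 → M0 ≤ M →
      ∀ η : ℝ, 0 < η → η ≤ 1 →
      |N * ((η ^ 2)⁻¹ * ∫ ω, tri η (lin (nw ε x M 0) (n + 1) ω) * |lin (nw ε x M 1) (n + 1) ω| ∂(Pm μ))
        - rho n x| ≤ N * (C0 * (aM μ M + 1 / (η ^ 2 * M) + η)) := by
  obtain ⟨θ0, hθ0, hθ1, hθ⟩ := exists_theta0 μ h2 hm h21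
  obtain ⟨T0, hT0⟩ := exists_vT_half μ h2 h21
  have hCw := Cw_pos hΛ
  have hc1 := c1_pos
  have hc0 := c0_pos
  obtain ⟨hK0, hG⟩ := hG
  set C := 3 * Λ * Cw Λ ^ 2 with hCdef
  have hCpos : 0 < C := by positivity
  have hKc : 0 ≤ Kc C (c1 / 8) := by unfold Kc; positivity
  have hI0 := I0_nonneg
  have hH0 := H0_nonneg (c1 / 8)
  have hCs := Cs_nonneg hΛ
  set D1 := c0⁻¹ ^ 2 * (Kc C (c1 / 8) * Cs Λ * I0 * H0 (c1 / 8)) with hD1
  set D2' := c0⁻¹ ^ 2 * (8 * c0 * (1 + Real.sqrt C)) * (2 * Cw Λ / θ0) with hD2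
  have hD1' : 0 ≤ D1 := by positivity
  have hD2' : 0 ≤ D2' := by positivity
  refine ⟨D1 + D2' + K, max (max T0 1) (2 * Cw Λ / Real.sqrt c1), by positivity, by positivity, ?_⟩
  intro M x N n ε h hε hM0 η hη hη1
  have hM := h.hM
  have hN := h.Npos
  have hT : T0 ≤ M := (le_max_left _ _).trans ((le_max_left _ _).trans hM0)
  have hM2 : 4 * Cw Λ ^ 2 / c1 ≤ M ^ 2 := by
    have h1 : 2 * Cw Λ / Real.sqrt c1 ≤ M := (le_max_right _ _).trans hM0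
    have h2 : (2 * Cw Λ / Real.sqrt c1) ^ 2 ≤ M ^ 2 := by gcongr
    rw [div_pow, Real.sq_sqrt hc1.le] at h2
    have e : (2 * Cw Λ) ^ 2 = 4 * Cw Λ ^ 2 := by ring
    rwa [e] at h2
  have hv := hT0 M hT
  have hv1 := vT_le_one μ h2 h21 M
  have hdd := hd_holds μ h hε hθ0 hθ hv hM2
  have hed := expect_diff μ h2 hm h21 M (n + 1) (nw ε x M 0) (nw ε x M 1) (om Λ M N) C (c1 / 8)
    (θ0 * M / (2 * Cw Λ)) η (by positivity) (by positivity) hη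
    (fun k hk => nw_bound h hε (by norm_num) (Nat.lt_succ_iff.1 hk))
    (fun k hk => nw_bound h hε (by norm_num) (Nat.lt_succ_iff.1 hk))
    (sum_nw_sq_le h hε (by norm_num)) hdd
  have hGa := hG (vT μ M) hv hv1 (n + 1) (nw ε x M 0) (nw ε x M 1) (sum_nw0_ge h hε)
    (sum_nw_sq_le h hε (by norm_num)) (sum_nw_sq_le h hε (by norm_num)) η hη hη1
  rw [rho_nw h hε] at hGa
  change |(∫ ω', tri η (lin (nw ε x M 0) (n + 1) ω') * |lin (nw ε x M 1) (n + 1) ω'| ∂(Pm μ)) - _| ≤ _ at hed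
  set E1 := ∫ ω', tri η (lin (nw ε x M 0) (n + 1) ω') * |lin (nw ε x M 1) (n + 1) ω'| ∂(Pm μ) with hE1
  set E2 := ∫ ω', tri η (lin (nw ε x M 0) (n + 1) ω') * |lin (nw ε x M 1) (n + 1) ω'|
    ∂(Measure.infinitePi fun _ : ℕ => gaussianReal 0 (vT μ M)) with hE2
  have haM := aM_nonneg μ hM
  have hEk := sum_Ek μ h (n + 1)
  have hEk0 : 0 ≤ ∑ k ∈ Finset.range (n + 1), Ek μ M (om Λ M N k) :=
    Finset.sum_nonneg fun k _ => Ek_nonneg μ M (om_nonneg h k)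
  have e1 : (N : ℝ) * ((η ^ 2)⁻¹ * E1) - rho n x
      = N * ((η ^ 2)⁻¹ * (E1 - E2) + ((η ^ 2)⁻¹ * E2 - rho n x / N)) := by
    field_simp
    ring
  rw [e1, abs_mul, abs_of_pos hN]
  gcongr
  have h3 : |(η ^ 2)⁻¹ * (E1 - E2)| ≤ D1 * aM μ M + D2' * (1 / (η ^ 2 * M)) := by
    rw [abs_mul, abs_of_pos (by positivity : 0 < (η ^ 2)⁻¹)]
    calc (η ^ 2)⁻¹ * |E1 - E2|
        ≤ (η ^ 2)⁻¹ * (c0⁻¹ ^ 2 * (η ^ 2 / 2 * (Kc C (c1 / 8) * (∑ k ∈ Finset.range (n + 1), Ek μ M (om Λ M N k)) * I0 * H0 (c1 / 8))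
        + 8 / (θ0 * M / (2 * Cw Λ)) * (c0 * η) + 8 * (c0 * Real.sqrt C) / (θ0 * M / (2 * Cw Λ)))) := by
          gcongr
      _ ≤ (η ^ 2)⁻¹ * (c0⁻¹ ^ 2 * (η ^ 2 * (Kc C (c1 / 8) * (Cs Λ * aM μ M) * I0 * H0 (c1 / 8))
        + 8 / (θ0 * M / (2 * Cw Λ)) * (c0 * 1) + 8 * (c0 * Real.sqrt C) / (θ0 * M / (2 * Cw Λ)))) := by
          gcongr
          linarith [sq_nonneg η]
      _ = D1 * aM μ M + D2' * (1 / (η ^ 2 * M)) := by
          rw [hD1, hD2]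
          field_simp
          ring
  have h4 : 0 ≤ 1 / (η ^ 2 * M) := by positivity
  calc |(η ^ 2)⁻¹ * (E1 - E2) + ((η ^ 2)⁻¹ * E2 - rho n x / N)|
      ≤ |(η ^ 2)⁻¹ * (E1 - E2)| + |(η ^ 2)⁻¹ * E2 - rho n x / N| := abs_add_le _ _
    _ ≤ (D1 * aM μ M + D2' * (1 / (η ^ 2 * M))) + K * η := by gcongr
    _ ≤ _ := by nlinarith [mul_nonneg hD1' h4, mul_nonneg hD1' hη.le, mul_nonneg hD2' haM,
        mul_nonneg hD2' hη.le, mul_nonneg hK0 haM, mul_nonneg hK0 h4]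

end Pool.Agent.H89.Kac
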