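import Pool.Agent.H89.Kac.SmallBall
import Pool.Agent.H89.Kac.Nondeg

set_option autoImplicit false
set_option linter.unusedSectionVars false

open MeasureTheory Filter Topology ProbabilityTheory Polynomial

namespace Pool.Agent.H89.Kac

/-- weight of `ω k` in the `i`-th derivative at `x` -/
noncomputable def wt (ε x : ℝ) (i k : ℕ) : ℝ := ε ^ k * (k.descFactorial i : ℝ) * x ^ (k - i)

lemma eval_iter_kac (ε x : ℝ) (n i : ℕ) (ω : ℕ → ℝ) :
    ((derivative^[i]) (kac ε n ω)).eval x = lin (wt ε x i) (n + 1) ω := by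
  unfold kac lin wt
  rw [Polynomial.iterate_derivative_sum, Polynomial.eval_finsetSum]
  refine Finset.sum_congr rfl fun k _ => ?_
  rw [Polynomial.iterate_derivative_C_mul, Polynomial.iterate_derivative_X_pow_eq_natCast_mul]
  simp only [eval_mul, eval_C, eval_natCast, eval_pow, eval_X]
  ring

/-- normalised weights, `M = sqrt N`. -/
noncomputable def nw (ε x M : ℝ) (i k : ℕ) : ℝ := wt ε x i k / M ^ (2 * i + 1)

/-- Scale condition: `x` is at scale `N` (i.e. `1-x ≤ 1/N`), and the powers of `x` decay at rate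
`1/(ΛN)`. -/
structure Sc (Λ M x : ℝ) (N n : ℕ) : Prop where
  hΛ : 1 ≤ Λ
  hM : 0 < M
  hMN : M ^ 2 = N
  hN : 8 ≤ N
  hn : N ≤ n
  hx1 : 1 - 1 / (N : ℝ) ≤ x
  hx2 : x ≤ 1
  star : ∀ k ≤ n, x ^ k ≤ Real.exp 1 * Real.exp (-(k / (Λ * N)))

/-- the constant in the bound for the weights -/
noncomputable def Cw (Λ : ℝ) : ℝ := Real.exp 1 * 6 * (4 * Λ) ^ 3

lemma Cw_pos {Λ : ℝ} (h : 1 ≤ Λ) : 0 < Cw Λ := by unfold Cw; positivity

/-- the bound for the weights -/
noncomputable def om (Λ M : ℝ) (N k : ℕ) : ℝ := Cw Λ * Real.exp (-(k / (2 * Λ * N))) / M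

variable {Λ M x : ℝ} {N n : ℕ}

lemma Sc.Npos (h : Sc Λ M x N n) : (0 : ℝ) < N := by
  have := h.hN
  have : (8 : ℝ) ≤ N := by exact_mod_cast this
  linarith

lemma Sc.N8 (h : Sc Λ M x N n) : (8 : ℝ) ≤ N := by
  have := h.hN
  exact_mod_cast this

lemma Sc.x_half (h : Sc Λ M x N n) : 1 / 2 ≤ x := by
  have h8 := h.N8
  have := h.hx1
  have h1 : 1 / (N : ℝ) ≤ 1 / 8 := by gcongr
  linarith

lemma Sc.Λpos (h : Sc Λ M x N n) : 0 < Λ := by linarith [h.hΛ]

lemma nw_bound (h : Sc Λ M x N n) {ε : ℝ} (hε : |ε| = 1) {i k : ℕ} (hi : i ≤ 3) (hk : k ≤ n) :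
    |nw ε x M i k| ≤ om Λ M N k := by
  have hN0 := h.Npos
  have hM0 := h.hM
  have hx := h.x_half
  have hx0 : 0 < x := by linarith
  have hΛ0 := h.Λpos
  unfold nw wt om
  rw [abs_div, abs_mul, abs_mul, abs_pow, hε, one_pow, one_mul, Nat.abs_cast,
    abs_of_pos (by positivity : 0 < x ^ (k - i)), abs_of_pos (by positivity : 0 < M ^ (2 * i + 1))]
  by_cases hki : k < i
  · rw [Nat.descFactorial_eq_zero_iff_lt.2 hki]
    simp only [Nat.cast_zero, zero_mul, zero_div]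
    have := Cw_pos h.hΛ
    positivity
  · push Not at hki
    have h1 : (k.descFactorial i : ℝ) ≤ (k : ℝ) ^ i := by exact_mod_cast Nat.descFactorial_le_pow k i
    have h2 : x ^ (k - i) ≤ 2 ^ i * x ^ k := by
      have e : x ^ k = x ^ (k - i) * x ^ i := by rw [← pow_add]; congr 1; omega
      rw [e]
      have h3 : (1 / 2 : ℝ) ^ i ≤ x ^ i := by gcongr
      have h4 : 1 ≤ 2 ^ i * x ^ i := by
        calc (1 : ℝ) = 2 ^ i * (1 / 2) ^ i := by rw [← mul_pow]; norm_num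
          _ ≤ _ := by gcongr
      have h5 : 0 < x ^ (k - i) := by positivity
      nlinarith
    have h3 := h.star k hk
    set y := (k : ℝ) / (2 * Λ * N) with hy
    have hy0 : 0 ≤ y := by positivity
    have h4 := Real.pow_div_factorial_le_exp y hy0 i
    have h4' : y ^ i ≤ i.factorial * Real.exp y := by
      rw [div_le_iff₀ (by positivity)] at h4
      linarith
    have h5 : (i.factorial : ℝ) ≤ 6 := by
      interval_cases i <;> norm_num [Nat.factorial]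
    have h6 : (k : ℝ) ^ i = (2 * Λ * N) ^ i * y ^ i := by
      rw [← mul_pow, hy]; congr 1; field_simp
    have h7 : Real.exp (-(k / (Λ * N))) = Real.exp (-y) * Real.exp (-y) := by
      rw [← Real.exp_add, hy]; congr 1; field_simp; ring
    have hMpow : M ^ (2 * i + 1) = (N : ℝ) ^ i * M := by
      rw [pow_succ, pow_mul, h.hMN]
    have hΛ4 : (4 * Λ) ^ i ≤ (4 * Λ) ^ 3 := by
      apply pow_le_pow_right₀ _ hi
      linarith [h.hΛ]
    rw [hMpow, div_le_div_iff₀ (by positivity) hM0]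
    calc (k.descFactorial i : ℝ) * x ^ (k - i) * M
        ≤ (k : ℝ) ^ i * (2 ^ i * x ^ k) * M := by gcongr
      _ ≤ ((2 * Λ * N) ^ i * (6 * Real.exp y)) * (2 ^ i * (Real.exp 1 * (Real.exp (-y) * Real.exp (-y)))) * M := by
          rw [h6, ← h7]
          gcongr
          refine h4'.trans ?_
          gcongr
      _ = (Real.exp 1 * 6 * (4 * Λ) ^ i * Real.exp (-y)) * ((N : ℝ) ^ i * M) * (Real.exp y * Real.exp (-y)) := by
          rw [mul_pow, mul_pow, mul_pow, show (4 : ℝ) ^ i = 2 ^ i * 2 ^ i by rw [← mul_pow]; norm_num]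
          ring
      _ = (Real.exp 1 * 6 * (4 * Λ) ^ i * Real.exp (-y)) * ((N : ℝ) ^ i * M) := by
          rw [← Real.exp_add, add_neg_cancel, Real.exp_zero, mul_one]
      _ ≤ (Cw Λ * Real.exp (-y)) * ((N : ℝ) ^ i * M) := by
          unfold Cw
          gcongr

/-- the nondegeneracy constant -/
noncomputable def c1 : ℝ := Real.exp (-4) / (32 * 4400 ^ 2)

lemma c1_pos : 0 < c1 := by unfold c1; positivity

lemma Sc.pow_ge (h : Sc Λ M x N n) {k : ℕ} (hk : k ≤ N) : Real.exp (-4) ≤ (x ^ k) ^ 2 := by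
  have hN0 := h.Npos
  have h8 := h.N8
  have hy : 1 / (N : ℝ) ≤ 1 / 8 := by gcongr
  have h1 : Real.exp (-(2 / (N : ℝ))) ≤ x := by
    refine le_trans ?_ h.hx1
    rw [Real.exp_neg]
    have h2 := Real.add_one_le_exp (2 / (N : ℝ))
    have h3 : (Real.exp (2 / (N : ℝ)))⁻¹ ≤ (2 / (N : ℝ) + 1)⁻¹ := by gcongr
    refine h3.trans ?_
    rw [inv_le_iff_one_le_mul₀ (by positivity)]
    have e : 2 / (N : ℝ) = 2 * (1 / N) := by ring
    rw [e]
    have : 0 < 1 / (N : ℝ) := by positivity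
    nlinarith
  have h4 : Real.exp (-(2 / (N : ℝ))) ^ (k * 2) ≤ x ^ (k * 2) := by gcongr
  rw [← pow_mul]
  refine le_trans ?_ h4
  rw [← Real.exp_nat_mul]
  apply Real.exp_le_exp.2
  have hkN : (k : ℝ) ≤ N := by exact_mod_cast hk
  push_cast
  have : (k : ℝ) * 2 * -(2 / (N : ℝ)) = -(4 * (k / N)) := by ring
  rw [this]
  have : (k : ℝ) / N ≤ 1 := by rw [div_le_one hN0]; exact hkN
  linarith

lemma nondeg_w (h : Sc Λ M x N n) {ε : ℝ} (hε : |ε| = 1) (y0 y1 y2 y3 : ℝ) :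
    c1 * (y0 ^ 2 + y1 ^ 2 + y2 ^ 2 + y3 ^ 2)
      ≤ ∑ k ∈ Finset.range (n + 1), (y0 * nw ε x M 0 k + y1 * nw ε x M 1 k + y2 * nw ε x M 2 k
          + y3 * nw ε x M 3 k) ^ 2 := by
  have hN0 := h.Npos
  have hM0 := h.hM
  have hx := h.x_half
  have hx0 : 0 < x := by linarith
  have hε2 : ε ^ 2 = 1 := by rw [← sq_abs, hε]; norm_num
  have key : ∀ k : ℕ, (y0 * nw ε x M 0 k + y1 * nw ε x M 1 k + y2 * nw ε x M 2 k
          + y3 * nw ε x M 3 k) ^ 2
      = (x ^ k) ^ 2 / N * qc N (y0) (y1 / x) (y2 / x ^ 2) (y3 / x ^ 3) k ^ 2 := by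
    intro k
    have hεk : (ε ^ k) ^ 2 = 1 := by rw [← pow_mul, mul_comm, pow_mul, hε2, one_pow]
    have d1 : ∀ i : ℕ, (k.descFactorial i : ℝ) * x ^ (k - i) = (k.descFactorial i : ℝ) * (x ^ k / x ^ i) := by
      intro i
      by_cases hki : k < i
      · rw [Nat.descFactorial_eq_zero_iff_lt.2 hki]; simp
      · push Not at hki
        congr 1
        rw [eq_div_iff (by positivity), ← pow_add]
        congr 1; omega
    have f0 : (k.descFactorial 0 : ℝ) = 1 := by simp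
    have f1 : (k.descFactorial 1 : ℝ) = k := by simp
    have f2 : (k.descFactorial 2 : ℝ) = k * (k - 1) := by
      rcases k with _ | k
      · simp
      · rw [Nat.descFactorial_succ, Nat.descFactorial_one]
        push_cast [Nat.add_sub_cancel]
        ring
    have f3 : (k.descFactorial 3 : ℝ) = k * (k - 1) * (k - 2) := by
      rcases k with _ | _ | k
      · simp
      · simp [Nat.descFactorial]
      · rw [Nat.descFactorial_succ, Nat.descFactorial_succ, Nat.descFactorial_one]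
        have e1 : k + 1 + 1 - 2 = k := by omega
        have e2 : k + 1 + 1 - 1 = k + 1 := by omega
        rw [e1, e2]
        push_cast
        ring
    have hsum : y0 * nw ε x M 0 k + y1 * nw ε x M 1 k + y2 * nw ε x M 2 k + y3 * nw ε x M 3 k
        = ε ^ k * (x ^ k / M) * qc N (y0) (y1 / x) (y2 / x ^ 2) (y3 / x ^ 3) k := by
      unfold nw wt qc
      rw [mul_assoc (ε ^ k) _ (x ^ (k - 0)), mul_assoc (ε ^ k) _ (x ^ (k - 1)),
        mul_assoc (ε ^ k) _ (x ^ (k - 2)), mul_assoc (ε ^ k) _ (x ^ (k - 3)), d1, d1, d1, d1,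
        f0, f1, f2, f3, ← h.hMN]
      have g1 : M ^ (2 * 0 + 1) = M := by norm_num
      have g2 : M ^ (2 * 1 + 1) = M ^ 3 := by norm_num
      have g3 : M ^ (2 * 2 + 1) = M ^ 5 := by norm_num
      have g4 : M ^ (2 * 3 + 1) = M ^ 7 := by norm_num
      rw [g1, g2, g3, g4]
      field_simp
    rw [hsum, mul_pow, mul_pow, hεk, one_mul, div_pow, h.hMN]
  simp_rw [key]
  have hz := nondeg_sum N h.hN y0 (y1 / x) (y2 / x ^ 2) (y3 / x ^ 3)
  have hzy : ∀ (y : ℝ) (j : ℕ), y ^ 2 ≤ (y / x ^ j) ^ 2 := by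
    intro y j
    rw [div_pow, le_div_iff₀ (by positivity)]
    have : (x ^ j) ^ 2 ≤ 1 := by
      rw [← pow_mul]; exact pow_le_one₀ hx0.le h.hx2
    nlinarith [sq_nonneg y]
  have hy1 : y1 ^ 2 ≤ (y1 / x) ^ 2 := by simpa using hzy y1 1
  have hy2 := hzy y2 2
  have hy3 := hzy y3 3
  have hsub : ∑ k ∈ Finset.range (N + 1), Real.exp (-4) / N * qc N (y0) (y1 / x) (y2 / x ^ 2) (y3 / x ^ 3) k ^ 2
      ≤ ∑ k ∈ Finset.range (n + 1), (x ^ k) ^ 2 / N * qc N (y0) (y1 / x) (y2 / x ^ 2) (y3 / x ^ 3) k ^ 2 := by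
    calc ∑ k ∈ Finset.range (N + 1), Real.exp (-4) / N * qc N (y0) (y1 / x) (y2 / x ^ 2) (y3 / x ^ 3) k ^ 2
        ≤ ∑ k ∈ Finset.range (N + 1), (x ^ k) ^ 2 / N * qc N (y0) (y1 / x) (y2 / x ^ 2) (y3 / x ^ 3) k ^ 2 := by
          refine Finset.sum_le_sum fun k hk => ?_
          have := h.pow_ge (k := k) (Nat.lt_succ_iff.1 (Finset.mem_range.1 hk))
          gcongr
      _ ≤ _ := by
          apply Finset.sum_le_sum_of_subset_of_nonneg
          · intro k hk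
            rw [Finset.mem_range] at hk ⊢
            have := h.hn
            omega
          · intro k _ _; positivity
  refine le_trans ?_ hsub
  rw [← Finset.mul_sum]
  set S := ∑ k ∈ Finset.range (N + 1), qc N (y0) (y1 / x) (y2 / x ^ 2) (y3 / x ^ 3) k ^ 2 with hS
  have hexp := Real.exp_pos (-4)
  unfold c1
  rw [div_mul_eq_mul_div, div_mul_eq_mul_div, div_le_div_iff₀ (by norm_num) hN0]
  have hle : y0 ^ 2 + y1 ^ 2 + y2 ^ 2 + y3 ^ 2
      ≤ y0 ^ 2 + (y1 / x) ^ 2 + (y2 / x ^ 2) ^ 2 + (y3 / x ^ 3) ^ 2 := by linarith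
  calc Real.exp (-4) * (y0 ^ 2 + y1 ^ 2 + y2 ^ 2 + y3 ^ 2) * N
      ≤ Real.exp (-4) * (y0 ^ 2 + (y1 / x) ^ 2 + (y2 / x ^ 2) ^ 2 + (y3 / x ^ 3) ^ 2) * N := by gcongr
    _ = Real.exp (-4) * (N * (y0 ^ 2 + (y1 / x) ^ 2 + (y2 / x ^ 2) ^ 2 + (y3 / x ^ 3) ^ 2)) := by ring
    _ ≤ Real.exp (-4) * (32 * 4400 ^ 2 * S) := by gcongr
    _ = _ := by ring

end Pool.Agent.H89.Kac
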